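import Mathlib

/-!
# [G-F1] Almost all reductions of a field and of its polynomials

`F.red t` is a map from `k` to `ZMod (F.p t)`; for fixed elements of `k` it is compatible with sums and products for almost all `t` (with respect to the ultrafilter `F.U`).  `F.pr t` is the reduction of polynomials, coefficient by coefficient.

Proofs: compare coefficients; every statement is about finitely many elements of `k` (`Finset` version of `Filter.eventually_all`).  `red_ne`: `a * a⁻¹ = 1`.  `pr_natDegree`: the leading coefficient.  `pr_coprime`: `U f + V g = 1`.  `pr_squarefree`: `f` is separable (characteristic zero),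
`U f + V f' = 1`, so `pr f` is separable.
-/

set_option autoImplicit false

open Polynomial

namespace BSC

/-- a family of almost-homomorphisms to prime fields -/
structure Fam (k : Type) [Field k] where
  T : Type
  U : Ultrafilter T
  p : T → ℕ
  hp : ∀ t, Fact (p t).Prime
  red : ∀ t, k → ZMod (p t)
  zero : ∀ t, red t 0 = 0
  one : ∀ᶠ t in (U : Filter T), red t 1 = 1
  add : ∀ a b, ∀ᶠ t in (U : Filter T), red t (a + b) = red t a + red t b
  mul : ∀ a b, ∀ᶠ t in (U : Filter T), red t (a * b) = red t a * red t b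
  big : ∀ N : ℕ, ∀ᶠ t in (U : Filter T), N < p t

instance {k : Type} [Field k] (F : Fam k) (t : F.T) : Fact (F.p t).Prime := F.hp t

variable {k : Type} [Field k]

/-- reduction of polynomials -/
noncomputable def Fam.pr (F : Fam k) (t : F.T) (f : k[X]) : (ZMod (F.p t))[X] :=
  f.sum fun i a => monomial i (F.red t a)

/-- reduction of integer polynomials -/
noncomputable def ired (p : ℕ) (q : ℤ[X]) : (ZMod p)[X] := q.map (Int.castRingHom (ZMod p))

theorem Fam.pr_coeff (F : Fam k) (t : F.T) (f : k[X]) (i : ℕ) : (F.pr t f).coeff i = F.red t (f.coeff i) := by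
  unfold Fam.pr
  rw [Polynomial.sum_def, finsetSum_coeff]
  simp only [coeff_monomial]
  rw [Finset.sum_ite_eq']
  split_ifs with h
  · rfl
  · rw [notMem_support_iff.mp h, F.zero]

private theorem pr_mono (F : Fam k) (t : F.T) (n : ℕ) (a : k) :
    F.pr t (monomial n a) = monomial n (F.red t a) := by
  ext i
  rw [F.pr_coeff, coeff_monomial, coeff_monomial]
  split_ifs
  · rfl
  · exact F.zero t

private theorem red_int (F : Fam k) (m : ℤ) :
    ∀ᶠ t in (F.U : Filter F.T), F.red t (m : k) = (m : ZMod (F.p t)) := by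
  induction m using Int.induction_on with
  | zero =>
    exact Filter.Eventually.of_forall fun t => by rw [Int.cast_zero, Int.cast_zero, F.zero]
  | succ i hi =>
    filter_upwards [hi, F.one, F.add ((i : ℤ) : k) 1] with t h1 h2 h3
    rw [Int.cast_add, Int.cast_one, h3, h1, h2, Int.cast_add, Int.cast_one]
  | pred i hi =>
    filter_upwards [hi, F.one, F.add ((-(i : ℤ) - 1 : ℤ) : k) 1] with t h1 h2 h3
    have h4 : ((-(i : ℤ) - 1 : ℤ) : k) + 1 = ((-(i : ℤ) : ℤ) : k) := by
      rw [Int.cast_sub, Int.cast_one, sub_add_cancel]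
    rw [h4, h1, h2] at h3
    have h5 : ((-(i : ℤ) - 1 : ℤ) : ZMod (F.p t)) = ((-(i : ℤ) : ℤ) : ZMod (F.p t)) - 1 := by
      rw [Int.cast_sub, Int.cast_one]
    rw [h5, h3, add_sub_cancel_right]

theorem Fam.red_ne (F : Fam k) (a : k) (ha : a ≠ 0) : ∀ᶠ t in (F.U : Filter F.T), F.red t a ≠ 0 := by
  filter_upwards [F.mul a a⁻¹, F.one] with t h1 h2 h0
  rw [mul_inv_cancel₀ ha, h2, h0, zero_mul] at h1
  exact one_ne_zero h1

theorem Fam.pr_zero (F : Fam k) (t : F.T) : F.pr t 0 = 0 := by
  unfold Fam.pr
  exact Polynomial.sum_zero_index _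

theorem Fam.pr_C (F : Fam k) (t : F.T) (a : k) : F.pr t (C a) = C (F.red t a) := by
  ext i
  rw [F.pr_coeff, coeff_C, coeff_C]
  split_ifs
  · rfl
  · exact F.zero t

theorem Fam.pr_one (F : Fam k) : ∀ᶠ t in (F.U : Filter F.T), F.pr t 1 = 1 := by
  filter_upwards [F.one] with t h
  have h1 := F.pr_C t 1
  rw [h, C_1, C_1] at h1
  exact h1

theorem Fam.pr_add (F : Fam k) (f g : k[X]) : ∀ᶠ t in (F.U : Filter F.T), F.pr t (f + g) = F.pr t f + F.pr t g := by
  have h : ∀ᶠ t in (F.U : Filter F.T), ∀ i ∈ f.support ∪ g.support,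
      F.red t (f.coeff i + g.coeff i) = F.red t (f.coeff i) + F.red t (g.coeff i) :=
    (Filter.eventually_all_finset _).mpr fun i _ => F.add _ _
  filter_upwards [h] with t ht
  ext i
  rw [F.pr_coeff, coeff_add, coeff_add, F.pr_coeff, F.pr_coeff]
  by_cases hi : i ∈ f.support ∪ g.support
  · exact ht i hi
  · rw [Finset.mem_union, not_or, notMem_support_iff, notMem_support_iff] at hi
    rw [hi.1, hi.2, F.zero, add_zero, add_zero, F.zero]

theorem Fam.pr_mul (F : Fam k) (f g : k[X]) : ∀ᶠ t in (F.U : Filter F.T), F.pr t (f * g) = F.pr t f * F.pr t g := by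
  induction f using Polynomial.induction_on' with
  | add p q hp hq =>
    filter_upwards [hp, hq, F.pr_add p q, F.pr_add (p * g) (q * g)] with t h1 h2 h3 h4
    rw [add_mul, h4, h1, h2, h3, add_mul]
  | monomial n a =>
    induction g using Polynomial.induction_on' with
    | add p q hp hq =>
      filter_upwards [hp, hq, F.pr_add p q, F.pr_add (monomial n a * p) (monomial n a * q)] with t h1 h2 h3 h4
      rw [mul_add, h4, h1, h2, h3, mul_add]
    | monomial m b =>
      filter_upwards [F.mul a b] with t h
      rw [monomial_mul_monomial, pr_mono, pr_mono, pr_mono, h, monomial_mul_monomial]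

theorem Fam.pr_sub (F : Fam k) (f g : k[X]) : ∀ᶠ t in (F.U : Filter F.T), F.pr t (f - g) = F.pr t f - F.pr t g := by
  filter_upwards [F.pr_add (f - g) g] with t h
  rw [sub_add_cancel] at h
  exact eq_sub_of_add_eq h.symm

theorem Fam.pr_int (F : Fam k) (q : ℤ[X]) :
    ∀ᶠ t in (F.U : Filter F.T), F.pr t (q.map (Int.castRingHom k)) = ired (F.p t) q := by
  unfold ired
  induction q using Polynomial.induction_on' with
  | add p q hp hq =>
    filter_upwards [hp, hq, F.pr_add (p.map (Int.castRingHom k)) (q.map (Int.castRingHom k))] with t h1 h2 h3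
    rw [Polynomial.map_add, Polynomial.map_add, h3, h1, h2]
  | monomial n a =>
    filter_upwards [red_int F a] with t h
    rw [Polynomial.map_monomial, Polynomial.map_monomial, pr_mono, eq_intCast, eq_intCast, h]

theorem Fam.pr_deriv (F : Fam k) (f : k[X]) :
    ∀ᶠ t in (F.U : Filter F.T), F.pr t (derivative f) = derivative (F.pr t f) := by
  induction f using Polynomial.induction_on' with
  | add p q hp hq =>
    filter_upwards [hp, hq, F.pr_add p q, F.pr_add (derivative p) (derivative q)] with t h1 h2 h3 h4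
    rw [derivative_add, h4, h1, h2, h3, derivative_add]
  | monomial n a =>
    filter_upwards [F.mul a (n : k), red_int F (n : ℤ)] with t h1 h2
    rw [Int.cast_natCast, Int.cast_natCast] at h2
    rw [derivative_monomial, pr_mono, pr_mono, derivative_monomial, h1, h2]

theorem Fam.pr_natDegree (F : Fam k) (f : k[X]) : ∀ᶠ t in (F.U : Filter F.T), (F.pr t f).natDegree = f.natDegree := by
  by_cases hf : f = 0
  · subst hf
    exact Filter.Eventually.of_forall fun t => by rw [F.pr_zero, natDegree_zero, natDegree_zero]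
  · filter_upwards [F.red_ne f.leadingCoeff (leadingCoeff_ne_zero.mpr hf)] with t h
    apply le_antisymm
    · rw [natDegree_le_iff_coeff_eq_zero]
      intro N hN
      rw [F.pr_coeff, coeff_eq_zero_of_natDegree_lt hN, F.zero]
    · apply le_natDegree_of_ne_zero
      rw [F.pr_coeff]
      exact h

theorem Fam.pr_ne (F : Fam k) (f : k[X]) (hf : f ≠ 0) : ∀ᶠ t in (F.U : Filter F.T), F.pr t f ≠ 0 := by
  filter_upwards [F.red_ne f.leadingCoeff (leadingCoeff_ne_zero.mpr hf)] with t h h0
  apply h
  have h1 := F.pr_coeff t f f.natDegree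
  rw [h0, coeff_zero] at h1
  exact h1.symm

theorem Fam.pr_coprime (F : Fam k) (f g : k[X]) (h : IsCoprime f g) :
    ∀ᶠ t in (F.U : Filter F.T), IsCoprime (F.pr t f) (F.pr t g) := by
  obtain ⟨u, v, huv⟩ := h
  filter_upwards [F.pr_mul u f, F.pr_mul v g, F.pr_add (u * f) (v * g), F.pr_one] with t h1 h2 h3 h4
  refine ⟨F.pr t u, F.pr t v, ?_⟩
  rw [← h1, ← h2, ← h3, huv, h4]

theorem Fam.pr_squarefree [CharZero k] (F : Fam k) (f : k[X]) (h : Squarefree f) :
    ∀ᶠ t in (F.U : Filter F.T), Squarefree (F.pr t f) := by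
  have hs : f.Separable := PerfectField.separable_iff_squarefree.mpr h
  filter_upwards [F.pr_coprime f (derivative f) hs, F.pr_deriv f] with t h1 h2
  rw [h2] at h1
  exact Polynomial.Separable.squarefree h1

end BSC
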