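import Pool.Agent.Lib_MP_49ddc8_v.VFam

/-!
# [G-F2] Linear independence of reductions

The coefficient matrix `M` (`n × m`, `m` larger than the degrees) has independent rows, so there is `R` with `M R = 1` over `k` (left inverse of an injective linear map, or: dual functionals which are finite combinations of coefficients); for almost all `t` the reductions satisfy the same equation,
so the rows of the reduction of `M` are independent.
-/

set_option autoImplicit false

open Polynomial

namespace BSC

variable {k : Type} [Field k]

private theorem vlin_sum (F : Fam k) {ι : Type} (s : Finset ι) (a b : ι → k) :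
    ∀ᶠ t in (F.U : Filter F.T), F.red t (∑ l ∈ s, a l * b l) = ∑ l ∈ s, F.red t (a l) * F.red t (b l) := by
  classical
  induction s using Finset.induction_on with
  | empty => exact Filter.Eventually.of_forall fun t => by simp [F.zero t]
  | insert x s hx ih =>
    filter_upwards [ih, F.mul (a x) (b x), F.add (a x * b x) (∑ l ∈ s, a l * b l)] with t h1 h2 h3
    rw [Finset.sum_insert hx, Finset.sum_insert hx, h3, h2, h1]

private theorem vlin_dual (n : ℕ) (A : Fin n → k[X]) (h : LinearIndependent k A) :
    ∃ (d : ℕ) (c : Fin n → Fin d → k), ∀ i j, ∑ l : Fin d, c j l * (A i).coeff l = if i = j then 1 else 0 := by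
  classical
  obtain ⟨d, hd⟩ : ∃ d, ∀ i, (A i).natDegree < d :=
    ⟨∑ i, (A i).natDegree + 1, fun i => Nat.lt_succ_of_le
      (Finset.single_le_sum (f := fun i => (A i).natDegree) (fun _ _ => Nat.zero_le _) (Finset.mem_univ i))⟩
  let M : Fin n → (Fin d → k) := fun i l => (A i).coeff l
  have hM : LinearIndependent k M := by
    rw [Fintype.linearIndependent_iff] at h ⊢
    intro g hg
    apply h g
    ext l
    rw [finset_sum_coeff, coeff_zero]
    by_cases hl : l < d
    · have h1 := congrFun hg ⟨l, hl⟩
      rw [Finset.sum_apply] at h1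
      rw [Pi.zero_apply] at h1
      rw [← h1]
      refine Finset.sum_congr rfl fun i _ => ?_
      rw [coeff_smul, Pi.smul_apply]
    · refine Finset.sum_eq_zero fun i _ => ?_
      rw [coeff_smul, coeff_eq_zero_of_natDegree_lt (by have := hd i; omega), smul_zero]
  have hker : LinearMap.ker (Fintype.linearCombination k M) = ⊥ := by
    rw [LinearMap.ker_eq_bot']
    intro g hg
    rw [Fintype.linearIndependent_iff] at hM
    ext i
    exact hM g (by rw [← hg, Fintype.linearCombination_apply]) i
  obtain ⟨g, hg⟩ := LinearMap.exists_leftInverse_of_injective _ hker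
  refine ⟨d, fun j l => g (Pi.single l 1) j, fun i j => ?_⟩
  have h1 : g (M i) = Pi.single i 1 := by
    have h2 := LinearMap.congr_fun hg (Pi.single i 1)
    rw [LinearMap.comp_apply, Fintype.linearCombination_apply_single, one_smul] at h2
    exact h2
  have h2 : M i = ∑ l, M i l • (Pi.single l 1 : Fin d → k) := by
    ext a
    simp [Finset.sum_apply, Pi.single_apply]
  rw [h2, map_sum] at h1
  have h3 := congrFun h1 j
  rw [Finset.sum_apply, Pi.single_apply] at h3
  have e : (if i = j then (1 : k) else 0) = if j = i then 1 else 0 := by simp only [eq_comm]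
  rw [e, ← h3]
  refine Finset.sum_congr rfl fun l _ => ?_
  rw [map_smul, Pi.smul_apply, smul_eq_mul, mul_comm]

theorem Fam.pr_linInd (F : Fam k) (n : ℕ) (A : Fin n → k[X]) (h : LinearIndependent k A) :
    ∀ᶠ t in (F.U : Filter F.T), LinearIndependent (ZMod (F.p t)) (fun i => F.pr t (A i)) := by
  classical
  obtain ⟨d, c, hc⟩ := vlin_dual n A h
  have h1 : ∀ i j, ∀ᶠ t in (F.U : Filter F.T),
      ∑ l : Fin d, F.red t (c j l) * F.red t ((A i).coeff l) = if i = j then 1 else 0 := by
    intro i j
    filter_upwards [vlin_sum F Finset.univ (fun l : Fin d => c j l) (fun l => (A i).coeff l), F.one] with t h2 h3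
    rw [← h2, hc]
    split_ifs
    · exact h3
    · exact F.zero t
  have h2 : ∀ᶠ t in (F.U : Filter F.T), ∀ i j,
      ∑ l : Fin d, F.red t (c j l) * F.red t ((A i).coeff l) = if i = j then 1 else 0 :=
    Filter.eventually_all.2 fun i => Filter.eventually_all.2 fun j => h1 i j
  filter_upwards [h2] with t ht
  rw [Fintype.linearIndependent_iff]
  intro g hg j
  have h3 : ∀ l : Fin d, ∑ i, g i * F.red t ((A i).coeff l) = 0 := by
    intro l
    have h4 := congrArg (fun f => f.coeff (l : ℕ)) hg
    simp only [finset_sum_coeff, coeff_smul, coeff_zero, smul_eq_mul, F.pr_coeff] at h4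
    exact h4
  have h5 : ∑ i, g i * ∑ l : Fin d, F.red t (c j l) * F.red t ((A i).coeff l) = g j := by
    simp [ht]
  rw [← h5]
  simp only [Finset.mul_sum]
  rw [Finset.sum_comm]
  refine Finset.sum_eq_zero fun l _ => ?_
  have h6 : ∑ i, g i * (F.red t (c j l) * F.red t ((A i).coeff l)) =
      F.red t (c j l) * ∑ i, g i * F.red t ((A i).coeff l) := by
    rw [Finset.mul_sum]
    refine Finset.sum_congr rfl fun i _ => ?_
    ring
  rw [h6, h3, mul_zero]

end BSC
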