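import Pool.Agent.Lib_MP_49ddc8_v.VDefs

/-!
# [V-E1] The normal closure

[V-E1] `exists_stable`: the normal closure.  Let `A'` be the set of all `τ a`, `a ∈ A`, `τ` fixing `L`: finite (conjugates over `κ`), stable; `E = adjoin κ (L ∪ A')`.
-/

set_option autoImplicit false

open Polynomial

namespace BSC

theorem exists_stable {κ Ω : Type} [Field κ] [CharZero κ] [Field Ω] [IsAlgClosed Ω] [Algebra κ Ω] (L : IntermediateField κ Ω)
    (hL : ∀ x ∈ L, IsAlgebraic κ x) (A : Finset Ω) (hA : ∀ a ∈ A, IsAlgebraic κ a) :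
    ∃ (E : IntermediateField κ Ω) (hLE : L ≤ E), (∀ a ∈ A, a ∈ E) ∧ (∀ x ∈ E, IsAlgebraic κ x) ∧
      FiniteDimensional L (IntermediateField.extendScalars hLE) ∧
      ∀ τ : algebraicClosure κ Ω ≃ₐ[κ] algebraicClosure κ Ω, Fix (L : Set Ω) τ →
        ∀ x : algebraicClosure κ Ω, (x : Ω) ∈ E → ((τ x : algebraicClosure κ Ω) : Ω) ∈ E := by
  classical
  -- the conjugates of the elements of `A` over `κ`
  set A' : Set Ω := ⋃ a ∈ A, (minpoly κ a).rootSet Ω with hA'
  have hfin : A'.Finite := A.finite_toSet.biUnion fun a _ => Polynomial.rootSet_finite _ _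
  have hAA' : ∀ a ∈ A, a ∈ A' := by
    intro a ha
    rw [hA', Set.mem_iUnion₂]
    refine ⟨a, ha, ?_⟩
    rw [Polynomial.mem_rootSet]
    exact ⟨minpoly.ne_zero (hA a ha).isIntegral, minpoly.aeval κ a⟩
  have hmem : ∀ x ∈ A', ∃ a ∈ A, minpoly κ a ≠ 0 ∧ aeval x (minpoly κ a) = 0 := by
    intro x hx
    rw [hA', Set.mem_iUnion₂] at hx
    obtain ⟨a, ha, hx⟩ := hx
    rw [Polynomial.mem_rootSet] at hx
    exact ⟨a, ha, hx.1, hx.2⟩
  have hA'alg : ∀ x ∈ A', IsAlgebraic κ x := by
    intro x hx
    obtain ⟨a, -, h1, h2⟩ := hmem x hx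
    exact ⟨minpoly κ a, h1, h2⟩
  have hLAC : L ≤ algebraicClosure κ Ω := fun x hx => mem_algebraicClosure_iff.2 (hL x hx)
  -- the universal property of the field generated by `L` and `A'`
  set E : IntermediateField κ Ω := (IntermediateField.adjoin L A').restrictScalars κ with hE
  have hLE : L ≤ E := by
    intro x hx
    exact (IntermediateField.adjoin L A').algebraMap_mem ⟨x, hx⟩
  have hA'E : ∀ x ∈ A', x ∈ E := by
    intro x hx
    exact IntermediateField.subset_adjoin L A' hx
  have hle : ∀ F : IntermediateField κ Ω, L ≤ F → (∀ x ∈ A', x ∈ F) → E ≤ F := by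
    intro F hLF hF x hx
    have h1 : IntermediateField.adjoin L A' ≤ IntermediateField.extendScalars hLF :=
      IntermediateField.adjoin_le_iff.2 fun y hy => hF y hy
    exact h1 hx
  refine ⟨E, hLE, fun a ha => hA'E a (hAA' a ha), ?_, ?_, ?_⟩
  · intro x hx
    exact mem_algebraicClosure_iff.1 (hle (algebraicClosure κ Ω) hLAC
      (fun y hy => mem_algebraicClosure_iff.2 (hA'alg y hy)) hx)
  · have h1 : IntermediateField.extendScalars hLE = IntermediateField.adjoin L A' := by
      ext x
      rfl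
    rw [h1]
    have : Finite A' := hfin
    apply IntermediateField.finiteDimensional_adjoin
    intro x hx
    exact (IsAlgebraic.tower_top (L := L) (hA'alg x hx)).isIntegral
  · intro τ hτ x hx
    let f : algebraicClosure κ Ω →ₐ[κ] Ω := (algebraicClosure κ Ω).val.comp τ.toAlgHom
    set F : IntermediateField κ Ω := (E.comap f).map (algebraicClosure κ Ω).val with hF
    have hmF : ∀ y : algebraicClosure κ Ω, ((τ y : algebraicClosure κ Ω) : Ω) ∈ E → (y : Ω) ∈ F := by
      intro y hy
      rw [hF, IntermediateField.mem_map]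
      exact ⟨y, hy, rfl⟩
    have hxF : (x : Ω) ∈ F := by
      refine hle F ?_ ?_ hx
      · intro y hy
        refine hmF ⟨y, hLAC hy⟩ ?_
        rw [hτ ⟨y, hLAC hy⟩ hy]
        exact hLE hy
      · intro y hy
        refine hmF ⟨y, mem_algebraicClosure_iff.2 (hA'alg y hy)⟩ (hA'E _ ?_)
        obtain ⟨a, ha, h1, h2⟩ := hmem y hy
        rw [hA', Set.mem_iUnion₂]
        refine ⟨a, ha, ?_⟩
        rw [Polynomial.mem_rootSet]
        refine ⟨h1, ?_⟩
        have h3 : aeval (f ⟨y, mem_algebraicClosure_iff.2 (hA'alg y hy)⟩) (minpoly κ a) = 0 := by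
          rw [Polynomial.aeval_algHom_apply]
          have h4 : aeval (⟨y, mem_algebraicClosure_iff.2 (hA'alg y hy)⟩ : algebraicClosure κ Ω)
              (minpoly κ a) = 0 := by
            have h5 : (algebraicClosure κ Ω).val
                (aeval (⟨y, mem_algebraicClosure_iff.2 (hA'alg y hy)⟩ : algebraicClosure κ Ω)
                  (minpoly κ a)) = 0 := by
              rw [← Polynomial.aeval_algHom_apply]
              exact h2
            exact Subtype.ext h5
          rw [h4, map_zero]
        exact h3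
    rw [hF, IntermediateField.mem_map] at hxF
    obtain ⟨y, hy, hyx⟩ := hxF
    have : y = x := (algebraicClosure κ Ω).val.injective hyx
    rw [← this]
    exact hy

end BSC
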