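import Mathlib

/-!
# [V-GA] The Gauss norm on `ℚ_p(u)`

`v (f / g) = gaussNorm f / gaussNorm g` with `Polynomial.gaussNorm (NormedField.toAbsoluteValue ℚ_[p]) 1` (multiplicative: `Polynomial.gaussNorm_mul`, `gaussNorm_isAbsoluteValue`).
-/

set_option autoImplicit false

open Polynomial

namespace BSC

section GaussAux

variable {p : ℕ} [Fact p.Prime]

/-- the Gauss norm of a polynomial over `ℚ_p` -/
private noncomputable def gg (f : ℚ_[p][X]) : ℝ := f.gaussNorm (NormedField.toAbsoluteValue ℚ_[p]) 1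

private theorem na_vga : IsNonarchimedean (NormedField.toAbsoluteValue ℚ_[p]) :=
  fun x y => Padic.nonarchimedean x y

private theorem gg_mul (f g : ℚ_[p][X]) : gg (f * g) = gg f * gg g :=
  gaussNorm_mul na_vga one_pos f g

private theorem gg_nonneg (f : ℚ_[p][X]) : 0 ≤ gg f :=
  gaussNorm_nonneg _ _ zero_le_one

private theorem gg_eq_zero (f : ℚ_[p][X]) : gg f = 0 ↔ f = 0 :=
  gaussNorm_eq_zero_iff _ _ (fun _ hx => (AbsoluteValue.eq_zero _).mp hx) one_pos

private theorem gg_pos {f : ℚ_[p][X]} (hf : f ≠ 0) : 0 < gg f :=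
  lt_of_le_of_ne (gg_nonneg f) (fun h => hf ((gg_eq_zero f).1 h.symm))

private theorem gg_add (f g : ℚ_[p][X]) : gg (f + g) ≤ max (gg f) (gg g) :=
  isNonarchimedean_gaussNorm _ na_vga zero_le_one f g

private theorem gg_ge (f : ℚ_[p][X]) (i : ℕ) : ‖f.coeff i‖ ≤ gg f := by
  have h := le_gaussNorm (NormedField.toAbsoluteValue ℚ_[p]) f zero_le_one (c := (1 : ℝ)) i
  rw [one_pow, mul_one] at h
  exact h

private theorem gg_att (f : ℚ_[p][X]) : ∃ i, gg f = ‖f.coeff i‖ := by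
  obtain ⟨i, hi⟩ := exists_eq_gaussNorm (NormedField.toAbsoluteValue ℚ_[p]) 1 f
  rw [one_pow, mul_one] at hi
  exact ⟨i, hi⟩

private theorem gg_C (c : ℚ_[p]) : gg (C c) = ‖c‖ :=
  gaussNorm_C (NormedField.toAbsoluteValue ℚ_[p]) 1 c

private theorem gg_neg (f : ℚ_[p][X]) : gg (-f) = gg f := by
  have h : -f = C (-1) * f := by simp
  rw [h, gg_mul, gg_C, norm_neg, norm_one, one_mul]

/-- the extension to rational functions -/
private noncomputable def vv (r : RatFunc ℚ_[p]) : ℝ := gg r.num / gg r.denom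

private theorem vv_div (f g : ℚ_[p][X]) (hg : g ≠ 0) :
    vv (algebraMap ℚ_[p][X] (RatFunc ℚ_[p]) f / algebraMap ℚ_[p][X] (RatFunc ℚ_[p]) g) = gg f / gg g := by
  set r := algebraMap ℚ_[p][X] (RatFunc ℚ_[p]) f / algebraMap ℚ_[p][X] (RatFunc ℚ_[p]) g with hr
  have h1 := RatFunc.num_div_denom r
  have hinj := RatFunc.algebraMap_injective ℚ_[p]
  have hg' : algebraMap ℚ_[p][X] (RatFunc ℚ_[p]) g ≠ 0 := by
    rw [Ne, map_eq_zero_iff _ hinj]
    exact hg
  have hd' : algebraMap ℚ_[p][X] (RatFunc ℚ_[p]) r.denom ≠ 0 := by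
    rw [Ne, map_eq_zero_iff _ hinj]
    exact r.denom_ne_zero
  have h2 : algebraMap ℚ_[p][X] (RatFunc ℚ_[p]) r.num / algebraMap ℚ_[p][X] (RatFunc ℚ_[p]) r.denom =
    algebraMap ℚ_[p][X] (RatFunc ℚ_[p]) f / algebraMap ℚ_[p][X] (RatFunc ℚ_[p]) g := h1.trans hr
  rw [div_eq_div_iff hd' hg', ← map_mul, ← map_mul] at h2
  have h3 := congrArg gg (hinj h2)
  rw [gg_mul, gg_mul] at h3
  unfold vv
  rw [div_eq_div_iff (gg_pos r.denom_ne_zero).ne' (gg_pos hg).ne']
  exact h3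

private theorem vv_alg (f : ℚ_[p][X]) : vv (algebraMap ℚ_[p][X] (RatFunc ℚ_[p]) f) = gg f := by
  have h := vv_div f 1 one_ne_zero
  have h1 : gg (1 : ℚ_[p][X]) = 1 := by
    rw [← C_1, gg_C, norm_one]
  rw [map_one, div_one, h1, div_one] at h
  exact h

private theorem vv_mul (r s : RatFunc ℚ_[p]) : vv (r * s) = vv r * vv s := by
  have h : r * s = algebraMap ℚ_[p][X] (RatFunc ℚ_[p]) (r.num * s.num) /
      algebraMap ℚ_[p][X] (RatFunc ℚ_[p]) (r.denom * s.denom) := by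
    rw [map_mul, map_mul, ← div_mul_div_comm, RatFunc.num_div_denom, RatFunc.num_div_denom]
  rw [h, vv_div _ _ (mul_ne_zero r.denom_ne_zero s.denom_ne_zero), gg_mul, gg_mul, ← div_mul_div_comm]
  rfl

private theorem vv_add (r s : RatFunc ℚ_[p]) : vv (r + s) ≤ max (vv r) (vv s) := by
  have hinj := RatFunc.algebraMap_injective ℚ_[p]
  have hr' : algebraMap ℚ_[p][X] (RatFunc ℚ_[p]) r.denom ≠ 0 := by
    rw [Ne, map_eq_zero_iff _ hinj]
    exact r.denom_ne_zero
  have hs' : algebraMap ℚ_[p][X] (RatFunc ℚ_[p]) s.denom ≠ 0 := by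
    rw [Ne, map_eq_zero_iff _ hinj]
    exact s.denom_ne_zero
  have h : r + s = algebraMap ℚ_[p][X] (RatFunc ℚ_[p]) (r.num * s.denom + r.denom * s.num) /
      algebraMap ℚ_[p][X] (RatFunc ℚ_[p]) (r.denom * s.denom) := by
    rw [map_mul, map_add, map_mul, map_mul, ← div_add_div _ _ hr' hs', RatFunc.num_div_denom,
      RatFunc.num_div_denom]
  have hr0 := gg_pos r.denom_ne_zero
  have hs0 := gg_pos s.denom_ne_zero
  rw [h, vv_div _ _ (mul_ne_zero r.denom_ne_zero s.denom_ne_zero), gg_mul r.denom s.denom]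
  rw [div_le_iff₀ (mul_pos hr0 hs0)]
  refine (gg_add _ _).trans ?_
  rw [gg_mul, gg_mul]
  have e1 : gg r.num = vv r * gg r.denom := by
    unfold vv
    field_simp
  have e2 : gg s.num = vv s * gg s.denom := by
    unfold vv
    field_simp
  rw [e1, e2]
  refine max_le ?_ ?_
  · have h1 := mul_le_mul_of_nonneg_right (le_max_left (vv r) (vv s)) (mul_pos hr0 hs0).le
    linarith [h1]
  · have h1 := mul_le_mul_of_nonneg_right (le_max_right (vv r) (vv s)) (mul_pos hr0 hs0).le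
    linarith [h1]

private theorem vv_nonneg (r : RatFunc ℚ_[p]) : 0 ≤ vv r := div_nonneg (gg_nonneg _) (gg_nonneg _)

private theorem vv_eq_zero (r : RatFunc ℚ_[p]) : vv r = 0 ↔ r = 0 := by
  unfold vv
  rw [div_eq_zero_iff, gg_eq_zero, gg_eq_zero, RatFunc.num_eq_zero_iff]
  exact ⟨fun h => h.resolve_right r.denom_ne_zero, Or.inl⟩

/-- the Gauss absolute value -/
private noncomputable def va : AbsoluteValue (RatFunc ℚ_[p]) ℝ where
  toFun := vv
  map_mul' := vv_mul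
  nonneg' := vv_nonneg
  eq_zero' := vv_eq_zero
  add_le' r s := (vv_add r s).trans (max_le_add_of_nonneg (vv_nonneg r) (vv_nonneg s))

private theorem int_approx (x : ℚ_[p]) (hx : ‖x‖ ≤ 1) : ∃ n : ℤ, ‖x - n‖ < 1 := by
  obtain ⟨y, hy⟩ : ∃ y : ℤ_[p], (y : ℚ_[p]) = x := ⟨⟨x, hx⟩, rfl⟩
  obtain ⟨n, -, hn⟩ := PadicInt.exists_mem_range y
  have h1 : ‖y - (n : ℤ_[p])‖ < 1 := by
    rw [PadicInt.norm_lt_one_iff_dvd, ← Ideal.mem_span_singleton, ← PadicInt.maximalIdeal_eq_span_p]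
    exact hn
  refine ⟨(n : ℤ), ?_⟩
  rw [PadicInt.norm_def, PadicInt.coe_sub, PadicInt.coe_natCast, hy] at h1
  rw [Int.cast_natCast]
  exact h1

private theorem poly_approx (f : ℚ_[p][X]) (hf : gg f ≤ 1) :
    ∃ a : ℤ[X], gg (f - a.map (Int.castRingHom ℚ_[p])) < 1 := by
  choose n hn using fun i => int_approx (f.coeff i) ((gg_ge f i).trans hf)
  refine ⟨∑ i ∈ Finset.range (f.natDegree + 1), monomial i (n i), ?_⟩
  obtain ⟨i, hi⟩ := gg_att (f - (∑ i ∈ Finset.range (f.natDegree + 1), monomial i (n i)).map (Int.castRingHom ℚ_[p]))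
  rw [hi, coeff_sub, coeff_map, finsetSum_coeff]
  simp only [coeff_monomial, Finset.sum_ite_eq', Finset.mem_range]
  by_cases h : i < f.natDegree + 1
  · rw [if_pos h]
    simpa using hn i
  · rw [if_neg h, coeff_eq_zero_of_natDegree_lt (by omega)]
    simp

private theorem aeval_eq_vga (a : ℤ[X]) : aeval (RatFunc.X : RatFunc ℚ_[p]) a =
    algebraMap ℚ_[p][X] (RatFunc ℚ_[p]) (a.map (Int.castRingHom ℚ_[p])) := by
  induction a using Polynomial.induction_on' with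
  | add f g hf hg => rw [map_add, hf, hg, Polynomial.map_add, map_add]
  | monomial n c =>
    rw [aeval_monomial, Polynomial.map_monomial, ← C_mul_X_pow_eq_monomial, map_mul, map_pow, RatFunc.algebraMap_X]
    simp

end GaussAux

/-- The Gauss absolute value on `ℚ_p(u)`: nonarchimedean, on polynomials the maximum of the norms of the coefficients (`le`, `ge`), values `p^ℤ`, residue field `𝔽_p(u)`. -/
theorem exists_gauss (p : ℕ) [Fact p.Prime] : ∃ v : AbsoluteValue (RatFunc ℚ_[p]) ℝ, IsNonarchimedean v ∧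
    (∀ (f : ℚ_[p][X]) (c : ℝ), 0 ≤ c → (∀ i, ‖f.coeff i‖ ≤ c) → v (algebraMap ℚ_[p][X] (RatFunc ℚ_[p]) f) ≤ c) ∧
    (∀ (f : ℚ_[p][X]) (i : ℕ), ‖f.coeff i‖ ≤ v (algebraMap ℚ_[p][X] (RatFunc ℚ_[p]) f)) ∧
    (∀ r : RatFunc ℚ_[p], r ≠ 0 → ∃ n : ℤ, v r = (p : ℝ) ^ n) ∧
    ∀ r : RatFunc ℚ_[p], v r ≤ 1 → ∃ a b : ℤ[X], b.map (Int.castRingHom (ZMod p)) ≠ 0 ∧
      v (r - aeval (RatFunc.X : RatFunc ℚ_[p]) a / aeval (RatFunc.X : RatFunc ℚ_[p]) b) < 1 := by
  refine ⟨va, fun r s => vv_add r s, ?_, ?_, ?_, ?_⟩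
  · intro f c _ hf
    show vv (algebraMap ℚ_[p][X] (RatFunc ℚ_[p]) f) ≤ c
    rw [vv_alg]
    obtain ⟨i, hi⟩ := gg_att f
    rw [hi]
    exact hf i
  · intro f i
    show ‖f.coeff i‖ ≤ vv (algebraMap ℚ_[p][X] (RatFunc ℚ_[p]) f)
    rw [vv_alg]
    exact gg_ge f i
  · intro r hr
    show ∃ n : ℤ, vv r = (p : ℝ) ^ n
    have hp0 : (p : ℝ) ≠ 0 := by exact_mod_cast (Fact.out : p.Prime).ne_zero
    have key : ∀ f : ℚ_[p][X], f ≠ 0 → ∃ n : ℤ, gg f = (p : ℝ) ^ n := by
      intro f hf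
      obtain ⟨i, hi⟩ := gg_att f
      have h1 : f.coeff i ≠ 0 := by
        intro h0
        rw [h0, norm_zero] at hi
        exact hf ((gg_eq_zero f).1 hi)
      exact ⟨_, hi.trans (Padic.norm_eq_zpow_neg_valuation h1)⟩
    obtain ⟨m, hm⟩ := key r.num (RatFunc.num_ne_zero hr)
    obtain ⟨n, hn⟩ := key r.denom r.denom_ne_zero
    refine ⟨m - n, ?_⟩
    unfold vv
    rw [hm, hn, zpow_sub₀ hp0]
  · intro r hr
    replace hr : vv r ≤ 1 := hr
    obtain ⟨i, hi⟩ := gg_att r.denom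
    have hG := gg_pos r.denom_ne_zero
    have hc0 : r.denom.coeff i ≠ 0 := by
      intro h0
      rw [h0, norm_zero] at hi
      exact hG.ne' hi
    set c : ℚ_[p] := (r.denom.coeff i)⁻¹ with hc
    have hcn : c ≠ 0 := inv_ne_zero hc0
    have hcG : ‖c‖ = (gg r.denom)⁻¹ := by rw [hc, norm_inv, hi]
    set f := C c * r.num with hf
    set g := C c * r.denom with hg
    have hg1 : gg g = 1 := by rw [hg, gg_mul, gg_C, hcG, inv_mul_cancel₀ hG.ne']
    have hf1 : gg f ≤ 1 := by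
      rw [hf, gg_mul, gg_C, hcG, inv_mul_eq_div]
      exact hr
    obtain ⟨a, ha⟩ := poly_approx f hf1
    obtain ⟨b, hb⟩ := poly_approx g hg1.le
    set A := a.map (Int.castRingHom ℚ_[p]) with hA
    set B := b.map (Int.castRingHom ℚ_[p]) with hB
    have hB1 : 1 ≤ gg B := by
      by_contra hlt
      rw [not_le] at hlt
      have h1 := gg_add (g - B) B
      rw [sub_add_cancel, hg1] at h1
      exact absurd (h1.trans_lt (max_lt hb hlt)) (lt_irrefl _)
    have hB0 : B ≠ 0 := by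
      intro h0
      rw [(gg_eq_zero B).2 h0] at hB1
      exact absurd hB1 (by norm_num)
    refine ⟨a, b, ?_, ?_⟩
    · intro h0
      obtain ⟨j, hj⟩ := gg_att B
      rw [hB, coeff_map] at hj
      have h1 : ((b.coeff j : ℤ) : ZMod p) = 0 := by
        have h2 := congrArg (fun q => coeff q j) h0
        simpa using h2
      have h2 : ‖((b.coeff j : ℤ) : ℚ_[p])‖ < 1 := by
        rw [Padic.norm_intCast_lt_one_iff]
        exact (ZMod.intCast_zmod_eq_zero_iff_dvd _ _).1 h1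
      rw [← hB] at hj
      rw [hj] at hB1
      exact absurd h2 (not_lt.2 hB1)
    · show vv _ < 1
      rw [aeval_eq_vga, aeval_eq_vga]
      have hinj := RatFunc.algebraMap_injective ℚ_[p]
      have hg0 : g ≠ 0 := by
        intro h0
        rw [(gg_eq_zero g).2 h0] at hg1
        exact absurd hg1 (by norm_num)
      have hg' : algebraMap ℚ_[p][X] (RatFunc ℚ_[p]) g ≠ 0 := by
        rw [Ne, map_eq_zero_iff _ hinj]
        exact hg0
      have hB' : algebraMap ℚ_[p][X] (RatFunc ℚ_[p]) B ≠ 0 := by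
        rw [Ne, map_eq_zero_iff _ hinj]
        exact hB0
      have hC' : algebraMap ℚ_[p][X] (RatFunc ℚ_[p]) (C c) ≠ 0 := by
        rw [Ne, map_eq_zero_iff _ hinj]
        exact (map_ne_zero_iff _ C_injective).2 hcn
      have hr2 : r = algebraMap ℚ_[p][X] (RatFunc ℚ_[p]) f / algebraMap ℚ_[p][X] (RatFunc ℚ_[p]) g := by
        rw [hf, hg, map_mul, map_mul, mul_div_mul_left _ _ hC', RatFunc.num_div_denom]
      have h3 : r - algebraMap ℚ_[p][X] (RatFunc ℚ_[p]) A / algebraMap ℚ_[p][X] (RatFunc ℚ_[p]) B =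
          algebraMap ℚ_[p][X] (RatFunc ℚ_[p]) (-(f * (g - B)) + g * (f - A)) /
            algebraMap ℚ_[p][X] (RatFunc ℚ_[p]) (g * B) := by
        rw [hr2, div_sub_div _ _ hg' hB', ← map_mul, ← map_mul, ← map_mul, ← map_sub]
        congr 2
        ring
      rw [h3, vv_div _ _ (mul_ne_zero hg0 hB0), gg_mul g B, hg1, one_mul,
        div_lt_one (lt_of_lt_of_le one_pos hB1)]
      refine lt_of_lt_of_le ?_ hB1
      refine (gg_add _ _).trans_lt (max_lt ?_ ?_)
      · rw [gg_neg, gg_mul]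
        calc gg f * gg (g - B) ≤ 1 * gg (g - B) := mul_le_mul_of_nonneg_right hf1 (gg_nonneg _)
          _ < 1 := by rw [one_mul]; exact hb
      · rw [gg_mul, hg1, one_mul]
        exact ha

end BSC
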