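import Mathlib

/-!
# [V-GB] The norm on the algebraic elements of `Ω` from an embedding into a complete field

`C = AlgebraicClosure K` with the spectral norm (`spectralNorm.normedField K C`, or only the function `spectralNorm K C` with `spectralNorm_mul`, `isNonarchimedean_spectralNorm`,
`spectralNorm_zero_lt`, `spectralNorm_extends`).  `ι : algebraicClosure κ Ω → C` is a lift of `κ → K → C` (`IsAlgClosed.lift`), `nm x = spectralNorm K C (ι x)` for `x` algebraic over `κ` (and `0` otherwise),
`L` = the algebraic `x` with `ι x` in the image of `K`.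
`inv`: let `P = minpoly K (ι x)`.  It divides the image of `minpoly κ x`, whose roots all lie in the image of `ι` (`Ω` is algebraically closed), so the coefficients of `P` lie in the image of `ι` and in `K`,
i.e. `P = ι(Q)`, `Q ∈ L[X]`, `Q(x) = 0`, so `Q(τ x) = 0`, `P(ι (τ x)) = 0`, so `minpoly K (ι (τ x)) = P` (irreducible, monic) and the spectral norms are equal.
-/

set_option autoImplicit false

open Polynomial

namespace BSC

/-- The minimal polynomial over `K` of `ι x` does not change under an automorphism fixing the elements `b` with `ι b ∈ K`. -/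
private theorem vgb_minpoly {κ A K C : Type} [Field κ] [Field A] [Field K] [Field C] [Algebra κ A] [Algebra κ K] [Algebra κ C]
    [Algebra K C] [IsScalarTower κ K C] [IsAlgClosed A] [IsAlgClosed C] [Algebra.IsAlgebraic κ A] (ι : A →ₐ[κ] C)
    (τ : A ≃ₐ[κ] A) (hτ : ∀ b : A, (∃ y : K, algebraMap K C y = ι b) → τ b = b) (x : A) :
    minpoly K (ι (τ x)) = minpoly K (ι x) := by
  have hint : IsIntegral κ x := Algebra.IsIntegral.isIntegral x
  have hintC : IsIntegral κ (ι x) := hint.map ι
  have hintK : IsIntegral K (ι x) := hintC.tower_top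
  set P := minpoly K (ι x) with hP
  have hPm : P.Monic := minpoly.monic hintK
  have hPmC : (P.map (algebraMap K C)).Monic := hPm.map _
  have hdvd : P.map (algebraMap K C) ∣ (minpoly κ x).map (algebraMap κ C) := by
    have h1 : P ∣ (minpoly κ x).map (algebraMap κ K) := by
      apply minpoly.dvd
      rw [aeval_map_algebraMap, aeval_algHom_apply, minpoly.aeval, map_zero]
    have h2 := Polynomial.map_dvd (algebraMap K C) h1
    rwa [Polynomial.map_map, ← IsScalarTower.algebraMap_eq] at h2
  have hne : (minpoly κ x).map (algebraMap κ A) ≠ 0 := map_ne_zero (minpoly.ne_zero hint)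
  have hmap : ((minpoly κ x).map (algebraMap κ A)).map (ι : A →+* C) = (minpoly κ x).map (algebraMap κ C) := by
    rw [Polynomial.map_map]
    congr 1
    exact ι.comp_algebraMap
  have hroots : ∀ a ∈ (P.map (algebraMap K C)).roots, a ∈ (ι : A →+* C).range := by
    intro a ha
    have h1 : ((minpoly κ x).map (algebraMap κ C)).IsRoot a := (isRoot_of_mem_roots ha).dvd hdvd
    rw [← hmap] at h1
    exact (IsAlgClosed.splits ((minpoly κ x).map (algebraMap κ A))).mem_range_of_isRoot hne h1
  have hlift := (IsAlgClosed.splits (P.map (algebraMap K C))).mem_lift_of_roots_mem_range hPmC (ι : A →+* C) hroots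
  rw [mem_lifts] at hlift
  obtain ⟨Q, hQ⟩ := hlift
  have hcoef : ∀ n, τ (Q.coeff n) = Q.coeff n := by
    intro n
    apply hτ
    refine ⟨P.coeff n, ?_⟩
    rw [← coeff_map, ← hQ, coeff_map]
    rfl
  have hQx : Q.eval x = 0 := by
    apply (ι : A →+* C).injective
    rw [map_zero, ← eval_map_apply, hQ, eval_map_algebraMap]
    exact minpoly.aeval K (ι x)
  have hQτ : Q.map (τ : A →+* A) = Q := by
    ext n
    rw [coeff_map]
    exact hcoef n
  have hQτx : Q.eval (τ x) = 0 := by
    have : (Q.map (τ : A →+* A)).eval ((τ : A →+* A) x) = (τ : A →+* A) (Q.eval x) := eval_map_apply _ _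
    rw [hQτ, hQx, map_zero] at this
    exact this
  have hroot : aeval (ι (τ x)) P = 0 := by
    rw [← eval_map_algebraMap, ← hQ]
    have : (Q.map (ι : A →+* C)).eval ((ι : A →+* C) (τ x)) = (ι : A →+* C) (Q.eval (τ x)) := eval_map_apply _ _
    rw [hQτx, map_zero] at this
    exact this
  exact (minpoly.eq_of_irreducible_of_monic (minpoly.irreducible hintK) hroot hPm).symm

theorem exists_nm {κ Ω : Type} [Field κ] [Field Ω] [IsAlgClosed Ω] [Algebra κ Ω] (K : Type) [NontriviallyNormedField K]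
    [CompleteSpace K] [IsUltrametricDist K] (j : κ →+* K) :
    ∃ (L : IntermediateField κ Ω) (nm : Ω → ℝ),
      (∀ x ∈ L, IsAlgebraic κ x) ∧ nm 0 = 0 ∧
      (∀ x : Ω, IsAlgebraic κ x → x ≠ 0 → 0 < nm x) ∧
      (∀ x y : Ω, IsAlgebraic κ x → IsAlgebraic κ y → nm (x * y) = nm x * nm y) ∧
      (∀ x y : Ω, IsAlgebraic κ x → IsAlgebraic κ y → nm (x + y) ≤ max (nm x) (nm y)) ∧
      (∀ τ : algebraicClosure κ Ω ≃ₐ[κ] algebraicClosure κ Ω, (∀ x : algebraicClosure κ Ω, (x : Ω) ∈ L → τ x = x) →
        ∀ x : algebraicClosure κ Ω, nm ((τ x : algebraicClosure κ Ω) : Ω) = nm (x : Ω)) ∧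
      (∀ r : κ, nm (algebraMap κ Ω r) = ‖j r‖) ∧
      ∀ x ∈ L, ∃ y : K, nm x = ‖y‖ ∧ (x ≠ 0 → y ≠ 0) ∧ ∀ r : κ, nm (x - algebraMap κ Ω r) = ‖y - j r‖ := by
  classical
  let _ : Algebra κ K := j.toAlgebra
  let C := AlgebraicClosure K
  let A := algebraicClosure κ Ω
  have : IsAlgClosed A := IsAlgClosure.isAlgClosed κ
  let ι : A →ₐ[κ] C := IsAlgClosed.lift
  let FK : IntermediateField κ C := (IsScalarTower.toAlgHom κ K C).fieldRange
  have hFK : ∀ z : C, z ∈ FK ↔ ∃ y : K, algebraMap K C y = z := by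
    intro z
    rfl
  let L : IntermediateField κ Ω := IntermediateField.lift (F := A) (FK.comap ι)
  have hL : ∀ x : A, (x : Ω) ∈ L ↔ ∃ y : K, algebraMap K C y = ι x := by
    intro x
    rw [IntermediateField.mem_lift]
    exact hFK (ι x)
  have hLA : L ≤ A := IntermediateField.lift_le _
  let nm : Ω → ℝ := fun x => if h : x ∈ A then spectralNorm K C (ι ⟨x, h⟩) else 0
  have hnm : ∀ x : A, nm (x : Ω) = spectralNorm K C (ι x) := by
    intro x
    show (if h : (x : Ω) ∈ A then spectralNorm K C (ι ⟨x, h⟩) else 0) = _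
    rw [dif_pos x.2]
  have hmem : ∀ x : Ω, IsAlgebraic κ x → ∃ a : A, (a : Ω) = x := by
    intro x hx
    exact ⟨⟨x, mem_algebraicClosure_iff.mpr hx⟩, rfl⟩
  have hinj : Function.Injective ι := ι.toRingHom.injective
  have halgC : ∀ z : C, IsAlgebraic K z := fun z => Algebra.IsAlgebraic.isAlgebraic z
  have hj : ∀ r : κ, ι (algebraMap κ A r) = algebraMap K C (j r) := by
    intro r
    rw [ι.commutes, IsScalarTower.algebraMap_apply κ K C]
    rfl
  refine ⟨L, nm, ?_, ?_, ?_, ?_, ?_, ?_, ?_, ?_⟩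
  · intro x hx
    exact mem_algebraicClosure_iff.mp (hLA hx)
  · have := hnm 0
    rw [map_zero, spectralNorm_zero] at this
    exact this
  · intro x hx hx0
    obtain ⟨a, rfl⟩ := hmem x hx
    rw [hnm]
    refine spectralNorm_zero_lt ?_ (halgC _)
    intro h
    apply hx0
    have : a = 0 := hinj (by rw [h, map_zero])
    rw [this]
    rfl
  · intro x y hx hy
    obtain ⟨a, rfl⟩ := hmem x hx
    obtain ⟨b, rfl⟩ := hmem y hy
    have : (a : Ω) * (b : Ω) = ((a * b : A) : Ω) := rfl
    rw [this, hnm, hnm, hnm, map_mul]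
    exact spectralAlgNorm_mul (K := K) (L := C) (ι a) (ι b)
  · intro x y hx hy
    obtain ⟨a, rfl⟩ := hmem x hx
    obtain ⟨b, rfl⟩ := hmem y hy
    have : (a : Ω) + (b : Ω) = ((a + b : A) : Ω) := rfl
    rw [this, hnm, hnm, hnm, map_add]
    exact isNonarchimedean_spectralNorm (K := K) (L := C) (ι a) (ι b)
  · intro τ hτ x
    rw [hnm, hnm]
    unfold spectralNorm
    rw [vgb_minpoly (K := K) (C := C) ι τ (fun b hb => hτ b ((hL b).mpr hb)) x]
  · intro r
    have : algebraMap κ Ω r = ((algebraMap κ A r : A) : Ω) := rfl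
    rw [this, hnm, hj, spectralNorm_extends]
  · intro x hx
    obtain ⟨a, rfl⟩ : ∃ a : A, (a : Ω) = x := ⟨⟨x, hLA hx⟩, rfl⟩
    obtain ⟨y, hy⟩ := (hL a).mp hx
    refine ⟨y, ?_, ?_, ?_⟩
    · rw [hnm, ← hy, spectralNorm_extends]
    · rintro h0 rfl
      apply h0
      have : a = 0 := hinj (by rw [← hy, map_zero, map_zero])
      rw [this]
      rfl
    · intro r
      have : (a : Ω) - algebraMap κ Ω r = ((a - algebraMap κ A r : A) : Ω) := rfl
      rw [this, hnm, map_sub, hj, ← hy, ← map_sub, spectralNorm_extends]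

end BSC
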