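import Pool.Agent.Lib_MP_49ddc8_v.VDefs
import Pool.Agent.Lib_MP_49ddc8_v.VGa
import Pool.Agent.Lib_MP_49ddc8_v.VGb

/-!
# [V-GC] The Gauss norm package

`K = v.Completion` (`AbsoluteValue.Completion`, the completion of `WithAbs v`), `v` from `exists_gauss`; `j : RatFunc k → RatFunc ℚ_[p] → K`, the first map is induced by `σ` (`RatFunc.map` / `IsLocalization.map`);
`exists_nm` for `K`, `j`.  `disc`: the elements of `RatFunc ℚ_[p]` are dense in `K`; if `y ≠ 0` there is `r` with `‖y - r‖ < ‖y‖`, so `‖y‖ = v r`.  `res`: `r` with `‖y - r‖ < 1`, `v r ≤ 1`, then `exists_gauss`.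
-/

set_option autoImplicit false

open Polynomial

namespace BSC

section VGcAux

variable {k Ω : Type} [Field k] [Field Ω] [Algebra k Ω] [Algebra (RatFunc k) Ω]

private theorem vgc_tt [IsScalarTower k (RatFunc k) Ω] (f : k[X]) :
    aeval (tt k Ω) f = algebraMap (RatFunc k) Ω (algebraMap k[X] (RatFunc k) f) := by
  rw [← RatFunc.aeval_X_left_eq_algebraMap, tt, aeval_algebraMap_apply]

private theorem vgc_int {A B : Type} [Ring A] [Ring B] [Algebra ℤ A] [Algebra ℤ B] (φ : A →+* B) (x : A)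
    (a : ℤ[X]) : φ (aeval x a) = aeval (φ x) a := by
  rw [aeval_def, aeval_def, hom_eval₂]
  congr 1
  exact RingHom.ext_int _ _

omit [Algebra k Ω] in
private theorem vgc_ttint (a b : ℤ[X]) : aeval (tt k Ω) a / aeval (tt k Ω) b =
    algebraMap (RatFunc k) Ω (aeval (RatFunc.X : RatFunc k) a / aeval (RatFunc.X : RatFunc k) b) := by
  rw [map_div₀, vgc_int, vgc_int]
  rfl

/-- the map of rational functions induced by `σ` -/
private noncomputable def vgc_j {p : ℕ} [Fact p.Prime] (σ : k →+* ℚ_[p]) : RatFunc k →+* RatFunc ℚ_[p] :=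
  IsFractionRing.lift (A := k[X]) (K := RatFunc k)
    (g := (algebraMap ℚ_[p][X] (RatFunc ℚ_[p])).comp (mapRingHom σ))
    ((RatFunc.algebraMap_injective ℚ_[p]).comp (map_injective σ σ.injective))

private theorem vgc_j_alg {p : ℕ} [Fact p.Prime] (σ : k →+* ℚ_[p]) (f : k[X]) :
    vgc_j σ (algebraMap k[X] (RatFunc k) f) = algebraMap ℚ_[p][X] (RatFunc ℚ_[p]) (f.map σ) := by
  unfold vgc_j
  rw [IsFractionRing.lift_algebraMap]
  rfl

private theorem vgc_j_X {p : ℕ} [Fact p.Prime] (σ : k →+* ℚ_[p]) :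
    vgc_j σ RatFunc.X = RatFunc.X := by
  rw [← RatFunc.algebraMap_X, vgc_j_alg, Polynomial.map_X, RatFunc.algebraMap_X]

end VGcAux

theorem exists_GN {k Ω : Type} [Field k] [Field Ω] [IsAlgClosed Ω] [Algebra k Ω] [Algebra (RatFunc k) Ω] [IsScalarTower k (RatFunc k) Ω]
    (p : ℕ) [Fact p.Prime] (σ : k →+* ℚ_[p]) : ∃ (L : IntermediateField (RatFunc k) Ω) (nm : Ω → ℝ), GN p σ L nm := by
  obtain ⟨v, hna, hle, hge, hdisc, hres⟩ := exists_gauss p
  have hp1 : 1 < p := (Fact.out : p.Prime).one_lt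
  have hC : ∀ c : ℚ_[p], v (algebraMap ℚ_[p][X] (RatFunc ℚ_[p]) (C c)) = ‖c‖ := by
    intro c
    refine le_antisymm (hle _ _ (norm_nonneg _) fun i => ?_) ?_
    · rw [coeff_C]
      split_ifs <;> simp
    · have h := hge (C c) 0
      rwa [coeff_C_zero] at h
  have hnat : ∀ n : ℕ, v (n : RatFunc ℚ_[p]) = ‖(n : ℚ_[p])‖ := by
    intro n
    have e : (n : RatFunc ℚ_[p]) = algebraMap ℚ_[p][X] (RatFunc ℚ_[p]) (C (n : ℚ_[p])) := by
      rw [map_natCast, map_natCast]
    rw [e, hC]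
  set j0 : RatFunc ℚ_[p] →+* v.Completion :=
    (UniformSpace.Completion.coeRingHom (α := WithAbs v)).comp (WithAbs.equiv v).symm.toRingHom with hj0def
  have hj0 : ∀ r, ‖j0 r‖ = v r := fun r => by
    show ‖((WithAbs.toAbs v r : WithAbs v) : v.Completion)‖ = v r
    rw [UniformSpace.Completion.norm_coe]
    rfl
  have hdense : ∀ (y : v.Completion) (ε : ℝ), 0 < ε → ∃ r, ‖y - j0 r‖ < ε := by
    intro y ε hε
    obtain ⟨x, hx⟩ := UniformSpace.Completion.denseRange_coe.exists_dist_lt y hε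
    refine ⟨WithAbs.ofAbs x, ?_⟩
    rw [← dist_eq_norm]
    exact hx
  have hnatK : ∀ n : ℕ, ‖(n : v.Completion)‖ ≤ 1 := by
    intro n
    have h1 : (n : v.Completion) = j0 (n : RatFunc ℚ_[p]) := by rw [map_natCast]
    rw [h1, hj0, hnat]
    exact IsUltrametricDist.norm_natCast_le_one ℚ_[p] n
  have hU : IsUltrametricDist v.Completion :=
    isUltrametricDist_iff_forall_norm_natCast_le_one.2 hnatK
  have hadd : ∀ a b : v.Completion, ‖a + b‖ ≤ max ‖a‖ ‖b‖ := fun a b =>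
    IsUltrametricDist.norm_add_le_max a b
  have hnp : v (p : RatFunc ℚ_[p]) = (p : ℝ)⁻¹ := by
    rw [hnat]
    exact Padic.norm_p
  let inst : NontriviallyNormedField v.Completion :=
    { (inferInstance : NormedField v.Completion) with
      non_trivial := ⟨j0 ((p : RatFunc ℚ_[p])⁻¹), by
        rw [map_inv₀]
        rw [norm_inv, hj0, hnp, inv_inv]
        exact_mod_cast hp1⟩ }
  obtain ⟨L, nm, h1, h2, h3, h4, h5, h6, h7, h8⟩ :=
    @exists_nm (RatFunc k) Ω _ _ _ _ v.Completion inst inferInstance hU (j0.comp (vgc_j σ))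
  have h7' : ∀ r : RatFunc k, nm (algebraMap (RatFunc k) Ω r) = v (vgc_j σ r) := by
    intro r
    rw [h7, ← hj0]
    rfl
  have hpoly : ∀ f : k[X], nm (aeval (tt k Ω) f) = v (algebraMap ℚ_[p][X] (RatFunc ℚ_[p]) (f.map σ)) := by
    intro f
    rw [vgc_tt, h7', vgc_j_alg]
  refine ⟨L, nm, ?_⟩
  refine ⟨h1, h2, h3, h4, h5, h6, ?_, ?_, ?_, ?_, ?_⟩
  · intro x hx hx0
    obtain ⟨y, hy, hy0, -⟩ := h8 x hx
    have hyn : 0 < ‖y‖ := norm_pos_iff.2 (hy0 hx0)
    obtain ⟨r, hr⟩ := hdense y ‖y‖ hyn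
    have e1 : ‖j0 r‖ ≤ ‖y‖ := by
      have h := hadd y (-(y - j0 r))
      have e : y + -(y - j0 r) = j0 r := by ring
      rw [e, norm_neg, max_eq_left hr.le] at h
      exact h
    have e2 : ‖y‖ ≤ ‖j0 r‖ := by
      have h := hadd (j0 r) (y - j0 r)
      have e : j0 r + (y - j0 r) = y := by ring
      rw [e] at h
      rcases le_max_iff.1 h with h' | h'
      · exact h'
      · exact absurd hr (not_lt.2 h')
    have e3 : ‖y‖ = v r := by rw [← hj0]; exact le_antisymm e2 e1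
    have hr0 : r ≠ 0 := by
      rintro rfl
      rw [map_zero] at e3
      exact hyn.ne' e3
    obtain ⟨n, hn⟩ := hdisc r hr0
    exact ⟨n, by rw [hy]; exact e3.trans hn⟩
  · have e : ((p : ℕ) : Ω) = algebraMap (RatFunc k) Ω (p : RatFunc k) := by rw [map_natCast]
    rw [e, h7', map_natCast]
    exact hnp
  · intro x hx hx1
    obtain ⟨y, hy, -, hyr⟩ := h8 x hx
    have hy1 : ‖y‖ ≤ 1 := by
      have h := hx1
      rw [hy] at h
      exact h
    obtain ⟨r, hr⟩ := hdense y 1 one_pos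
    have e1 : v r ≤ 1 := by
      rw [← hj0]
      have h := hadd y (-(y - j0 r))
      have e : y + -(y - j0 r) = j0 r := by ring
      rw [e, norm_neg] at h
      exact h.trans (max_le hy1 hr.le)
    obtain ⟨a, b, hb, hab⟩ := hres r e1
    refine ⟨a, b, hb, ?_⟩
    rw [vgc_ttint, hyr]
    show ‖y - j0 (vgc_j σ _)‖ < 1
    rw [map_div₀, vgc_int (vgc_j σ), vgc_int (vgc_j σ), vgc_j_X]
    rw [← hj0, map_sub] at hab
    have h := hadd (y - j0 r) (j0 r - j0 (aeval (RatFunc.X : RatFunc ℚ_[p]) a / aeval (RatFunc.X : RatFunc ℚ_[p]) b))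
    rw [sub_add_sub_cancel] at h
    exact h.trans_lt (max_lt hr hab)
  · intro f c hc hf
    rw [hpoly]
    refine hle _ c hc fun i => ?_
    rw [coeff_map]
    exact hf i
  · intro f i
    rw [hpoly]
    have h := hge (f.map σ) i
    rwa [coeff_map] at h

end BSC
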