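import Mathlib

/-!
# [V-C2] A nonconstant integer polynomial has a root modulo infinitely many primes

If `f(0) = 0` clear.  Else let `P` be the product of the primes `≤ N` and `x = f(0) P y`: `f(x) = f(0) (1 + P g(y))`, `1 + P g(y)` is prime to all primes `≤ N`, and it is not `±1` for large `y` (nonconstant), so it has a prime factor `> N`.
-/

set_option autoImplicit false

open Polynomial

namespace BSC

theorem exists_prime_root (f : ℤ[X]) (hf : 0 < f.natDegree) (N : ℕ) :
    ∃ p : ℕ, p.Prime ∧ N < p ∧ ∃ a : ℤ, (p : ℤ) ∣ f.eval a := by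
  by_cases h0 : f.coeff 0 = 0
  · obtain ⟨p, hp, hpp⟩ := Nat.exists_infinite_primes (N + 1)
    refine ⟨p, hpp, by omega, 0, ?_⟩
    rw [← coeff_zero_eq_eval_zero, h0]
    exact dvd_zero _
  set c : ℤ := f.coeff 0 with hc
  set P : ℤ := (N.factorial : ℤ) with hP
  have hP0 : P ≠ 0 := by
    rw [hP]
    exact_mod_cast Nat.factorial_ne_zero N
  -- the value at `c P y`
  have hval : ∀ y : ℤ, f.eval (c * P * y) = c * (1 + P * (y * f.divX.eval (c * P * y))) := by
    intro y
    conv_lhs => rw [← divX_mul_X_add f]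
    rw [eval_add, eval_mul, eval_X, eval_C, ← hc]
    ring
  -- some value is not `± c`
  have hne : ∀ e : ℤ, f - C e ≠ 0 := by
    intro e h
    have h1 : f = C e := sub_eq_zero.1 h
    rw [h1, natDegree_C] at hf
    exact lt_irrefl _ hf
  have hfin : Set.Finite {y : ℕ | f.eval (c * P * y) = c ∨ f.eval (c * P * y) = -c} := by
    have hinj : Function.Injective fun y : ℕ => c * P * (y : ℤ) := by
      intro y z h
      have h1 : c * P ≠ 0 := mul_ne_zero h0 hP0
      exact_mod_cast mul_left_cancel₀ h1 h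
    refine Set.Finite.subset (Set.Finite.preimage hinj.injOn
      (((f - C c).roots.toFinset ∪ (f - C (-c)).roots.toFinset).finite_toSet)) ?_
    intro y hy
    simp only [Set.mem_preimage, Finset.coe_union, Set.mem_union, Finset.mem_coe,
      Multiset.mem_toFinset]
    rcases hy with hy | hy
    · left
      rw [mem_roots (hne _), IsRoot.def, eval_sub, eval_C, hy, sub_self]
    · right
      rw [mem_roots (hne _), IsRoot.def, eval_sub, eval_C, hy, sub_self]
  obtain ⟨y, hy⟩ := hfin.infinite_compl.nonempty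
  simp only [Set.mem_compl_iff, Set.mem_ofPred_eq, not_or] at hy
  set m : ℤ := 1 + P * ((y : ℤ) * f.divX.eval (c * P * y)) with hm
  have hv : f.eval (c * P * y) = c * m := hval y
  have hm1 : m.natAbs ≠ 1 := by
    intro h
    rcases Int.natAbs_eq_iff.1 h with h | h
    · apply hy.1
      rw [hv, h]
      simp
    · apply hy.2
      rw [hv, h]
      simp
  obtain ⟨p, hp, hpm⟩ := Nat.exists_prime_and_dvd hm1
  have hpm' : (p : ℤ) ∣ m := Int.natCast_dvd.2 hpm
  refine ⟨p, hp, ?_, c * P * y, ?_⟩
  · by_contra hle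
    have h1 : p ∣ N.factorial := hp.dvd_factorial.2 (not_lt.1 hle)
    have h2 : (p : ℤ) ∣ P := by
      rw [hP]
      exact_mod_cast h1
    have h3 : (p : ℤ) ∣ 1 := by
      have h4 : (p : ℤ) ∣ P * ((y : ℤ) * f.divX.eval (c * P * y)) := h2.mul_right _
      have h5 := dvd_sub hpm' h4
      rwa [hm, add_sub_cancel_right] at h5
    have h6 : (p : ℤ) ∣ ((1 : ℕ) : ℤ) := by simpa using h3
    exact hp.one_lt.ne' (Nat.dvd_one.1 (Int.natCast_dvd_natCast.1 h6))
  · rw [hv]
    exact hpm'.mul_left _

end BSC
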