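import Pool.Agent.Lib_MP_49ddc8_v.VC1
import Pool.Agent.Lib_MP_49ddc8_v.VC2

/-!
# [V-CA] Embeddings of finitely generated fields into `ℚ_p` (Cassels)

`k = ℚ(t)(α)`, `t : Fin n → k` algebraically independent over `ℚ`, `α` algebraic over `K₀ = ℚ(t)` (primitive element).  `R = ℤ[t]` (`MvPolynomial (Fin n) ℤ`).  Denominators are cleared at once: the minimal polynomial of `α` becomes `m ∈ R[X]` with leading coefficient `h`,
the Bezout identity `A m + B m' = H₁ ≠ 0` holds in `R[X]`, and every `b` of `k` is `g(α) / h_b`.  Choose `c : Fin n → ℤ` at which `h H₁ ∏ h_b h_{b⁻¹}` is not `0` and a large prime `p` with a root of `m_c` mod `p`; `τ` from `exists_indep`; the root lifts to `ℤ_[p]` (`hensels_lemma`).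
The homomorphisms `φ : R[X] → k` (at `t, α`) and `ψ : R[X] → ℤ_[p]` (at `τ, β`) have the same kernel.
-/

set_option autoImplicit false

open Polynomial

namespace BSC

/-- a homomorphism extends from a ring to its quotients -/
private theorem vca_lift {A k L : Type} [CommRing A] [Field k] [Field L] (φ : A →+* k) (ψ : A →+* L)
    (hφ : ∀ b : k, ∃ g h : A, φ h ≠ 0 ∧ b * φ h = φ g) (hker : ∀ f, φ f = 0 ↔ ψ f = 0) :
    ∃ σ : k →+* L, ∀ f, σ (φ f) = ψ f := by
  choose G H hH hG using hφ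
  have hne : ∀ h, φ h ≠ 0 → ψ h ≠ 0 := fun h h1 h2 => h1 ((hker h).2 h2)
  have key : ∀ b g h, φ h ≠ 0 → b * φ h = φ g → ψ (G b) / ψ (H b) = ψ g / ψ h := by
    intro b g h h1 h2
    rw [div_eq_div_iff (hne _ (hH b)) (hne _ h1), ← map_mul, ← map_mul, ← sub_eq_zero, ← map_sub, ← hker, map_sub,
      map_mul, map_mul, ← hG, ← h2]
    ring
  refine ⟨{ toFun := fun b => ψ (G b) / ψ (H b), map_one' := ?_, map_mul' := ?_, map_zero' := ?_, map_add' := ?_ }, ?_⟩
  · rw [key 1 1 1 (by simp) (by simp), map_one, div_one]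
  · intro b b'
    rw [key (b * b') (G b * G b') (H b * H b') (by rw [map_mul]; exact mul_ne_zero (hH b) (hH b'))
      (by rw [map_mul, map_mul, ← hG, ← hG]; ring), map_mul, map_mul, div_mul_div_comm]
  · rw [key 0 0 1 (by simp) (by simp), map_zero, zero_div]
  · intro b b'
    rw [key (b + b') (G b * H b' + G b' * H b) (H b * H b') (by rw [map_mul]; exact mul_ne_zero (hH b) (hH b'))
      (by rw [map_mul, map_add, map_mul, map_mul, ← hG, ← hG]; ring), map_mul, map_add, map_mul, map_mul,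
      div_add_div _ _ (hne _ (hH b)) (hne _ (hH b'))]
    ring
  · intro f
    change ψ (G (φ f)) / ψ (H (φ f)) = ψ f
    rw [key (φ f) f 1 (by simp) (by simp), map_one, div_one]

/-- clear denominators in `ℚ[t]` -/
private theorem vca_mv {n : ℕ} (r : MvPolynomial (Fin n) ℚ) :
    ∃ (D : ℤ) (r' : MvPolynomial (Fin n) ℤ), D ≠ 0 ∧
      MvPolynomial.map (algebraMap ℤ ℚ) r' = MvPolynomial.C (D : ℚ) * r := by
  induction r using MvPolynomial.induction_on with
  | C a =>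
    refine ⟨a.den, MvPolynomial.C a.num, by exact_mod_cast a.den_nz, ?_⟩
    rw [MvPolynomial.map_C, ← map_mul]
    congr 1
    have := Rat.mul_den_eq_num a
    rw [mul_comm] at this
    simp [this]
  | add p q hp hq =>
    obtain ⟨D, p', hD, hp'⟩ := hp
    obtain ⟨E, q', hE, hq'⟩ := hq
    refine ⟨D * E, MvPolynomial.C E * p' + MvPolynomial.C D * q', mul_ne_zero hD hE, ?_⟩
    rw [map_add, map_mul, map_mul, hp', hq', MvPolynomial.map_C, MvPolynomial.map_C]
    simp only [eq_intCast]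
    push_cast
    rw [map_mul]
    ring
  | mul_X p i hp =>
    obtain ⟨D, p', hD, hp'⟩ := hp
    exact ⟨D, p' * MvPolynomial.X i, hD, by rw [map_mul, hp', MvPolynomial.map_X, mul_assoc]⟩

/-- clear denominators in `K₀[X]` -/
private theorem vca_poly {R k : Type} [CommRing R] [IsDomain R] [Field k] [Algebra ℚ k] (K₀ : IntermediateField ℚ k)
    (φ₀ : R →+* k) (hfrac : ∀ a ∈ K₀, ∃ r s : R, s ≠ 0 ∧ a * φ₀ s = φ₀ r) (q : K₀[X]) :
    ∃ (h : R) (g : R[X]), h ≠ 0 ∧ g.map φ₀ = C (φ₀ h) * q.map (algebraMap K₀ k) := by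
  induction q using Polynomial.induction_on' with
  | add p q hp hq =>
    obtain ⟨D, p', hD, hp'⟩ := hp
    obtain ⟨E, q', hE, hq'⟩ := hq
    refine ⟨D * E, C E * p' + C D * q', mul_ne_zero hD hE, ?_⟩
    rw [Polynomial.map_add, Polynomial.map_mul, Polynomial.map_mul, hp', hq', map_C, map_C, Polynomial.map_add,
      map_mul, map_mul]
    ring
  | monomial n a =>
    obtain ⟨r, s, hs, h⟩ := hfrac a a.2
    refine ⟨s, monomial n r, hs, ?_⟩
    rw [map_monomial, map_monomial, C_mul_monomial, ← h, mul_comm]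
    rfl

theorem cassels (k : Type) [Field k] [CharZero k] (hk : (⊤ : IntermediateField ℚ k).FG) (B : Finset k) (hB : (0 : k) ∉ B) (N : ℕ) :
    ∃ (p : ℕ) (_ : Fact p.Prime), N < p ∧ ∃ σ : k →+* ℚ_[p], ∀ b ∈ B, ‖σ b‖ = 1 := by
  classical
  have hess : Algebra.EssFiniteType ℚ k := IntermediateField.fg_top_iff.1 hk
  obtain ⟨s, hs, hsep⟩ := exists_isTranscendenceBasis_and_isSeparable_of_perfectField ℚ k
  obtain ⟨K₀, hK₀⟩ : ∃ K₀ : IntermediateField ℚ k, K₀ = IntermediateField.adjoin ℚ (s : Set k) := ⟨_, rfl⟩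
  rw [← hK₀] at hsep
  have : Algebra.EssFiniteType K₀ k := Algebra.EssFiniteType.of_comp ℚ K₀ k
  have : Algebra.IsAlgebraic K₀ k := inferInstance
  have : Module.Finite K₀ k := Algebra.finite_of_essFiniteType_of_isAlgebraic
  obtain ⟨α, hα⟩ := Field.exists_primitive_element K₀ k
  -- the variables
  obtain ⟨n, x, hx, hrange⟩ : ∃ (n : ℕ) (x : Fin n → k), AlgebraicIndependent ℚ x ∧ Set.range x = (s : Set k) := by
    refine ⟨s.card, fun i => (s.equivFin.symm i : k), hs.1.comp s.equivFin.symm s.equivFin.symm.injective, ?_⟩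
    ext y
    constructor
    · rintro ⟨i, rfl⟩
      exact (s.equivFin.symm i).2
    · intro hy
      exact ⟨s.equivFin ⟨y, hy⟩, by simp⟩
  obtain ⟨φ₀, hφ₀⟩ : ∃ φ₀ : MvPolynomial (Fin n) ℤ →+* k, φ₀ = (MvPolynomial.aeval x : MvPolynomial (Fin n) ℤ →ₐ[ℤ] k) :=
    ⟨_, rfl⟩
  have hφ₀i : Function.Injective φ₀ := by
    have h1 : AlgebraicIndependent ℤ x := hx.restrictScalars (K := ℚ) (by
      intro a b hab
      simpa using hab)
    rw [hφ₀]
    exact h1
  have hφ₀n : ∀ r, r ≠ 0 → φ₀ r ≠ 0 := fun r hr h0 => hr (hφ₀i (by rw [h0, map_zero]))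
  have hfrac : ∀ a ∈ K₀, ∃ r s : MvPolynomial (Fin n) ℤ, s ≠ 0 ∧ a * φ₀ s = φ₀ r := by
    intro a ha
    rw [hK₀, ← hrange, IntermediateField.mem_adjoin_range_iff] at ha
    obtain ⟨r₁, s₁, ha⟩ := ha
    obtain ⟨D, r', hD, hr'⟩ := vca_mv r₁
    obtain ⟨E, s', hE, hs'⟩ := vca_mv s₁
    by_cases h0 : MvPolynomial.aeval x s₁ = 0
    · rw [h0, div_zero] at ha
      exact ⟨0, 1, one_ne_zero, by rw [ha]; simp⟩
    have e1 : φ₀ r' = (D : k) * MvPolynomial.aeval x r₁ := by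
      rw [hφ₀]
      change MvPolynomial.aeval x r' = _
      rw [← MvPolynomial.aeval_map_algebraMap ℚ, hr', map_mul, MvPolynomial.aeval_C]
      simp
    have e2 : φ₀ s' = (E : k) * MvPolynomial.aeval x s₁ := by
      rw [hφ₀]
      change MvPolynomial.aeval x s' = _
      rw [← MvPolynomial.aeval_map_algebraMap ℚ, hs', map_mul, MvPolynomial.aeval_C]
      simp
    refine ⟨(E : MvPolynomial (Fin n) ℤ) * r', (D : MvPolynomial (Fin n) ℤ) * s', ?_, ?_⟩
    · intro h1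
      have h2 := congrArg φ₀ h1
      rw [map_mul, map_intCast, map_zero, e2] at h2
      have hDk : (D : k) ≠ 0 := by exact_mod_cast hD
      have hEk : (E : k) ≠ 0 := by exact_mod_cast hE
      exact mul_ne_zero hDk (mul_ne_zero hEk h0) h2
    · rw [map_mul, map_mul, map_intCast, map_intCast, e1, e2, ha]
      field_simp
  have hclear := vca_poly K₀ φ₀ hfrac
  have hmapi : Function.Injective (Polynomial.map φ₀) := Polynomial.map_injective _ hφ₀i
  -- the homomorphism at `x, α`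
  obtain ⟨φ, hφ⟩ : ∃ φ : (MvPolynomial (Fin n) ℤ)[X] →+* k, φ = Polynomial.eval₂RingHom φ₀ α := ⟨_, rfl⟩
  have hφe : ∀ f, φ f = (f.map φ₀).eval α := by
    intro f
    rw [hφ, Polynomial.eval_map]
    rfl
  have hφC : ∀ r, φ (C r) = φ₀ r := by
    intro r
    rw [hφe, map_C, eval_C]
  have hαa : IsAlgebraic K₀ α := Algebra.IsAlgebraic.isAlgebraic α
  have hαi : IsIntegral K₀ α := hαa.isIntegral
  have hfr : ∀ b : k, ∃ (g : (MvPolynomial (Fin n) ℤ)[X]) (h : MvPolynomial (Fin n) ℤ), h ≠ 0 ∧ b * φ₀ h = φ g := by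
    intro b
    have hb : b ∈ IntermediateField.adjoin K₀ {α} := by
      rw [hα]
      trivial
    rw [← IntermediateField.mem_toSubalgebra, IntermediateField.adjoin_simple_toSubalgebra_of_isAlgebraic hαa,
      Algebra.adjoin_singleton_eq_range_aeval] at hb
    obtain ⟨q, hq⟩ := hb
    obtain ⟨h, g, hh, hg⟩ := hclear q
    refine ⟨g, h, hh, ?_⟩
    rw [hφe, hg, eval_mul, eval_C, ← hq]
    change aeval α q * _ = _
    rw [aeval_def, eval_map, mul_comm]
  -- the minimal polynomial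
  obtain ⟨μ, hμ⟩ : ∃ μ : K₀[X], μ = minpoly K₀ α := ⟨_, rfl⟩
  have hμm : μ.Monic := by rw [hμ]; exact minpoly.monic hαi
  have hμd : 0 < μ.natDegree := by rw [hμ]; exact minpoly.natDegree_pos hαi
  have hμs : μ.Separable := by rw [hμ]; exact Algebra.IsSeparable.isSeparable K₀ α
  obtain ⟨h, m, hh, hm⟩ := hclear μ
  have hmlc : m.leadingCoeff = h := by
    apply hφ₀i
    rw [← Polynomial.leadingCoeff_map_of_injective hφ₀i, hm, leadingCoeff_mul, leadingCoeff_C,
      Polynomial.leadingCoeff_map, hμm.leadingCoeff, map_one, mul_one]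
  have hmd : m.natDegree = μ.natDegree := by
    rw [← Polynomial.natDegree_map_eq_of_injective hφ₀i, hm, natDegree_C_mul (hφ₀n _ hh), natDegree_map]
  have hφm : φ m = 0 := by
    rw [hφe, hm, eval_mul, eval_map]
    have : eval₂ (algebraMap K₀ k) α μ = 0 := by
      rw [hμ]
      exact minpoly.aeval K₀ α
    rw [this, mul_zero]
  -- Bezout
  obtain ⟨A, A', H₁, hH₁, hbez⟩ : ∃ (A A' : (MvPolynomial (Fin n) ℤ)[X]) (H₁ : MvPolynomial (Fin n) ℤ), H₁ ≠ 0 ∧
      A * m + A' * derivative m = C H₁ := by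
    obtain ⟨a, a', haa⟩ := hμs
    obtain ⟨h1, g1, hh1, hg1⟩ := hclear a
    obtain ⟨h2, g2, hh2, hg2⟩ := hclear a'
    refine ⟨C h2 * g1, C h1 * g2, h1 * h2 * h, mul_ne_zero (mul_ne_zero hh1 hh2) hh, ?_⟩
    apply hmapi
    have hm' : (derivative m).map φ₀ = C (φ₀ h) * (derivative μ).map (algebraMap K₀ k) := by
      rw [← derivative_map, hm, derivative_C_mul, derivative_map]
    rw [Polynomial.map_add, Polynomial.map_mul, Polynomial.map_mul, Polynomial.map_mul, Polynomial.map_mul, map_C,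
      map_C, map_C, hg1, hg2, hm, hm']
    have h3 := congrArg (Polynomial.map (algebraMap K₀ k)) haa
    rw [Polynomial.map_add, Polynomial.map_mul, Polynomial.map_mul, Polynomial.map_one] at h3
    simp only [map_mul]
    linear_combination (C (φ₀ h1) * C (φ₀ h2) * C (φ₀ h)) * h3
  -- divisibility by `m`
  have hdvd : ∀ f, φ f = 0 → ∃ (u : MvPolynomial (Fin n) ℤ) (g : (MvPolynomial (Fin n) ℤ)[X]), u ≠ 0 ∧ C u * f = m * g := by
    intro f hf
    have hcoef : ∀ r, φ₀ r ∈ K₀ := by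
      intro r
      rw [hK₀, ← hrange, hφ₀]
      change MvPolynomial.aeval x r ∈ _
      rw [← MvPolynomial.aeval_map_algebraMap ℚ]
      rw [IntermediateField.mem_adjoin_range_iff]
      exact ⟨MvPolynomial.map (algebraMap ℤ ℚ) r, 1, by rw [map_one, div_one]⟩
    obtain ⟨φ₁, hφ₁⟩ : ∃ φ₁ : MvPolynomial (Fin n) ℤ →+* K₀, (algebraMap K₀ k).comp φ₁ = φ₀ :=
      ⟨φ₀.codRestrict K₀ hcoef, by ext <;> rfl⟩
    have hf1 : aeval α (f.map φ₁) = 0 := by
      rw [aeval_def, eval₂_map, hφ₁, ← hf, hφe, eval_map]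
    obtain ⟨q, hq⟩ := minpoly.dvd K₀ α hf1
    rw [← hμ] at hq
    obtain ⟨u, g, hu, hg⟩ := hclear q
    refine ⟨h * u, g, mul_ne_zero hh hu, ?_⟩
    apply hmapi
    have h3 := congrArg (Polynomial.map (algebraMap K₀ k)) hq
    rw [Polynomial.map_map, hφ₁, Polynomial.map_mul] at h3
    rw [Polynomial.map_mul, Polynomial.map_mul, map_C, hm, hg, h3, map_mul, map_mul]
    ring
  -- numerators and denominators of the elements of `B`
  choose g hd hhd hgd using hfr
  obtain ⟨Hh, hHh⟩ : ∃ Hh : MvPolynomial (Fin n) ℤ, Hh = h * H₁ * ∏ b ∈ B, (hd b * hd b⁻¹) := ⟨_, rfl⟩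
  have hHh0 : Hh ≠ 0 := by
    rw [hHh]
    exact mul_ne_zero (mul_ne_zero hh hH₁) (Finset.prod_ne_zero_iff.2 fun b _ => mul_ne_zero (hhd b) (hhd _))
  obtain ⟨c, hc⟩ : ∃ c : Fin n → ℤ, MvPolynomial.eval c Hh ≠ 0 := by
    by_contra hcon
    push Not at hcon
    exact hHh0 (MvPolynomial.funext fun x => by rw [hcon x, map_zero])
  have hhc : MvPolynomial.eval c h ≠ 0 := by
    intro h0
    apply hc
    rw [hHh, map_mul, map_mul, h0, zero_mul, zero_mul]
  have hmc : (m.map (MvPolynomial.eval c)).natDegree = m.natDegree :=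
    Polynomial.natDegree_map_of_leadingCoeff_ne_zero _ (by rw [hmlc]; exact hhc)
  obtain ⟨p, hp, hNp, a, hpa⟩ := exists_prime_root (m.map (MvPolynomial.eval c)) (by rw [hmc, hmd]; exact hμd)
    (max N (MvPolynomial.eval c Hh).natAbs)
  have : Fact p.Prime := ⟨hp⟩
  refine ⟨p, ⟨hp⟩, lt_of_le_of_lt (le_max_left _ _) hNp, ?_⟩
  have hpH : ((MvPolynomial.eval c Hh : ℤ) : ZMod p) ≠ 0 := by
    rw [Ne, ZMod.intCast_zmod_eq_zero_iff_dvd]
    intro h1
    have h2 := Nat.le_of_dvd (Int.natAbs_pos.2 hc) (Int.natAbs_dvd_natAbs.2 h1)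
    rw [Int.natAbs_natCast] at h2
    have h3 := le_max_right N (MvPolynomial.eval c Hh).natAbs
    omega
  have hfac : ∀ r, r ∣ Hh → ((MvPolynomial.eval c r : ℤ) : ZMod p) ≠ 0 := by
    rintro r ⟨q, hq⟩ h0
    apply hpH
    rw [hq, map_mul, Int.cast_mul, h0, zero_mul]
  -- the point of `ℤ_p`
  obtain ⟨τ, hτ, hτc⟩ := exists_indep p n c
  have hτ1 : ∀ i, ‖τ i‖ ≤ 1 := by
    intro i
    have h1 : τ i = (τ i - (c i : ℚ_[p])) + ((c i : ℤ) : ℚ_[p]) := by ring
    rw [h1]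
    exact (Padic.nonarchimedean _ _).trans (max_le (hτc i).le (Padic.norm_int_le_one _))
  obtain ⟨t, ht⟩ : ∃ t : Fin n → ℤ_[p], ∀ i, (t i : ℚ_[p]) = τ i := ⟨fun i => ⟨τ i, hτ1 i⟩, fun i => rfl⟩
  obtain ⟨ι, hι⟩ : ∃ ι : MvPolynomial (Fin n) ℤ →+* ℤ_[p],
      ι = (MvPolynomial.aeval t : MvPolynomial (Fin n) ℤ →ₐ[ℤ] ℤ_[p]) := ⟨_, rfl⟩
  have hιi : ∀ r, ι r = 0 → r = 0 := by
    intro r hr
    have h1 : AlgebraicIndependent ℤ τ := hτ.restrictScalars (K := ℚ) (by
      intro a b hab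
      simpa using hab)
    have h2 : (PadicInt.Coe.ringHom).comp ι = (MvPolynomial.aeval τ : MvPolynomial (Fin n) ℤ →ₐ[ℤ] ℚ_[p]) := by
      apply MvPolynomial.ringHom_ext
      · intro r
        simp [hι]
      · intro i
        rw [hι]
        have h3 : PadicInt.Coe.ringHom (t i) = τ i := ht i
        simpa using h3
    have h3 : MvPolynomial.aeval τ r = 0 := by
      have h4 := RingHom.congr_fun h2 r
      rw [RingHom.comp_apply, hr, map_zero] at h4
      exact h4.symm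
    exact h1 (by rw [h3, map_zero])
  have hz : ∀ z : ℤ_[p], PadicInt.toZMod z = 0 ↔ ‖z‖ < 1 := by
    intro z
    rw [← RingHom.mem_ker, PadicInt.ker_toZMod, IsLocalRing.mem_maximalIdeal, PadicInt.mem_nonunits]
  have hred : (PadicInt.toZMod).comp ι = (Int.castRingHom (ZMod p)).comp (MvPolynomial.eval c) := by
    apply MvPolynomial.ringHom_ext
    · intro r
      simp
    · intro i
      have h1 : PadicInt.toZMod (t i - ((c i : ℤ) : ℤ_[p])) = 0 := by
        rw [hz, PadicInt.norm_def]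
        push_cast
        rw [ht]
        exact hτc i
      rw [map_sub, map_intCast, sub_eq_zero] at h1
      rw [RingHom.comp_apply, RingHom.comp_apply, MvPolynomial.eval_X, hι]
      simpa using h1
  have hunit : ∀ r, ((MvPolynomial.eval c r : ℤ) : ZMod p) ≠ 0 → ‖ι r‖ = 1 := by
    intro r hr
    by_contra h1
    have h2 : ‖ι r‖ < 1 := lt_of_le_of_ne (PadicInt.norm_le_one _) h1
    apply hr
    have h3 := RingHom.congr_fun hred r
    rw [RingHom.comp_apply, RingHom.comp_apply, (hz _).2 h2] at h3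
    exact h3.symm
  -- reduction modulo `p`
  obtain ⟨e, he⟩ : ∃ e : (MvPolynomial (Fin n) ℤ)[X] →+* ZMod p,
      e = (PadicInt.toZMod).comp (Polynomial.eval₂RingHom ι (a : ℤ_[p])) := ⟨_, rfl⟩
  have hee : ∀ f, e f = (((f.map (MvPolynomial.eval c)).eval a : ℤ) : ZMod p) := by
    intro f
    rw [he, RingHom.comp_apply, Polynomial.coe_eval₂RingHom, Polynomial.hom_eval₂, hred, eval_map]
    have h1 := Polynomial.hom_eval₂ f (MvPolynomial.eval c) (Int.castRingHom (ZMod p)) a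
    rw [eq_intCast, eq_intCast] at h1
    rw [h1, map_intCast]
  have hem : e m = 0 := by
    rw [hee, ZMod.intCast_zmod_eq_zero_iff_dvd]
    exact hpa
  have heC : ∀ r, e (C r) = ((MvPolynomial.eval c r : ℤ) : ZMod p) := by
    intro r
    rw [hee, map_C, eval_C]
  have hedm : e (derivative m) ≠ 0 := by
    intro h0
    have h1 := congrArg e hbez
    rw [map_add, map_mul, map_mul, hem, h0, mul_zero, mul_zero, add_zero, heC] at h1
    apply hfac H₁ ?_ h1.symm
    rw [hHh]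
    exact Dvd.dvd.mul_right (Dvd.intro_left _ rfl) _
  -- Hensel
  have hn1 : ‖aeval (a : ℤ_[p]) (m.map ι)‖ < ‖aeval (a : ℤ_[p]) (derivative (m.map ι))‖ ^ 2 := by
    have h1 : ‖aeval (a : ℤ_[p]) (m.map ι)‖ < 1 := by
      rw [← hz, Polynomial.coe_aeval_eq_eval, eval_map, ← hem, he]
      rfl
    have h2 : ‖aeval (a : ℤ_[p]) (derivative (m.map ι))‖ = 1 := by
      by_contra h3
      have h4 : ‖aeval (a : ℤ_[p]) (derivative (m.map ι))‖ < 1 := lt_of_le_of_ne (PadicInt.norm_le_one _) h3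
      rw [← hz, Polynomial.coe_aeval_eq_eval, derivative_map, eval_map] at h4
      apply hedm
      rw [he]
      exact h4
    rw [h2, one_pow]
    exact h1
  obtain ⟨β, hβ, -⟩ := hensels_lemma hn1
  rw [Polynomial.coe_aeval_eq_eval, eval_map] at hβ
  obtain ⟨ψ₀, hψ₀⟩ : ∃ ψ₀ : (MvPolynomial (Fin n) ℤ)[X] →+* ℤ_[p], ψ₀ = Polynomial.eval₂RingHom ι β := ⟨_, rfl⟩
  have hψm : ψ₀ m = 0 := by rw [hψ₀]; exact hβ
  have hψC : ∀ r, ψ₀ (C r) = ι r := by
    intro r
    rw [hψ₀, Polynomial.coe_eval₂RingHom, eval₂_C]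
  have hcoe : ∀ z : ℤ_[p], PadicInt.Coe.ringHom z = 0 ↔ z = 0 := by
    intro z
    constructor
    · intro h0
      exact Subtype.ext h0
    · rintro rfl
      exact map_zero _
  have hk1 : ∀ f, φ f = 0 → ψ₀ f = 0 := by
    intro f hf
    obtain ⟨u, q, hu, huq⟩ := hdvd f hf
    have h1 := congrArg ψ₀ huq
    rw [map_mul, map_mul, hψm, zero_mul, hψC] at h1
    rcases mul_eq_zero.1 h1 with h2 | h2
    · exact absurd (hιi u h2) hu
    · exact h2
  have hk2 : ∀ f, ψ₀ f = 0 → φ f = 0 := by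
    intro f hf
    by_contra h0
    have h1 : φ (f * g (φ f)⁻¹ - C (hd (φ f)⁻¹)) = 0 := by
      rw [map_sub, map_mul, hφC, ← hgd, ← mul_assoc, mul_inv_cancel₀ h0, one_mul, sub_self]
    have h2 := hk1 _ h1
    rw [map_sub, map_mul, hf, zero_mul, zero_sub, neg_eq_zero, hψC] at h2
    exact hhd _ (hιi _ h2)
  obtain ⟨σ, hσ⟩ := vca_lift φ ((PadicInt.Coe.ringHom).comp ψ₀)
    (fun b => ⟨g b, C (hd b), by rw [hφC]; exact hφ₀n _ (hhd b), by rw [hφC]; exact hgd b⟩)
    (fun f => by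
      rw [RingHom.comp_apply, hcoe]
      exact ⟨hk1 f, hk2 f⟩)
  have hle : ∀ b, ((MvPolynomial.eval c (hd b) : ℤ) : ZMod p) ≠ 0 → ‖σ b‖ ≤ 1 := by
    intro b hb
    have h1 := congrArg σ (hgd b)
    rw [map_mul, hσ, ← hφC, hσ, RingHom.comp_apply, RingHom.comp_apply, hψC] at h1
    have h2 := congrArg norm h1
    rw [norm_mul] at h2
    have h3 : ‖PadicInt.Coe.ringHom (ι (hd b))‖ = 1 := hunit _ hb
    rw [h3, mul_one] at h2
    rw [h2]
    exact PadicInt.norm_le_one (ψ₀ (g b))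
  refine ⟨σ, fun b hb => ?_⟩
  have hb0 : b ≠ 0 := fun h0 => hB (h0 ▸ hb)
  have hdd : hd b * hd b⁻¹ ∣ Hh := by
    rw [hHh]
    exact Dvd.dvd.mul_left (Finset.dvd_prod_of_mem (fun b => hd b * hd b⁻¹) hb) _
  have h1 := hle b (hfac _ ((Dvd.intro _ rfl).trans hdd))
  have h2 := hle b⁻¹ (hfac _ ((Dvd.intro_left _ rfl).trans hdd))
  rw [map_inv₀, norm_inv] at h2
  have h3 : 0 < ‖σ b‖ := norm_pos_iff.2 (by rw [Ne, map_eq_zero]; exact hb0)
  have h4 : 1 ≤ ‖σ b‖ := by
    by_contra h5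
    push Not at h5
    exact absurd h2 (not_le.2 ((one_lt_inv₀ h3).2 h5))
  exact le_antisymm h1 h4

end BSC
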