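import Pool.Agent.Lib_MP_49ddc8.Gal

/-!
# [V-KP] `p`-th power classes

Let `y ^ p = z`.  For `τ` fixing `A`: `S.s τ y = c τ * y`, `c τ ∈ algebraicClosure κ Ω` a `p`-th root of unity, `c (σ τ) = c σ * σ (c τ)`.  By `S.cont` and the finiteness of the roots of unity there is a finite Galois extension `E'` of
`E = adjoin κ A` in the algebraic closure which contains the `p`-th roots of unity, such that `c τ = 1` if `τ` fixes `E'`.  Hilbert 90 for `E'/E` (`groupCohomology.isMulCoboundary₁_of_isMulCocycle₁_of_aut_to_units`, or directly: by the linear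
independence of the characters some `β = ∑_σ c(σ) σ(α) ≠ 0`, then `c(τ) τ(β) = β`) gives `β ≠ 0` algebraic with `c τ * τ β = β` for all `τ` fixing `A`.  Put `w = y β`: fixed, so `w ∈ S.F A`, and `z = y ^ p = (β⁻¹) ^ p w ^ p`, `(β⁻¹) ^ p ∈ adjoin κ A` by `mem_adjoin`.
-/

set_option autoImplicit false

namespace BSC

theorem kp {κ Ω : Type} [Field κ] [CharZero κ] [Field Ω] [IsAlgClosed Ω] [Algebra κ Ω] (S : Sec κ Ω) (p : ℕ) (hp : p.Prime)
    (A : Set Ω) (hA : ∀ x ∈ A, IsAlgebraic κ x) (z : Ω) (hz : z ∈ S.F A) (h0 : z ≠ 0) :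
    ∃ c ∈ IntermediateField.adjoin κ A, c ≠ 0 ∧ ∃ w ∈ S.F A, w ≠ 0 ∧ z = c * w ^ p := by
  classical
  obtain ⟨y, hy⟩ := IsAlgClosed.exists_pow_nat_eq z (n := p) hp.pos
  have hy0 : y ≠ 0 := by
    rintro rfl
    exact h0 (by rw [← hy, zero_pow hp.ne_zero])
  -- the automorphisms fixing `A`
  let H : Subgroup (algebraicClosure κ Ω ≃ₐ[κ] algebraicClosure κ Ω) :=
    { carrier := {τ | ∀ x : algebraicClosure κ Ω, (x : Ω) ∈ A → τ x = x}
      mul_mem' := by
        intro σ τ h1 h2 x hx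
        rw [AlgEquiv.mul_apply, h2 x hx, h1 x hx]
      one_mem' := fun x _ => rfl
      inv_mem' := by
        intro τ h1 x hx
        calc τ⁻¹ x = τ⁻¹ (τ x) := by rw [h1 x hx]
          _ = x := by rw [← AlgEquiv.mul_apply, inv_mul_cancel, AlgEquiv.one_apply] }
  -- the cocycle
  let c : (algebraicClosure κ Ω ≃ₐ[κ] algebraicClosure κ Ω) → Ω := fun τ => S.s τ y / y
  have hsy : ∀ τ, S.s τ y ≠ 0 := fun τ => (map_ne_zero_iff _ (S.s τ).injective).2 hy0
  have hcy : ∀ τ, S.s τ y = c τ * y := fun τ => (div_mul_cancel₀ _ hy0).symm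
  have hcmul : ∀ σ τ, c (σ * τ) = c σ * S.s σ (c τ) := by
    intro σ τ
    show S.s (σ * τ) y / y = S.s σ y / y * S.s σ (S.s τ y / y)
    rw [map_mul, RingAut.mul_apply, map_div₀]
    have := hsy σ
    field_simp
  have hcalg : ∀ τ ∈ H, c τ ∈ algebraicClosure κ Ω := by
    intro τ hτ
    refine mem_algebraicClosure_iff.2 (IsAlgebraic.of_pow hp.pos ?_)
    have h1 : c τ ^ p = 1 := by
      show (S.s τ y / y) ^ p = 1
      rw [div_pow, ← map_pow, hy, hz τ hτ, div_self h0]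
    rw [h1]
    exact isAlgebraic_one
  obtain ⟨E, hE, hEy⟩ := S.cont y
  -- restriction to `E`
  let r : (algebraicClosure κ Ω ≃ₐ[κ] algebraicClosure κ Ω) → (E →ₐ[κ] algebraicClosure κ Ω) :=
    fun τ => (τ : algebraicClosure κ Ω →ₐ[κ] algebraicClosure κ Ω).comp E.val
  have hr : ∀ (τ : algebraicClosure κ Ω ≃ₐ[κ] algebraicClosure κ Ω) (x : E), r τ x = τ x := fun _ _ => rfl
  have hcr : ∀ τ τ', r τ = r τ' → c τ = c τ' := by
    intro τ τ' h
    have h1 : τ⁻¹ * τ' ∈ E.fixingSubgroup := by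
      rw [IntermediateField.mem_fixingSubgroup_iff]
      intro x hx
      have h2 : τ x = τ' x := DFunLike.congr_fun h (⟨x, hx⟩ : E)
      rw [AlgEquiv.mul_apply, ← h2, ← AlgEquiv.mul_apply, inv_mul_cancel, AlgEquiv.one_apply]
    have h2 := hEy _ h1
    have h3 : S.s τ' y = S.s τ y := by
      calc S.s τ' y = S.s (τ * (τ⁻¹ * τ')) y := by rw [mul_inv_cancel_left]
        _ = S.s τ (S.s (τ⁻¹ * τ') y) := by rw [map_mul, RingAut.mul_apply]
        _ = S.s τ y := by rw [h2]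
    show S.s τ y / y = S.s τ' y / y
    rw [h3]
  -- the cocycle as a function of the restriction
  let d : (E →ₐ[κ] algebraicClosure κ Ω) → Ω := fun f => if h : ∃ τ ∈ H, r τ = f then c h.choose else 0
  have hd : ∀ τ ∈ H, d (r τ) = c τ := by
    intro τ hτ
    have h : ∃ τ' ∈ H, r τ' = r τ := ⟨τ, hτ, rfl⟩
    show (if h : ∃ τ' ∈ H, r τ' = r τ then c h.choose else 0) = c τ
    rw [dif_pos h]
    exact hcr _ _ h.choose_spec.2
  have hd0 : ∀ f, (¬ ∃ τ ∈ H, r τ = f) → d f = 0 := fun f h => dif_neg h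
  have hdalg : ∀ f, d f ∈ algebraicClosure κ Ω := by
    intro f
    by_cases h : ∃ τ ∈ H, r τ = f
    · obtain ⟨τ, hτ, rfl⟩ := h
      rw [hd τ hτ]
      exact hcalg τ hτ
    · rw [hd0 f h]
      exact zero_mem _
  let e : (σ : algebraicClosure κ Ω ≃ₐ[κ] algebraicClosure κ Ω) →
      (E →ₐ[κ] algebraicClosure κ Ω) ≃ (E →ₐ[κ] algebraicClosure κ Ω) := fun σ =>
    { toFun := fun f => (σ : algebraicClosure κ Ω →ₐ[κ] algebraicClosure κ Ω).comp f
      invFun := fun f => ((σ⁻¹ : algebraicClosure κ Ω ≃ₐ[κ] algebraicClosure κ Ω) :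
        algebraicClosure κ Ω →ₐ[κ] algebraicClosure κ Ω).comp f
      left_inv := fun f => AlgHom.ext fun x => by
        show σ⁻¹ (σ (f x)) = f x
        rw [← AlgEquiv.mul_apply, inv_mul_cancel, AlgEquiv.one_apply]
      right_inv := fun f => AlgHom.ext fun x => by
        show σ (σ⁻¹ (f x)) = f x
        rw [← AlgEquiv.mul_apply, mul_inv_cancel, AlgEquiv.one_apply] }
  have hds : ∀ σ ∈ H, ∀ f, d (e σ f) = c σ * S.s σ (d f) := by
    intro σ hσ f
    by_cases h : ∃ τ ∈ H, r τ = f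
    · obtain ⟨τ, hτ, rfl⟩ := h
      have h1 : e σ (r τ) = r (σ * τ) := rfl
      rw [h1, hd _ (H.mul_mem hσ hτ), hd τ hτ, hcmul]
    · have h1 : ¬ ∃ τ ∈ H, r τ = e σ f := by
        rintro ⟨τ, hτ, h2⟩
        refine h ⟨σ⁻¹ * τ, H.mul_mem (H.inv_mem hσ) hτ, ?_⟩
        have h3 : f = (e σ).symm (r τ) := by rw [h2, Equiv.symm_apply_apply]
        rw [h3]
        rfl
      rw [hd0 _ h1, hd0 _ h, map_zero, mul_zero]
  -- a non-zero sum
  obtain ⟨α, hα⟩ : ∃ α : E, ∑ f : E →ₐ[κ] algebraicClosure κ Ω, d f * (f α : Ω) ≠ 0 := by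
    by_contra hcon
    push Not at hcon
    let g : (E →ₐ[κ] algebraicClosure κ Ω) → (E →* Ω) := fun f =>
      ((algebraMap (algebraicClosure κ Ω) Ω : algebraicClosure κ Ω →* Ω)).comp (f : E →* algebraicClosure κ Ω)
    have hg : ∀ f x, g f x = (f x : Ω) := fun _ _ => rfl
    have hgi : Function.Injective g := by
      intro f f' h
      refine AlgHom.ext fun x => Subtype.ext ?_
      rw [← hg, ← hg, h]
    have hli := (linearIndependent_monoidHom E Ω).comp g hgi
    have h1 := Fintype.linearIndependent_iff.1 hli d (by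
      funext x
      rw [Finset.sum_apply]
      exact hcon x) (r 1)
    rw [hd 1 H.one_mem] at h1
    have h2 : c 1 = 1 := by
      show S.s 1 y / y = 1
      rw [map_one]
      exact div_self hy0
    rw [h2] at h1
    exact one_ne_zero h1
  set β : Ω := ∑ f : E →ₐ[κ] algebraicClosure κ Ω, d f * (f α : Ω) with hβ
  have hβalg : β ∈ algebraicClosure κ Ω :=
    sum_mem fun f _ => mul_mem (hdalg f) (f α).2
  have hβs : ∀ σ ∈ H, c σ * S.s σ β = β := by
    intro σ hσ
    rw [hβ, map_sum, Finset.mul_sum]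
    rw [← Equiv.sum_comp (e σ) fun f : E →ₐ[κ] algebraicClosure κ Ω => d f * (f α : Ω)]
    refine Finset.sum_congr rfl fun f _ => ?_
    rw [map_mul, hds σ hσ f, S.res, mul_assoc]
    rfl
  have hw : y * β ∈ S.F A := by
    intro τ hτ
    rw [map_mul, hcy τ]
    have h1 := hβs τ hτ
    linear_combination y * h1
  have hw0 : y * β ≠ 0 := mul_ne_zero hy0 hα
  refine ⟨(β⁻¹) ^ p, ?_, pow_ne_zero _ (inv_ne_zero hα), y * β, hw, hw0, ?_⟩
  · have h1 : (β⁻¹) ^ p = z / (y * β) ^ p := by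
      rw [mul_pow, hy, inv_pow]
      field_simp
    rw [h1]
    refine mem_adjoin S A hA _ (div_mem hz (pow_mem hw p)) ?_
    rw [← h1]
    exact mem_algebraicClosure_iff.1 (pow_mem (inv_mem hβalg) p)
  · rw [mul_pow, hy, inv_pow]
    field_simp

end BSC
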