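import Pool.Agent.Lib_MP_49ddc8_v.VDefs
import Pool.Agent.Lib_MP_49ddc8.Loc

/-!
# [V-TW] The valuation ring of rank two: the Gauss norm, then the place `u = 0` of `𝔽_p(u)`

`O₂ = {x ∈ L : nm x ≤ 1 and there are a, b : ℤ[X] with b(0) prime to p, nm (x - a(u) / b(u)) < 1}`: a valuation ring of `L` (`GN.res`; divide `a`, `b` mod `p` by the power of `X` dividing both: `a ≡ X ^ i a₁`, `b ≡ X ^ j b₁` mod `p`, `nm` of the rest is `< 1`), extended to `Ω` by `ext_val`.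
Facts: `nm (f(u)) < 1` iff `p` divides all the coefficients of `f : ℤ[X]`, `nm (f(u)) ≤ 1`, `= 1` if `NZ p f` (`poly_le`, `poly_ge`; the norm of an integer in `ℚ_[p]` is `< 1` iff `p` divides it).
Third property: if `V.valuation u = V.valuation n ^ p` then `u / n ^ p` is a unit of `O₂`, so `nm n = 1`, `n ≡ a / b`, `u / n ^ p ≡ c / d`, `c(0) d(0)` prime to `p`, so `X b ^ p d ≡ c a ^ p` mod `p`: compare the order at `X = 0` in `(ZMod p)[X]` mod `p`.
-/

set_option autoImplicit false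

open Polynomial

namespace BSC

section helpers

variable {k Ω : Type} [Field k] [Field Ω] [Algebra k Ω] [Algebra (RatFunc k) Ω]
  {p : ℕ} [Fact p.Prime] {σ : k →+* ℚ_[p]} {L : IntermediateField (RatFunc k) Ω} {nm : Ω → ℝ}

/-- integer polynomial at `u` -/
private noncomputable def ev (k Ω : Type) [Field k] [Field Ω] [Algebra (RatFunc k) Ω] (f : ℤ[X]) : Ω :=
  aeval (tt k Ω) f

/-- constant coefficient mod `p` -/
private def c0 (p : ℕ) (f : ℤ[X]) : ZMod p := ((f.coeff 0 : ℤ) : ZMod p)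

/-- the elements of `L` of norm `< 1` -/
private def m1 (L : IntermediateField (RatFunc k) Ω) (nm : Ω → ℝ) (x : Ω) : Prop := x ∈ L ∧ nm x < 1

/-- the elements of `L` of norm `≤ 1` -/
private def o1 (L : IntermediateField (RatFunc k) Ω) (nm : Ω → ℝ) (x : Ω) : Prop := x ∈ L ∧ nm x ≤ 1

private theorem nmul (hG : GN p σ L nm) {x y : Ω} (hx : x ∈ L) (hy : y ∈ L) : nm (x * y) = nm x * nm y :=
  hG.mul x y (hG.alg x hx) (hG.alg y hy)

private theorem nadd (hG : GN p σ L nm) {x y : Ω} (hx : x ∈ L) (hy : y ∈ L) : nm (x + y) ≤ max (nm x) (nm y) :=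
  hG.add x y (hG.alg x hx) (hG.alg y hy)

private theorem npos (hG : GN p σ L nm) {x : Ω} (hx : x ∈ L) (h0 : x ≠ 0) : 0 < nm x :=
  hG.pos x (hG.alg x hx) h0

private theorem nnn (hG : GN p σ L nm) {x : Ω} (hx : x ∈ L) : 0 ≤ nm x := by
  by_cases h0 : x = 0
  · rw [h0, hG.zero]
  · exact (npos hG hx h0).le

private theorem none' (hG : GN p σ L nm) : nm 1 = 1 := by
  have h := nmul hG L.one_mem L.one_mem
  have h1 := npos hG L.one_mem one_ne_zero
  rw [mul_one] at h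
  have h2 : nm 1 * nm 1 = nm 1 * 1 := by rw [mul_one]; exact h.symm
  exact mul_left_cancel₀ h1.ne' h2

private theorem nneg (hG : GN p σ L nm) {x : Ω} (hx : x ∈ L) : nm (-x) = nm x := by
  have hm : (-1 : Ω) ∈ L := L.neg_mem L.one_mem
  have h := nmul hG hm hm
  have h1 : (-1 : Ω) * -1 = 1 := by ring
  rw [h1, none' hG] at h
  have h2 := nnn hG hm
  have h3 : nm (-1) = 1 := by nlinarith
  have h4 := nmul hG hm hx
  rw [h3, one_mul] at h4
  rw [← h4]
  congr 1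
  ring

private theorem ninv (hG : GN p σ L nm) {x : Ω} (hx : x ∈ L) (h0 : x ≠ 0) : nm x⁻¹ = (nm x)⁻¹ := by
  have h := nmul hG hx (L.inv_mem hx)
  rw [mul_inv_cancel₀ h0, none' hG] at h
  exact eq_inv_of_mul_eq_one_right h.symm

private theorem npow (hG : GN p σ L nm) {x : Ω} (hx : x ∈ L) (n : ℕ) : nm (x ^ n) = nm x ^ n := by
  induction n with
  | zero => rw [pow_zero, pow_zero, none' hG]
  | succ n ih => rw [pow_succ, pow_succ, nmul hG (pow_mem hx n) hx, ih]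

/-! ### the ring and the ideal -/

private theorem m1o {x : Ω} (h : m1 L nm x) : o1 L nm x := ⟨h.1, h.2.le⟩

private theorem m1add (hG : GN p σ L nm) {x y : Ω} (hx : m1 L nm x) (hy : m1 L nm y) : m1 L nm (x + y) :=
  ⟨L.add_mem hx.1 hy.1, (nadd hG hx.1 hy.1).trans_lt (max_lt hx.2 hy.2)⟩

private theorem o1add (hG : GN p σ L nm) {x y : Ω} (hx : o1 L nm x) (hy : o1 L nm y) : o1 L nm (x + y) :=
  ⟨L.add_mem hx.1 hy.1, (nadd hG hx.1 hy.1).trans (max_le hx.2 hy.2)⟩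

private theorem m1neg (hG : GN p σ L nm) {x : Ω} (hx : m1 L nm x) : m1 L nm (-x) :=
  ⟨L.neg_mem hx.1, by rw [nneg hG hx.1]; exact hx.2⟩

private theorem o1neg (hG : GN p σ L nm) {x : Ω} (hx : o1 L nm x) : o1 L nm (-x) :=
  ⟨L.neg_mem hx.1, by rw [nneg hG hx.1]; exact hx.2⟩

private theorem m1sub (hG : GN p σ L nm) {x y : Ω} (hx : m1 L nm x) (hy : m1 L nm y) : m1 L nm (x - y) := by
  rw [sub_eq_add_neg]
  exact m1add hG hx (m1neg hG hy)

private theorem o1sub (hG : GN p σ L nm) {x y : Ω} (hx : o1 L nm x) (hy : o1 L nm y) : o1 L nm (x - y) := by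
  rw [sub_eq_add_neg]
  exact o1add hG hx (o1neg hG hy)

private theorem o1mul (hG : GN p σ L nm) {x y : Ω} (hx : o1 L nm x) (hy : o1 L nm y) : o1 L nm (x * y) :=
  ⟨L.mul_mem hx.1 hy.1, by
    rw [nmul hG hx.1 hy.1]
    exact mul_le_one₀ hx.2 (nnn hG hy.1) hy.2⟩

private theorem m1mul (hG : GN p σ L nm) {x y : Ω} (hx : m1 L nm x) (hy : o1 L nm y) : m1 L nm (x * y) :=
  ⟨L.mul_mem hx.1 hy.1, by
    rw [nmul hG hx.1 hy.1]
    exact mul_lt_one_of_nonneg_of_lt_one_left (nnn hG hx.1) hx.2 hy.2⟩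

private theorem m1mul' (hG : GN p σ L nm) {x y : Ω} (hx : o1 L nm x) (hy : m1 L nm y) : m1 L nm (x * y) := by
  rw [mul_comm]
  exact m1mul hG hy hx

private theorem o1one (hG : GN p σ L nm) : o1 L nm 1 := ⟨L.one_mem, (none' hG).le⟩

private theorem o1pow (hG : GN p σ L nm) {x : Ω} (hx : o1 L nm x) (n : ℕ) : o1 L nm (x ^ n) := by
  induction n with
  | zero => rw [pow_zero]; exact o1one hG
  | succ n ih => rw [pow_succ]; exact o1mul hG ih hx

private theorem m1zero (hG : GN p σ L nm) : m1 L nm 0 := ⟨L.zero_mem, by rw [hG.zero]; norm_num⟩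

/-- powers preserve the congruence -/
private theorem m1pow (hG : GN p σ L nm) {x y : Ω} (hx : o1 L nm x) (hy : o1 L nm y) (h : m1 L nm (x - y))
    (n : ℕ) : m1 L nm (x ^ n - y ^ n) := by
  induction n with
  | zero => rw [pow_zero, pow_zero, sub_self]; exact m1zero hG
  | succ n ih =>
    have e : x ^ (n + 1) - y ^ (n + 1) = x ^ n * (x - y) + (x ^ n - y ^ n) * y := by ring
    rw [e]
    exact m1add hG (m1mul' hG (o1pow hG hx n) h) (m1mul hG ih hy)

/-! ### integer polynomials -/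

private theorem ev_mem (f : ℤ[X]) : ev k Ω f ∈ L := by
  have h : ev k Ω f = algebraMap (RatFunc k) Ω (eval₂ (algebraMap ℤ (RatFunc k)) RatFunc.X f) := by
    unfold ev tt
    rw [aeval_def, hom_eval₂]
    congr 1
    exact RingHom.ext_int _ _
  rw [h]
  exact L.algebraMap_mem _

private theorem ev_eq [IsScalarTower k (RatFunc k) Ω] (f : ℤ[X]) :
    ev k Ω f = aeval (tt k Ω) (f.map (Int.castRingHom k)) := by
  unfold ev
  rw [aeval_def, aeval_def, eval₂_map]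
  congr 1
  exact RingHom.ext_int _ _

private theorem cast_norm (f : ℤ[X]) (i : ℕ) :
    ‖σ ((f.map (Int.castRingHom k)).coeff i)‖ = ‖((f.coeff i : ℤ) : ℚ_[p])‖ := by
  rw [coeff_map]
  simp

private theorem ev_o1 [IsScalarTower k (RatFunc k) Ω] (hG : GN p σ L nm) (f : ℤ[X]) : o1 L nm (ev k Ω f) := by
  refine ⟨ev_mem f, ?_⟩
  rw [ev_eq]
  refine hG.poly_le _ 1 zero_le_one fun i => ?_
  rw [cast_norm]
  exact Padic.norm_int_le_one _

private theorem ev_m1 [IsScalarTower k (RatFunc k) Ω] (hG : GN p σ L nm) {f : ℤ[X]} (h : ¬ NZ p f) :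
    m1 L nm (ev k Ω f) := by
  refine ⟨ev_mem f, ?_⟩
  unfold NZ at h
  push Not at h
  have hp : 1 < (p : ℝ) := by exact_mod_cast (Fact.out : p.Prime).one_lt
  have hp0 : 0 < (p : ℝ) := by linarith
  have h1 : nm (ev k Ω f) ≤ (p : ℝ)⁻¹ := by
    rw [ev_eq]
    refine hG.poly_le _ _ (by positivity) fun i => ?_
    rw [cast_norm]
    have h2 : ((f.coeff i : ℤ) : ZMod p) = 0 := by
      have := congrArg (fun g => g.coeff i) h
      simpa using this
    rw [ZMod.intCast_zmod_eq_zero_iff_dvd] at h2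
    have h3 := (Padic.norm_int_le_pow_iff_dvd (p := p) (f.coeff i) 1).2 (by simpa using h2)
    simpa using h3
  refine h1.trans_lt ?_
  exact inv_lt_one_of_one_lt₀ hp

private theorem ev_one [IsScalarTower k (RatFunc k) Ω] (hG : GN p σ L nm) {f : ℤ[X]} (h : NZ p f) :
    nm (ev k Ω f) = 1 := by
  refine le_antisymm (ev_o1 hG f).2 ?_
  obtain ⟨i, hi⟩ : ∃ i, ((f.coeff i : ℤ) : ZMod p) ≠ 0 := by
    by_contra hcon
    push Not at hcon
    apply h
    ext i
    rw [coeff_map, coeff_zero]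
    exact hcon i
  rw [Ne, ZMod.intCast_zmod_eq_zero_iff_dvd] at hi
  have h1 := hG.poly_ge (f.map (Int.castRingHom k)) i
  rw [cast_norm, ← ev_eq] at h1
  have h2 : ‖((f.coeff i : ℤ) : ℚ_[p])‖ = 1 := by
    refine le_antisymm (Padic.norm_int_le_one _) ?_
    by_contra hlt
    push Not at hlt
    exact hi (Padic.norm_intCast_lt_one_iff.1 hlt)
  rwa [h2] at h1

private theorem c0_mul (f g : ℤ[X]) : c0 p (f * g) = c0 p f * c0 p g := by
  unfold c0
  rw [mul_coeff_zero]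
  push_cast
  rfl

private theorem c0_add (f g : ℤ[X]) : c0 p (f + g) = c0 p f + c0 p g := by
  unfold c0
  rw [coeff_add]
  push_cast
  rfl

private theorem c0_pow (f : ℤ[X]) (n : ℕ) : c0 p (f ^ n) = c0 p f ^ n := by
  induction n with
  | zero =>
    unfold c0
    simp
  | succ n ih => rw [pow_succ, pow_succ, c0_mul, ih]

private theorem nz_c0 {f : ℤ[X]} (h : c0 p f ≠ 0) : NZ p f := by
  intro h1
  apply h
  have := congrArg (fun g => g.coeff 0) h1
  simpa [c0] using this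

/-- divide by the power of `X` -/
private theorem exists_red {f : ℤ[X]} (h : NZ p f) :
    ∃ (i : ℕ) (g : ℤ[X]), c0 p g ≠ 0 ∧ ¬ NZ p (f - X ^ i * g) := by
  obtain ⟨q, hq, hdvd⟩ := exists_eq_pow_rootMultiplicity_mul_and_not_dvd
    (f.map (Int.castRingHom (ZMod p))) h 0
  obtain ⟨g, hg⟩ := map_surjective (Int.castRingHom (ZMod p)) (ZMod.intCast_surjective) q
  refine ⟨rootMultiplicity 0 (f.map (Int.castRingHom (ZMod p))), g, ?_, ?_⟩
  · intro h0
    apply hdvd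
    rw [C_0, sub_zero, X_dvd_iff, ← hg, coeff_map]
    exact h0
  · unfold NZ
    push Not
    rw [Polynomial.map_sub, Polynomial.map_mul, Polynomial.map_pow, Polynomial.map_X, hg]
    rw [C_0, sub_zero] at hq
    rw [← hq, sub_self]

/-! ### the normal form -/

private theorem ev_X : ev k Ω (X : ℤ[X]) = tt k Ω := by
  unfold ev
  rw [aeval_X]

private theorem nz_X : NZ p (X : ℤ[X]) := by
  unfold NZ
  rw [Polynomial.map_X]
  exact X_ne_zero

private theorem ev_mul (f g : ℤ[X]) : ev k Ω (f * g) = ev k Ω f * ev k Ω g := by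
  unfold ev
  rw [map_mul]

private theorem ev_add (f g : ℤ[X]) : ev k Ω (f + g) = ev k Ω f + ev k Ω g := by
  unfold ev
  rw [map_add]

private theorem ev_sub (f g : ℤ[X]) : ev k Ω (f - g) = ev k Ω f - ev k Ω g := by
  unfold ev
  rw [map_sub]

private theorem ev_neg (f : ℤ[X]) : ev k Ω (-f) = -ev k Ω f := by
  unfold ev
  rw [map_neg]

private theorem ev_pow (f : ℤ[X]) (n : ℕ) : ev k Ω (f ^ n) = ev k Ω f ^ n := by
  unfold ev
  rw [map_pow]

private theorem ev_C (r : ℤ) : ev k Ω (C r) = (r : Ω) := by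
  unfold ev
  rw [aeval_C]
  simp

private theorem tt_mem : tt k Ω ∈ L := by
  rw [← ev_X]
  exact ev_mem _

private theorem nm_tt [IsScalarTower k (RatFunc k) Ω] (hG : GN p σ L nm) : nm (tt k Ω) = 1 := by
  rw [← ev_X]
  exact ev_one hG nz_X

private theorem tt_ne [IsScalarTower k (RatFunc k) Ω] (hG : GN p σ L nm) : tt k Ω ≠ 0 := by
  intro h
  have h1 := nm_tt hG
  rw [h, hG.zero] at h1
  norm_num at h1

private theorem nzpow (hG : GN p σ L nm) {x : Ω} (hx : x ∈ L) (h0 : x ≠ 0) (h1 : nm x = 1) (m : ℤ) :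
    nm (x ^ m) = 1 := by
  obtain ⟨n, rfl | rfl⟩ := m.eq_nat_or_neg
  · rw [zpow_natCast, npow hG hx, h1, one_pow]
  · rw [zpow_neg, zpow_natCast, ninv hG (pow_mem hx n) (pow_ne_zero n h0), npow hG hx, h1, one_pow, inv_one]

/-- `b x ≡ u ^ m a` with `a(0)`, `b(0)` prime to `p` -/
private theorem normal [IsScalarTower k (RatFunc k) Ω] (hG : GN p σ L nm) {x : Ω} (hx : x ∈ L) (h1 : nm x = 1) :
    ∃ (m : ℤ) (a b : ℤ[X]), c0 p a ≠ 0 ∧ c0 p b ≠ 0 ∧ m1 L nm (ev k Ω b * x - tt k Ω ^ m * ev k Ω a) := by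
  obtain ⟨a, b, hb, hab⟩ := hG.res x hx h1.le
  have hbn := ev_one (σ := σ) hG hb
  have hb0 : ev k Ω b ≠ 0 := by
    intro h
    rw [h, hG.zero] at hbn
    norm_num at hbn
  have hu := tt_ne hG
  have hun := nm_tt hG
  have huL : tt k Ω ∈ L := tt_mem
  have hxo : o1 L nm x := ⟨hx, h1.le⟩
  have hc : m1 L nm (ev k Ω b * x - ev k Ω a) := by
    have e : ev k Ω b * x - ev k Ω a = (x - aeval (tt k Ω) a / aeval (tt k Ω) b) * ev k Ω b := by
      have : aeval (tt k Ω) a / aeval (tt k Ω) b = ev k Ω a / ev k Ω b := rfl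
      rw [this]
      field_simp
    rw [e]
    exact m1mul hG ⟨L.sub_mem hx (L.div_mem (ev_mem a) (ev_mem b)), hab⟩ (ev_o1 hG b)
  have ha : NZ p a := by
    by_contra h
    have h2 := m1add hG hc (ev_m1 hG h)
    rw [sub_add_cancel] at h2
    have h3 := nmul hG (ev_mem b) hx
    rw [hbn, h1, one_mul] at h3
    have := h2.2
    rw [h3] at this
    exact lt_irrefl _ this
  obtain ⟨i, a', ha', hai⟩ := exists_red ha
  obtain ⟨j, b', hb', hbj⟩ := exists_red hb
  refine ⟨(i : ℤ) - j, a', b', ha', hb', ?_⟩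
  have k1 := ev_m1 (σ := σ) hG hai
  have k2 := ev_m1 (σ := σ) hG hbj
  rw [ev_sub, ev_mul, ev_pow, ev_X] at k1 k2
  -- `u ^ j b' x - u ^ i a'`
  have k3 : m1 L nm (tt k Ω ^ j * ev k Ω b' * x - tt k Ω ^ i * ev k Ω a') := by
    have e : tt k Ω ^ j * ev k Ω b' * x - tt k Ω ^ i * ev k Ω a' =
        (ev k Ω b * x - ev k Ω a) + (ev k Ω a - tt k Ω ^ i * ev k Ω a') -
          (ev k Ω b - tt k Ω ^ j * ev k Ω b') * x := by ring
    rw [e]
    exact m1sub hG (m1add hG hc k1) (m1mul hG k2 hxo)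
  have k4 : o1 L nm (tt k Ω ^ (-(j : ℤ))) := ⟨zpow_mem huL _, (nzpow hG huL hu hun _).le⟩
  have k5 := m1mul hG k3 k4
  have e : (tt k Ω ^ j * ev k Ω b' * x - tt k Ω ^ i * ev k Ω a') * tt k Ω ^ (-(j : ℤ)) =
      ev k Ω b' * x - tt k Ω ^ ((i : ℤ) - j) * ev k Ω a' := by
    rw [zpow_sub₀ hu, zpow_neg, zpow_natCast, zpow_natCast]
    field_simp
  rwa [e] at k5

/-! ### the ring `O₂` and its ideal -/

private theorem c0_sub (f g : ℤ[X]) : c0 p (f - g) = c0 p f - c0 p g := by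
  unfold c0
  rw [coeff_sub]
  push_cast
  rfl

private theorem c0_neg (f : ℤ[X]) : c0 p (-f) = -c0 p f := by
  unfold c0
  rw [coeff_neg]
  push_cast
  rfl

private theorem c0_one : c0 p (1 : ℤ[X]) ≠ 0 := by
  unfold c0
  simp

private theorem c0_zero : c0 p (0 : ℤ[X]) = 0 := by
  unfold c0
  simp

private theorem c0_C (r : ℤ) : c0 p (C r) = (r : ZMod p) := by
  unfold c0
  simp

private theorem ev_one' : ev k Ω (1 : ℤ[X]) = 1 := by
  unfold ev
  rw [map_one]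

private theorem ev_zero : ev k Ω (0 : ℤ[X]) = 0 := by
  unfold ev
  rw [map_zero]

private theorem cg_add [IsScalarTower k (RatFunc k) Ω] (hG : GN p σ L nm) {x y : Ω} {a b a' b' : ℤ[X]}
    (h : m1 L nm (ev k Ω b * x - ev k Ω a)) (h' : m1 L nm (ev k Ω b' * y - ev k Ω a')) :
    m1 L nm (ev k Ω (b * b') * (x + y) - ev k Ω (a * b' + a' * b)) := by
  have e : ev k Ω (b * b') * (x + y) - ev k Ω (a * b' + a' * b) =
      (ev k Ω b * x - ev k Ω a) * ev k Ω b' + (ev k Ω b' * y - ev k Ω a') * ev k Ω b := by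
    rw [ev_add, ev_mul, ev_mul, ev_mul]
    ring
  rw [e]
  exact m1add hG (m1mul hG h (ev_o1 hG b')) (m1mul hG h' (ev_o1 hG b))

private theorem cg_mul [IsScalarTower k (RatFunc k) Ω] (hG : GN p σ L nm) {x y : Ω} {a b a' b' : ℤ[X]}
    (hy : o1 L nm y) (h : m1 L nm (ev k Ω b * x - ev k Ω a)) (h' : m1 L nm (ev k Ω b' * y - ev k Ω a')) :
    m1 L nm (ev k Ω (b * b') * (x * y) - ev k Ω (a * a')) := by
  have e : ev k Ω (b * b') * (x * y) - ev k Ω (a * a') =
      (ev k Ω b * x - ev k Ω a) * (ev k Ω b' * y) + (ev k Ω b' * y - ev k Ω a') * ev k Ω a := by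
    rw [ev_mul, ev_mul]
    ring
  rw [e]
  exact m1add hG (m1mul hG h (o1mul hG (ev_o1 hG b') hy)) (m1mul hG h' (ev_o1 hG a))

private theorem cg_neg (hG : GN p σ L nm) {x : Ω} {a b : ℤ[X]}
    (h : m1 L nm (ev k Ω b * x - ev k Ω a)) : m1 L nm (ev k Ω b * -x - ev k Ω (-a)) := by
  have e : ev k Ω b * -x - ev k Ω (-a) = -(ev k Ω b * x - ev k Ω a) := by
    rw [ev_neg]
    ring
  rw [e]
  exact m1neg hG h

/-- the ring `O₂` -/
private noncomputable def rg [IsScalarTower k (RatFunc k) Ω] (hG : GN p σ L nm) : Subring Ω where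
  carrier := {x | o1 L nm x ∧ ∃ a b : ℤ[X], c0 p b ≠ 0 ∧ m1 L nm (ev k Ω b * x - ev k Ω a)}
  mul_mem' := by
    rintro x y ⟨hx, a, b, hb, h⟩ ⟨hy, a', b', hb', h'⟩
    exact ⟨o1mul hG hx hy, a * a', b * b', by rw [c0_mul]; exact mul_ne_zero hb hb', cg_mul hG hy h h'⟩
  one_mem' := ⟨o1one hG, 1, 1, c0_one, by rw [ev_one', mul_one, sub_self]; exact m1zero hG⟩
  add_mem' := by
    rintro x y ⟨hx, a, b, hb, h⟩ ⟨hy, a', b', hb', h'⟩
    exact ⟨o1add hG hx hy, a * b' + a' * b, b * b', by rw [c0_mul]; exact mul_ne_zero hb hb', cg_add hG h h'⟩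
  zero_mem' := ⟨m1o (m1zero hG), 0, 1, c0_one, by rw [ev_zero, mul_zero, sub_self]; exact m1zero hG⟩
  neg_mem' := by
    rintro x ⟨hx, a, b, hb, h⟩
    exact ⟨o1neg hG hx, -a, b, hb, cg_neg hG h⟩

/-- its ideal of the elements vanishing at `u = 0` -/
private noncomputable def idl [IsScalarTower k (RatFunc k) Ω] (hG : GN p σ L nm) : Ideal (rg hG) where
  carrier := {x | ∃ a b : ℤ[X], c0 p a = 0 ∧ c0 p b ≠ 0 ∧ m1 L nm (ev k Ω b * (x : Ω) - ev k Ω a)}
  add_mem' := by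
    rintro x y ⟨a, b, ha, hb, h⟩ ⟨a', b', ha', hb', h'⟩
    refine ⟨a * b' + a' * b, b * b', ?_, by rw [c0_mul]; exact mul_ne_zero hb hb', ?_⟩
    · rw [c0_add, c0_mul, c0_mul, ha, ha', zero_mul, zero_mul, add_zero]
    · exact cg_add hG h h'
  zero_mem' := ⟨0, 1, c0_zero, c0_one, by
    have e : ev k Ω (1 : ℤ[X]) * (((0 : rg hG) : Ω)) - ev k Ω (0 : ℤ[X]) = 0 := by
      rw [ev_zero, Subring.coe_zero, mul_zero, sub_self]
    rw [e]
    exact m1zero hG⟩
  smul_mem' := by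
    rintro ⟨c, hc, a', b', hb', h'⟩ x ⟨a, b, ha, hb, h⟩
    refine ⟨a' * a, b' * b, ?_, by rw [c0_mul]; exact mul_ne_zero hb' hb, ?_⟩
    · rw [c0_mul, ha, mul_zero]
    · exact cg_mul hG x.2.1 h' h

private theorem idl_ne_top [IsScalarTower k (RatFunc k) Ω] (hG : GN p σ L nm) : idl hG ≠ ⊤ := by
  intro h
  have h1 : (1 : rg hG) ∈ idl hG := by rw [h]; trivial
  obtain ⟨a, b, ha, hb, h2⟩ := h1
  have e : ev k Ω b * (((1 : rg hG)) : Ω) - ev k Ω a = ev k Ω (b - a) := by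
    rw [ev_sub, Subring.coe_one, mul_one]
  rw [e] at h2
  have h3 : NZ p (b - a) := nz_c0 (by rw [c0_sub, ha, sub_zero]; exact hb)
  have h4 := ev_one hG h3
  have h5 := h2.2
  rw [h4] at h5
  exact lt_irrefl _ h5

/-- `x` in the ideal -/
private def inI (k : Type) {Ω : Type} [Field k] [Field Ω] [Algebra k Ω] [Algebra (RatFunc k) Ω] (p : ℕ)
    (L : IntermediateField (RatFunc k) Ω) (nm : Ω → ℝ) (x : Ω) : Prop :=
  o1 L nm x ∧ ∃ a b : ℤ[X], c0 p a = 0 ∧ c0 p b ≠ 0 ∧ m1 L nm (ev k Ω b * x - ev k Ω a)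

private theorem inI_m1 (hG : GN p σ L nm) {x : Ω} (h : m1 L nm x) : inI k p L nm x :=
  ⟨m1o h, 0, 1, c0_zero, c0_one, by rw [ev_one', ev_zero, one_mul, sub_zero]; exact h⟩

private theorem inI_pos {x : Ω} (hx : x ∈ L) (h1 : nm x = 1) {m : ℤ} {a b : ℤ[X]} (hb : c0 p b ≠ 0)
    (h : m1 L nm (ev k Ω b * x - tt k Ω ^ m * ev k Ω a)) (hm : 0 < m) : inI k p L nm x := by
  obtain ⟨n, rfl⟩ := Int.eq_ofNat_of_zero_le hm.le
  have hn : n ≠ 0 := by
    rintro rfl
    exact lt_irrefl _ hm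
  refine ⟨⟨hx, h1.le⟩, X ^ n * a, b, ?_, hb, ?_⟩
  · rw [c0_mul, c0_pow]
    have : c0 p (X : ℤ[X]) = 0 := by
      unfold c0
      rw [coeff_X_zero]
      simp
    rw [this, zero_pow hn, zero_mul]
  · rw [ev_mul, ev_pow, ev_X]
    rw [zpow_natCast] at h
    exact h

private theorem inI_neg [IsScalarTower k (RatFunc k) Ω] (hG : GN p σ L nm) {x : Ω} (hx : x ∈ L) (h1 : nm x = 1)
    {m : ℤ} {a b : ℤ[X]} (ha : c0 p a ≠ 0)
    (h : m1 L nm (ev k Ω b * x - tt k Ω ^ m * ev k Ω a)) (hm : m < 0) : inI k p L nm x⁻¹ := by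
  have hx0 : x ≠ 0 := by
    rintro rfl
    rw [hG.zero] at h1
    norm_num at h1
  have hu := tt_ne hG
  have hun := nm_tt hG
  have huL : tt k Ω ∈ L := tt_mem
  have hxi : nm x⁻¹ = 1 := by rw [ninv hG hx hx0, h1, inv_one]
  refine inI_pos (m := -m) (a := b) (b := a) (L.inv_mem hx) hxi ha ?_ (by omega)
  have e : ev k Ω a * x⁻¹ - tt k Ω ^ (-m) * ev k Ω b =
      -((ev k Ω b * x - tt k Ω ^ m * ev k Ω a) * (x⁻¹ * tt k Ω ^ (-m))) := by
    rw [zpow_neg]
    have hz : tt k Ω ^ m ≠ 0 := zpow_ne_zero _ hu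
    field_simp
    ring
  rw [e]
  exact m1neg hG (m1mul hG h (o1mul hG ⟨L.inv_mem hx, hxi.le⟩ ⟨zpow_mem huL _, (nzpow hG huL hu hun _).le⟩))

end helpers

variable {k Ω : Type} [Field k] [CharZero k] [Field Ω] [IsAlgClosed Ω] [Algebra k Ω] [Algebra (RatFunc k) Ω]
  [IsScalarTower k (RatFunc k) Ω] {p : ℕ} [Fact p.Prime] {σ : k →+* ℚ_[p]} {L : IntermediateField (RatFunc k) Ω} {nm : Ω → ℝ}

theorem exists_V2 (hG : GN p σ L nm) : ∃ V : ValuationSubring Ω, (∀ x ∈ L, nm x < 1 → V.valuation x < 1) ∧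
    (∀ x ∈ L, x ∈ V → ∃ r : ℤ, V.valuation (x - (r : Ω)) < 1) ∧ ∀ n ∈ L, n ≠ 0 → V.valuation (tt k Ω) ≠ V.valuation n ^ p := by
  obtain ⟨V, hV1, hV2⟩ := Ideal.image_subset_nonunits_valuationSubring (idl hG) (idl_ne_top hG)
  have hI : ∀ x : Ω, inI k p L nm x → V.valuation x < 1 := by
    rintro x ⟨hx, a, b, ha, hb, h⟩
    exact V.mem_nonunits_iff.1 (hV2 ⟨⟨x, hx, a, b, hb, h⟩, ⟨a, b, ha, hb, h⟩, rfl⟩)
  have h0lt : V.valuation (0 : Ω) < 1 := by rw [map_zero]; exact zero_lt_one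
  -- `x` and `x⁻¹` are not both of valuation `< 1`
  have hinv : ∀ x : Ω, x ≠ 0 → V.valuation x⁻¹ < 1 → ¬ V.valuation x ≤ 1 := by
    intro x hx h1 h2
    have h3 : V.valuation x * V.valuation x⁻¹ = 1 := by rw [← map_mul, mul_inv_cancel₀ hx, map_one]
    have h4 : V.valuation x * V.valuation x⁻¹ < 1 :=
      mul_lt_one_of_nonneg_of_lt_one_right h2 zero_le h1
    rw [h3] at h4
    exact lt_irrefl _ h4
  refine ⟨V, fun x hx h => hI x (inI_m1 hG ⟨hx, h⟩), ?_, ?_⟩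
  · intro x hx hxV
    have hx1 : V.valuation x ≤ 1 := (V.valuation_le_one_iff x).2 hxV
    by_cases hx0 : x = 0
    · exact ⟨0, by rw [hx0, Int.cast_zero, sub_zero]; exact h0lt⟩
    rcases lt_trichotomy (nm x) 1 with h | h | h
    · exact ⟨0, by rw [Int.cast_zero, sub_zero]; exact hI x (inI_m1 hG ⟨hx, h⟩)⟩
    · obtain ⟨m, a, b, ha, hb, hc⟩ := normal hG hx h
      rcases lt_trichotomy m 0 with hm | hm | hm
      · exact absurd hx1 (hinv x hx0 (hI _ (inI_neg hG hx h ha hc hm)))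
      · subst hm
        rw [zpow_zero, one_mul] at hc
        obtain ⟨r, hr⟩ := ZMod.intCast_surjective (n := p) (c0 p a / c0 p b)
        refine ⟨r, hI _ ⟨?_, a - C r * b, b, ?_, hb, ?_⟩⟩
        · rw [← ev_C (k := k) r]
          exact o1sub hG ⟨hx, h.le⟩ (ev_o1 hG _)
        · rw [c0_sub, c0_mul, c0_C, hr, div_mul_cancel₀ _ hb, sub_self]
        · have e : ev k Ω b * (x - (r : Ω)) - ev k Ω (a - C r * b) = ev k Ω b * x - ev k Ω a := by
            rw [ev_sub, ev_mul, ev_C]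
            ring
          rw [e]
          exact hc
      · exact ⟨0, by rw [Int.cast_zero, sub_zero]; exact hI x (inI_pos hx h hb hc hm)⟩
    · have h2 : nm x⁻¹ < 1 := by
        rw [ninv hG hx hx0]
        exact inv_lt_one_of_one_lt₀ h
      exact absurd hx1 (hinv x hx0 (hI _ (inI_m1 hG ⟨L.inv_mem hx, h2⟩)))
  · intro n hn hn0 heq
    have hp := (Fact.out : p.Prime)
    have hu := tt_ne hG
    have hun := nm_tt hG
    have huL : tt k Ω ∈ L := tt_mem
    have hnp : n ^ p ≠ 0 := pow_ne_zero _ hn0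
    set w : Ω := tt k Ω / n ^ p with hw
    have hwL : w ∈ L := L.div_mem huL (pow_mem hn p)
    have hw0 : w ≠ 0 := div_ne_zero hu hnp
    have hvw : V.valuation w = 1 := by
      rw [hw, map_div₀, heq, map_pow]
      apply div_self
      exact pow_ne_zero _ (V.valuation.ne_zero_iff.2 hn0)
    have hvw' : V.valuation w⁻¹ = 1 := by rw [map_inv₀, hvw, inv_one]
    have hA : ¬ inI k p L nm w := fun h => by
      have := hI w h
      rw [hvw] at this
      exact lt_irrefl _ this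
    have hB : ¬ inI k p L nm w⁻¹ := fun h => by
      have := hI w⁻¹ h
      rw [hvw'] at this
      exact lt_irrefl _ this
    have hnw : nm w * nm n ^ p = 1 := by
      rw [← npow hG hn, ← nmul hG hwL (pow_mem hn p), hw, div_mul_cancel₀ _ hnp, hun]
    rcases lt_trichotomy (nm n) 1 with h | h | h
    · apply hB
      apply inI_m1 hG
      refine ⟨L.inv_mem hwL, ?_⟩
      rw [ninv hG hwL hw0]
      have h3 : (nm w)⁻¹ = nm n ^ p := by
        have := npos hG hwL hw0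
        field_simp
        linarith
      rw [h3]
      exact pow_lt_one₀ (nnn hG hn) h hp.ne_zero
    · have hw1 : nm w = 1 := by rw [h, one_pow, mul_one] at hnw; exact hnw
      obtain ⟨m, a, b, ha, hb, hc⟩ := normal hG hn h
      have hc2 := m1pow hG (o1mul hG (ev_o1 hG b) ⟨hn, h.le⟩)
        (o1mul hG ⟨zpow_mem huL m, (nzpow hG huL hu hun _).le⟩ (ev_o1 hG a)) hc p
      have hc3 : m1 L nm (ev k Ω (a ^ p) * w - tt k Ω ^ (1 - m * (p : ℤ)) * ev k Ω (b ^ p)) := by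
        have e : ev k Ω (a ^ p) * w - tt k Ω ^ (1 - m * (p : ℤ)) * ev k Ω (b ^ p) =
            -(((ev k Ω b * n) ^ p - (tt k Ω ^ m * ev k Ω a) ^ p) * (w * tt k Ω ^ (-(m * (p : ℤ))))) := by
          rw [ev_pow, ev_pow, mul_pow, mul_pow, ← zpow_natCast (tt k Ω ^ m) p, ← zpow_mul, zpow_sub₀ hu, zpow_one,
            zpow_neg, hw]
          have hz : tt k Ω ^ (m * (p : ℤ)) ≠ 0 := zpow_ne_zero _ hu
          field_simp
          ring
        rw [e]
        exact m1neg hG (m1mul hG hc2 (o1mul hG ⟨hwL, hw1.le⟩ ⟨zpow_mem huL _, (nzpow hG huL hu hun _).le⟩))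
      have hne : 1 - m * (p : ℤ) ≠ 0 := by
        intro h0
        have h1 : (p : ℤ) ∣ 1 := ⟨m, by linarith⟩
        exact hp.one_lt.ne' (by exact_mod_cast Int.eq_one_of_dvd_one (by positivity) h1)
      have hap : c0 p (a ^ p) ≠ 0 := by rw [c0_pow]; exact pow_ne_zero _ ha
      have hbp : c0 p (b ^ p) ≠ 0 := by rw [c0_pow]; exact pow_ne_zero _ hb
      rcases lt_or_gt_of_ne hne with hm | hm
      · exact hB (inI_neg hG hwL hw1 hbp hc3 hm)
      · exact hA (inI_pos hwL hw1 hap hc3 hm)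
    · apply hA
      apply inI_m1 hG
      refine ⟨hwL, ?_⟩
      have h2 : 1 < nm n ^ p := one_lt_pow₀ h hp.ne_zero
      have h3 := npos hG hwL hw0
      nlinarith

end BSC
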