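import Pool.Agent.Lib_MP_49ddc8.Defs

/-!
# [V-AR1] (A1) for finite extensions of `𝔽_p(X)`, `p` odd

[V-AR1] `V ≠ ⊤`, `z ≠ 0`, `V.valuation z < 1`.  There are `w j ∈ 1 + 𝔪` with `w 0 = 1 + z`, `w (j + 1) ^ 2 = w j` (`(w - 1)(w + 1) ∈ 𝔪`, change the sign), so `1 + z = w j ^ (2 ^ j)` for all `j`.
Here `z` is taken in `𝔽_p(X)` (possible, as `M` is integral over `𝔽_p(X)`); the norm gives
`(1 + z) ^ n = N (w j) ^ (2 ^ j)` in `𝔽_p(X)` for all `j`, so `1 + z` is a constant and `V.valuation z = 1`.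
-/

set_option autoImplicit false

open Polynomial

namespace BSC

private theorem va1_seq {M : Type} [Field M] (V : ValuationSubring M)
    (hV : ∀ z : M, V.valuation z < 1 → ∃ w : M, 1 + z = w ^ 2) (z : M) (hz : V.valuation z < 1)
    (j : ℕ) : ∃ w : M, V.valuation (w - 1) < 1 ∧ w ^ (2 ^ j) = 1 + z := by
  induction j with
  | zero => exact ⟨1 + z, by simpa using hz, by simp⟩
  | succ j ih =>
    obtain ⟨w, hw, hwj⟩ := ih
    obtain ⟨v, hv⟩ := hV (w - 1) hw
    have hv' : w = v ^ 2 := by rw [← hv]; ring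
    have hprod : V.valuation (v - 1) * V.valuation (v + 1) < 1 := by
      rw [← map_mul]
      have : (v - 1) * (v + 1) = w - 1 := by rw [hv']; ring
      rw [this]
      exact hw
    rcases lt_or_ge (V.valuation (v - 1)) 1 with h | h
    · refine ⟨v, h, ?_⟩
      rw [pow_succ', pow_mul, ← hv', hwj]
    · have h2 : V.valuation (v + 1) < 1 := by
        by_contra hcon
        push Not at hcon
        exact absurd hprod (not_lt.mpr (one_le_mul h hcon))
      refine ⟨-v, ?_, ?_⟩
      · have : -v - 1 = -(v + 1) := by ring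
        rw [this, Valuation.map_neg]
        exact h2
      · rw [pow_succ', pow_mul, neg_sq, ← hv', hwj]

private theorem va1_deg {F : Type} [Field F] {a b c d : F[X]} {k : ℕ} (hab : IsCoprime a b)
    (hcd : IsCoprime c d) (ha : a ≠ 0) (hc : c ≠ 0) (h : a * d ^ k = b * c ^ k) :
    a.natDegree = k * c.natDegree := by
  have h1 : c ^ k ∣ a := by
    have h2 : c ^ k ∣ a * d ^ k := by rw [h]; exact Dvd.intro_left b rfl
    exact (IsCoprime.pow hcd).dvd_of_dvd_mul_right h2
  have h3 : a ∣ c ^ k := by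
    have h2 : a ∣ b * c ^ k := by rw [← h]; exact Dvd.intro _ rfl
    exact hab.dvd_of_dvd_mul_left h2
  have h4 := natDegree_le_of_dvd h1 ha
  have h5 := natDegree_le_of_dvd h3 (pow_ne_zero k hc)
  rw [natDegree_pow] at h4 h5
  omega

/-- an element of `F(X)` whose power is infinitely `2`-divisible is a constant -/
private theorem va1_const {F : Type} [Field F] (t : RatFunc F) (ht : t ≠ 0) (n : ℕ) (hn : 0 < n)
    (h : ∀ j : ℕ, ∃ g : RatFunc F, t ^ n = g ^ (2 ^ j)) : ∃ c : F, t = RatFunc.C c := by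
  obtain ⟨a, ha⟩ : ∃ a, a = t.num := ⟨_, rfl⟩
  obtain ⟨b, hb⟩ : ∃ b, b = t.denom := ⟨_, rfl⟩
  have hab : IsCoprime a b := by rw [ha, hb]; exact t.isCoprime_num_denom
  have hb0 : b ≠ 0 := by rw [hb]; exact t.denom_ne_zero
  have ha0 : a ≠ 0 := by rw [ha]; exact RatFunc.num_ne_zero ht
  have htab : t = algebraMap F[X] (RatFunc F) a / algebraMap F[X] (RatFunc F) b := by
    rw [ha, hb, RatFunc.num_div_denom]
  have hinj := RatFunc.algebraMap_injective F
  have key : a.natDegree = 0 ∧ b.natDegree = 0 := by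
    obtain ⟨j, hj⟩ : ∃ j : ℕ, n * a.natDegree + n * b.natDegree < 2 ^ j :=
      ⟨n * a.natDegree + n * b.natDegree, Nat.lt_two_pow_self⟩
    obtain ⟨g, hg⟩ := h j
    have hg0 : g ≠ 0 := by
      intro h0
      rw [h0, zero_pow (by positivity)] at hg
      exact ht (pow_eq_zero_iff hn.ne' |>.mp hg)
    have hgd : algebraMap F[X] (RatFunc F) g.denom ≠ 0 := by
      rw [Ne, map_eq_zero_iff _ hinj]
      exact g.denom_ne_zero
    have hbd : algebraMap F[X] (RatFunc F) b ≠ 0 := by
      rw [Ne, map_eq_zero_iff _ hinj]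
      exact hb0
    have e : a ^ n * g.denom ^ (2 ^ j) = b ^ n * g.num ^ (2 ^ j) := by
      apply hinj
      rw [map_mul, map_mul, map_pow, map_pow, map_pow, map_pow]
      have hg' : (algebraMap F[X] (RatFunc F) a / algebraMap F[X] (RatFunc F) b) ^ n =
          (algebraMap F[X] (RatFunc F) g.num / algebraMap F[X] (RatFunc F) g.denom) ^ (2 ^ j) := by
        rw [← htab, RatFunc.num_div_denom]
        exact hg
      rw [div_pow, div_pow, div_eq_div_iff (pow_ne_zero _ hbd) (pow_ne_zero _ hgd)] at hg'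
      rw [hg']
      ring
    have hnum0 : g.num ≠ 0 := RatFunc.num_ne_zero hg0
    have hcop := g.isCoprime_num_denom
    have k1 := va1_deg (k := 2 ^ j) hab.pow hcop (pow_ne_zero n ha0) hnum0 e
    have k2 := va1_deg (k := 2 ^ j) hab.symm.pow hcop.symm (pow_ne_zero n hb0)
      g.denom_ne_zero e.symm
    rw [natDegree_pow] at k1 k2
    have e1 : g.num.natDegree = 0 := by
      by_contra hcon
      have : 2 ^ j * 1 ≤ 2 ^ j * g.num.natDegree :=
        Nat.mul_le_mul_left _ (Nat.one_le_iff_ne_zero.mpr hcon)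
      omega
    have e2 : g.denom.natDegree = 0 := by
      by_contra hcon
      have : 2 ^ j * 1 ≤ 2 ^ j * g.denom.natDegree :=
        Nat.mul_le_mul_left _ (Nat.one_le_iff_ne_zero.mpr hcon)
      omega
    rw [e1, mul_zero] at k1
    rw [e2, mul_zero] at k2
    exact ⟨(Nat.mul_eq_zero.mp k1).resolve_left hn.ne', (Nat.mul_eq_zero.mp k2).resolve_left hn.ne'⟩
  obtain ⟨u, hu⟩ := natDegree_eq_zero.mp key.1
  obtain ⟨v, hv⟩ := natDegree_eq_zero.mp key.2
  refine ⟨u / v, ?_⟩
  rw [htab, ← hu, ← hv, map_div₀]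
  simp [RatFunc.algebraMap_C]

theorem arith_cp1 (p : ℕ) [Fact p.Prime] (hp2 : p ≠ 2) (M : Type) [Field M] [Algebra (RatFunc (ZMod p)) M]
    [FiniteDimensional (RatFunc (ZMod p)) M] (V : ValuationSubring M)
    (hV : ∀ z : M, V.valuation z < 1 → ∃ w : M, 1 + z = w ^ 2) : V = ⊤ := by
  classical
  by_contra hne
  have h1 : ∃ y : RatFunc (ZMod p), algebraMap (RatFunc (ZMod p)) M y ∉ V := by
    by_contra hcon
    push Not at hcon
    apply hne
    rw [eq_top_iff]
    intro x _
    have hx : IsIntegral (RatFunc (ZMod p)) x := Algebra.IsIntegral.isIntegral x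
    obtain ⟨f, hf, hfx⟩ := hx
    let φ : RatFunc (ZMod p) →+* V := (algebraMap (RatFunc (ZMod p)) M).codRestrict V hcon
    have hx2 : IsIntegral V x := by
      refine ⟨f.map φ, hf.map φ, ?_⟩
      rw [eval₂_map]
      exact hfx
    obtain ⟨y, hy⟩ := IsIntegrallyClosed.isIntegral_iff.mp hx2
    rw [← hy]
    exact y.2
  obtain ⟨y, hy⟩ := h1
  obtain ⟨z, hz⟩ : ∃ z, z = y⁻¹ := ⟨_, rfl⟩
  have hy0 : y ≠ 0 := by
    intro h0
    rw [h0, map_zero] at hy
    exact hy V.zero_mem
  have hz0 : z ≠ 0 := by rw [hz]; exact inv_ne_zero hy0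
  have hval : V.valuation (algebraMap (RatFunc (ZMod p)) M z) < 1 := by
    have h2 : 1 < V.valuation (algebraMap (RatFunc (ZMod p)) M y) := by
      by_contra hcon
      push Not at hcon
      exact hy ((V.valuation_le_one_iff _).mp hcon)
    rw [hz, map_inv₀, map_inv₀]
    exact inv_lt_one_of_one_lt₀ h2
  -- constants have valuation one
  have hconst : ∀ c : ZMod p, c ≠ 0 →
      V.valuation (algebraMap (RatFunc (ZMod p)) M (RatFunc.C c)) = 1 := by
    intro c hc
    have h2 : c ^ (p - 1) = 1 := ZMod.pow_card_sub_one_eq_one hc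
    have h3 : V.valuation (algebraMap (RatFunc (ZMod p)) M (RatFunc.C c)) ^ (p - 1) = 1 := by
      rw [← map_pow, ← map_pow, ← map_pow, h2, map_one, map_one, map_one]
    have hp1 : p - 1 ≠ 0 := by
      have := (Fact.out : p.Prime).two_le
      omega
    exact (pow_eq_one_iff_of_nonneg zero_le hp1).mp h3
  have ht : (1 + z : RatFunc (ZMod p)) ≠ 0 := by
    intro h0
    have h2 : z = RatFunc.C (-1) := by
      rw [map_neg, map_one]
      linear_combination h0
    rw [h2, hconst (-1) (by simp)] at hval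
    exact lt_irrefl _ hval
  have hfin : 0 < Module.finrank (RatFunc (ZMod p)) M := Module.finrank_pos
  obtain ⟨c, hc⟩ := va1_const (1 + z) ht (Module.finrank (RatFunc (ZMod p)) M) hfin (by
    intro j
    obtain ⟨w, _, hw⟩ := va1_seq V hV _ hval j
    refine ⟨Algebra.norm (RatFunc (ZMod p)) w, ?_⟩
    rw [← map_pow, hw, ← Algebra.norm_algebraMap (S := M) (1 + z), map_add, map_one])
  have hzc : z = RatFunc.C (c - 1) := by
    rw [map_sub, map_one, ← hc]
    ring
  have hc1 : c - 1 ≠ 0 := by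
    intro h0
    rw [h0, map_zero] at hzc
    exact hz0 hzc
  rw [hzc, hconst _ hc1] at hval
  exact lt_irrefl _ hval

end BSC
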