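import Pool.Agent.Lib_MP_49ddc8.VaArith

/-!
# [V-AR2] (A2) for finite extensions of `𝔽_p(X)`, `p` odd

The proof is in `Lib_MP_49ddc8/VaArith.lean`.
-/

set_option autoImplicit false

open Polynomial

namespace BSC

theorem va_two_ne (p : ℕ) [Fact p.Prime] (hp2 : p ≠ 2) : (2 : ZMod p) ≠ 0 := by
  intro h
  have h1 : ((2 : ℕ) : ZMod p) = 0 := by exact_mod_cast h
  rw [ZMod.natCast_eq_zero_iff] at h1
  have hp : p.Prime := Fact.out
  exact hp2 ((Nat.prime_dvd_prime_iff_eq hp Nat.prime_two).1 h1)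

theorem arith_cp2 (p : ℕ) [Fact p.Prime] (hp2 : p ≠ 2) (M : Type) [Field M] [Algebra (RatFunc (ZMod p)) M]
    [FiniteDimensional (RatFunc (ZMod p)) M] :
    ∃ a : M, (¬ ∃ w : M, a = w ^ 2) ∧ (¬ ∃ w : M, 1 + a = w ^ 2) ∧ ¬ ∃ w : M, a * (1 + a) = w ^ 2 :=
  (arith_rf M (va_two_ne p hp2)).2

end BSC
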