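import Pool.Agent.Lib_MP_49ddc8.VaAlg

/-!
# [V-AL] The algebra lemma

`R` a field of characteristic `p`, `F = 𝔽_p(u) ⊆ R` (`θ`), `u` not a `p`-th power in `R`, every `x ≠ 0` of `R` is `ε ^ j l y ^ p`, `l ∈ F`.  Then `R = F`.
The proof is `va_alg` in `Lib_MP_49ddc8/VaAlg.lean`; here: `𝔽_p(X) = ⊕ X ^ i 𝔽_p(X) ^ p`.
-/

set_option autoImplicit false

open Polynomial

namespace BSC

theorem poly_pth (p : ℕ) [Fact p.Prime] (g : (ZMod p)[X]) :
    ∃ c : ℕ → (ZMod p)[X], g = ∑ i ∈ Finset.range p, X ^ i * c i ^ p := by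
  have hp : p.Prime := Fact.out
  induction g using Polynomial.induction_on' with
  | add f g hf hg =>
    obtain ⟨c, hc⟩ := hf
    obtain ⟨d, hd⟩ := hg
    refine ⟨fun i => c i + d i, ?_⟩
    rw [hc, hd, ← Finset.sum_add_distrib]
    refine Finset.sum_congr rfl fun i _ => ?_
    rw [add_pow_char (c i) (d i) p]
    ring
  | monomial n a =>
    refine ⟨fun i => if i = n % p then C a * X ^ (n / p) else 0, ?_⟩
    rw [Finset.sum_eq_single (n % p)]
    · beta_reduce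
      rw [if_pos rfl, mul_pow, ← C_pow, ZMod.pow_card, ← pow_mul, ← C_mul_X_pow_eq_monomial]
      conv_lhs => rw [← Nat.mod_add_div n p]
      rw [pow_add, mul_comm p (n / p)]
      ring
    · intro i _ hi
      beta_reduce
      rw [if_neg hi, zero_pow hp.ne_zero, mul_zero]
    · intro h
      exact absurd (Finset.mem_range.2 (Nat.mod_lt _ hp.pos)) h

theorem rat_pth (p : ℕ) [Fact p.Prime] (g : RatFunc (ZMod p)) :
    ∃ c : ℕ → RatFunc (ZMod p), g = ∑ i ∈ Finset.range p, RatFunc.X ^ i * c i ^ p := by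
  have hp : p.Prime := Fact.out
  obtain ⟨c, hc⟩ := poly_pth p (g.num * g.denom ^ (p - 1))
  have hb : algebraMap (ZMod p)[X] (RatFunc (ZMod p)) g.denom ≠ 0 := fun h0 =>
    RatFunc.denom_ne_zero g (RatFunc.algebraMap_injective _ (by rw [h0, map_zero]))
  refine ⟨fun i => algebraMap _ _ (c i) / algebraMap _ _ g.denom, ?_⟩
  have h1 : g = algebraMap (ZMod p)[X] (RatFunc (ZMod p)) (g.num * g.denom ^ (p - 1)) /
      algebraMap (ZMod p)[X] (RatFunc (ZMod p)) g.denom ^ p := by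
    conv_lhs => rw [← RatFunc.num_div_denom g]
    have h2 : ∀ b : RatFunc (ZMod p), b ^ p = b ^ (p - 1) * b := fun b => by
      rw [← pow_succ, Nat.sub_add_cancel hp.one_le]
    rw [div_eq_div_iff hb (pow_ne_zero _ hb), map_mul, map_pow, h2]
    ring
  conv_lhs => rw [h1, hc, map_sum, Finset.sum_div]
  refine Finset.sum_congr rfl fun i _ => ?_
  rw [map_mul, map_pow, map_pow, RatFunc.algebraMap_X, div_pow, mul_div_assoc]

theorem alg_lemma (p : ℕ) [Fact p.Prime] (R : Type) [Field R] [CharP R p] (θ : RatFunc (ZMod p) →+* R) (ε : R) (hε : ε ≠ 0)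
    (hu : ¬ ∃ b : R, b ^ p = θ RatFunc.X)
    (hR : ∀ x : R, x ≠ 0 → ∃ (j : ℤ) (l : RatFunc (ZMod p)) (y : R), x = ε ^ j * θ l * y ^ p) : Function.Surjective θ := by
  have hp : p.Prime := Fact.out
  have h := va_alg p θ.fieldRange (θ RatFunc.X) ⟨_, rfl⟩ ?_ (fun ⟨w, hw⟩ => hu ⟨w, hw.symm⟩) ε ?_
  · intro x
    exact h x
  · rintro x ⟨g, rfl⟩
    obtain ⟨c, hc⟩ := rat_pth p g
    refine ⟨fun i => θ (c i), fun i => ⟨c i, rfl⟩, ?_⟩
    conv_lhs => rw [hc, map_sum]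
    refine Finset.sum_congr rfl fun i _ => ?_
    rw [map_mul, map_pow, map_pow]
  · intro x hx
    obtain ⟨j, l, y, hy⟩ := hR x hx
    have hp0 : (p : ℤ) ≠ 0 := by exact_mod_cast hp.ne_zero
    have hj := Int.emod_nonneg j hp0
    refine ⟨(j % p).toNat, θ l, ⟨l, rfl⟩, ε ^ (j / (p : ℤ)) * y, ?_⟩
    have h1 : ε ^ j = ε ^ ((j % p).toNat) * (ε ^ (j / (p : ℤ))) ^ p := by
      rw [← zpow_natCast ε, ← zpow_natCast (ε ^ (j / (p : ℤ))), ← zpow_mul, ← zpow_add₀ hε, Int.toNat_of_nonneg hj]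
      congr 1
      have := Int.emod_add_ediv_mul j p
      linarith
    rw [hy, h1, mul_pow]
    ring

end BSC
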