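import Pool.Agent.Lib_MP_49ddc8_v.VA1
import Pool.Agent.Lib_MP_49ddc8_v.VA2

/-!
# `Arith M` for finite extensions `M` of `𝔽_p(X)`, `p` odd
-/

set_option autoImplicit false

open Polynomial

namespace BSC

theorem arith_cp (p : ℕ) [Fact p.Prime] (hp2 : p ≠ 2) (M : Type) [Field M] [Algebra (RatFunc (ZMod p)) M]
    [FiniteDimensional (RatFunc (ZMod p)) M] : Arith M :=
  ⟨fun V hV => arith_cp1 p hp2 M V hV, arith_cp2 p hp2 M⟩

end BSC
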