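import Pool.Agent.Lib_MP_49ddc8_v.VMa
import Pool.Agent.Lib_MP_49ddc8.Wrap

/-!
# The theorem over `κ` with a finite extension `k(u)`
-/

set_option autoImplicit false

open Polynomial

namespace BSC

theorem bsc_ku (κ : Type) [Field κ] [CharZero κ] (K : Type) [Field K] [Algebra κ K]
    (htd : ∃ t : K, Transcendental κ t ∧ Algebra.IsAlgebraic (IntermediateField.adjoin κ {t}) K)
    (k : Type) [Field k] [CharZero k] (hk : (⊤ : IntermediateField ℚ k).FG) [Algebra κ (RatFunc k)] [FiniteDimensional κ (RatFunc k)]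
    (s : ((algebraicClosure κ (AlgebraicClosure K)) ≃ₐ[κ] (algebraicClosure κ (AlgebraicClosure K))) →*
      (AlgebraicClosure K ≃ₐ[K] AlgebraicClosure K)) (hs : Continuous s)
    (hres : ∀ (τ : (algebraicClosure κ (AlgebraicClosure K)) ≃ₐ[κ] (algebraicClosure κ (AlgebraicClosure K)))
      (x : algebraicClosure κ (AlgebraicClosure K)),
        s τ (x : AlgebraicClosure K) = ((τ x : algebraicClosure κ (AlgebraicClosure K)) : AlgebraicClosure K)) :
    ∃! O : ValuationSubring K,
      ((∀ c : κ, algebraMap κ K c ∈ O) ∧ O ≠ ⊤ ∧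
        ∀ x ∈ O, ∃ c : κ, x - algebraMap κ K c = 0 ∨ (x - algebraMap κ K c)⁻¹ ∉ O) ∧
      ∃ W : ValuationSubring (AlgebraicClosure K),
        W.comap (algebraMap K (AlgebraicClosure K)) = O ∧
        ∀ τ, ∀ y : AlgebraicClosure K, (s τ y ∈ W ↔ y ∈ W) := by
  haveI : Algebra.IsAlgebraic κ (RatFunc k) := Algebra.IsAlgebraic.of_finite _ _
  let φ : RatFunc k →ₐ[κ] AlgebraicClosure K := IsAlgClosed.lift
  refine bsc_of_U' κ K htd k φ s hs hres ?_
  intro _ _ _ hφ hφk S hdep hiff hfix
  obtain ⟨t, ht, -⟩ := htd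
  haveI : CharZero (AlgebraicClosure K) := charZero_of_injective_algebraMap (algebraMap κ (AlgebraicClosure K)).injective
  refine exists_U_all hk S hdep (algebraMap K (AlgebraicClosure K) t)
    (hfix _ (IntermediateField.algebraMap_mem _ t)) ?_
  intro h
  apply ht
  have h1 : IsAlgebraic κ (algebraMap K (AlgebraicClosure K) t) := (hiff _).1 h
  exact (isAlgebraic_algebraMap_iff (algebraMap K (AlgebraicClosure K)).injective).1 h1

end BSC
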