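import Mathlib

/-!
# [V-C1] Algebraically independent `p`-adic integers near given integers

Induction on `n`: `F = ` the algebraic closure in `ℚ_[p]` of `adjoin ℚ {τ 0, .., τ (n - 1)}` is countable (`Algebra.IsAlgebraic.cardinalMk_le_max` or `Algebraic.countable`), the ball `{x : ‖x - c n‖ < 1}` is uncountable (`ℚ_[p]` has no isolated points and is complete: perfect set, or: `ℤ_[p]` is uncountable,
`x ↦ c n + p x` is injective), so it contains an element transcendental over `F`.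
-/

set_option autoImplicit false

namespace BSC

open MvPolynomial Cardinal in
/-- an affine change of algebraically independent elements -/
theorem VC1_affine {K : Type*} [Field K] [Algebra ℚ K] {n : ℕ} (t : Fin n → K)
    (ht : AlgebraicIndependent ℚ t) (a b : Fin n → ℚ) (ha : ∀ i, a i ≠ 0) :
    AlgebraicIndependent ℚ fun i => algebraMap ℚ K (a i) * t i + algebraMap ℚ K (b i) := by
  rw [algebraicIndependent_iff_injective_aeval] at ht ⊢
  let φ : MvPolynomial (Fin n) ℚ →ₐ[ℚ] MvPolynomial (Fin n) ℚ :=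
    aeval fun i => C (a i) * X i + C (b i)
  let ψ : MvPolynomial (Fin n) ℚ →ₐ[ℚ] MvPolynomial (Fin n) ℚ :=
    aeval fun i => C (a i)⁻¹ * (X i - C (b i))
  have h1 : ψ.comp φ = AlgHom.id ℚ _ := by
    refine MvPolynomial.algHom_ext fun i => ?_
    simp only [AlgHom.comp_apply, AlgHom.id_apply, φ, ψ, aeval_X, map_add, map_mul, algHom_C,
      MvPolynomial.algebraMap_eq]
    rw [← mul_assoc, ← C_mul, mul_inv_cancel₀ (ha i), C_1]
    ring
  have h2 : (aeval fun i => algebraMap ℚ K (a i) * t i + algebraMap ℚ K (b i) :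
      MvPolynomial (Fin n) ℚ →ₐ[ℚ] K) = (aeval t).comp φ := by
    refine MvPolynomial.algHom_ext fun i => ?_
    simp only [AlgHom.comp_apply, φ, aeval_X, map_add, map_mul, algHom_C]
  rw [h2, AlgHom.coe_comp]
  refine ht.comp ?_
  intro x y hxy
  have h3 := congrArg ψ hxy
  have h4 : ∀ z, ψ (φ z) = z := fun z => by
    have := DFunLike.congr_fun h1 z
    simpa using this
  rw [h4, h4] at h3
  exact h3

open Cardinal in
/-- a transcendence basis of `ℚ_[p]` is infinite -/
theorem VC1_infinite (p : ℕ) [Fact p.Prime] (s : Set ℚ_[p])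
    (hs : IsTranscendenceBasis ℚ ((↑) : s → ℚ_[p])) : s.Infinite := by
  intro hfin
  have : Countable s := hfin.countable
  have h1 : Algebra.IsAlgebraic (Algebra.adjoin ℚ (Set.range ((↑) : s → ℚ_[p]))) ℚ_[p] :=
    hs.isAlgebraic
  have h2 : #(Algebra.adjoin ℚ (Set.range ((↑) : s → ℚ_[p]))) ≤ ℵ₀ := by
    have h3 := hs.1.aevalEquiv.toEquiv.symm.injective
    have : Countable (MvPolynomial s ℚ) := by
      rw [← Cardinal.mk_le_aleph0_iff]
      refine (MvPolynomial.cardinalMk_le_max (σ := s) (R := ℚ)).trans ?_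
      simp
    exact Cardinal.mk_le_aleph0_iff.2 h3.countable
  have h4 : #ℚ_[p] ≤ ℵ₀ := by
    refine (Algebra.IsAlgebraic.cardinalMk_le_max
      (Algebra.adjoin ℚ (Set.range ((↑) : s → ℚ_[p]))) ℚ_[p]).trans ?_
    exact max_le h2 le_rfl
  have h5 := continuum_le_cardinal_of_nontriviallyNormedField ℚ_[p]
  exact absurd (h5.trans h4) (not_le.2 aleph0_lt_continuum)

theorem exists_indep (p : ℕ) [Fact p.Prime] (n : ℕ) (c : Fin n → ℤ) :
    ∃ τ : Fin n → ℚ_[p], AlgebraicIndependent ℚ τ ∧ ∀ i, ‖τ i - (c i : ℚ_[p])‖ < 1 := by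
  obtain ⟨s, hs⟩ := exists_isTranscendenceBasis ℚ ℚ_[p]
  have hinf : Infinite s := (VC1_infinite p s hs).to_subtype
  let e : Fin n → s := fun i => Infinite.natEmbedding s i
  have he : Function.Injective e := fun i j h => Fin.ext ((Infinite.natEmbedding s).injective h)
  have ht : AlgebraicIndependent ℚ fun i => ((e i : s) : ℚ_[p]) := hs.1.comp e he
  have hk : ∀ i, ∃ k : ℕ, ‖((p : ℚ_[p]) ^ k) * ((e i : s) : ℚ_[p])‖ < 1 := by
    intro i
    have h1 : Filter.Tendsto (fun k : ℕ => ‖((p : ℚ_[p]) ^ k) * ((e i : s) : ℚ_[p])‖)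
        Filter.atTop (nhds 0) := by
      have h2 : Filter.Tendsto (fun k : ℕ => ‖(p : ℚ_[p])‖ ^ k * ‖((e i : s) : ℚ_[p])‖)
          Filter.atTop (nhds (0 * ‖((e i : s) : ℚ_[p])‖)) :=
        (tendsto_pow_atTop_nhds_zero_of_lt_one (norm_nonneg _) (Padic.norm_p_lt_one)).mul_const
          _
      rw [zero_mul] at h2
      refine h2.congr fun k => ?_
      rw [norm_mul, norm_pow]
    obtain ⟨k, hk⟩ := (h1.eventually (gt_mem_nhds one_pos)).exists
    exact ⟨k, hk⟩
  choose k hk using hk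
  refine ⟨fun i => algebraMap ℚ ℚ_[p] ((p : ℚ) ^ k i) * ((e i : s) : ℚ_[p])
    + algebraMap ℚ ℚ_[p] (c i : ℚ), VC1_affine _ ht _ _ fun i => ?_, fun i => ?_⟩
  · exact pow_ne_zero _ (by exact_mod_cast (Fact.out : p.Prime).ne_zero)
  · have h1 : algebraMap ℚ ℚ_[p] (c i : ℚ) = (c i : ℚ_[p]) := by simp
    show ‖algebraMap ℚ ℚ_[p] ((p : ℚ) ^ k i) * ((e i : s) : ℚ_[p])
      + algebraMap ℚ ℚ_[p] (c i : ℚ) - (c i : ℚ_[p])‖ < 1
    rw [h1, add_sub_cancel_right]
    have h2 : algebraMap ℚ ℚ_[p] ((p : ℚ) ^ k i) = (p : ℚ_[p]) ^ k i := by simp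
    rw [h2]
    exact hk i

end BSC
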