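import Pool.Agent.Lib_MP_49ddc8.Gal

/-!
# Definitions for the vertical valuations of `k(u)` (MP_49ddc8_ag, full theorem over `k(u)`)

`p` is an odd prime, `σ : k → ℚ_p` a field embedding.  `tt k Ω` is the variable `u` of `RatFunc k` in `Ω`.
-/

set_option autoImplicit false

open Polynomial

namespace BSC

/-- the integral polynomial `b` is not divisible by `p` -/
def NZ (p : ℕ) (b : ℤ[X]) : Prop := b.map (Int.castRingHom (ZMod p)) ≠ 0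

/-- The Gauss norm at `p` on the elements of `Ω` algebraic over `k(u)`; `L` is the part of the completion of `ℚ_p(u)` which is algebraic over `k(u)`.
`inv`: the norm is invariant under the automorphisms fixing `L`.  `disc`: value group `p^ℤ`.  `res`: the residue field is `𝔽_p(u)`.
`poly_le`, `poly_ge`: on `k[u]` it is the Gauss norm (the maximum of the norms of the coefficients). -/
structure GN {k Ω : Type} [Field k] [Field Ω] [Algebra k Ω] [Algebra (RatFunc k) Ω] (p : ℕ) [Fact p.Prime] (σ : k →+* ℚ_[p])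
    (L : IntermediateField (RatFunc k) Ω) (nm : Ω → ℝ) : Prop where
  alg : ∀ x ∈ L, IsAlgebraic (RatFunc k) x
  zero : nm 0 = 0
  pos : ∀ x : Ω, IsAlgebraic (RatFunc k) x → x ≠ 0 → 0 < nm x
  mul : ∀ x y : Ω, IsAlgebraic (RatFunc k) x → IsAlgebraic (RatFunc k) y → nm (x * y) = nm x * nm y
  add : ∀ x y : Ω, IsAlgebraic (RatFunc k) x → IsAlgebraic (RatFunc k) y → nm (x + y) ≤ max (nm x) (nm y)
  inv : ∀ τ : algebraicClosure (RatFunc k) Ω ≃ₐ[RatFunc k] algebraicClosure (RatFunc k) Ω,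
    (∀ x : algebraicClosure (RatFunc k) Ω, (x : Ω) ∈ L → τ x = x) →
      ∀ x : algebraicClosure (RatFunc k) Ω, nm ((τ x : algebraicClosure (RatFunc k) Ω) : Ω) = nm (x : Ω)
  disc : ∀ x ∈ L, x ≠ 0 → ∃ n : ℤ, nm x = (p : ℝ) ^ n
  nm_p : nm (p : Ω) = (p : ℝ)⁻¹
  res : ∀ x ∈ L, nm x ≤ 1 → ∃ a b : ℤ[X], NZ p b ∧ nm (x - aeval (tt k Ω) a / aeval (tt k Ω) b) < 1
  poly_le : ∀ (f : k[X]) (c : ℝ), 0 ≤ c → (∀ i, ‖σ (f.coeff i)‖ ≤ c) → nm (aeval (tt k Ω) f) ≤ c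
  poly_ge : ∀ (f : k[X]) (i : ℕ), ‖σ (f.coeff i)‖ ≤ nm (aeval (tt k Ω) f)

/-- the set `PP` of the local theorem for the norm `nm`: `z = c w²`, `nm c` an odd power of `ρ = nm π` (`π` the uniformiser of `E`), `1 + z` a square in `M` -/
def NPrim {Ω : Type} [Field Ω] (E M : Subfield Ω) (nm : Ω → ℝ) (ρ : ℝ) (z : Ω) : Prop :=
  (∃ c ∈ E, c ≠ 0 ∧ (∃ n : ℤ, Odd n ∧ nm c = ρ ^ n) ∧ ∃ w ∈ M, w ≠ 0 ∧ z = c * w ^ 2) ∧ ∃ v ∈ M, 1 + z = v ^ 2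

/-- A discretely valued field `E ⊆ Ω` (norm `nm`, uniformiser `π`) for the local theorem in mixed characteristic. -/
structure ME {Ω : Type} [Field Ω] (E : Subfield Ω) (nm : Ω → ℝ) (π : Ω) : Prop where
  zero : nm 0 = 0
  pos : ∀ x ∈ E, x ≠ 0 → 0 < nm x
  mul : ∀ x ∈ E, ∀ y ∈ E, nm (x * y) = nm x * nm y
  add : ∀ x ∈ E, ∀ y ∈ E, nm (x + y) ≤ max (nm x) (nm y)
  mem : π ∈ E
  ne : π ≠ 0
  lt : nm π < 1
  disc : ∀ x ∈ E, x ≠ 0 → ∃ n : ℤ, nm x = nm π ^ n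
  sq : ∀ z ∈ E, nm z < 1 → ∃ w ∈ E, 1 + z = w ^ 2
  neg : ∃ i ∈ E, i ^ 2 = (-1 : Ω)
  val1 : ∀ V : ValuationSubring E, (∀ z : E, nm (z : Ω) < 1 → V.valuation z < 1) →
    (∀ z : E, V.valuation z < 1 → ∃ w : E, 1 + z = w ^ 2) → ∀ z : E, nm (z : Ω) ≤ 1 → z ∈ V
  wit : ∃ a ∈ E, a ≠ 0 ∧ 1 + a ≠ 0 ∧ nm a = 1 ∧ nm (1 + a) = 1 ∧ (¬ ∃ w ∈ E, a = w ^ 2) ∧ (¬ ∃ w ∈ E, 1 + a = w ^ 2) ∧
    ¬ ∃ w ∈ E, a * (1 + a) = w ^ 2

/-- `τ` fixes the elements of `A` -/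
def Fix {κ Ω : Type} [Field κ] [Field Ω] [Algebra κ Ω] (A : Set Ω) (τ : algebraicClosure κ Ω ≃ₐ[κ] algebraicClosure κ Ω) : Prop :=
  ∀ x : algebraicClosure κ Ω, (x : Ω) ∈ A → τ x = x

/-- `W` lies above the Gauss norm on `L` and is stable under the section over `L` -/
structure VW {k Ω : Type} [Field k] [Field Ω] [Algebra k Ω] [Algebra (RatFunc k) Ω] (S : Sec (RatFunc k) Ω)
    (L : IntermediateField (RatFunc k) Ω) (nm : Ω → ℝ) (W : ValuationSubring Ω) : Prop where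
  mem : ∀ x ∈ L, x ∈ W ↔ nm x ≤ 1
  st : ∀ τ : algebraicClosure (RatFunc k) Ω ≃ₐ[RatFunc k] algebraicClosure (RatFunc k) Ω, Fix (L : Set Ω) τ →
    ∀ z : Ω, S.s τ z ∈ W ↔ z ∈ W

/-- The result of the local part: a valuation ring `W` of `Ω` above the Gauss norm of `k(u)` at `(p, σ)`, such that the elements of the fixed
field `S.F ∅` have reductions in `𝔽_p(u) ∪ {∞}` (`res`), compatible with square classes (`sq`). -/
structure Vert {k Ω : Type} [Field k] [Field Ω] [Algebra k Ω] [Algebra (RatFunc k) Ω] (S : Sec (RatFunc k) Ω) (p : ℕ) [Fact p.Prime]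
    (σ : k →+* ℚ_[p]) (W : ValuationSubring Ω) : Prop where
  poly_mem : ∀ f : k[X], (∀ i, ‖σ (f.coeff i)‖ ≤ 1) → aeval (tt k Ω) f ∈ W
  poly_lt : ∀ f : k[X], W.valuation (aeval (tt k Ω) f) < 1 ↔ ∀ i, ‖σ (f.coeff i)‖ < 1
  res : ∀ x ∈ S.F ∅, x ∈ W → ∃ a b : ℤ[X], NZ p b ∧ W.valuation (x - aeval (tt k Ω) a / aeval (tt k Ω) b) < 1
  sq : ∀ f : k[X], (∀ i, ‖σ (f.coeff i)‖ ≤ 1) → (∃ i, ‖σ (f.coeff i)‖ = 1) → ∀ m ∈ S.F ∅,
    W.valuation (aeval (tt k Ω) f * m ^ 2 - 1) < 1 → ∃ g h : ℤ[X], NZ p g ∧ NZ p h ∧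
      W.valuation (aeval (tt k Ω) f * aeval (tt k Ω) h ^ 2 - aeval (tt k Ω) g ^ 2) < 1

end BSC
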