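import Pool.Agent.Lib_MP_49ddc8_v.VPb
import Pool.Agent.Lib_MP_49ddc8_v.VDefs

/-!
# [G-SF] The squarefree form of an element of `S.F ∅`

`k2` with `A = ∅`: `x = c w ^ 2`, `c ∈ adjoin ∅ = ⊥`, so `c` is the image of `f / g`, `f, g ∈ k[X]` nonzero, `c = (f g)(u) / g(u) ^ 2`; `exists_sqf` for `f g`.  `g(u)`, `h(u) ∈ S.F ∅` (`algebraMap_mem_F`).
-/

set_option autoImplicit false

open Polynomial

namespace BSC

theorem sqf_form {k Ω : Type} [Field k] [CharZero k] [Field Ω] [IsAlgClosed Ω] [Algebra k Ω] [Algebra (RatFunc k) Ω]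
    [IsScalarTower k (RatFunc k) Ω] (S : Sec (RatFunc k) Ω) (x : Ω) (hx : x ∈ S.F ∅) (h0 : x ≠ 0) :
    ∃ F : k[X], Squarefree F ∧ ∃ m ∈ S.F ∅, m ≠ 0 ∧ x = aeval (tt k Ω) F * m ^ 2 := by
  obtain ⟨c, hc, hc0, w, hw, hw0, hx'⟩ := k2 S ∅ (fun x hx => hx.elim) x hx h0
  rw [IntermediateField.adjoin_empty, IntermediateField.mem_bot] at hc
  obtain ⟨r, rfl⟩ := hc
  have hr0 : r ≠ 0 := by
    rintro rfl
    exact hc0 (map_zero _)
  have hev : ∀ P : k[X], aeval (tt k Ω) P = algebraMap (RatFunc k) Ω (algebraMap k[X] (RatFunc k) P) := by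
    intro P
    unfold tt
    rw [aeval_algebraMap_apply, RatFunc.aeval_X_left_eq_algebraMap]
  have hn0 : r.num ≠ 0 := RatFunc.num_ne_zero hr0
  have hd0 : r.denom ≠ 0 := r.denom_ne_zero
  have hinj : Function.Injective (fun P : k[X] => algebraMap (RatFunc k) Ω (algebraMap k[X] (RatFunc k) P)) :=
    (algebraMap (RatFunc k) Ω).injective.comp (IsFractionRing.injective k[X] (RatFunc k))
  have hne : ∀ P : k[X], P ≠ 0 → aeval (tt k Ω) P ≠ 0 := by
    intro P hP h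
    apply hP
    rw [hev] at h
    apply hinj
    simpa using h
  have hmem : ∀ P : k[X], aeval (tt k Ω) P ∈ S.F ∅ := by
    intro P
    rw [hev]
    exact algebraMap_mem_F S ∅ _
  obtain ⟨s, T, hs, hT, hsT⟩ := exists_sqf (r.num * r.denom) (mul_ne_zero hn0 hd0)
  refine ⟨s, hs, aeval (tt k Ω) T * w / aeval (tt k Ω) r.denom, ?_, ?_, ?_⟩
  · exact div_mem (mul_mem (hmem _) hw) (hmem _)
  · exact div_ne_zero (mul_ne_zero (hne _ hT) hw0) (hne _ hd0)
  · have h1 : aeval (tt k Ω) r.num * aeval (tt k Ω) r.denom = aeval (tt k Ω) s * aeval (tt k Ω) T ^ 2 := by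
      rw [← map_mul, hsT, map_mul, map_pow]
    have h2 : algebraMap (RatFunc k) Ω r = aeval (tt k Ω) r.num / aeval (tt k Ω) r.denom := by
      rw [hev, hev, ← map_div₀, RatFunc.num_div_denom]
    have h3 := hne _ hd0
    rw [hx', h2, div_pow, mul_pow, ← mul_div_assoc, div_mul_eq_mul_div, div_eq_div_iff h3 (pow_ne_zero 2 h3)]
    linear_combination (w ^ 2 * aeval (tt k Ω) r.denom) * h1

end BSC
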