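import Pool.Agent.Lib_MP_49ddc8_v.VK1
import Pool.Agent.Lib_MP_49ddc8_v.VSf
import Pool.Agent.Lib_MP_49ddc8.Gen

/-!
# [G-C1] Case 1: the reductions are constant

For `e = 0, 1, 2, 3`: `x - e = F_e(u) m_e ^ 2` (`sqf_form`, `x - e ≠ 0` as `x` is transcendental), `q = C e`.  For almost all `t`: `x ≡ c` (`Rd` with `N = C c`, `D = 1`), `TFam.sq`: `pr F_e * (C (c - e))` is a square.  As the `e` are different mod `p` (`p > 3`) for every `t` at most one `e` has `c = e`; ultrafilter: for all `e`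
with at most one exception `c ≠ e` for almost all `t`.  For these `e`: `pr F_e` is squarefree (`pr_squarefree`) and a constant times a square, so it is constant, so `natDegree F_e = 0` (`pr_natDegree`), `F_e = C c_e`, `c_e ≠ 0`.
Three different such `e_i`: `∏ (x - e_i) = (c₁ c₂ c₃) (m₁ m₂ m₃) ^ 2`; `exists_U_gen (consts_of_fg hk) S hdep f` with `f = C (c₁ c₂ c₃)⁻¹ * ∏ (X - C e_i)` (separable of degree 3), `y = m₁ m₂ m₃`.
-/

set_option autoImplicit false

open Polynomial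

namespace BSC

private theorem cs_unit {p : ℕ} [Fact p.Prime] (A : (ZMod p)[X]) (u : ZMod p) (hu : u ≠ 0) (hA : Squarefree A)
    (h : IsSquare (A * C u)) : A.natDegree = 0 := by
  obtain ⟨y, hy⟩ := h
  have h1 : A = y * y * C u⁻¹ := by
    rw [← hy, mul_assoc, ← C_mul, mul_inv_cancel₀ hu, C_1, mul_one]
  have h2 : IsUnit y := hA y ⟨C u⁻¹, h1⟩
  have h3 : IsUnit A := by
    rw [h1]
    exact (h2.mul h2).mul (isUnit_C.mpr (IsUnit.mk0 _ (inv_ne_zero hu)))
  exact natDegree_eq_zero_of_isUnit h3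

private theorem cs_step {p : ℕ} [Fact p.Prime] (A : (ZMod p)[X]) (c : ℤ) (e : ℕ) (hce : (c : ZMod p) ≠ (e : ZMod p))
    (hA : Squarefree A) (h : IsSquare (A * (C (c : ZMod p) - ired p (C (e : ℤ)) * 1) * 1)) : A.natDegree = 0 := by
  have h5 : ired p (C (e : ℤ)) = C ((e : ℕ) : ZMod p) := by
    unfold ired
    rw [Polynomial.map_C, eq_intCast, Int.cast_natCast]
  rw [h5, mul_one, mul_one, ← C_sub] at h
  exact cs_unit A _ (sub_ne_zero.mpr hce) hA h

theorem case1 {k Ω : Type} [Field k] [CharZero k] [Field Ω] [IsAlgClosed Ω] [Algebra k Ω] [Algebra (RatFunc k) Ω]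
    [IsScalarTower k (RatFunc k) Ω] (hk : (⊤ : IntermediateField ℚ k).FG) (S : Sec (RatFunc k) Ω) (hdep : Dep (RatFunc k) Ω)
    (Y : TFam S) (x : Ω) (hx : x ∈ S.F ∅) (htr : Transcendental (RatFunc k) x)
    (hc : ∀ᶠ t in (Y.U : Filter Y.T), ∃ c : ℤ, (Y.tri t).W.valuation (x - (c : Ω)) < 1) :
    ∃ U : ValuationSubring Ω, (∀ z : Ω, IsAlgebraic (RatFunc k) z → z ∈ U) ∧ (∃ ξ : Ω, ξ ≠ 0 ∧ U.valuation ξ < 1) ∧
      ∀ (τ : algebraicClosure (RatFunc k) Ω ≃ₐ[RatFunc k] algebraicClosure (RatFunc k) Ω) (z : Ω), S.s τ z ∈ U ↔ z ∈ U := by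
  have hne : ∀ e : ℕ, x - (e : Ω) ≠ 0 := by
    intro e h
    apply htr
    have h1 : x = algebraMap (RatFunc k) Ω (e : RatFunc k) := by
      rw [map_natCast]
      exact sub_eq_zero.mp h
    rw [h1]
    exact isAlgebraic_algebraMap _
  have hmem : ∀ e : ℕ, x - (e : Ω) ∈ S.F ∅ := fun e => sub_mem hx (natCast_mem _ e)
  choose F hF m hm hm0 hFm using fun e : ℕ => sqf_form S (x - (e : Ω)) (hmem e) (hne e)
  have key : ∀ e : ℕ, ∀ᶠ t in (Y.U : Filter Y.T), ∀ c : ℤ, (Y.tri t).W.valuation (x - (c : Ω)) < 1 →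
      (F e).natDegree = 0 ∨ (c : ZMod (Y.tri t).p) = (e : ZMod (Y.tri t).p) := by
    intro e
    have h0 : x - aeval (tt k Ω) (C (e : ℤ)) = aeval (tt k Ω) (F e) * m e ^ 2 := by
      rw [aeval_C, ← hFm e]
      simp
    have h1 := Y.sq x (C (e : ℤ)) (F e) (hF e).ne_zero (m e) (hm e) h0
    have h2 : ∀ᶠ t in (Y.U : Filter Y.T), Squarefree (Y.fam.pr t (F e)) := Y.fam.pr_squarefree (F e) (hF e)
    have h3 : ∀ᶠ t in (Y.U : Filter Y.T), (Y.fam.pr t (F e)).natDegree = (F e).natDegree := Y.fam.pr_natDegree (F e)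
    filter_upwards [h1, h2, h3] with t h1 h2 h3 c hct
    by_contra hcon
    rw [not_or] at hcon
    apply hcon.1
    rw [← h3]
    have hR : Rd (Y.tri t) x (C (c : ZMod (Y.tri t).p)) 1 := by
      refine ⟨C c, 1, ?_, ?_, one_ne_zero, ?_⟩
      · unfold ired
        rw [Polynomial.map_C, eq_intCast]
      · unfold ired
        rw [Polynomial.map_one]
      · rw [map_one, mul_one, aeval_C]
        simpa using hct
    have h4 := h1 _ _ hR
    exact cs_step (p := (Y.tri t).p) (Y.fam.pr t (F e)) c e hcon.2 h2 h4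
  classical
  set s : Finset ℕ := (Finset.range 4).filter (fun e => (F e).natDegree = 0) with hs
  have hcard : 3 ≤ s.card := by
    have h1 : ((Finset.range 4).filter (fun e => ¬ (F e).natDegree = 0)).card ≤ 1 := by
      rw [Finset.card_le_one]
      intro a ha b hb
      rw [Finset.mem_filter, Finset.mem_range] at ha hb
      obtain ⟨t, ⟨c, ht1⟩, ht2, ht3, ht4⟩ := (hc.and ((key a).and ((key b).and (Y.big 4)))).exists
      have h1 := (ht2 c ht1).resolve_left ha.2
      have h2 := (ht3 c ht1).resolve_left hb.2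
      rw [h1] at h2
      have h3 := (ZMod.natCast_eq_natCast_iff' a b _).mp h2
      rw [Nat.mod_eq_of_lt (by omega), Nat.mod_eq_of_lt (by omega)] at h3
      exact h3
    have h2 := Finset.card_filter_add_card_filter_not (s := Finset.range 4) (fun e => (F e).natDegree = 0)
    rw [Finset.card_range, ← hs] at h2
    omega
  have hCe : ∀ e ∈ s, F e = C ((F e).coeff 0) := by
    intro e he
    exact eq_C_of_natDegree_eq_zero (Finset.mem_filter.mp he).2
  have hC0 : ∀ e ∈ s, (F e).coeff 0 ≠ 0 := by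
    intro e he h0
    apply (hF e).ne_zero
    rw [hCe e he, h0, C_0]
  have hval : ∀ e ∈ s, x - (e : Ω) = algebraMap k Ω ((F e).coeff 0) * m e ^ 2 := by
    intro e he
    conv_lhs => rw [hFm e, hCe e he]
    rw [aeval_C]
  set a : k := (∏ e ∈ s, (F e).coeff 0)⁻¹ with ha
  have ha0 : ∏ e ∈ s, (F e).coeff 0 ≠ 0 := Finset.prod_ne_zero_iff.mpr hC0
  have ha1 : a ≠ 0 := inv_ne_zero ha0
  have hsep : (∏ e ∈ s, (X - C ((e : ℕ) : k))).Separable := by
    rw [separable_prod_X_sub_C_iff']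
    intro b _ c _ h
    exact Nat.cast_injective h
  have hsep' : (C a * ∏ e ∈ s, (X - C ((e : ℕ) : k))).Separable := by
    exact ((separable_C a).mpr ha1.isUnit).mul hsep ⟨C a⁻¹, 0, by
      rw [← C_mul, inv_mul_cancel₀ ha1, C_1, zero_mul, add_zero]⟩
  have hdeg : (C a * ∏ e ∈ s, (X - C ((e : ℕ) : k))).natDegree = s.card := by
    rw [natDegree_C_mul ha1, natDegree_prod_of_monic _ _ (fun e _ => monic_X_sub_C _),
      Finset.sum_congr rfl (fun e _ => natDegree_X_sub_C _), Finset.sum_const, smul_eq_mul, mul_one]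
  refine exists_U_gen (consts_of_fg hk) S hdep _ hsep' (by rw [hdeg]; exact hcard) x (∏ e ∈ s, m e) hx
    (prod_mem fun e _ => hm e) htr ?_
  rw [map_mul, aeval_C, map_prod]
  have h1 : ∏ e ∈ s, aeval x (X - C ((e : ℕ) : k)) = algebraMap k Ω (∏ e ∈ s, (F e).coeff 0) * (∏ e ∈ s, m e) ^ 2 := by
    rw [map_prod, ← Finset.prod_pow, ← Finset.prod_mul_distrib]
    refine Finset.prod_congr rfl fun e he => ?_
    rw [← hval e he]
    simp
  rw [h1, ← mul_assoc, ← map_mul, ha, inv_mul_cancel₀ ha0, map_one, one_mul]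

end BSC
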