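import Pool.Agent.Lib_MP_49ddc8_v.VDefs

/-!
# [V-E2] A uniformiser

[V-E2] `E_unif`: `n = [E : L]`.  For `x ∈ E` all conjugates over `L` have the norm of `x` (`inv`; every root of `minpoly L x` is `τ x` with `τ` fixing `L`), so `nm x ^ m = nm (constant coefficient of minpoly L x) ∈ p^ℤ`, `m ∣ n` or `m ≤ n`;
so `nm x ^ (n!) ∈ p^ℤ`; the integers `l` with `nm x ^ (n!) = p ^ l` for some `0 ≠ x ∈ E` form a subgroup `≠ 0` of `ℤ` (`x = p`), take `π ∈ E` with `-l` the positive generator.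
-/

set_option autoImplicit false

open Polynomial

namespace BSC

variable {k Ω : Type} [Field k] [CharZero k] [Field Ω] [IsAlgClosed Ω] [Algebra k Ω] [Algebra (RatFunc k) Ω]
  [IsScalarTower k (RatFunc k) Ω] {p : ℕ} [Fact p.Prime] {σ : k →+* ℚ_[p]} {L : IntermediateField (RatFunc k) Ω} {nm : Ω → ℝ}

private theorem ve2_one (hG : GN p σ L nm) : nm 1 = 1 := by
  have h1 : IsAlgebraic (RatFunc k) (1 : Ω) := isAlgebraic_one
  have h2 := hG.mul 1 1 h1 h1
  rw [one_mul] at h2
  have h3 := hG.pos 1 h1 one_ne_zero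
  have h4 : nm 1 * 1 = nm 1 * nm 1 := by rw [mul_one]; exact h2
  exact (mul_left_cancel₀ h3.ne' h4).symm

private theorem ve2_neg_one (hG : GN p σ L nm) : nm (-1) = 1 := by
  have h1 : IsAlgebraic (RatFunc k) (-1 : Ω) := isAlgebraic_one.neg
  have h2 := hG.mul (-1) (-1) h1 h1
  rw [neg_mul_neg, one_mul, ve2_one hG] at h2
  have h3 := hG.pos (-1) h1 (neg_ne_zero.2 one_ne_zero)
  nlinarith

private theorem ve2_pow (hG : GN p σ L nm) {x : Ω} (hx : IsAlgebraic (RatFunc k) x) (n : ℕ) :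
    nm (x ^ n) = nm x ^ n := by
  induction n with
  | zero => rw [pow_zero, pow_zero, ve2_one hG]
  | succ n ih => rw [pow_succ, hG.mul _ _ (hx.pow n) hx, ih, pow_succ]

private theorem ve2_inv (hG : GN p σ L nm) {x : Ω} (hx : IsAlgebraic (RatFunc k) x) (h0 : x ≠ 0) :
    nm x⁻¹ = (nm x)⁻¹ := by
  have h1 := hG.mul x x⁻¹ hx hx.inv
  rw [mul_inv_cancel₀ h0, ve2_one hG] at h1
  exact eq_inv_of_mul_eq_one_right h1.symm

private theorem ve2_prod (hG : GN p σ L nm) (s : Multiset (algebraicClosure (RatFunc k) Ω)) (c : ℝ)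
    (h : ∀ y ∈ s, nm (y : Ω) = c) :
    nm ((s.prod : algebraicClosure (RatFunc k) Ω) : Ω) = c ^ (Multiset.card s) := by
  induction s using Multiset.induction with
  | empty =>
    rw [Multiset.prod_zero, Multiset.card_zero, pow_zero]
    exact ve2_one hG
  | cons a s ih =>
    have halg : ∀ x : algebraicClosure (RatFunc k) Ω, IsAlgebraic (RatFunc k) (x : Ω) :=
      fun x => mem_algebraicClosure_iff.1 x.2
    rw [Multiset.prod_cons, Multiset.card_cons, pow_succ]
    have h1 : (((a * s.prod : algebraicClosure (RatFunc k) Ω)) : Ω) = (a : Ω) * (s.prod : algebraicClosure (RatFunc k) Ω) := rfl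
    rw [h1, hG.mul _ _ (halg a) (halg _), h a (Multiset.mem_cons_self a s),
      ih fun y hy => h y (Multiset.mem_cons_of_mem hy), mul_comm]

/-- some power `m ≤ [E : L]` of the norm is a power of `p` -/
private theorem ve2_root (hG : GN p σ L nm) (E : IntermediateField (RatFunc k) Ω) (hLE : L ≤ E)
    (hE : ∀ x ∈ E, IsAlgebraic (RatFunc k) x)
    (hfin : FiniteDimensional L (IntermediateField.extendScalars hLE)) (x : Ω) (hx : x ∈ E) (hx0 : x ≠ 0) :
    ∃ m : ℕ, 0 < m ∧ m ≤ Module.finrank L (IntermediateField.extendScalars hLE) ∧ ∃ n : ℤ, nm x ^ m = (p : ℝ) ^ n := by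
  have hLA : L ≤ algebraicClosure (RatFunc k) Ω := fun z hz => mem_algebraicClosure_iff.2 (hG.alg z hz)
  let _ : Algebra L (algebraicClosure (RatFunc k) Ω) := (IntermediateField.inclusion hLA).toRingHom.toAlgebra
  have : IsScalarTower (RatFunc k) L (algebraicClosure (RatFunc k) Ω) :=
    IsScalarTower.of_algebraMap_eq (fun z => ((IntermediateField.inclusion hLA).commutes z).symm)
  have : IsScalarTower L (algebraicClosure (RatFunc k) Ω) Ω := IsScalarTower.of_algebraMap_eq (fun z => rfl)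
  have hN0 : Normal (RatFunc k) (algebraicClosure (RatFunc k) Ω) := inferInstance
  have hN : Normal L (algebraicClosure (RatFunc k) Ω) := Normal.tower_top_of_normal (RatFunc k) L _
  have hxA : x ∈ algebraicClosure (RatFunc k) Ω := mem_algebraicClosure_iff.2 (hE x hx)
  obtain ⟨X, hX⟩ : ∃ X : algebraicClosure (RatFunc k) Ω, (X : Ω) = x := ⟨⟨x, hxA⟩, rfl⟩
  have hint : IsIntegral L X := Normal.isIntegral hN X
  have hsp := Normal.splits hN X
  have hmon : ((minpoly L X).map (algebraMap L (algebraicClosure (RatFunc k) Ω))).Monic :=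
    (minpoly.monic hint).map _
  have hc := hsp.coeff_zero_eq_prod_roots_of_monic hmon
  have hroots : ∀ y ∈ ((minpoly L X).map (algebraMap L (algebraicClosure (RatFunc k) Ω))).roots,
      nm (y : Ω) = nm x := by
    intro y hy
    have h1 : IsConjRoot L X y := (isConjRoot_iff_mem_minpoly_aroots hint).2 hy
    obtain ⟨s, hs⟩ := (isConjRoot_iff_exists_algEquiv).1 h1.symm
    have h2 := hG.inv (s.restrictScalars (RatFunc k)) (fun z hz => by
      have : z = algebraMap L (algebraicClosure (RatFunc k) Ω) ⟨(z : Ω), hz⟩ := rfl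
      rw [this]
      exact s.commutes _) X
    rw [← hX, ← h2]
    rw [← hs]
    rfl
  have hcard : Multiset.card ((minpoly L X).map (algebraMap L (algebraicClosure (RatFunc k) Ω))).roots =
      (minpoly L X).natDegree := by
    rw [← hsp.natDegree_eq_card_roots, natDegree_map]
  refine ⟨(minpoly L X).natDegree, minpoly.natDegree_pos hint, ?_, ?_⟩
  · have h1 : minpoly L X = minpoly L (⟨x, hx⟩ : IntermediateField.extendScalars hLE) := by
      have e1 : minpoly L (algebraMap (algebraicClosure (RatFunc k) Ω) Ω X) = minpoly L X :=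
        minpoly.algebraMap_eq (algebraMap (algebraicClosure (RatFunc k) Ω) Ω).injective X
      have e2 : minpoly L (algebraMap (IntermediateField.extendScalars hLE) Ω ⟨x, hx⟩) =
          minpoly L (⟨x, hx⟩ : IntermediateField.extendScalars hLE) :=
        minpoly.algebraMap_eq (algebraMap (IntermediateField.extendScalars hLE) Ω).injective _
      rw [← e1, ← e2]
      have e3 : algebraMap (algebraicClosure (RatFunc k) Ω) Ω X =
          algebraMap (IntermediateField.extendScalars hLE) Ω ⟨x, hx⟩ := hX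
      rw [e3]
    rw [h1]
    exact minpoly.natDegree_le _
  · have h3 := ve2_prod hG _ _ hroots
    rw [hcard] at h3
    rw [coeff_map] at hc
    have h4 := congrArg (fun z : algebraicClosure (RatFunc k) Ω => nm (z : Ω)) hc
    beta_reduce at h4
    have halg : ∀ z : algebraicClosure (RatFunc k) Ω, IsAlgebraic (RatFunc k) (z : Ω) :=
      fun z => mem_algebraicClosure_iff.1 z.2
    have h5 : nm ((((-1) ^ ((minpoly L X).map (algebraMap L (algebraicClosure (RatFunc k) Ω))).natDegree *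
        (((minpoly L X).map (algebraMap L (algebraicClosure (RatFunc k) Ω))).roots).prod :
          algebraicClosure (RatFunc k) Ω)) : Ω) = nm x ^ (minpoly L X).natDegree := by
      rw [← h3]
      have e1 : ∀ a b : algebraicClosure (RatFunc k) Ω, ((a * b : algebraicClosure (RatFunc k) Ω) : Ω) = (a : Ω) * b :=
        fun a b => rfl
      rw [e1, hG.mul _ _ (halg _) (halg _)]
      have e2 : (((-1) ^ ((minpoly L X).map (algebraMap L (algebraicClosure (RatFunc k) Ω))).natDegree :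
          algebraicClosure (RatFunc k) Ω) : Ω) =
          (-1 : Ω) ^ ((minpoly L X).map (algebraMap L (algebraicClosure (RatFunc k) Ω))).natDegree := by
        push_cast
        rfl
      rw [e2, ve2_pow hG isAlgebraic_one.neg, ve2_neg_one hG, one_pow, one_mul]
    rw [← h5, ← h4]
    have h0 : (minpoly L X).coeff 0 ≠ 0 := by
      refine minpoly.coeff_zero_ne_zero hint ?_
      intro h
      apply hx0
      rw [← hX, h]
      rfl
    obtain ⟨n, hn⟩ := hG.disc (((minpoly L X).coeff 0 : L) : Ω) ((minpoly L X).coeff 0).2 (by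
      intro h
      exact h0 (Subtype.ext h))
    exact ⟨n, hn⟩

theorem E_unif (hG : GN p σ L nm) (E : IntermediateField (RatFunc k) Ω) (hLE : L ≤ E) (hE : ∀ x ∈ E, IsAlgebraic (RatFunc k) x)
    (hfin : FiniteDimensional L (IntermediateField.extendScalars hLE)) :
    ∃ π ∈ E, π ≠ 0 ∧ nm π < 1 ∧ ∀ x ∈ E, x ≠ 0 → ∃ n : ℤ, nm x = nm π ^ n := by
  have hp0 : (0 : ℝ) < p := by exact_mod_cast (Fact.out : p.Prime).pos
  have hp1 : (1 : ℝ) < p := by exact_mod_cast (Fact.out : p.Prime).one_lt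
  obtain ⟨N, hN0, hN⟩ : ∃ N : ℕ, 0 < N ∧ ∀ x ∈ E, x ≠ 0 → ∃ n : ℤ, nm x ^ N = (p : ℝ) ^ n := by
    refine ⟨(Module.finrank L (IntermediateField.extendScalars hLE)).factorial, Nat.factorial_pos _, ?_⟩
    intro x hx hx0
    obtain ⟨m, hm0, hm, n, hn⟩ := ve2_root hG E hLE hE hfin x hx hx0
    obtain ⟨q, hq⟩ := Nat.dvd_factorial hm0 hm
    refine ⟨n * q, ?_⟩
    rw [hq, pow_mul, hn, zpow_mul, zpow_natCast]
  have hpos : ∀ x ∈ E, x ≠ 0 → 0 < nm x := fun x hx hx0 => hG.pos x (hE x hx) hx0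
  let H : AddSubgroup ℤ :=
    { carrier := {l | ∃ x ∈ E, x ≠ 0 ∧ nm x ^ N = (p : ℝ) ^ l}
      zero_mem' := ⟨1, one_mem E, one_ne_zero, by rw [ve2_one hG, one_pow, zpow_zero]⟩
      add_mem' := by
        rintro a b ⟨x, hx, hx0, h1⟩ ⟨y, hy, hy0, h2⟩
        refine ⟨x * y, mul_mem hx hy, mul_ne_zero hx0 hy0, ?_⟩
        rw [hG.mul x y (hE x hx) (hE y hy), mul_pow, h1, h2, zpow_add₀ hp0.ne']
      neg_mem' := by
        rintro a ⟨x, hx, hx0, h1⟩
        refine ⟨x⁻¹, inv_mem hx, inv_ne_zero hx0, ?_⟩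
        rw [ve2_inv hG (hE x hx) hx0, inv_pow, h1, zpow_neg] }
  have hH : ∀ l : ℤ, l ∈ H ↔ ∃ x ∈ E, x ≠ 0 ∧ nm x ^ N = (p : ℝ) ^ l := fun l => Iff.rfl
  have hpE : (p : Ω) ∈ E := natCast_mem E p
  have hchar : CharZero Ω := charZero_of_injective_algebraMap (algebraMap k Ω).injective
  have hpne : (p : Ω) ≠ 0 := by exact_mod_cast (Fact.out : p.Prime).ne_zero
  have hNH : (-(N : ℤ)) ∈ H := by
    rw [hH]
    refine ⟨(p : Ω), hpE, hpne, ?_⟩
    rw [hG.nm_p, inv_pow, zpow_neg, zpow_natCast]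
  obtain ⟨g, hg⟩ := Int.subgroup_cyclic H
  rw [← AddSubgroup.zmultiples_eq_closure] at hg
  have hgH : g ∈ H := by
    rw [hg]
    exact AddSubgroup.mem_zmultiples g
  have hg0 : g ≠ 0 := by
    rintro rfl
    rw [hg, AddSubgroup.mem_zmultiples_iff] at hNH
    obtain ⟨t, ht⟩ := hNH
    simp at ht
    omega
  have hgen : ∀ l ∈ H, ∃ t : ℤ, l = t * (-|g|) := by
    intro l hl
    rw [hg, AddSubgroup.mem_zmultiples_iff] at hl
    obtain ⟨t, ht⟩ := hl
    rcases abs_choice g with h | h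
    · refine ⟨-t, ?_⟩
      rw [h, ← ht, smul_eq_mul]
      ring
    · refine ⟨t, ?_⟩
      rw [h, ← ht, smul_eq_mul]
      ring
  have hgm : -|g| ∈ H := by
    rcases abs_choice g with h | h
    · rw [h]
      exact H.neg_mem hgH
    · rw [h, neg_neg]
      exact hgH
  obtain ⟨π, hπE, hπ0, hπ⟩ := (hH _).1 hgm
  have hπp := hpos π hπE hπ0
  refine ⟨π, hπE, hπ0, ?_, ?_⟩
  · by_contra hc
    push Not at hc
    have h1 : 1 ≤ nm π ^ N := one_le_pow₀ hc
    rw [hπ] at h1
    have h2 : (p : ℝ) ^ (-|g|) < 1 := by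
      refine zpow_lt_one_of_neg₀ hp1 ?_
      have := abs_pos.2 hg0
      omega
    linarith
  · intro x hx hx0
    obtain ⟨l, hl⟩ := hN x hx hx0
    obtain ⟨t, ht⟩ := hgen l ((hH l).2 ⟨x, hx, hx0, hl⟩)
    refine ⟨t, ?_⟩
    refine (pow_left_inj₀ (hpos x hx hx0).le (zpow_pos hπp t).le hN0.ne').1 ?_
    rw [hl, ht, mul_comm, zpow_mul, ← hπ, ← zpow_natCast (nm π ^ t), ← zpow_mul, mul_comm t, zpow_mul, zpow_natCast]

end BSC
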