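import Pool.Agent.Lib_MP_49ddc8_v.VDefs

/-!
# [V-E3] Squares in `E`

[V-E3] `E_sq`: `s² = 1 + z`, one of `s - 1`, `s + 1` has norm `< 1` (product `z`), change the sign so that `nm (s - 1) < 1`.  For `τ` fixing `E` (so `L`): `τ s = ± s`, if `-s`: `nm (-s - 1) = nm (s - 1) < 1` by `inv`, so `nm 2 < 1`; but `nm 2 = 1`, `p ≠ 2`
(`a p + 2 b = 1`).  So `s ∈ E` (`exists_move`).
-/

set_option autoImplicit false

open Polynomial

namespace BSC

variable {k Ω : Type} [Field k] [CharZero k] [Field Ω] [IsAlgClosed Ω] [Algebra k Ω] [Algebra (RatFunc k) Ω]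
  [IsScalarTower k (RatFunc k) Ω] {p : ℕ} [Fact p.Prime] {σ : k →+* ℚ_[p]} {L : IntermediateField (RatFunc k) Ω} {nm : Ω → ℝ}

private theorem nm_one (hG : GN p σ L nm) : nm 1 = 1 := by
  have h1 := hG.pos 1 isAlgebraic_one one_ne_zero
  have h2 := hG.mul 1 1 isAlgebraic_one isAlgebraic_one
  rw [mul_one] at h2
  nlinarith

private theorem nm_neg_one (hG : GN p σ L nm) : nm (-1) = 1 := by
  have ha : IsAlgebraic (RatFunc k) (-1 : Ω) := isAlgebraic_one.neg
  have h1 := hG.pos (-1) ha (by norm_num)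
  have h2 := hG.mul (-1) (-1) ha ha
  rw [neg_one_mul, neg_neg, nm_one hG] at h2
  nlinarith

private theorem nm_neg (hG : GN p σ L nm) {x : Ω} (hx : IsAlgebraic (RatFunc k) x) : nm (-x) = nm x := by
  have ha : IsAlgebraic (RatFunc k) (-1 : Ω) := isAlgebraic_one.neg
  have h2 := hG.mul (-1) x ha hx
  rw [neg_one_mul, nm_neg_one hG, one_mul] at h2
  exact h2

private theorem alg_int (n : ℤ) : IsAlgebraic (RatFunc k) (n : Ω) := by
  have : (n : Ω) = algebraMap (RatFunc k) Ω (n : RatFunc k) := by simp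
  rw [this]
  exact isAlgebraic_algebraMap _

private theorem nm_nat (hG : GN p σ L nm) (n : ℕ) : nm (n : Ω) ≤ 1 := by
  induction n with
  | zero => simp [hG.zero]
  | succ n ih =>
    have h1 : IsAlgebraic (RatFunc k) (n : Ω) := by simpa using alg_int (k := k) (Ω := Ω) (n : ℤ)
    have := hG.add n 1 h1 isAlgebraic_one
    rw [nm_one hG] at this
    push_cast
    exact this.trans (max_le ih le_rfl)

private theorem nm_int (hG : GN p σ L nm) (n : ℤ) : nm (n : Ω) ≤ 1 := by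
  rcases Int.eq_nat_or_neg n with ⟨m, h | h⟩
  · rw [h, Int.cast_natCast]
    exact nm_nat hG m
  · rw [h, Int.cast_neg, nm_neg hG (alg_int _), Int.cast_natCast]
    exact nm_nat hG m

private theorem nm_two (hp2 : p ≠ 2) (hG : GN p σ L nm) : ¬ nm (2 : Ω) < 1 := by
  intro h2
  have hp : p.Prime := Fact.out
  have hcop : IsCoprime (p : ℤ) (2 : ℤ) := by
    rw [Int.isCoprime_iff_gcd_eq_one]
    have := (Nat.coprime_primes hp Nat.prime_two).2 hp2
    exact_mod_cast this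
  obtain ⟨a, b, hab⟩ := hcop
  have e : (a : Ω) * (p : Ω) + (b : Ω) * (2 : Ω) = 1 := by
    have := congrArg (fun n : ℤ => (n : Ω)) hab
    push_cast at this
    exact this
  have ap : IsAlgebraic (RatFunc k) (p : Ω) := by simpa using alg_int (k := k) (Ω := Ω) (p : ℤ)
  have a2 : IsAlgebraic (RatFunc k) (2 : Ω) := by simpa using alg_int (k := k) (Ω := Ω) 2
  have h3 := hG.add _ _ ((alg_int a).mul ap) ((alg_int b).mul a2)
  rw [e, nm_one hG, hG.mul _ _ (alg_int a) ap, hG.mul _ _ (alg_int b) a2, hG.nm_p] at h3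
  have hp1 : (p : ℝ)⁻¹ < 1 := inv_lt_one_of_one_lt₀ (by exact_mod_cast hp.one_lt)
  have hp0 : 0 < (p : ℝ)⁻¹ := by
    have := hp.pos
    positivity
  have h20 : 0 < nm (2 : Ω) := by
    haveI : CharZero Ω := charZero_of_injective_algebraMap (algebraMap (RatFunc k) Ω).injective
    exact hG.pos 2 a2 two_ne_zero
  have ha := nm_int hG a
  have hb := nm_int hG b
  have h4 : nm (a : Ω) * (p : ℝ)⁻¹ < 1 := by nlinarith
  have h5 : nm (b : Ω) * nm (2 : Ω) < 1 := by nlinarith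
  exact absurd h3 (not_le.2 (max_lt h4 h5))

theorem E_sq (hp2 : p ≠ 2) (hG : GN p σ L nm) (E : IntermediateField (RatFunc k) Ω) (hLE : L ≤ E) (hE : ∀ x ∈ E, IsAlgebraic (RatFunc k) x)
    (z : Ω) (hz : z ∈ E) (h1 : nm z < 1) : ∃ w ∈ E, 1 + z = w ^ 2 := by
  obtain ⟨s, hs⟩ := IsAlgClosed.exists_pow_nat_eq (1 + z) (n := 2) (by norm_num)
  have hzE : 1 + z ∈ E := E.add_mem E.one_mem hz
  have hsa : IsAlgebraic (RatFunc k) s := by
    refine IsAlgebraic.of_pow (n := 2) (by norm_num) ?_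
    rw [hs]
    exact hE _ hzE
  -- the main claim
  have key : ∀ t : Ω, t ^ 2 = 1 + z → IsAlgebraic (RatFunc k) t → nm (t - 1) < 1 → t ∈ E := by
    intro t ht hta hn
    by_contra htE
    have htm : t ∈ algebraicClosure (RatFunc k) Ω := mem_algebraicClosure_iff.mpr hta
    obtain ⟨τ, hτ, hτt⟩ := exists_move (κ := RatFunc k) (Ω := Ω) (E : Set Ω) hE ⟨t, htm⟩ (by
      rw [IntermediateField.adjoin_self]
      exact htE)
    have hzm : 1 + z ∈ algebraicClosure (RatFunc k) Ω := mem_algebraicClosure_iff.mpr (hE _ hzE)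
    have h2 : τ ⟨1 + z, hzm⟩ = ⟨1 + z, hzm⟩ := hτ ⟨1 + z, hzm⟩ hzE
    have h3 : (⟨t, htm⟩ : algebraicClosure (RatFunc k) Ω) ^ 2 = ⟨1 + z, hzm⟩ := Subtype.ext ht
    have h4 : τ ⟨t, htm⟩ = -⟨t, htm⟩ := by
      have h5 : τ ⟨t, htm⟩ ^ 2 = (⟨t, htm⟩ : algebraicClosure (RatFunc k) Ω) ^ 2 := by
        rw [← map_pow, h3, h2]
      rcases sq_eq_sq_iff_eq_or_eq_neg.mp h5 with h | h
      · exact absurd h hτt
      · exact h
    have h6 := hG.inv τ (fun x hx => hτ x (hLE hx)) (⟨t, htm⟩ - 1)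
    have e1 : ((τ (⟨t, htm⟩ - 1) : algebraicClosure (RatFunc k) Ω) : Ω) = -(t + 1) := by
      rw [map_sub, map_one, h4]
      push_cast
      ring
    have e2 : (((⟨t, htm⟩ : algebraicClosure (RatFunc k) Ω) - 1 : algebraicClosure (RatFunc k) Ω) : Ω) = t - 1 := by
      push_cast
      ring
    rw [e1, e2] at h6
    have t1 : IsAlgebraic (RatFunc k) (t + 1) := hta.add isAlgebraic_one
    have t2 : IsAlgebraic (RatFunc k) (t - 1) := hta.sub isAlgebraic_one
    rw [nm_neg hG t1] at h6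
    have h7 := hG.add (t + 1) (-(t - 1)) t1 t2.neg
    rw [nm_neg hG t2, h6, max_self] at h7
    have e3 : t + 1 + -(t - 1) = 2 := by ring
    rw [e3] at h7
    exact nm_two hp2 hG (lt_of_le_of_lt h7 hn)
  have s1 : IsAlgebraic (RatFunc k) (s - 1) := hsa.sub isAlgebraic_one
  have s2 : IsAlgebraic (RatFunc k) (s + 1) := hsa.add isAlgebraic_one
  have hprod : nm (s - 1) * nm (s + 1) < 1 := by
    rw [← hG.mul _ _ s1 s2]
    have : (s - 1) * (s + 1) = z := by
      have : (s - 1) * (s + 1) = s ^ 2 - 1 := by ring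
      rw [this, hs]
      ring
    rwa [this]
  rcases lt_or_ge (nm (s - 1)) 1 with h | h
  · exact ⟨s, key s hs hsa h, hs.symm⟩
  · have h8 : nm (s + 1) < 1 := by
      by_contra hh
      push Not at hh
      have := mul_le_mul h hh (by norm_num) (by linarith)
      linarith
    have h9 : (-s) ^ 2 = 1 + z := by rw [neg_sq, hs]
    refine ⟨-s, key (-s) h9 hsa.neg ?_, h9.symm⟩
    have : -s - 1 = -(s + 1) := by ring
    rw [this, nm_neg hG s2]
    exact h8

end BSC
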