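import Pool.Agent.Lib_MP_49ddc8_v.VDefs

/-!
# [V-E4] The residue field of `E` is finite over `𝔽_p(u)`

[V-E4] `E_dep`: `z 0, .., z n` are linearly dependent over `L`, `n = [E : L]`: `∑ l i * z i = 0`, divide by the `l i` of largest norm: `nm (l i) ≤ 1`, some `l i = 1`; `res`: `nm (l i - a i / b i) < 1`, multiply by `∏ b i` (norm `1` by `poly_ge`, `poly_le`).
-/

set_option autoImplicit false

open Polynomial

namespace BSC

variable {k Ω : Type} [Field k] [CharZero k] [Field Ω] [IsAlgClosed Ω] [Algebra k Ω] [Algebra (RatFunc k) Ω]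
  [IsScalarTower k (RatFunc k) Ω] {p : ℕ} [Fact p.Prime] {σ : k →+* ℚ_[p]} {L : IntermediateField (RatFunc k) Ω} {nm : Ω → ℝ}

private theorem VE4_map (c : ℤ[X]) :
    aeval (tt k Ω) (c.map (algebraMap ℤ k)) = aeval (tt k Ω) c :=
  Polynomial.aeval_map_algebraMap k (tt k Ω) c

private theorem VE4_alg (c : ℤ[X]) : IsAlgebraic (RatFunc k) (aeval (tt k Ω) c) := by
  rw [← VE4_map]
  unfold tt
  rw [Polynomial.aeval_algebraMap_apply]
  exact isAlgebraic_algebraMap _

private theorem VE4_coeff (σ : k →+* ℚ_[p]) (c : ℤ[X]) (i : ℕ) :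
    σ ((c.map (algebraMap ℤ k)).coeff i) = ((c.coeff i : ℤ) : ℚ_[p]) := by
  rw [Polynomial.coeff_map, eq_intCast, map_intCast]

private theorem VE4_le (hG : GN p σ L nm) (c : ℤ[X]) : nm (aeval (tt k Ω) c) ≤ 1 := by
  rw [← VE4_map]
  refine hG.poly_le _ 1 zero_le_one (fun i => ?_)
  rw [VE4_coeff]
  exact Padic.norm_int_le_one _

private theorem VE4_ne (hG : GN p σ L nm) (c : ℤ[X]) (hc : NZ p c) :
    aeval (tt k Ω) c ≠ 0 := by
  intro h0
  apply hc
  ext i
  rw [Polynomial.coeff_map, Polynomial.coeff_zero, eq_intCast,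
    ZMod.intCast_zmod_eq_zero_iff_dvd]
  have h1 := hG.poly_ge (c.map (algebraMap ℤ k)) i
  rw [VE4_coeff, VE4_map, h0, hG.zero] at h1
  have h2 : ‖((c.coeff i : ℤ) : ℚ_[p])‖ < 1 := lt_of_le_of_lt h1 zero_lt_one
  exact Padic.norm_intCast_lt_one_iff.1 h2

private theorem VE4_nonneg (hG : GN p σ L nm) (x : Ω) (hx : IsAlgebraic (RatFunc k) x) :
    0 ≤ nm x := by
  by_cases h : x = 0
  · rw [h, hG.zero]
  · exact (hG.pos x hx h).le

private theorem VE4_sum (hG : GN p σ L nm) {ι : Type} (s : Finset ι) (x : ι → Ω)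
    (hx : ∀ i ∈ s, IsAlgebraic (RatFunc k) (x i)) (h : ∀ i ∈ s, nm (x i) < 1) :
    IsAlgebraic (RatFunc k) (∑ i ∈ s, x i) ∧ nm (∑ i ∈ s, x i) < 1 := by
  classical
  induction s using Finset.induction_on with
  | empty =>
    rw [Finset.sum_empty, hG.zero]
    exact ⟨isAlgebraic_zero, zero_lt_one⟩
  | insert a s ha ih =>
    obtain ⟨h1, h2⟩ := ih (fun i hi => hx i (Finset.mem_insert_of_mem hi))
      (fun i hi => h i (Finset.mem_insert_of_mem hi))
    rw [Finset.sum_insert ha]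
    have h3 := hx a (Finset.mem_insert_self a s)
    exact ⟨h3.add h1, lt_of_le_of_lt (hG.add _ _ h3 h1)
      (max_lt (h a (Finset.mem_insert_self a s)) h2)⟩

private theorem VE4_one : NZ p (1 : ℤ[X]) := by
  unfold NZ
  rw [Polynomial.map_one]
  exact one_ne_zero

private theorem VE4_mul {a b : ℤ[X]} (ha : NZ p a) (hb : NZ p b) : NZ p (a * b) := by
  unfold NZ at *
  rw [Polynomial.map_mul]
  exact mul_ne_zero ha hb

private theorem VE4_prod {ι : Type} (s : Finset ι) (b : ι → ℤ[X]) (hb : ∀ i ∈ s, NZ p (b i)) :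
    NZ p (∏ i ∈ s, b i) := by
  classical
  induction s using Finset.induction_on with
  | empty => exact VE4_one
  | insert a s ha ih =>
    rw [Finset.prod_insert ha]
    exact VE4_mul (hb a (Finset.mem_insert_self a s))
      (ih (fun i hi => hb i (Finset.mem_insert_of_mem hi)))

theorem E_dep (hG : GN p σ L nm) (E : IntermediateField (RatFunc k) Ω) (hLE : L ≤ E) (hE : ∀ x ∈ E, IsAlgebraic (RatFunc k) x)
    (hfin : FiniteDimensional L (IntermediateField.extendScalars hLE)) :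
    ∃ n : ℕ, ∀ z : Fin (n + 1) → Ω, (∀ i, z i ∈ E ∧ nm (z i) ≤ 1) →
      ∃ c : Fin (n + 1) → ℤ[X], (∃ i, NZ p (c i)) ∧ nm (∑ i, aeval (tt k Ω) (c i) * z i) < 1 := by
  classical
  obtain ⟨n, hn⟩ : ∃ n, n = Module.finrank L (IntermediateField.extendScalars hLE) := ⟨_, rfl⟩
  refine ⟨n, fun z hz => ?_⟩
  obtain ⟨g, hg, i1, hi1⟩ : ∃ g : Fin (n + 1) → L, (∑ i, (g i : Ω) * z i = 0) ∧ ∃ i, g i ≠ 0 := by
    let v : Fin (n + 1) → IntermediateField.extendScalars hLE := fun i =>
      ⟨z i, (IntermediateField.mem_extendScalars hLE).2 (hz i).1⟩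
    have h1 : ¬ LinearIndependent L v := by
      intro h
      have h2 := h.fintype_card_le_finrank
      rw [Fintype.card_fin, ← hn] at h2
      omega
    obtain ⟨g, h2, h3⟩ := Fintype.not_linearIndependent_iff.1 h1
    refine ⟨g, ?_, h3⟩
    have h4 := congrArg (fun x : IntermediateField.extendScalars hLE => (x : Ω)) h2
    simp only [IntermediateField.coe_zero] at h4
    rw [← h4]
    rw [IntermediateField.coe_sum]
    rfl
  obtain ⟨i0, -, hmax⟩ := Finset.exists_max_image Finset.univ (fun i => nm (g i : Ω))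
    ⟨i1, Finset.mem_univ _⟩
  have hmax' : ∀ i, nm (g i : Ω) ≤ nm (g i0 : Ω) := fun i => hmax i (Finset.mem_univ i)
  have hgalg : ∀ i, IsAlgebraic (RatFunc k) (g i : Ω) := fun i => hG.alg _ (g i).2
  have hpos : 0 < nm (g i0 : Ω) := by
    refine lt_of_lt_of_le (hG.pos _ (hgalg i1) ?_) (hmax' i1)
    intro h
    exact hi1 (Subtype.ext h)
  have hg0 : (g i0 : Ω) ≠ 0 := by
    intro h
    rw [h, hG.zero] at hpos
    exact lt_irrefl _ hpos
  set l : Fin (n + 1) → Ω := fun i => (g i : Ω) / (g i0 : Ω) with hl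
  have hlL : ∀ i, l i ∈ L := fun i => L.div_mem (g i).2 (g i0).2
  have hlalg : ∀ i, IsAlgebraic (RatFunc k) (l i) := fun i => hG.alg _ (hlL i)
  have hl1 : ∀ i, nm (l i) ≤ 1 := by
    intro i
    have h1 : nm (l i) * nm (g i0 : Ω) = nm (g i : Ω) := by
      rw [← hG.mul _ _ (hlalg i) (hgalg i0)]
      congr 1
      exact div_mul_cancel₀ _ hg0
    have h2 := hmax' i
    rw [← h1] at h2
    exact le_of_mul_le_mul_right (by rwa [one_mul]) hpos
  have hlsum : ∑ i, l i * z i = 0 := by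
    have h1 : ∑ i, l i * z i = (g i0 : Ω)⁻¹ * ∑ i, (g i : Ω) * z i := by
      rw [Finset.mul_sum]
      refine Finset.sum_congr rfl (fun i _ => ?_)
      simp only [hl]
      ring
    rw [h1, hg, mul_zero]
  have hex : ∀ i, ∃ a b : ℤ[X], NZ p b ∧
      nm (l i - aeval (tt k Ω) a / aeval (tt k Ω) b) < 1 ∧ (i = i0 → NZ p a) := by
    intro i
    by_cases h : i = i0
    · refine ⟨1, 1, VE4_one, ?_, fun _ => VE4_one⟩
      have h1 : l i = 1 := by
        rw [h]
        exact div_self hg0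
      rw [h1, map_one, div_one, sub_self, hG.zero]
      exact zero_lt_one
    · obtain ⟨a, b, h1, h2⟩ := hG.res (l i) (hlL i) (hl1 i)
      exact ⟨a, b, h1, h2, fun h' => absurd h' h⟩
  choose a b hb hab ha using hex
  refine ⟨fun i => -(a i * ∏ j ∈ Finset.univ.erase i, b j), ⟨i0, ?_⟩, ?_⟩
  · have h1 := VE4_mul (ha i0 rfl) (VE4_prod (p := p) (Finset.univ.erase i0) b (fun j _ => hb j))
    unfold NZ at h1 ⊢
    rw [Polynomial.map_neg]
    exact neg_ne_zero.2 h1
  · have hbne : ∀ i, aeval (tt k Ω) (b i) ≠ 0 := fun i => VE4_ne hG (b i) (hb i)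
    have h1 : ∑ i, aeval (tt k Ω) (-(a i * ∏ j ∈ Finset.univ.erase i, b j)) * z i =
        aeval (tt k Ω) (∏ j, b j) *
          ∑ i, (l i - aeval (tt k Ω) (a i) / aeval (tt k Ω) (b i)) * z i := by
      have h2 : ∑ i, (l i - aeval (tt k Ω) (a i) / aeval (tt k Ω) (b i)) * z i =
          ∑ i, l i * z i - ∑ i, aeval (tt k Ω) (a i) / aeval (tt k Ω) (b i) * z i := by
        rw [← Finset.sum_sub_distrib]
        exact Finset.sum_congr rfl (fun i _ => by ring)
      rw [h2, hlsum, zero_sub, mul_neg, Finset.mul_sum, ← Finset.sum_neg_distrib]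
      refine Finset.sum_congr rfl (fun i _ => ?_)
      rw [map_neg, map_mul, ← Finset.mul_prod_erase Finset.univ b (Finset.mem_univ i), map_mul]
      have := hbne i
      field_simp
    show nm (∑ i, aeval (tt k Ω) (-(a i * ∏ j ∈ Finset.univ.erase i, b j)) * z i) < 1
    rw [h1]
    have h3 : ∀ i, IsAlgebraic (RatFunc k)
        (l i - aeval (tt k Ω) (a i) / aeval (tt k Ω) (b i)) := fun i => by
      have h6 : IsAlgebraic (RatFunc k) (aeval (tt k Ω) (b i))⁻¹ :=
        (VE4_alg (k := k) (Ω := Ω) (b i)).inv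
      rw [div_eq_mul_inv]
      exact (hlalg i).sub ((VE4_alg (a i)).mul h6)
    have hzalg : ∀ i, IsAlgebraic (RatFunc k) (z i) := fun i => hE _ (hz i).1
    obtain ⟨h4, h5⟩ := VE4_sum hG Finset.univ
      (fun i => (l i - aeval (tt k Ω) (a i) / aeval (tt k Ω) (b i)) * z i)
      (fun i _ => (h3 i).mul (hzalg i)) (fun i _ => by
        rw [hG.mul _ _ (h3 i) (hzalg i)]
        calc nm (l i - aeval (tt k Ω) (a i) / aeval (tt k Ω) (b i)) * nm (z i)
            ≤ nm (l i - aeval (tt k Ω) (a i) / aeval (tt k Ω) (b i)) * 1 :=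
              mul_le_mul_of_nonneg_left (hz i).2 (VE4_nonneg hG _ (h3 i))
          _ < 1 := by rw [mul_one]; exact hab i)
    rw [hG.mul _ _ (VE4_alg _) h4]
    calc nm (aeval (tt k Ω) (∏ j, b j)) *
          nm (∑ i, (l i - aeval (tt k Ω) (a i) / aeval (tt k Ω) (b i)) * z i)
        ≤ 1 * nm (∑ i, (l i - aeval (tt k Ω) (a i) / aeval (tt k Ω) (b i)) * z i) :=
          mul_le_mul_of_nonneg_right (VE4_le hG _) (VE4_nonneg hG _ h4)
      _ < 1 := by rw [one_mul]; exact h5

end BSC
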