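import Pool.Agent.Lib_MP_49ddc8_v.VNo
import Pool.Agent.Lib_MP_49ddc8_v.VAlg

/-!
# [V-FU] The residue field of `W` on `S.F L` is `𝔽_p(u)`

`O = W.comap (S.F L).subtype` (a valuation ring of `S.F L`), `R = ResidueField O`, characteristic `p` (`nm p < 1`).  `θ : RatFunc (ZMod p) → R`, `u ↦` the class of `u`: `b : ℤ[X]` with `NZ p b` has `nm (b(u)) = 1` (`poly_ge`, `poly_le`), so `b(u)` is a unit of `W` (`VW.mem`).
`hu`: `no_root`.  `hR`: let `x` be a unit of `O`; `kp` for `A = L`: `x = c w ^ p`, `c ∈ L` (`adjoin_self`), `nm c = p ^ n` (`disc`), `c = p ^ (-n) c₀`, `nm c₀ = 1`, `c₀` has a residue in the image of `θ` (`GN.res`).  So `p ^ (-n) w ^ p` is a unit.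
Choice of `ε`: if there are `n₁` prime to `p` and `w₁ ∈ S.F L` with `p ^ n₁ w₁ ^ p` a unit of `W` then (Bezout `r n₁ + s p = 1`) `π = w₁ ^ (-r) p ^ s` has `W.valuation p = W.valuation π ^ p`, `ε` = class of `p / π ^ p`; then `p ^ m w ^ p = (p / π ^ p) ^ m (π ^ m w) ^ p`.
Otherwise `ε = 1` and all `m` are multiples of `p`.  `alg_lemma` gives `θ` surjective; lift numerator and denominator to `ℤ[X]`.
-/

set_option autoImplicit false

open Polynomial

namespace BSC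

section abs

variable {Ω : Type} [Field Ω] {p : ℕ} [Fact p.Prime]

open nonZeroDivisors in
private theorem vfu_core (F : Subfield Ω) (W : ValuationSubring Ω) (u : Ω) (hu : u ∈ F) (hp : W.valuation (p : Ω) < 1)
    (hb : ∀ b : ℤ[X], NZ p b → W.valuation (aeval u b) = 1)
    (hroot : ¬ ∃ b ∈ F, W.valuation (b ^ p - u) < 1) (ε : Ω) (hεF : ε ∈ F) (hε : W.valuation ε = 1)
    (hdec : ∀ x ∈ F, W.valuation x = 1 → ∃ (j : ℕ) (a b : ℤ[X]) (y : Ω), y ∈ F ∧ W.valuation y = 1 ∧ NZ p b ∧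
      W.valuation (x - ε ^ j * (aeval u a / aeval u b) * y ^ p) < 1) (x : Ω) (hx : x ∈ F) (hxW : x ∈ W) :
    ∃ a b : ℤ[X], NZ p b ∧ W.valuation (x - aeval u a / aeval u b) < 1 := by
  have hpp : p.Prime := Fact.out
  have hu1 : W.valuation u = 1 := by
    have h := hb X (by
      unfold NZ
      rw [Polynomial.map_X]
      exact X_ne_zero)
    rwa [aeval_X] at h
  let O : ValuationSubring F := W.comap F.subtype
  have hO : ∀ x : F, x ∈ O ↔ W.valuation (x : Ω) ≤ 1 := fun x => (W.valuation_le_one_iff _).symm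
  let R := IsLocalRing.ResidueField O
  let res : O →+* R := IsLocalRing.residue O
  have hsurj : Function.Surjective res := IsLocalRing.residue_surjective
  have hres : ∀ x : O, res x = 0 ↔ W.valuation ((x : F) : Ω) < 1 := by
    intro x
    have h1 : res x = 0 ↔ ¬ IsUnit x := by
      rw [← mem_nonunits_iff, ← IsLocalRing.mem_maximalIdeal]
      exact IsLocalRing.residue_eq_zero_iff x
    rw [h1]
    constructor
    · intro h2
      by_contra h3
      apply h2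
      have h4 : W.valuation ((x : F) : Ω) = 1 := le_antisymm ((hO _).1 x.2) (not_lt.1 h3)
      have h5 : (x : F) ≠ 0 := by
        intro h6
        rw [h6] at h4
        simp at h4
      refine IsUnit.of_mul_eq_one (⟨(x : F)⁻¹, (hO _).2 ?_⟩ : O) ?_
      · rw [Subfield.coe_inv, map_inv₀, h4, inv_one]
      · apply Subtype.ext
        exact mul_inv_cancel₀ h5
    · intro h2 h3
      obtain ⟨y, hy⟩ := h3.exists_right_inv
      have h4 : W.valuation (((x * y : O) : F) : Ω) = 1 := by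
        rw [hy]
        exact map_one _
      have h5 : W.valuation (((x * y : O) : F) : Ω) = W.valuation ((x : F) : Ω) * W.valuation ((y : F) : Ω) :=
        map_mul W.valuation _ _
      rw [h5] at h4
      have h6 := mul_lt_one_of_lt_of_le h2 ((hO _).1 y.2)
      exact h6.ne h4
  have hcast : ((p : ℕ) : R) = 0 := by
    have h := (hres (p : O)).2 (by
      have h1 : (((p : O) : F) : Ω) = (p : Ω) := by push_cast; rfl
      rw [h1]
      exact hp)
    rwa [map_natCast] at h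
  have hchar : CharP R p := by
    obtain ⟨q, hq⟩ := CharP.exists R
    have h1 : q ∣ p := (CharP.cast_eq_zero_iff R q p).1 hcast
    rcases (Nat.dvd_prime hpp).1 h1 with h2 | h2
    · subst h2
      have h3 := (CharP.cast_eq_zero_iff R 1 1).2 (dvd_refl 1)
      rw [Nat.cast_one] at h3
      exact absurd h3 one_ne_zero
    · rwa [h2] at hq
  let uO : O := ⟨⟨u, hu⟩, (hO _).2 hu1.le⟩
  have hψ : ∀ b : ℤ[X], (((aeval uO b : O) : F) : Ω) = aeval u b := by
    intro b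
    exact (Polynomial.aeval_algHom_apply ((F.subtype.comp O.subtype).toIntAlgHom) uO b).symm
  let φ : (ZMod p)[X] →+* R := eval₂RingHom (ZMod.castHom (dvd_refl p) R) (res uO)
  have hφψ : ∀ b : ℤ[X], φ (b.map (Int.castRingHom (ZMod p))) = res (aeval uO b) := by
    intro b
    show eval₂ (ZMod.castHom (dvd_refl p) R) (res uO) (b.map (Int.castRingHom (ZMod p))) = _
    rw [eval₂_map]
    have h1 : (ZMod.castHom (dvd_refl p) R).comp (Int.castRingHom (ZMod p)) = res.comp (algebraMap ℤ O) :=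
      RingHom.ext_int _ _
    rw [h1, ← Polynomial.hom_eval₂]
    rfl
  have hφ0 : ∀ g : (ZMod p)[X], g ≠ 0 → φ g ≠ 0 := by
    intro g hg h0
    obtain ⟨b, rfl⟩ := Polynomial.map_surjective (Int.castRingHom (ZMod p)) ZMod.intCast_surjective g
    rw [hφψ, hres, hψ, hb b hg] at h0
    exact lt_irrefl _ h0
  have hφ : (ZMod p)[X]⁰ ≤ R⁰.comap φ := fun g hg =>
    mem_nonZeroDivisors_iff_ne_zero.2 (hφ0 g (nonZeroDivisors.ne_zero hg))
  let θ : RatFunc (ZMod p) →+* R := RatFunc.liftRingHom φ hφ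
  have hθX : θ RatFunc.X = res uO := by
    have h1 := RatFunc.liftRingHom_algebraMap φ hφ X
    rw [RatFunc.algebraMap_X] at h1
    have h2 : φ X = res uO := eval₂_X _ _
    rw [← h2]
    exact h1
  have hfrac : ∀ a b : ℤ[X], θ (algebraMap _ _ (a.map (Int.castRingHom (ZMod p))) /
      algebraMap _ _ (b.map (Int.castRingHom (ZMod p)))) = res (aeval uO a) / res (aeval uO b) := by
    intro a b
    rw [← hφψ, ← hφψ]
    exact RatFunc.liftRingHom_apply_div φ hφ _ _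
  have hb0 : ∀ b : ℤ[X], NZ p b → res (aeval uO b) ≠ 0 := by
    intro b hNb h0
    rw [hres, hψ, hb b hNb] at h0
    exact lt_irrefl _ h0
  let εO : O := ⟨⟨ε, hεF⟩, (hO _).2 hε.le⟩
  have hS : Function.Surjective θ := by
    refine alg_lemma p R θ (res εO) ?_ ?_ ?_
    · intro h0
      rw [hres] at h0
      exact absurd hε h0.ne
    · rintro ⟨b, hb'⟩
      obtain ⟨b', rfl⟩ := hsurj b
      apply hroot
      refine ⟨((b' : F) : Ω), (b' : F).2, ?_⟩
      have h1 : res (b' ^ p - uO) = 0 := by rw [map_sub, map_pow, hb', hθX, sub_self]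
      exact (hres _).1 h1
    · intro x hx
      obtain ⟨x', rfl⟩ := hsurj x
      have hv : W.valuation ((x' : F) : Ω) = 1 :=
        le_antisymm ((hO _).1 x'.2) (not_lt.1 fun h => hx ((hres _).2 h))
      obtain ⟨j, a, b, y, hy, hy1, hNb, hlt⟩ := hdec _ (x' : F).2 hv
      have hbu := hb b hNb
      have hbu0 : aeval u b ≠ 0 := by
        intro h0
        rw [h0, map_zero] at hbu
        exact zero_ne_one hbu
      let yO : O := ⟨⟨y, hy⟩, (hO _).2 hy1.le⟩
      refine ⟨j, algebraMap _ _ (a.map (Int.castRingHom (ZMod p))) / algebraMap _ _ (b.map (Int.castRingHom (ZMod p))),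
        res yO, ?_⟩
      rw [hfrac, zpow_natCast]
      have h1 : res (x' * aeval uO b - εO ^ j * aeval uO a * yO ^ p) = 0 := by
        rw [hres]
        have h2 : (((x' * aeval uO b - εO ^ j * aeval uO a * yO ^ p : O) : F) : Ω) =
            ((x' : F) : Ω) * aeval u b - ε ^ j * aeval u a * y ^ p := by
          rw [← hψ b, ← hψ a]
          rfl
        rw [h2]
        have h3 : ((x' : F) : Ω) * aeval u b - ε ^ j * aeval u a * y ^ p =
            (((x' : F) : Ω) - ε ^ j * (aeval u a / aeval u b) * y ^ p) * aeval u b := by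
          field_simp
        rw [h3, map_mul, hbu, mul_one]
        exact hlt
      rw [map_sub, map_mul, map_mul, map_mul, map_pow, map_pow, sub_eq_zero] at h1
      have h4 := hb0 b hNb
      have h5 : res x' = res εO ^ j * res (aeval uO a) * res yO ^ p / res (aeval uO b) := (eq_div_iff h4).2 h1
      rw [h5, ← mul_div_assoc (res εO ^ j), div_mul_eq_mul_div]
  -- the conclusion
  obtain ⟨g, hg⟩ := hS (res ⟨⟨x, hx⟩, hxW⟩)
  obtain ⟨a, ha⟩ := Polynomial.map_surjective (Int.castRingHom (ZMod p)) ZMod.intCast_surjective g.num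
  obtain ⟨b, hb'⟩ := Polynomial.map_surjective (Int.castRingHom (ZMod p)) ZMod.intCast_surjective g.denom
  have hNb : NZ p b := by
    unfold NZ
    rw [hb']
    exact RatFunc.denom_ne_zero g
  have hbu := hb b hNb
  have hbu0 : aeval u b ≠ 0 := by
    intro h0
    rw [h0, map_zero] at hbu
    exact zero_ne_one hbu
  refine ⟨a, b, hNb, ?_⟩
  rw [← RatFunc.num_div_denom g, ← ha, ← hb', hfrac] at hg
  have h4 := hb0 b hNb
  have h1 : res ((⟨⟨x, hx⟩, hxW⟩ : O) * aeval uO b - aeval uO a) = 0 := by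
    rw [map_sub, map_mul, ← hg, div_mul_cancel₀ _ h4, sub_self]
  rw [hres] at h1
  have h2 : ((((⟨⟨x, hx⟩, hxW⟩ : O) * aeval uO b - aeval uO a : O) : F) : Ω) = x * aeval u b - aeval u a := by
    rw [← hψ b, ← hψ a]
    rfl
  rw [h2] at h1
  have h3 : x - aeval u a / aeval u b = (x * aeval u b - aeval u a) / aeval u b := by
    field_simp
  rw [h3, map_div₀, hbu, div_one]
  exact h1

private theorem vfu_eps (F : Subfield Ω) (W : ValuationSubring Ω) (hp0 : (p : Ω) ≠ 0) :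
    ∃ ε ∈ F, W.valuation ε = 1 ∧ ∀ (m : ℤ) (w : Ω), w ∈ F → w ≠ 0 → W.valuation ((p : Ω) ^ m * w ^ p) = 1 →
      ∃ (j : ℕ) (y : Ω), y ∈ F ∧ W.valuation y = 1 ∧ (p : Ω) ^ m * w ^ p = ε ^ j * y ^ p := by
  have hpp : p.Prime := Fact.out
  have hpF : (p : Ω) ∈ F := natCast_mem F p
  have hpv0 : W.valuation (p : Ω) ≠ 0 := (Valuation.ne_zero_iff _).2 hp0
  by_cases h : ∃ (n : ℤ) (w₁ : Ω), w₁ ∈ F ∧ w₁ ≠ 0 ∧ ¬ (p : ℤ) ∣ n ∧ W.valuation ((p : Ω) ^ n * w₁ ^ p) = 1
  · obtain ⟨n, w₁, hw₁, hw₁0, hn, hv⟩ := h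
    obtain ⟨s, r, hsr⟩ := (Nat.prime_iff_prime_int.1 hpp).coprime_iff_not_dvd.2 hn
    obtain ⟨π, hπ⟩ : ∃ π : Ω, π = w₁ ^ (-r) * (p : Ω) ^ s := ⟨_, rfl⟩
    have hπF : π ∈ F := by
      rw [hπ]
      exact mul_mem (zpow_mem hw₁ _) (zpow_mem hpF _)
    have hπ0 : π ≠ 0 := by
      rw [hπ]
      exact mul_ne_zero (zpow_ne_zero _ hw₁0) (zpow_ne_zero _ hp0)
    have hw₁v0 : W.valuation w₁ ≠ 0 := (Valuation.ne_zero_iff _).2 hw₁0
    -- `v π ^ p = v p`
    have hπv : W.valuation (π ^ p) = W.valuation (p : Ω) := by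
      have h1 : π ^ p = ((p : Ω) ^ n * w₁ ^ p) ^ (-r) * (p : Ω) := by
        rw [hπ, mul_pow, mul_zpow, ← zpow_natCast, ← zpow_natCast, ← zpow_natCast, ← zpow_mul, ← zpow_mul,
          ← zpow_mul, ← zpow_mul]
        have h2 : w₁ ^ (-r * (p : ℤ)) = w₁ ^ ((p : ℤ) * -r) := by rw [mul_comm]
        have h3 : (p : Ω) ^ (s * (p : ℤ)) = (p : Ω) ^ (n * -r) * (p : Ω) := by
          rw [← zpow_add_one₀ hp0]
          congr 1
          linarith
        rw [h2, h3]
        ring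
      rw [h1, map_mul, map_zpow₀, hv, one_zpow, one_mul]
    have hεv : W.valuation ((p : Ω) / π ^ p) = 1 := by
      rw [map_div₀, hπv, div_self hpv0]
    have hε0' : (p : Ω) / π ^ p ≠ 0 := div_ne_zero hp0 (pow_ne_zero _ hπ0)
    have hεF' : (p : Ω) / π ^ p ∈ F := div_mem hpF (pow_mem hπF _)
    obtain ⟨ε, hε⟩ : ∃ ε : Ω, ε = (p : Ω) / π ^ p := ⟨_, rfl⟩
    rw [← hε] at hεv hε0' hεF'
    have hε0 := hε0'
    have hεF := hεF'
    refine ⟨ε, hεF, hεv, ?_⟩
    intro m w hw hw0 hmw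
    have h1 : (p : Ω) ^ m * w ^ p = ε ^ m * (π ^ m * w) ^ p := by
      rw [hε, div_zpow, mul_pow (π ^ m) w, ← zpow_natCast π, ← zpow_natCast (π ^ m), ← zpow_mul, ← zpow_mul,
        mul_comm (p : ℤ) m]
      have h2 : π ^ (m * (p : ℤ)) ≠ 0 := zpow_ne_zero _ hπ0
      field_simp
    have hy0 : W.valuation (π ^ m * w) = 1 := by
      rw [h1, map_mul, map_zpow₀, hεv, one_zpow, one_mul, map_pow] at hmw
      exact (pow_eq_one_iff.1 hmw).resolve_right hpp.ne_zero
    have hpz : (p : ℤ) ≠ 0 := by exact_mod_cast hpp.ne_zero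
    have hj := Int.emod_nonneg m hpz
    refine ⟨(m % p).toNat, ε ^ (m / (p : ℤ)) * (π ^ m * w), mul_mem (zpow_mem hεF _) (mul_mem (zpow_mem hπF _) hw), ?_, ?_⟩
    · rw [map_mul, map_zpow₀, hεv, one_zpow, one_mul, hy0]
    · have h3 : ε ^ m = ε ^ ((m % p).toNat) * (ε ^ (m / (p : ℤ))) ^ p := by
        rw [← zpow_natCast ε, ← zpow_natCast (ε ^ (m / (p : ℤ))), ← zpow_mul, ← zpow_add₀ hε0, Int.toNat_of_nonneg hj]
        congr 1
        have := Int.emod_add_ediv_mul m p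
        linarith
      rw [h1, h3, mul_pow (ε ^ (m / (p : ℤ)))]
      ring
  · refine ⟨1, one_mem _, map_one _, ?_⟩
    intro m w hw hw0 hmw
    have hm : (p : ℤ) ∣ m := by
      by_contra hc
      exact h ⟨m, w, hw, hw0, hc, hmw⟩
    obtain ⟨m', rfl⟩ := hm
    have h1 : (p : Ω) ^ ((p : ℤ) * m') * w ^ p = ((p : Ω) ^ m' * w) ^ p := by
      rw [mul_pow, ← zpow_natCast ((p : Ω) ^ m'), ← zpow_mul, mul_comm (p : ℤ) m']
    refine ⟨0, (p : Ω) ^ m' * w, mul_mem (zpow_mem hpF _) hw, ?_, ?_⟩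
    · rw [h1, map_pow] at hmw
      exact (pow_eq_one_iff.1 hmw).resolve_right hpp.ne_zero
    · rw [pow_zero, one_mul, h1]

end abs

variable {k Ω : Type} [Field k] [CharZero k] [Field Ω] [IsAlgClosed Ω] [Algebra k Ω] [Algebra (RatFunc k) Ω]
  [IsScalarTower k (RatFunc k) Ω] {p : ℕ} [Fact p.Prime] {σ : k →+* ℚ_[p]} {L : IntermediateField (RatFunc k) Ω} {nm : Ω → ℝ}

private theorem vfu_nm_one (hG : GN p σ L nm) : nm 1 = 1 := by
  have h2 := hG.mul 1 1 isAlgebraic_one isAlgebraic_one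
  have h3 := hG.pos 1 isAlgebraic_one one_ne_zero
  rw [mul_one] at h2
  have h4 : nm 1 * (nm 1 - 1) = 0 := by linarith
  rcases mul_eq_zero.1 h4 with h5 | h5
  · exact absurd h5 h3.ne'
  · linarith

private theorem vfu_nm_inv (hG : GN p σ L nm) {x : Ω} (hx : x ∈ L) (h0 : x ≠ 0) : nm x⁻¹ = (nm x)⁻¹ := by
  have h1 := hG.mul x x⁻¹ (hG.alg _ hx) (hG.alg _ (inv_mem hx))
  rw [mul_inv_cancel₀ h0, vfu_nm_one hG] at h1
  have h2 := hG.pos x (hG.alg _ hx) h0
  exact eq_inv_of_mul_eq_one_right h1.symm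

private theorem vfu_nm_pow (hG : GN p σ L nm) {x : Ω} (hx : x ∈ L) (n : ℕ) : nm (x ^ n) = nm x ^ n := by
  induction n with
  | zero => rw [pow_zero, pow_zero, vfu_nm_one hG]
  | succ n ih => rw [pow_succ, hG.mul _ _ (hG.alg _ (pow_mem hx n)) (hG.alg _ hx), ih, pow_succ]

private theorem vfu_nm_zpow (hG : GN p σ L nm) {x : Ω} (hx : x ∈ L) (h0 : x ≠ 0) (n : ℤ) : nm (x ^ n) = nm x ^ n := by
  obtain ⟨m, rfl | rfl⟩ := n.eq_nat_or_neg
  · rw [zpow_natCast, zpow_natCast, vfu_nm_pow hG hx]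
  · rw [zpow_neg, zpow_neg, zpow_natCast, zpow_natCast, vfu_nm_inv hG (pow_mem hx m) (pow_ne_zero _ h0),
      vfu_nm_pow hG hx]

private theorem vfu_aeval (b : ℤ[X]) : aeval (tt k Ω) b = aeval (tt k Ω) (b.map (Int.castRingHom k)) := by
  have h := Polynomial.aeval_map_algebraMap (A := k) (B := Ω) (tt k Ω) b
  rw [← h]
  rfl

private theorem vfu_mem (L : IntermediateField (RatFunc k) Ω) (b : ℤ[X]) : aeval (tt k Ω) b ∈ L := by
  have h : aeval (tt k Ω) (b.map (Int.castRingHom k)) = algebraMap (RatFunc k) Ω (aeval RatFunc.X (b.map (Int.castRingHom k))) :=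
    Polynomial.aeval_algebraMap_apply (A := RatFunc k) Ω RatFunc.X (b.map (Int.castRingHom k))
  rw [vfu_aeval, h]
  exact L.algebraMap_mem _

private theorem vfu_nz (hG : GN p σ L nm) (b : ℤ[X]) (hb : NZ p b) : nm (aeval (tt k Ω) b) = 1 := by
  have hσ : ∀ i, σ ((b.map (Int.castRingHom k)).coeff i) = ((b.coeff i : ℤ) : ℚ_[p]) := by
    intro i
    rw [coeff_map, eq_intCast, map_intCast]
  apply le_antisymm
  · rw [vfu_aeval]
    refine hG.poly_le _ 1 zero_le_one fun i => ?_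
    rw [hσ]
    exact Padic.norm_int_le_one _
  · obtain ⟨i, hi⟩ : ∃ i, ¬ (p : ℤ) ∣ b.coeff i := by
      by_contra hcon
      push Not at hcon
      apply hb
      ext i
      rw [coeff_map, coeff_zero, eq_intCast]
      exact (ZMod.intCast_zmod_eq_zero_iff_dvd _ _).2 (hcon i)
    have h := hG.poly_ge (b.map (Int.castRingHom k)) i
    rw [hσ, ← vfu_aeval] at h
    refine le_trans ?_ h
    have h1 : ¬ ‖((b.coeff i : ℤ) : ℚ_[p])‖ < 1 := by
      rw [Padic.norm_intCast_lt_one_iff]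
      exact hi
    exact not_lt.1 h1

theorem res_full (hp2 : p ≠ 2) (hG : GN p σ L nm) (S : Sec (RatFunc k) Ω) (W : ValuationSubring Ω) (hW : VW S L nm W) (x : Ω)
    (hx : x ∈ S.F (L : Set Ω)) (hxW : x ∈ W) :
    ∃ a b : ℤ[X], NZ p b ∧ W.valuation (x - aeval (tt k Ω) a / aeval (tt k Ω) b) < 1 := by
  have hpp : p.Prime := Fact.out
  have hp1 : (1 : ℝ) < p := by exact_mod_cast hpp.one_lt
  have hp0' : (0 : ℝ) < p := by linarith
  have hLF : ∀ x ∈ L, x ∈ S.F (L : Set Ω) := fun x hx => mem_F_of_mem S _ _ hx (hG.alg x hx)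
  have heq : ∀ x ∈ L, nm x = 1 → W.valuation x = 1 := by
    intro x hx h1
    apply le_antisymm
    · rw [ValuationSubring.valuation_le_one_iff, hW.mem _ hx, h1]
    · rw [← not_lt, hW.mem_lt hG _ hx, h1]
      exact lt_irrefl _
  have hpL : (p : Ω) ∈ L := natCast_mem L p
  have hp0 : (p : Ω) ≠ 0 := by
    intro h0
    have h1 := hG.nm_p
    rw [h0, hG.zero] at h1
    have h2 : (0 : ℝ) < (p : ℝ)⁻¹ := inv_pos.2 hp0'
    linarith
  have hpv : W.valuation (p : Ω) < 1 := by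
    rw [hW.mem_lt hG _ hpL, hG.nm_p]
    exact inv_lt_one_of_one_lt₀ hp1
  obtain ⟨ε, hεF, hε, hεd⟩ := vfu_eps (p := p) (S.F (L : Set Ω)) W hp0
  refine vfu_core (p := p) (S.F (L : Set Ω)) W (tt k Ω) (hLF _ (L.algebraMap_mem RatFunc.X)) hpv
    (fun b hb => heq _ (vfu_mem L b) (vfu_nz hG b hb)) (no_root hp2 hG S W hW) ε hεF hε ?_ x hx hxW
  intro x hx hx1
  have hx0 : x ≠ 0 := by
    rintro rfl
    rw [map_zero] at hx1
    exact zero_ne_one hx1
  obtain ⟨c, hc, hc0, w, hw, hw0, hxc⟩ := kp S p hpp (L : Set Ω) hG.alg x hx hx0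
  rw [IntermediateField.adjoin_self] at hc
  obtain ⟨n, hn⟩ := hG.disc c hc hc0
  have hpnL : (p : Ω) ^ n ∈ L := zpow_mem hpL n
  have hpn0 : (p : Ω) ^ n ≠ 0 := zpow_ne_zero _ hp0
  have hc₀L : c * (p : Ω) ^ n ∈ L := mul_mem hc hpnL
  have hc₀ : nm (c * (p : Ω) ^ n) = 1 := by
    rw [hG.mul _ _ (hG.alg _ hc) (hG.alg _ hpnL), hn, vfu_nm_zpow hG hpL hp0, hG.nm_p, inv_zpow,
      mul_inv_cancel₀ (zpow_ne_zero _ hp0'.ne')]
  have hxz : x = c * (p : Ω) ^ n * ((p : Ω) ^ (-n) * w ^ p) := by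
    rw [hxc, zpow_neg]
    field_simp
  have hz : W.valuation ((p : Ω) ^ (-n) * w ^ p) = 1 := by
    have h1 := hx1
    rw [hxz, map_mul, heq _ hc₀L hc₀, one_mul] at h1
    exact h1
  obtain ⟨j, y, hy, hy1, hzy⟩ := hεd (-n) w hw hw0 hz
  obtain ⟨a, b, hNb, hab⟩ := hG.res _ hc₀L hc₀.le
  refine ⟨j, a, b, y, hy, hy1, hNb, ?_⟩
  have h1 : W.valuation (c * (p : Ω) ^ n - aeval (tt k Ω) a / aeval (tt k Ω) b) < 1 := by
    rw [hW.mem_lt hG _ (sub_mem hc₀L (div_mem (vfu_mem L a) (vfu_mem L b)))]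
    exact hab
  have h2 : x - ε ^ j * (aeval (tt k Ω) a / aeval (tt k Ω) b) * y ^ p =
      (c * (p : Ω) ^ n - aeval (tt k Ω) a / aeval (tt k Ω) b) * (ε ^ j * y ^ p) := by
    rw [hxz, hzy]
    ring
  rw [h2, map_mul, map_mul, map_pow, map_pow, hε, hy1, one_pow, one_pow, mul_one, mul_one]
  exact h1

end BSC
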