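import Pool.Agent.Lib_MP_49ddc8_v.VPb

/-!
# [G-P5] The degree bound

`P e = N - e D`, `0 ≤ e < 6`, pairwise coprime (`(e - e') D` and `N`), coprime to `D`, nonzero (else `D ∣ 1`, `N` constant, the Wronskian is `0`).  `exists_sqf`: `P e = s e * S e ^ 2`; `sqf_dvd`: `s e ∣ F e`.
`S e ∣ Wr := N' D - N D' = (P e)' D - P e D'`, and the `S e` are pairwise coprime, so `∏ S e ∣ Wr`, `∑ deg (S e) ≤ deg Wr ≤ 2 d - 1`, `d = max (deg N) (deg D)`.  `deg (P e) = d` for all `e` with at most one exception (the coefficient of degree `d` of `N - e D`).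
`deg (P e) ≤ deg (F e) + 2 deg (S e)`; sum over five of the `e`: `5 d ≤ ∑ deg (F e) + 2 (2 d - 1)`.
-/

set_option autoImplicit false

open Polynomial

namespace BSC

/-- the small numbers are different modulo `p` -/
private theorem vp5_cast (p : ℕ) [Fact p.Prime] (hp : 5 < p) {i j : ℕ} (hi : i < 6) (hj : j < 6)
    (h : (i : ZMod p) = (j : ZMod p)) : i = j := by
  rw [ZMod.natCast_eq_natCast_iff'] at h
  rwa [Nat.mod_eq_of_lt (by omega), Nat.mod_eq_of_lt (by omega)] at h

private theorem vp5_cop {K : Type} [Field K] {N D : K[X]} (hco : IsCoprime N D) (a : K) :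
    IsCoprime (N - C a * D) D := by
  have h := hco.add_mul_right_left (-C a)
  have e : N + -C a * D = N - C a * D := by ring
  rwa [e] at h

private theorem vp5_cop2 {K : Type} [Field K] {N D : K[X]} (hco : IsCoprime N D) {a b : K}
    (hab : a ≠ b) : IsCoprime (N - C a * D) (N - C b * D) := by
  have h1 : IsCoprime D (N - C b * D) := (vp5_cop hco b).symm
  have hu : IsUnit (C (b - a)) := by
    rw [isUnit_C, isUnit_iff_ne_zero]
    exact sub_ne_zero.2 hab.symm
  have h2 : IsCoprime (C (b - a) * D) (N - C b * D) :=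
    (isCoprime_mul_unit_left_left hu D (N - C b * D)).2 h1
  have h3 := h2.add_mul_left_left 1
  have e : C (b - a) * D + (N - C b * D) * 1 = N - C a * D := by
    rw [C_sub]
    ring
  rwa [e] at h3

/-- the square part divides the Wronskian -/
private theorem vp5_wr {K : Type} [Field K] {N D s S : K[X]} {a : K} (h : N - C a * D = s * S ^ 2) :
    S ∣ derivative N * D - N * derivative D := by
  have h1 : derivative N * D - N * derivative D =
      derivative (N - C a * D) * D - (N - C a * D) * derivative D := by
    rw [derivative_sub, derivative_C_mul]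
    ring
  rw [h1, h, derivative_mul, sq S, derivative_mul]
  refine ⟨(derivative s * S + 2 * s * derivative S) * D - s * S * derivative D, ?_⟩
  ring

theorem deg_bound (p : ℕ) [Fact p.Prime] (hp : 5 < p) (N D : (ZMod p)[X]) (hco : IsCoprime N D) (hD : D ≠ 0)
    (hW : derivative N * D - N * derivative D ≠ 0) (F : ℕ → (ZMod p)[X]) (hF : ∀ e < 6, F e ≠ 0)
    (hsq : ∀ e < 6, IsSquare (F e * (N - C (e : ZMod p) * D) * D)) :
    max N.natDegree D.natDegree ≤ ∑ e ∈ Finset.range 6, (F e).natDegree := by
  obtain ⟨d, hd⟩ : ∃ d, d = max N.natDegree D.natDegree := ⟨_, rfl⟩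
  rw [← hd]
  have hN' : N.natDegree ≤ d := hd ▸ le_max_left _ _
  have hD' : D.natDegree ≤ d := hd ▸ le_max_right _ _
  -- the degree is positive
  have hd1 : 1 ≤ d := by
    by_contra h0
    have hN0 : N.natDegree = 0 := by omega
    have hD0 : D.natDegree = 0 := by omega
    apply hW
    rw [natDegree_eq_zero] at hN0 hD0
    obtain ⟨a, rfl⟩ := hN0
    obtain ⟨b, rfl⟩ := hD0
    simp
  have hP0 : ∀ a : ZMod p, N - C a * D ≠ 0 := by
    intro a h0
    have h1 : N = C a * D := sub_eq_zero.1 h0
    apply hW
    rw [h1, derivative_C_mul]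
    ring
  have hex : ∀ e : ℕ, ∃ s S : (ZMod p)[X], Squarefree s ∧ S ≠ 0 ∧
      N - C (e : ZMod p) * D = s * S ^ 2 := fun e => exists_sqf _ (hP0 _)
  choose s S hs hS hPs using hex
  have hs0 : ∀ e, s e ≠ 0 := fun e => (hs e).ne_zero
  have hdeg : ∀ e : ℕ, (N - C (e : ZMod p) * D).natDegree = (s e).natDegree + 2 * (S e).natDegree := by
    intro e
    rw [hPs e, natDegree_mul (hs0 e) (pow_ne_zero 2 (hS e)), natDegree_pow]
  have hsF : ∀ e < 6, (s e).natDegree ≤ (F e).natDegree := by
    intro e he
    refine natDegree_le_of_dvd (sqf_dvd (F e) (s e) (S e) D (hs e) (hS e) ?_ ?_) (hF e he)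
    · have h := vp5_cop hco (e : ZMod p)
      rw [hPs e] at h
      exact h.of_mul_left_left
    · have h := hsq e he
      rwa [hPs e] at h
  -- the square parts
  have hprod : (∏ e ∈ Finset.range 6, S e) ∣ derivative N * D - N * derivative D := by
    refine Finset.prod_dvd_of_coprime ?_ fun e _ => vp5_wr (hPs e)
    intro i hi j hj hij
    have hi' : i < 6 := Finset.mem_range.1 (Finset.mem_coe.1 hi)
    have hj' : j < 6 := Finset.mem_range.1 (Finset.mem_coe.1 hj)
    have h := vp5_cop2 hco (a := (i : ZMod p)) (b := (j : ZMod p))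
      fun h => hij (vp5_cast p hp hi' hj' h)
    rw [hPs i, hPs j] at h
    have h1 := h.of_mul_left_right.of_mul_right_right
    exact (IsCoprime.pow_iff two_pos two_pos).1 h1
  have hsum : ∑ e ∈ Finset.range 6, (S e).natDegree ≤ 2 * d - 1 := by
    rw [← natDegree_prod _ _ fun e _ => hS e]
    refine (natDegree_le_of_dvd hprod hW).trans ?_
    refine (natDegree_sub_le _ _).trans (max_le ?_ ?_)
    · have h1 := natDegree_mul_le (p := derivative N) (q := D)
      have h2 := natDegree_derivative_le N
      omega
    · have h1 := natDegree_mul_le (p := N) (q := derivative D)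
      have h2 := natDegree_derivative_le D
      omega
  -- the degree of `N - e D`
  have hex0 : ∃ e0 : ℕ, ∀ e : ℕ, e < 6 → e0 = e ∨ d ≤ (N - C (e : ZMod p) * D).natDegree := by
    by_cases h : ∃ e0 : ℕ, e0 < 6 ∧ (N - C (e0 : ZMod p) * D).coeff d = 0
    · obtain ⟨e0, he0, h0⟩ := h
      refine ⟨e0, fun e he => ?_⟩
      by_contra hne
      push Not at hne
      have h1 : (N - C (e : ZMod p) * D).coeff d = 0 := coeff_eq_zero_of_natDegree_lt hne.2
      rw [coeff_sub, coeff_C_mul] at h0 h1
      have h2 : ((e0 : ZMod p) - e) * D.coeff d = 0 := by linear_combination h1 - h0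
      have h3 : D.coeff d = 0 := by
        rcases mul_eq_zero.1 h2 with h3 | h3
        · exact absurd (vp5_cast p hp he0 he (sub_eq_zero.1 h3)) hne.1
        · exact h3
      have h4 : N.coeff d = 0 := by
        rw [h3, mul_zero, sub_zero] at h1
        exact h1
      -- now both leading coefficients vanish
      rcases le_total N.natDegree D.natDegree with h5 | h5
      · have h6 : d = D.natDegree := by rw [hd, max_eq_right h5]
        rw [h6] at h3
        exact hD (leadingCoeff_eq_zero.1 h3)
      · have h6 : d = N.natDegree := by rw [hd, max_eq_left h5]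
        rw [h6] at h4
        have h7 : N = 0 := leadingCoeff_eq_zero.1 h4
        have h8 : N.natDegree = 0 := by rw [h7, natDegree_zero]
        omega
    · push Not at h
      exact ⟨6, fun e he => Or.inr (le_natDegree_of_ne_zero (h e he))⟩
  obtain ⟨e0, he0⟩ := hex0
  have key : ∀ e < 6, e0 = e ∨ d ≤ (F e).natDegree + 2 * (S e).natDegree := by
    intro e he
    rcases he0 e he with h | h
    · exact Or.inl h
    · right
      have h1 := hdeg e
      have h2 := hsF e he
      omega
  have k0 := key 0 (by norm_num)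
  have k1 := key 1 (by norm_num)
  have k2 := key 2 (by norm_num)
  have k3 := key 3 (by norm_num)
  have k4 := key 4 (by norm_num)
  have k5 := key 5 (by norm_num)
  simp only [Finset.sum_range_succ, Finset.sum_range_zero, zero_add] at hsum ⊢
  omega

end BSC
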