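import Pool.Agent.Lib_MP_49ddc8_v.VPb

/-!
# [G-P6] Good values

`P e = N - e D`, pairwise coprime for different `e < n ≤ p`.  The `e < n` with `P e` not squarefree: `S ^ 2 ∣ P e` with `S` not a unit, `S ∣ Wr := N' D - N D' = (P e)' D - P e D'`; these `S` are pairwise coprime of degree `≥ 1`, so there are at most `deg Wr ≤ 2 d - 1` of them, `d = max (deg N) (deg D)`;
at most one `e` with `deg (P e) < d` (the coefficient of degree `d` of `N - e D`); so at least `n - 2 d ≥ 3` good values.
-/

set_option autoImplicit false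

open Polynomial

namespace BSC

private theorem vp6_cast_inj (p : ℕ) [Fact p.Prime] (n : ℕ) (hp : n ≤ p) (a b : Fin n)
    (h : ((a : ℕ) : ZMod p) = ((b : ℕ) : ZMod p)) : a = b := by
  have h1 := (ZMod.natCast_eq_natCast_iff' _ _ _).1 h
  rw [Nat.mod_eq_of_lt (lt_of_lt_of_le a.2 hp), Nat.mod_eq_of_lt (lt_of_lt_of_le b.2 hp)] at h1
  exact Fin.ext h1

/-- a common divisor of `P e` and `P e'` is a unit -/
private theorem vp6_cop {K : Type} [Field K] (N D : K[X]) (hco : IsCoprime N D) (a b : K)
    (hab : a ≠ b) (π : K[X]) (h1 : π ∣ N - C a * D) (h2 : π ∣ N - C b * D) : IsUnit π := by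
  have h3 : π ∣ C (b - a) * D := by
    have h4 := dvd_sub h1 h2
    have h5 : N - C a * D - (N - C b * D) = C (b - a) * D := by
      rw [C_sub]
      ring
    rwa [h5] at h4
  have hu : IsUnit (C (b - a) : K[X]) := isUnit_C.2 (isUnit_iff_ne_zero.2 (sub_ne_zero.2 hab.symm))
  have hD : π ∣ D := (IsUnit.dvd_mul_left hu).1 h3
  have hN : π ∣ N := by
    have h4 := dvd_add h1 (Dvd.dvd.mul_left hD (C a))
    rwa [sub_add_cancel] at h4
  exact hco.isUnit_of_dvd' hN hD

private theorem vp6_card1 (p : ℕ) [Fact p.Prime] (N D : (ZMod p)[X]) (hco : IsCoprime N D)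
    (hW : derivative N * D - N * derivative D ≠ 0) (n : ℕ) (hp : n ≤ p) (B : Finset (Fin n))
    (hB : ∀ e ∈ B, ¬ Squarefree (N - C ((e : ℕ) : ZMod p) * D)) :
    B.card ≤ (derivative N * D - N * derivative D).natDegree := by
  classical
  have h1 : ∀ e : Fin n, ∃ S : (ZMod p)[X], e ∈ B → (S * S ∣ N - C ((e : ℕ) : ZMod p) * D ∧ ¬ IsUnit S) := by
    intro e
    by_cases he : e ∈ B
    · have h2 := hB e he
      unfold Squarefree at h2
      push Not at h2
      obtain ⟨S, h3, h4⟩ := h2
      exact ⟨S, fun _ => ⟨h3, h4⟩⟩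
    · exact ⟨0, fun h => absurd h he⟩
  choose S hS using h1
  have hdvd : ∀ e ∈ B, S e ∣ derivative N * D - N * derivative D := by
    intro e he
    obtain ⟨Q, hQ⟩ := (hS e he).1
    have h2 : derivative N * D - N * derivative D =
        derivative (N - C ((e : ℕ) : ZMod p) * D) * D - (N - C ((e : ℕ) : ZMod p) * D) * derivative D := by
      rw [derivative_sub, derivative_C_mul]
      ring
    rw [h2, hQ, derivative_mul, derivative_mul]
    refine ⟨(derivative (S e) * Q + derivative (S e) * Q + S e * derivative Q) * D - S e * Q * derivative D, ?_⟩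
    ring
  have hcop : ∀ a ∈ B, ∀ b ∈ B, a ≠ b → IsCoprime (S a) (S b) := by
    intro a ha b hb hab
    rw [← gcd_isUnit_iff]
    refine vp6_cop N D hco ((a : ℕ) : ZMod p) ((b : ℕ) : ZMod p) (fun h => hab (vp6_cast_inj p n hp a b h)) _ ?_ ?_
    · exact (gcd_dvd_left _ _).trans ((Dvd.intro _ rfl).trans (hS a ha).1)
    · exact (gcd_dvd_right _ _).trans ((Dvd.intro _ rfl).trans (hS b hb).1)
  have hprod : ∏ e ∈ B, S e ∣ derivative N * D - N * derivative D :=
    Finset.prod_dvd_of_coprime (fun a ha b hb hab => hcop a ha b hb hab) hdvd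
  have hne : ∀ e ∈ B, S e ≠ 0 := by
    intro e he h0
    have h2 := hdvd e he
    rw [h0, zero_dvd_iff] at h2
    exact hW h2
  have hdeg : ∀ e ∈ B, 1 ≤ (S e).natDegree := by
    intro e he
    rw [Nat.one_le_iff_ne_zero]
    intro h0
    apply (hS e he).2
    rw [natDegree_eq_zero] at h0
    obtain ⟨c, hc⟩ := h0
    rw [← hc, isUnit_C, isUnit_iff_ne_zero]
    rintro rfl
    exact hne e he (by rw [← hc, C_0])
  calc B.card = ∑ _e ∈ B, 1 := by simp
    _ ≤ ∑ e ∈ B, (S e).natDegree := Finset.sum_le_sum hdeg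
    _ = (∏ e ∈ B, S e).natDegree := (natDegree_prod B S hne).symm
    _ ≤ _ := natDegree_le_of_dvd hprod hW

private theorem vp6_card2 (p : ℕ) [Fact p.Prime] (N D : (ZMod p)[X]) (hD : D ≠ 0) (n : ℕ)
    (hp : n ≤ p) (B : Finset (Fin n))
    (hB : ∀ e ∈ B, (N - C ((e : ℕ) : ZMod p) * D).natDegree ≠ max N.natDegree D.natDegree) :
    B.card ≤ 1 := by
  set d := max N.natDegree D.natDegree with hd
  have h1 : ∀ e ∈ B, N.coeff d - ((e : ℕ) : ZMod p) * D.coeff d = 0 := by
    intro e he
    by_contra h0
    apply hB e he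
    have h2 : (N - C ((e : ℕ) : ZMod p) * D).coeff d ≠ 0 := by
      rw [coeff_sub, coeff_C_mul]
      exact h0
    refine le_antisymm ?_ (le_natDegree_of_ne_zero h2)
    refine (natDegree_sub_le _ _).trans (max_le (le_max_left _ _) ?_)
    exact (natDegree_C_mul_le _ _).trans (le_max_right _ _)
  rw [Finset.card_le_one]
  intro a ha b hb
  have ha1 := h1 a ha
  have hb1 := h1 b hb
  by_cases hDc : D.coeff d = 0
  · exfalso
    rw [hDc, mul_zero, sub_zero] at ha1
    have h3 : D.natDegree ≠ d := by
      intro h4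
      rw [← h4] at hDc
      exact hD (leadingCoeff_eq_zero.1 hDc)
    have h5 : N.natDegree = d := by
      rcases le_total N.natDegree D.natDegree with h | h
      · exact absurd (max_eq_right h).symm h3
      · exact (max_eq_left h).symm
    rw [← h5] at ha1
    have h6 := leadingCoeff_eq_zero.1 ha1
    rw [h6, natDegree_zero] at h5
    rw [h6, natDegree_zero, Nat.zero_max] at hd
    exact h3 hd.symm
  · apply vp6_cast_inj p n hp a b
    have h4 : (((a : ℕ) : ZMod p) - ((b : ℕ) : ZMod p)) * D.coeff d = 0 := by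
      linear_combination hb1 - ha1
    exact sub_eq_zero.1 ((mul_eq_zero.1 h4).resolve_right hDc)

private theorem vp6_deg (K : Type) [Field K] (N D : K[X])
    (hW : derivative N * D - N * derivative D ≠ 0) :
    (derivative N * D - N * derivative D).natDegree + 1 ≤ 2 * max N.natDegree D.natDegree := by
  have hA : ∀ A B : K[X], (derivative A * B).natDegree + 1 ≤ 2 * max A.natDegree B.natDegree ∨
      derivative A = 0 := by
    intro A B
    rcases Nat.eq_zero_or_pos A.natDegree with h | h
    · right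
      rw [natDegree_eq_zero] at h
      obtain ⟨c, rfl⟩ := h
      exact derivative_C
    · left
      have h1 := natDegree_mul_le (p := derivative A) (q := B)
      have h2 := natDegree_derivative_le A
      omega
  have h1 := hA N D
  have h2 := hA D N
  rw [mul_comm (derivative D) N, max_comm] at h2
  rcases h1 with h1 | h1
  · rcases h2 with h2 | h2
    · have h3 := natDegree_sub_le (derivative N * D) (N * derivative D)
      omega
    · rw [h2, mul_zero, sub_zero]
      exact h1
  · rcases h2 with h2 | h2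
    · rw [h1, zero_mul, zero_sub, natDegree_neg]
      exact h2
    · exact absurd (by rw [h1, h2]; ring) hW

theorem good_e (p : ℕ) [Fact p.Prime] (N D : (ZMod p)[X]) (hco : IsCoprime N D) (hD : D ≠ 0)
    (hW : derivative N * D - N * derivative D ≠ 0) (n : ℕ) (hn : 2 * max N.natDegree D.natDegree + 3 ≤ n) (hp : n ≤ p) :
    ∃ e : Fin 3 → Fin n, Function.Injective e ∧ ∀ i, Squarefree (N - C ((e i : ℕ) : ZMod p) * D) ∧
      (N - C ((e i : ℕ) : ZMod p) * D).natDegree = max N.natDegree D.natDegree := by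
  classical
  set B1 : Finset (Fin n) := Finset.univ.filter (fun e => ¬ Squarefree (N - C ((e : ℕ) : ZMod p) * D))
    with hB1
  set B2 : Finset (Fin n) := Finset.univ.filter
    (fun e => (N - C ((e : ℕ) : ZMod p) * D).natDegree ≠ max N.natDegree D.natDegree) with hB2
  have h1 : B1.card ≤ _ := vp6_card1 p N D hco hW n hp B1 (fun e he => by
    rw [hB1, Finset.mem_filter] at he
    exact he.2)
  have h2 : B2.card ≤ 1 := vp6_card2 p N D hD n hp B2 (fun e he => by
    rw [hB2, Finset.mem_filter] at he
    exact he.2)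
  have h3 := vp6_deg _ N D hW
  have h4 : 3 ≤ (B1 ∪ B2)ᶜ.card := by
    rw [Finset.card_compl, Fintype.card_fin]
    have h5 := Finset.card_union_le B1 B2
    omega
  obtain ⟨t, ht, htc⟩ := Finset.exists_subset_card_eq h4
  refine ⟨fun i => ((t.equivFinOfCardEq htc).symm i).1, ?_, ?_⟩
  · intro a b hab
    exact (t.equivFinOfCardEq htc).symm.injective (Subtype.ext hab)
  · intro i
    have h5 := ht ((t.equivFinOfCardEq htc).symm i).2
    rw [Finset.mem_compl, Finset.mem_union, not_or, hB1, hB2, Finset.mem_filter, Finset.mem_filter] at h5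
    simp only [Finset.mem_univ, true_and, not_not] at h5
    exact h5

end BSC
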