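import Pool.Agent.Lib_MP_49ddc8_v.VFam
import Pool.Agent.Lib_MP_49ddc8_v.VLin

/-!
# [G-P8] Gluing: `r_t = N t / D t` is the reduction of an element of `k(X)`

`P i = N - e_i D`.  `G i`: `k[X]`.  Let `H = gcd (G 0) (G 1)`, `G 0 = H A₀`, `G 1 = H A₁`, `A₀`, `A₁` coprime (`EuclideanDomain.gcd` or an ideal generator, `U A₀ + V A₁ = 1`).  For almost all `t`: `pr H * pr A₀ ~ P 0 * s`, `pr H * pr A₁ ~ P 1 * s`, `P 0`, `P 1` coprime (`e_i` different mod `p`), `pr A₀`, `pr A₁` coprime: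
so `pr H ~ s` (both are gcds).  `G 2 = H Q + R`, `deg R < deg H` or `R = 0`: `pr H ∣ pr (G 2)` so `pr H ∣ pr R`, degrees: `pr R = 0` for almost all `t`, so `R = 0` (`pr_ne`), `G 2 = H A₂`.  So `pr (A_i) = c_i P i`, `c_i` a nonzero constant (depending on `t`; associated polynomials differ by a constant).
`(e₁ - e₂) P 0 + (e₂ - e₀) P 1 + (e₀ - e₁) P 2 = 0`: the `pr (A_i)` are linearly dependent for almost all `t`, so by `pr_linInd` the `A_i` are linearly dependent over `k`: `∑ μ_i A_i = 0`, `μ ≠ 0`.  For almost all `t` this gives `∑ red μ_i c_i P i = 0`, not all `red μ_i` zero;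
`P 0`, `P 1` are linearly independent (coprime, positive degree), so the two relations are proportional: `red μ₀ c₀ = λ (e₁ - e₂)`, `red μ₁ c₁ = λ (e₂ - e₀)`, `λ ≠ 0`.
Put `B = μ₀ / (e₁ - e₂) A₀ - μ₁ / (e₂ - e₀) A₁`, `A = e₁ μ₀ / (e₁ - e₂) A₀ - e₀ μ₁ / (e₂ - e₀) A₁` (in `k[X]`): `pr B = λ (P 0 - P 1) = λ (e₁ - e₀) D`, `pr A = λ (e₁ P 0 - e₀ P 1) = λ (e₁ - e₀) N`.
-/

set_option autoImplicit false

open Polynomial

namespace BSC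

section field

variable {K : Type} [Field K]

private theorem vp8_dvd (a b h s : K[X]) (hab : IsCoprime a b) (ha : s ∣ h * a) (hb : s ∣ h * b) : s ∣ h := by
  obtain ⟨u, v, huv⟩ := hab
  have h1 : s ∣ u * (h * a) + v * (h * b) := dvd_add (ha.mul_left u) (hb.mul_left v)
  rwa [show u * (h * a) + v * (h * b) = h by linear_combination h * huv] at h1

private theorem vp8_cop (N D : K[X]) (hco : IsCoprime N D) (e₀ e₁ : K) (h01 : e₀ - e₁ ≠ 0) :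
    IsCoprime (N - C e₀ * D) (N - C e₁ * D) := by
  obtain ⟨a, b, hab⟩ := hco
  have h2 : C (e₀ - e₁)⁻¹ * C (e₀ - e₁) = (1 : K[X]) := by
    rw [← C_mul, inv_mul_cancel₀ h01, C_1]
  rw [C_sub] at h2
  refine ⟨a - (a * C e₀ + b) * C (e₀ - e₁)⁻¹, (a * C e₀ + b) * C (e₀ - e₁)⁻¹, ?_⟩
  linear_combination hab + (a * C e₀ + b) * D * h2

private theorem vp8_assoc (N D s H a₀ a₁ : K[X]) (hco : IsCoprime N D) (e₀ e₁ : K) (h01 : e₀ - e₁ ≠ 0)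
    (hcop : IsCoprime a₀ a₁) (h0 : Associated (H * a₀) ((N - C e₀ * D) * s)) (h1 : Associated (H * a₁) ((N - C e₁ * D) * s)) :
    Associated H s := by
  refine associated_of_dvd_dvd ?_ ?_
  · refine vp8_dvd (N - C e₀ * D) (N - C e₁ * D) s H (vp8_cop N D hco e₀ e₁ h01) ?_ ?_
    · rw [mul_comm s]
      exact (Dvd.intro _ rfl).trans h0.dvd
    · rw [mul_comm s]
      exact (Dvd.intro _ rfl).trans h1.dvd
  · refine vp8_dvd a₀ a₁ H s hcop ?_ ?_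
    · exact (Dvd.intro_left _ rfl).trans h0.symm.dvd
    · exact (Dvd.intro_left _ rfl).trans h1.symm.dvd

private theorem vp8_c (P s H a : K[X]) (hs : s ≠ 0) (hH : Associated H s) (h : Associated (H * a) (P * s)) :
    ∃ c : K, c ≠ 0 ∧ a = C c * P := by
  have hH0 : H ≠ 0 := fun h0 => hs ((Associated.eq_zero_iff hH).1 h0)
  have h1 : Associated a P := by
    rw [mul_comm P s] at h
    exact h.of_mul_left hH hH0
  obtain ⟨u, hu⟩ := h1.symm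
  obtain ⟨c, hc, hcu⟩ := Polynomial.isUnit_iff.1 u.isUnit
  exact ⟨c, hc.ne_zero, by rw [← hu, ← hcu, mul_comm]⟩

private theorem vp8_indep (P Q : K[X]) (hPQ : IsCoprime P Q) (hP : 0 < P.natDegree) (a b : K) (h : C a * P + C b * Q = 0) :
    a = 0 ∧ b = 0 := by
  have hP0 : P ≠ 0 := by
    rintro rfl
    simp at hP
  have hb : b = 0 := by
    by_contra hb
    have h2 : C b⁻¹ * C b = (1 : K[X]) := by
      rw [← C_mul, inv_mul_cancel₀ hb, C_1]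
    have h3 : P ∣ Q := ⟨- C b⁻¹ * C a, by linear_combination C b⁻¹ * h - Q * h2⟩
    have h4 : IsUnit P := hPQ.isUnit_of_dvd' dvd_rfl h3
    have h5 := natDegree_eq_zero_of_isUnit h4
    omega
  refine ⟨?_, hb⟩
  rw [hb, C_0, zero_mul, add_zero] at h
  exact C_eq_zero.1 ((mul_eq_zero.1 h).resolve_right hP0)

/-- the relation for one prime -/
private theorem vp8_core (N D s H : K[X]) (a : Fin 3 → K[X]) (hD : D ≠ 0) (hco : IsCoprime N D) (hs : s ≠ 0) (e : Fin 3 → K)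
    (h01 : e 0 - e 1 ≠ 0) (h12 : e 1 - e 2 ≠ 0) (h20 : e 2 - e 0 ≠ 0) (hcop : IsCoprime (a 0) (a 1))
    (h : ∀ i, Associated (H * a i) ((N - C (e i) * D) * s)) (hpos : 0 < (N - C (e 0) * D).natDegree) :
    (∃ m : Fin 3 → K, (∃ i, m i ≠ 0) ∧ ∑ i, m i • a i = 0) ∧ ∀ m : Fin 3 → K, (∃ i, m i ≠ 0) → C (m 0) * a 0 + C (m 1) * a 1 + C (m 2) * a 2 = 0 →
      (C (m 0) * C (e 2 - e 0) * a 0 - C (m 1) * C (e 1 - e 2) * a 1 ≠ 0) ∧
      N * (C (m 0) * C (e 2 - e 0) * a 0 - C (m 1) * C (e 1 - e 2) * a 1) =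
        (C (e 1) * (C (m 0) * C (e 2 - e 0)) * a 0 - C (e 0) * (C (m 1) * C (e 1 - e 2)) * a 1) * D := by
  have hHs := vp8_assoc N D s H (a 0) (a 1) hco (e 0) (e 1) h01 hcop (h 0) (h 1)
  obtain ⟨c₀, hc₀, h0⟩ := vp8_c _ s H (a 0) hs hHs (h 0)
  obtain ⟨c₁, hc₁, h1⟩ := vp8_c _ s H (a 1) hs hHs (h 1)
  obtain ⟨c₂, hc₂, h2⟩ := vp8_c _ s H (a 2) hs hHs (h 2)
  have hi₀ : C c₀⁻¹ * C c₀ = (1 : K[X]) := by rw [← C_mul, inv_mul_cancel₀ hc₀, C_1]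
  have hi₁ : C c₁⁻¹ * C c₁ = (1 : K[X]) := by rw [← C_mul, inv_mul_cancel₀ hc₁, C_1]
  have hi₂ : C c₂⁻¹ * C c₂ = (1 : K[X]) := by rw [← C_mul, inv_mul_cancel₀ hc₂, C_1]
  constructor
  · refine ⟨![(e 1 - e 2) * c₀⁻¹, (e 2 - e 0) * c₁⁻¹, (e 0 - e 1) * c₂⁻¹], ⟨0, mul_ne_zero h12 (inv_ne_zero hc₀)⟩, ?_⟩
    simp only [Fin.sum_univ_three, smul_eq_C_mul]
    show C ((e 1 - e 2) * c₀⁻¹) * a 0 + C ((e 2 - e 0) * c₁⁻¹) * a 1 + C ((e 0 - e 1) * c₂⁻¹) * a 2 = 0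
    rw [h0, h1, h2]
    simp only [C_mul, C_sub]
    linear_combination (C (e 1) - C (e 2)) * (N - C (e 0) * D) * hi₀ + (C (e 2) - C (e 0)) * (N - C (e 1) * D) * hi₁ +
      (C (e 0) - C (e 1)) * (N - C (e 2) * D) * hi₂
  · intro m ⟨j, hj⟩ hm
    have hrel : C ((e 0 - e 1) * (m 0 * c₀) - (m 2 * c₂) * (e 1 - e 2)) * (N - C (e 0) * D) +
        C ((e 0 - e 1) * (m 1 * c₁) - (m 2 * c₂) * (e 2 - e 0)) * (N - C (e 1) * D) = 0 := by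
      rw [h0, h1, h2] at hm
      simp only [C_mul, C_sub]
      linear_combination (C (e 0) - C (e 1)) * hm
    obtain ⟨hr0, hr1⟩ := vp8_indep _ _ (vp8_cop N D hco (e 0) (e 1) h01) hpos _ _ hrel
    set l : K := m 2 * c₂ / (e 0 - e 1) with hl
    have hl2 : m 2 * c₂ = l * (e 0 - e 1) := by rw [hl]; field_simp
    have hl0 : m 0 * c₀ = l * (e 1 - e 2) := by
      rw [hl2] at hr0
      exact mul_left_cancel₀ h01 (by linear_combination hr0)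
    have hl1 : m 1 * c₁ = l * (e 2 - e 0) := by
      rw [hl2] at hr1
      exact mul_left_cancel₀ h01 (by linear_combination hr1)
    have hlne : l ≠ 0 := by
      intro h0'
      rw [h0', zero_mul] at hl0 hl1 hl2
      have hm0 := (mul_eq_zero.1 hl0).resolve_right hc₀
      have hm1 := (mul_eq_zero.1 hl1).resolve_right hc₁
      have hm2 := (mul_eq_zero.1 hl2).resolve_right hc₂
      fin_cases j
      · exact hj hm0
      · exact hj hm1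
      · exact hj hm2
    have hB : C (m 0) * C (e 2 - e 0) * a 0 - C (m 1) * C (e 1 - e 2) * a 1 =
        C (l * (e 1 - e 2) * (e 2 - e 0) * (e 1 - e 0)) * D := by
      have e0 : C (m 0) * C c₀ = (C l * (C (e 1) - C (e 2)) : K[X]) := by rw [← C_mul, hl0, C_mul, C_sub]
      have e1 : C (m 1) * C c₁ = (C l * (C (e 2) - C (e 0)) : K[X]) := by rw [← C_mul, hl1, C_mul, C_sub]
      rw [h0, h1]
      simp only [C_mul, C_sub]
      linear_combination (C (e 2) - C (e 0)) * (N - C (e 0) * D) * e0 - (C (e 1) - C (e 2)) * (N - C (e 1) * D) * e1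
    have hA : C (e 1) * (C (m 0) * C (e 2 - e 0)) * a 0 - C (e 0) * (C (m 1) * C (e 1 - e 2)) * a 1 =
        C (l * (e 1 - e 2) * (e 2 - e 0) * (e 1 - e 0)) * N := by
      have e0 : C (m 0) * C c₀ = (C l * (C (e 1) - C (e 2)) : K[X]) := by rw [← C_mul, hl0, C_mul, C_sub]
      have e1 : C (m 1) * C c₁ = (C l * (C (e 2) - C (e 0)) : K[X]) := by rw [← C_mul, hl1, C_mul, C_sub]
      rw [h0, h1]
      simp only [C_mul, C_sub]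
      linear_combination C (e 1) * (C (e 2) - C (e 0)) * (N - C (e 0) * D) * e0 -
        C (e 0) * (C (e 1) - C (e 2)) * (N - C (e 1) * D) * e1
    rw [hB, hA]
    have h10 : e 1 - e 0 ≠ 0 := by
      intro h'
      exact h01 (by linear_combination -h')
    exact ⟨mul_ne_zero (C_ne_zero.2 (mul_ne_zero (mul_ne_zero (mul_ne_zero hlne h12) h20) h10)) hD, by ring⟩

end field

section fam

variable {k : Type} [Field k]

private theorem vp8_red_int (F : Fam k) (n : ℤ) : ∀ᶠ t in (F.U : Filter F.T), F.red t (n : k) = (n : ZMod (F.p t)) := by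
  filter_upwards [F.pr_int (C n)] with t ht
  have h : (F.pr t ((C n : ℤ[X]).map (Int.castRingHom k))).coeff 0 = (ired (F.p t) (C n : ℤ[X])).coeff 0 := by rw [ht]
  rw [F.pr_coeff, ired, coeff_map, coeff_map, coeff_C_zero, eq_intCast, eq_intCast] at h
  exact h

private theorem vp8_sub [CharZero k] (F : Fam k) (a b : ℕ) (hab : a ≠ b) :
    ∀ᶠ t in (F.U : Filter F.T), ((a : ℕ) : ZMod (F.p t)) - ((b : ℕ) : ZMod (F.p t)) ≠ 0 := by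
  have h0 : (((a : ℤ) - (b : ℤ) : ℤ) : k) ≠ 0 := by
    rw [Int.cast_ne_zero, sub_ne_zero]
    exact_mod_cast hab
  filter_upwards [F.red_ne _ h0, vp8_red_int F ((a : ℤ) - (b : ℤ))] with t h1 h2
  rw [h2] at h1
  push_cast at h1
  exact h1

end fam

theorem glue_three {k : Type} [Field k] [CharZero k] (F : Fam k) (N D s : ∀ t, (ZMod (F.p t))[X]) (hD : ∀ t, D t ≠ 0)
    (hco : ∀ t, IsCoprime (N t) (D t)) (hs : ∀ t, s t ≠ 0) (e : Fin 3 → ℕ) (he : Function.Injective e) (G : Fin 3 → k[X])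
    (hG : ∀ i, G i ≠ 0)
    (h : ∀ i, ∀ᶠ t in (F.U : Filter F.T), Associated (F.pr t (G i)) ((N t - C ((e i : ℕ) : ZMod (F.p t)) * D t) * s t))
    (hpos : ∀ i, ∀ᶠ t in (F.U : Filter F.T), 0 < (N t - C ((e i : ℕ) : ZMod (F.p t)) * D t).natDegree) :
    ∃ A B : k[X], B ≠ 0 ∧ ∀ᶠ t in (F.U : Filter F.T), N t * F.pr t B = F.pr t A * D t := by
  have hE01 := vp8_sub F (e 0) (e 1) fun h' => absurd (he h') (by decide)
  have hE12 := vp8_sub F (e 1) (e 2) fun h' => absurd (he h') (by decide)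
  have hE20 := vp8_sub F (e 2) (e 0) fun h' => absurd (he h') (by decide)
  -- the gcd
  obtain ⟨H, A₀, A₁, hG0, hG1, hcop⟩ : ∃ H A₀ A₁ : k[X], G 0 = H * A₀ ∧ G 1 = H * A₁ ∧ IsCoprime A₀ A₁ := by
    classical
    obtain ⟨A₀, hA₀⟩ := EuclideanDomain.gcd_dvd_left (G 0) (G 1)
    obtain ⟨A₁, hA₁⟩ := EuclideanDomain.gcd_dvd_right (G 0) (G 1)
    have hb := EuclideanDomain.gcd_eq_gcd_ab (G 0) (G 1)
    have hH0 : EuclideanDomain.gcd (G 0) (G 1) ≠ 0 := fun h' => hG 0 (EuclideanDomain.gcd_eq_zero_iff.1 h').1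
    refine ⟨_, A₀, A₁, hA₀, hA₁, EuclideanDomain.gcdA (G 0) (G 1), EuclideanDomain.gcdB (G 0) (G 1), ?_⟩
    refine mul_left_cancel₀ hH0 ?_
    linear_combination -hb - EuclideanDomain.gcdA (G 0) (G 1) * hA₀ - EuclideanDomain.gcdB (G 0) (G 1) * hA₁
  have hH0 : H ≠ 0 := by
    rintro rfl
    exact hG 0 (by rw [hG0, zero_mul])
  have hA0' : ∀ᶠ t in (F.U : Filter F.T), F.pr t (G 0) = F.pr t H * F.pr t A₀ := by
    rw [hG0]
    exact F.pr_mul _ _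
  have hA1' : ∀ᶠ t in (F.U : Filter F.T), F.pr t (G 1) = F.pr t H * F.pr t A₁ := by
    rw [hG1]
    exact F.pr_mul _ _
  have hcop' := F.pr_coprime _ _ hcop
  -- `H` divides `G 2`
  obtain ⟨A₂, hG2⟩ : H ∣ G 2 := by
    rw [← EuclideanDomain.mod_eq_zero]
    by_contra hR
    obtain ⟨t, h01, hp0, hp1, hc, ha0, ha1, ha2, hq1, hq2, hd1, hd2, hr⟩ := (hE01.and (hA0'.and (hA1'.and (hcop'.and
      ((h 0).and ((h 1).and ((h 2).and ((F.pr_add (H * (G 2 / H)) (G 2 % H)).and ((F.pr_mul H (G 2 / H)).and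
        ((F.pr_natDegree H).and ((F.pr_natDegree (G 2 % H)).and (F.pr_ne _ hR)))))))))))).exists
    rw [hp0] at ha0
    rw [hp1] at ha1
    have hHs := vp8_assoc (N t) (D t) (s t) (F.pr t H) (F.pr t A₀) (F.pr t A₁) (hco t) _ _ h01 hc ha0 ha1
    rw [EuclideanDomain.div_add_mod, hq2] at hq1
    have h1 : F.pr t H ∣ F.pr t (G 2) := hHs.dvd.trans ((Dvd.intro_left _ rfl).trans ha2.symm.dvd)
    rw [hq1] at h1
    have h2 : F.pr t H ∣ F.pr t (G 2 % H) := (dvd_add_right (Dvd.intro _ rfl)).1 h1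
    have h3 := natDegree_le_of_dvd h2 hr
    rw [hd1, hd2] at h3
    have h4 : (G 2 % H).degree < H.degree := EuclideanDomain.mod_lt _ hH0
    have h5 := natDegree_lt_natDegree hR h4
    omega
  have hA2' : ∀ᶠ t in (F.U : Filter F.T), F.pr t (G 2) = F.pr t H * F.pr t A₂ := by
    rw [hG2]
    exact F.pr_mul _ _
  have hcore : ∀ᶠ t in (F.U : Filter F.T), (∃ m : Fin 3 → ZMod (F.p t), (∃ i, m i ≠ 0) ∧ ∑ i, m i • (F.pr t ((![A₀, A₁, A₂] : Fin 3 → k[X]) i)) = 0) ∧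
      ∀ m : Fin 3 → ZMod (F.p t), (∃ i, m i ≠ 0) →
      C (m 0) * F.pr t A₀ + C (m 1) * F.pr t A₁ + C (m 2) * F.pr t A₂ = 0 →
      (C (m 0) * C ((e 2 : ZMod (F.p t)) - e 0) * F.pr t A₀ - C (m 1) * C ((e 1 : ZMod (F.p t)) - e 2) * F.pr t A₁ ≠ 0) ∧
      N t * (C (m 0) * C ((e 2 : ZMod (F.p t)) - e 0) * F.pr t A₀ - C (m 1) * C ((e 1 : ZMod (F.p t)) - e 2) * F.pr t A₁) =
        (C (e 1 : ZMod (F.p t)) * (C (m 0) * C ((e 2 : ZMod (F.p t)) - e 0)) * F.pr t A₀ -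
          C (e 0 : ZMod (F.p t)) * (C (m 1) * C ((e 1 : ZMod (F.p t)) - e 2)) * F.pr t A₁) * D t := by
    filter_upwards [hE01, hE12, hE20, hA0', hA1', hA2', hcop', h 0, h 1, h 2, hpos 0] with t h01 h12 h20 hp0 hp1 hp2 hc ha0 ha1 ha2 hps
    rw [hp0] at ha0
    rw [hp1] at ha1
    rw [hp2] at ha2
    refine vp8_core (N t) (D t) (s t) (F.pr t H) (fun i => F.pr t ((![A₀, A₁, A₂] : Fin 3 → k[X]) i)) (hD t) (hco t) (hs t)
      (fun i => ((e i : ℕ) : ZMod (F.p t))) h01 h12 h20 hc ?_ hps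
    intro i
    fin_cases i
    · exact ha0
    · exact ha1
    · exact ha2
  -- linear dependence
  have hdep : ¬ LinearIndependent k (![A₀, A₁, A₂] : Fin 3 → k[X]) := by
    intro hli
    obtain ⟨t, ht1, ht2⟩ := ((F.pr_linInd 3 _ hli).and hcore).exists
    obtain ⟨⟨m, ⟨i, hi⟩, hm⟩, -⟩ := ht2
    exact hi (Fintype.linearIndependent_iff.1 ht1 m hm i)
  obtain ⟨μ, hμ, j, hj⟩ := Fintype.not_linearIndependent_iff.1 hdep
  have hμ' : C (μ 0) * A₀ + C (μ 1) * A₁ + C (μ 2) * A₂ = 0 := by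
    simpa only [Fin.sum_univ_three, smul_eq_C_mul, Matrix.cons_val] using hμ
  -- products with constants
  have hC : ∀ (a : k) (f : k[X]), ∀ᶠ t in (F.U : Filter F.T), F.pr t (C a * f) = C (F.red t a) * F.pr t f := by
    intro a f
    filter_upwards [F.pr_mul (C a) f] with t ht
    rw [ht, F.pr_C]
  have hrel : ∀ᶠ t in (F.U : Filter F.T), C (F.red t (μ 0)) * F.pr t A₀ + C (F.red t (μ 1)) * F.pr t A₁ +
      C (F.red t (μ 2)) * F.pr t A₂ = 0 := by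
    filter_upwards [hC (μ 0) A₀, hC (μ 1) A₁, hC (μ 2) A₂, F.pr_add (C (μ 0) * A₀) (C (μ 1) * A₁),
      F.pr_add (C (μ 0) * A₀ + C (μ 1) * A₁) (C (μ 2) * A₂)] with t h1 h2 h3 h4 h5
    rw [← h1, ← h2, ← h3, ← h4, ← h5, hμ', F.pr_zero]
  have hB : ∀ᶠ t in (F.U : Filter F.T), F.pr t (C (μ 0 * ((((e 2 : ℕ) : ℤ) - ((e 0 : ℕ) : ℤ) : ℤ) : k)) * A₀ -
      C (μ 1 * ((((e 1 : ℕ) : ℤ) - ((e 2 : ℕ) : ℤ) : ℤ) : k)) * A₁) =
      C (F.red t (μ 0)) * C ((e 2 : ZMod (F.p t)) - e 0) * F.pr t A₀ -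
        C (F.red t (μ 1)) * C ((e 1 : ZMod (F.p t)) - e 2) * F.pr t A₁ := by
    filter_upwards [F.pr_sub (C (μ 0 * ((((e 2 : ℕ) : ℤ) - ((e 0 : ℕ) : ℤ) : ℤ) : k)) * A₀)
      (C (μ 1 * ((((e 1 : ℕ) : ℤ) - ((e 2 : ℕ) : ℤ) : ℤ) : k)) * A₁),
      hC (μ 0 * ((((e 2 : ℕ) : ℤ) - ((e 0 : ℕ) : ℤ) : ℤ) : k)) A₀, hC (μ 1 * ((((e 1 : ℕ) : ℤ) - ((e 2 : ℕ) : ℤ) : ℤ) : k)) A₁,
      F.mul (μ 0) ((((e 2 : ℕ) : ℤ) - ((e 0 : ℕ) : ℤ) : ℤ) : k), F.mul (μ 1) ((((e 1 : ℕ) : ℤ) - ((e 2 : ℕ) : ℤ) : ℤ) : k),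
      vp8_red_int F (((e 2 : ℕ) : ℤ) - ((e 0 : ℕ) : ℤ)), vp8_red_int F (((e 1 : ℕ) : ℤ) - ((e 2 : ℕ) : ℤ))] with t h1 h2 h3 h4 h5 h6 h7
    rw [h1, h2, h3, h4, h5, h6, h7]
    simp only [C_mul, Int.cast_sub, Int.cast_natCast]
  have hA : ∀ᶠ t in (F.U : Filter F.T), F.pr t (C ((((e 1 : ℕ) : ℤ) : k) * (μ 0 * ((((e 2 : ℕ) : ℤ) - ((e 0 : ℕ) : ℤ) : ℤ) : k))) * A₀ -
      C ((((e 0 : ℕ) : ℤ) : k) * (μ 1 * ((((e 1 : ℕ) : ℤ) - ((e 2 : ℕ) : ℤ) : ℤ) : k))) * A₁) =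
      C (e 1 : ZMod (F.p t)) * (C (F.red t (μ 0)) * C ((e 2 : ZMod (F.p t)) - e 0)) * F.pr t A₀ -
        C (e 0 : ZMod (F.p t)) * (C (F.red t (μ 1)) * C ((e 1 : ZMod (F.p t)) - e 2)) * F.pr t A₁ := by
    filter_upwards [F.pr_sub (C ((((e 1 : ℕ) : ℤ) : k) * (μ 0 * ((((e 2 : ℕ) : ℤ) - ((e 0 : ℕ) : ℤ) : ℤ) : k))) * A₀)
      (C ((((e 0 : ℕ) : ℤ) : k) * (μ 1 * ((((e 1 : ℕ) : ℤ) - ((e 2 : ℕ) : ℤ) : ℤ) : k))) * A₁),
      hC ((((e 1 : ℕ) : ℤ) : k) * (μ 0 * ((((e 2 : ℕ) : ℤ) - ((e 0 : ℕ) : ℤ) : ℤ) : k))) A₀,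
      hC ((((e 0 : ℕ) : ℤ) : k) * (μ 1 * ((((e 1 : ℕ) : ℤ) - ((e 2 : ℕ) : ℤ) : ℤ) : k))) A₁,
      F.mul (((e 1 : ℕ) : ℤ) : k) (μ 0 * ((((e 2 : ℕ) : ℤ) - ((e 0 : ℕ) : ℤ) : ℤ) : k)),
      F.mul (((e 0 : ℕ) : ℤ) : k) (μ 1 * ((((e 1 : ℕ) : ℤ) - ((e 2 : ℕ) : ℤ) : ℤ) : k)),
      F.mul (μ 0) ((((e 2 : ℕ) : ℤ) - ((e 0 : ℕ) : ℤ) : ℤ) : k), F.mul (μ 1) ((((e 1 : ℕ) : ℤ) - ((e 2 : ℕ) : ℤ) : ℤ) : k),
      vp8_red_int F (((e 2 : ℕ) : ℤ) - ((e 0 : ℕ) : ℤ)), vp8_red_int F (((e 1 : ℕ) : ℤ) - ((e 2 : ℕ) : ℤ)),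
      vp8_red_int F ((e 1 : ℕ) : ℤ), vp8_red_int F ((e 0 : ℕ) : ℤ)] with t h1 h2 h3 g4 g5 h4 h5 h6 h7 h8 h9
    rw [h1, h2, h3, g4, g5, h4, h5, h6, h7, h8, h9]
    simp only [C_mul, Int.cast_sub, Int.cast_natCast]
  refine ⟨C ((((e 1 : ℕ) : ℤ) : k) * (μ 0 * ((((e 2 : ℕ) : ℤ) - ((e 0 : ℕ) : ℤ) : ℤ) : k))) * A₀ -
      C ((((e 0 : ℕ) : ℤ) : k) * (μ 1 * ((((e 1 : ℕ) : ℤ) - ((e 2 : ℕ) : ℤ) : ℤ) : k))) * A₁,
    C (μ 0 * ((((e 2 : ℕ) : ℤ) - ((e 0 : ℕ) : ℤ) : ℤ) : k)) * A₀ -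
      C (μ 1 * ((((e 1 : ℕ) : ℤ) - ((e 2 : ℕ) : ℤ) : ℤ) : k)) * A₁, ?_, ?_⟩
  · intro h0
    obtain ⟨t, ht1, ht2, ht3, ht4⟩ := (hcore.and (hrel.and (hB.and (F.red_ne _ hj)))).exists
    have := (ht1.2 (fun i => F.red t (μ i)) ⟨j, ht4⟩ ht2).1
    rw [← ht3, h0, F.pr_zero] at this
    exact this rfl
  · filter_upwards [hcore, hrel, hB, hA, F.red_ne _ hj] with t ht1 ht2 ht3 ht4 ht5
    have := (ht1.2 (fun i => F.red t (μ i)) ⟨j, ht5⟩ ht2).2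
    rw [ht3, ht4]
    exact this

end BSC
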