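import Pool.Agent.Lib_MP_49ddc8_v.VP3
import Pool.Agent.Lib_MP_49ddc8_v.VP5
import Pool.Agent.Lib_MP_49ddc8_v.VP6
import Pool.Agent.Lib_MP_49ddc8_v.VP8

/-!
# [G-GL] The global polynomial theorem

`not_pow` with `G X` (for almost all `t`: `pr (G X) ≠ 0`, `deg ≤ deg (G X) < p`): the Wronskian is `≠ 0`.  `deg_bound` with `F e = pr (G (C e))`, `e < 6`: `max (deg N) (deg D) ≤ B` (`pr_natDegree`).  `good_e` with `n = 2 B + 3`: for almost all `t` there is `e : Fin 3 → Fin n` with the properties;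
there are finitely many `e`, so (ultrafilter) one `e` works for almost all `t`.  `assoc_form` for `D t`: `s t`; `IsCoprime (N - e D) D`; so `Associated (pr (G (C e_i))) ((N - e_i D) * s)` for almost all `t` (`pr_squarefree`).  `max (deg N) (deg D) > 0` by `hnc`.  `glue_three`.
-/

set_option autoImplicit false

open Polynomial

namespace BSC

private theorem vgl_ired_X (p : ℕ) : ired p X = X := by
  simp [ired]

private theorem vgl_ired_C (p : ℕ) (e : ℕ) : ired p (C (e : ℤ)) = C ((e : ℕ) : ZMod p) := by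
  simp [ired]

theorem glue {k : Type} [Field k] [CharZero k] (F : Fam k) (N D : ∀ t, (ZMod (F.p t))[X]) (hD : ∀ t, D t ≠ 0)
    (hco : ∀ t, IsCoprime (N t) (D t))
    (hnc : ∀ᶠ t in (F.U : Filter F.T), ¬ ((N t).natDegree = 0 ∧ (D t).natDegree = 0)) (G : ℤ[X] → k[X])
    (hG : ∀ q, Squarefree (G q))
    (h : ∀ q : ℤ[X], ∀ᶠ t in (F.U : Filter F.T), IsSquare (F.pr t (G q) * (N t - ired (F.p t) q * D t) * D t)) :
    ∃ A B : k[X], B ≠ 0 ∧ ∀ᶠ t in (F.U : Filter F.T), N t * F.pr t B = F.pr t A * D t := by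
  have hG0 : ∀ q, G q ≠ 0 := fun q => (hG q).ne_zero
  -- the Wronskian
  have hW : ∀ᶠ t in (F.U : Filter F.T), derivative (N t) * D t - N t * derivative (D t) ≠ 0 := by
    filter_upwards [hnc, h X, F.pr_ne (G X) (hG0 X), F.pr_natDegree (G X), F.big (G X).natDegree] with t h1 h2 h3 h4 h5
    rw [vgl_ired_X] at h2
    exact not_pow (F.p t) (N t) (D t) (F.pr t (G X)) (hco t) (hD t) h1 h3 h2 (by rw [h4]; exact h5)
  -- the degree bound
  set B : ℕ := ∑ e ∈ Finset.range 6, (G (C (e : ℤ))).natDegree with hB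
  have hdeg : ∀ᶠ t in (F.U : Filter F.T), max (N t).natDegree (D t).natDegree ≤ B := by
    have h1 : ∀ᶠ t in (F.U : Filter F.T), ∀ e ∈ Finset.range 6, F.pr t (G (C (e : ℤ))) ≠ 0 ∧
        (F.pr t (G (C (e : ℤ)))).natDegree = (G (C (e : ℤ))).natDegree ∧
        IsSquare (F.pr t (G (C (e : ℤ))) * (N t - ired (F.p t) (C (e : ℤ)) * D t) * D t) := by
      rw [Filter.eventually_all_finset]
      intro e _
      exact (F.pr_ne _ (hG0 _)).and ((F.pr_natDegree _).and (h _))
    filter_upwards [hW, h1, F.big 5] with t h2 h3 h4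
    have h5 := deg_bound (F.p t) h4 (N t) (D t) (hco t) (hD t) h2 (fun e => F.pr t (G (C (e : ℤ))))
      (fun e he => (h3 e (Finset.mem_range.mpr he)).1)
      (fun e he => by
        have := (h3 e (Finset.mem_range.mpr he)).2.2
        rwa [vgl_ired_C] at this)
    refine h5.trans (le_of_eq ?_)
    exact Finset.sum_congr rfl fun e he => (h3 e he).2.1
  -- good values
  have hgood : ∀ᶠ t in (F.U : Filter F.T), ∃ e : Fin 3 → Fin (2 * B + 3), Function.Injective e ∧
      ∀ i, Squarefree (N t - C ((e i : ℕ) : ZMod (F.p t)) * D t) ∧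
        (N t - C ((e i : ℕ) : ZMod (F.p t)) * D t).natDegree = max (N t).natDegree (D t).natDegree := by
    filter_upwards [hW, hdeg, F.big (2 * B + 3)] with t h1 h2 h3
    exact good_e (F.p t) (N t) (D t) (hco t) (hD t) h1 (2 * B + 3) (by omega) h3.le
  rw [Ultrafilter.eventually_exists_iff] at hgood
  obtain ⟨e, he⟩ := hgood
  have hinj : Function.Injective e := by
    obtain ⟨t, ht⟩ := he.exists
    exact ht.1
  choose s hs1 hs2 hs3 using fun t => assoc_form (D t) (hD t)
  refine glue_three F N D s hD hco (fun t => (hs1 t).ne_zero) (fun i => (e i : ℕ))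
    (fun i j hij => hinj (Fin.ext hij)) (fun i => G (C (((e i : ℕ) : ℕ) : ℤ))) (fun i => hG0 _) ?_ ?_
  · intro i
    filter_upwards [he, h (C (((e i : ℕ) : ℕ) : ℤ)), F.pr_squarefree _ (hG (C (((e i : ℕ) : ℕ) : ℤ)))] with t h1 h2 h3
    rw [vgl_ired_C] at h2
    refine hs3 t _ _ h3 (h1.2 i).1 ?_ h2
    have := (hco t).add_mul_right_left (-C ((e i : ℕ) : ZMod (F.p t)))
    rwa [neg_mul, ← sub_eq_add_neg] at this
  · intro i
    filter_upwards [he, hnc] with t h1 h2
    rw [(h1.2 i).2]
    by_contra h3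
    apply h2
    have h4 : max (N t).natDegree (D t).natDegree = 0 := by omega
    constructor
    · have := le_max_left (N t).natDegree (D t).natDegree
      omega
    · have := le_max_right (N t).natDegree (D t).natDegree
      omega

end BSC
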