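import Pool.Agent.Lib_MP_49ddc8_v.VTri

/-!
# [G-K0] Reductions and the valuation rings

`val_iff`: `f - q` (`q` mapped to `k[X]`), `Vert.poly_lt`, `redp_eq` for all coefficients (all coefficients of `f` in the unit ball), `Fam.pr_coeff`.  `aeval (tt k Ω) (q.map (Int.castRingHom k)) = aeval (tt k Ω) q`.
`int_mem`, `int_unit`: `poly_mem`, `poly_lt` for `q.map (Int.castRingHom k)` (`‖(n : ℚ_[p])‖ < 1` iff `p ∣ n`).
`res`: `Vert.res` gives `a`, `b`; divide `ired a`, `ired b` by their gcd and lift (`Polynomial.map_surjective`): `x g(u) D(u) ≡ g(u) N(u)` with `g(u)` a unit.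
`uniq`: `x b ≡ a`, `x b' ≡ a'` give `a b' ≡ a' b`, `int_unit`.
-/

set_option autoImplicit false
set_option linter.unusedSectionVars false

open Polynomial

namespace BSC

variable {k Ω : Type} [Field k] [CharZero k] [Field Ω] [Algebra k Ω] [Algebra (RatFunc k) Ω] [IsScalarTower k (RatFunc k) Ω]
  {S : Sec (RatFunc k) Ω}

private theorem aeval_int (q : ℤ[X]) : aeval (tt k Ω) (q.map (Int.castRingHom k)) = aeval (tt k Ω) q := by
  rw [aeval_def, eval₂_map, aeval_def]
  congr 1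
  exact RingHom.ext_int _ _

private theorem sig_int_lt {p : ℕ} [Fact p.Prime] (σ : k →+* ℚ_[p]) (n : ℤ) : ‖σ (n : k)‖ < 1 ↔ ((n : ℤ) : ZMod p) = 0 := by
  rw [map_intCast, Padic.norm_intCast_lt_one_iff, ZMod.intCast_zmod_eq_zero_iff_dvd]

private theorem sig_int_le {p : ℕ} [Fact p.Prime] (σ : k →+* ℚ_[p]) (n : ℤ) : ‖σ (n : k)‖ ≤ 1 := by
  rw [map_intCast]
  exact Padic.norm_int_le_one n

theorem Tri.int_mem (i : Tri S) (q : ℤ[X]) : aeval (tt k Ω) q ∈ i.W := by
  rw [← aeval_int (k := k) (Ω := Ω) q]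
  apply i.vert.poly_mem
  intro j
  rw [coeff_map]
  exact sig_int_le i.σ _

theorem Tri.int_lt (i : Tri S) (q : ℤ[X]) : i.W.valuation (aeval (tt k Ω) q) < 1 ↔ ired i.p q = 0 := by
  rw [← aeval_int (k := k) (Ω := Ω) q, i.vert.poly_lt, Polynomial.ext_iff]
  apply forall_congr'
  intro j
  rw [coeff_map, ired, coeff_map, coeff_zero]
  exact sig_int_lt i.σ _

theorem Tri.val_iff (i : Tri S) (f : k[X]) (hf : ∀ j, ‖i.σ (f.coeff j)‖ ≤ 1) (q : ℤ[X]) :
    i.W.valuation (aeval (tt k Ω) f - aeval (tt k Ω) q) < 1 ↔ ∀ j, redp i.σ (f.coeff j) = ((q.coeff j : ℤ) : ZMod i.p) := by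
  rw [← aeval_int (k := k) (Ω := Ω) q, ← map_sub, i.vert.poly_lt]
  apply forall_congr'
  intro j
  rw [coeff_sub, coeff_map, ← redp_int i.σ (q.coeff j)]
  exact (redp_eq i.σ _ _ (hf j) (sig_int_le i.σ _)).symm

/-- for almost all members of the family the coefficients of `f` are integral -/
theorem TFam.coeff_le (Y : TFam S) (f : k[X]) : ∀ᶠ t in (Y.U : Filter Y.T), ∀ j, ‖(Y.tri t).σ (f.coeff j)‖ ≤ 1 := by
  have h : ∀ᶠ t in (Y.U : Filter Y.T), ∀ j ∈ f.support, ‖(Y.tri t).σ (f.coeff j)‖ ≤ 1 := by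
    rw [Filter.eventually_all_finset]
    intro j _
    exact Y.le_one (f.coeff j)
  filter_upwards [h] with t ht j
  by_cases hj : j ∈ f.support
  · exact ht j hj
  · rw [notMem_support_iff.1 hj, map_zero, norm_zero]
    exact zero_le_one

/-- for almost all members of the family: `f(u) ≡ q(u)` if and only if the reduction of `f` is the reduction of `q` -/
theorem TFam.pr_iff (Y : TFam S) (f : k[X]) : ∀ᶠ t in (Y.U : Filter Y.T), ∀ q : ℤ[X],
    ((Y.tri t).W.valuation (aeval (tt k Ω) f - aeval (tt k Ω) q) < 1 ↔ Y.fam.pr t f = ired (Y.tri t).p q) := by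
  filter_upwards [Y.coeff_le f] with t ht q
  rw [(Y.tri t).val_iff f ht q]
  constructor
  · intro h
    refine Polynomial.ext fun j => ?_
    rw [Fam.pr_coeff]
    refine (h j).trans ?_
    exact (coeff_map (Int.castRingHom (ZMod (Y.tri t).p)) j).symm
  · intro h j
    have h1 : (Y.fam.pr t f).coeff j = (ired (Y.tri t).p q).coeff j := congrArg (fun P => coeff P j) h
    rw [Fam.pr_coeff] at h1
    exact h1.trans (coeff_map (Int.castRingHom (ZMod (Y.tri t).p)) j)

theorem Tri.res (i : Tri S) (x : Ω) (hx : x ∈ S.F ∅) (hxW : x ∈ i.W) :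
    ∃ N D : (ZMod i.p)[X], D ≠ 0 ∧ IsCoprime N D ∧ Rd i x N D := by
  classical
  obtain ⟨a, b, hb, hv⟩ := i.vert.res x hx hxW
  have hb0 : ired i.p b ≠ 0 := hb
  have hvb : i.W.valuation (aeval (tt k Ω) b) = 1 := by
    apply le_antisymm
    · exact (ValuationSubring.valuation_le_one_iff _ _).2 (i.int_mem b)
    · exact not_lt.1 fun h => hb0 ((i.int_lt b).1 h)
  have hub : aeval (tt k Ω) b ≠ 0 := by
    intro h
    rw [h, map_zero] at hvb
    exact zero_ne_one hvb
  have h1 : i.W.valuation (x * aeval (tt k Ω) b - aeval (tt k Ω) a) < 1 := by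
    have : x * aeval (tt k Ω) b - aeval (tt k Ω) a
        = (x - aeval (tt k Ω) a / aeval (tt k Ω) b) * aeval (tt k Ω) b := by
      rw [sub_mul, div_mul_cancel₀ _ hub]
    rw [this, map_mul, hvb, mul_one]
    exact hv
  obtain ⟨g, N, D, hgN, hgD, hcop⟩ : ∃ g N D : (ZMod i.p)[X], ired i.p a = g * N ∧ ired i.p b = g * D ∧ IsCoprime N D := by
    obtain ⟨N, D, h1, h2, h3⟩ := extract_gcd (ired i.p a) (ired i.p b)
    exact ⟨_, N, D, h1, h2, (gcd_isUnit_iff _ _).1 h3⟩
  have hg0 : g ≠ 0 := by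
    rintro rfl
    rw [zero_mul] at hgD
    exact hb0 hgD
  have hD0 : D ≠ 0 := by
    rintro rfl
    rw [mul_zero] at hgD
    exact hb0 hgD
  have hsur : Function.Surjective (ired i.p) := map_surjective _ ZMod.intCast_surjective
  obtain ⟨g', hg'⟩ := hsur g
  obtain ⟨n, hn⟩ := hsur N
  obtain ⟨d, hd⟩ := hsur D
  refine ⟨N, D, hD0, hcop, n, d, hn, hd, hD0, ?_⟩
  have h2 : i.W.valuation (aeval (tt k Ω) (g' * d - b)) < 1 := by
    rw [i.int_lt, ired, Polynomial.map_sub, Polynomial.map_mul]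
    change ired i.p g' * ired i.p d - ired i.p b = 0
    rw [hg', hd, hgD, sub_self]
  have h3 : i.W.valuation (aeval (tt k Ω) (g' * n - a)) < 1 := by
    rw [i.int_lt, ired, Polynomial.map_sub, Polynomial.map_mul]
    change ired i.p g' * ired i.p n - ired i.p a = 0
    rw [hg', hn, hgN, sub_self]
  have h4 : i.W.valuation (aeval (tt k Ω) g') = 1 := by
    apply le_antisymm
    · exact (ValuationSubring.valuation_le_one_iff _ _).2 (i.int_mem g')
    · refine not_lt.1 fun h => hg0 ?_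
      rw [← hg']
      exact (i.int_lt g').1 h
  have hx1 : i.W.valuation x ≤ 1 := (ValuationSubring.valuation_le_one_iff _ _).2 hxW
  have h5 : i.W.valuation (aeval (tt k Ω) g' * (x * aeval (tt k Ω) d - aeval (tt k Ω) n)) < 1 := by
    have e : aeval (tt k Ω) g' * (x * aeval (tt k Ω) d - aeval (tt k Ω) n)
        = (x * aeval (tt k Ω) b - aeval (tt k Ω) a) + (x * aeval (tt k Ω) (g' * d - b) - aeval (tt k Ω) (g' * n - a)) := by
      rw [map_sub, map_sub, map_mul, map_mul]
      ring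
    rw [e]
    refine Valuation.map_add_lt _ h1 (Valuation.map_sub_lt _ ?_ h3)
    rw [map_mul]
    refine lt_of_le_of_lt (mul_le_mul' hx1 le_rfl) ?_
    rw [one_mul]
    exact h2
  rw [map_mul, h4, one_mul] at h5
  exact h5

end BSC
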