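import Mathlib

/-!
# [G-P1] Squarefree parts of polynomials over a field

`exists_sqf`: induction on the degree (if `P` is not squarefree then `P = q ^ 2 P'`, `q` not a unit).  `isSquare_of_mul_sq`: `A S ^ 2 = y ^ 2` (`y * y`), `S ∣ y` (`K[X]` is integrally closed / unique factorisation: `pow_dvd_pow_iff`), cancel.
`sqf_dvd`: `s (F D) = y ^ 2` up to `S ^ 2`, `s ∣ y ^ 2`, `s ∣ y` (squarefree), `s ^ 2 ∣ s F D`, `s ∣ F D`, `s ∣ F`.  `sqf_assoc`: the same for both.  `assoc_form`: `D = s R ^ 2`; `F (P s)` is a square, `P s` is squarefree as `P` and `s` are coprime.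
-/

set_option autoImplicit false

open Polynomial

namespace BSC

variable {K : Type} [Field K]

theorem exists_sqf (P : K[X]) (hP : P ≠ 0) : ∃ s S : K[X], Squarefree s ∧ S ≠ 0 ∧ P = s * S ^ 2 := by
  induction h : P.natDegree using Nat.strong_induction_on generalizing P with
  | _ n ih =>
    by_cases hs : Squarefree P
    · exact ⟨P, 1, hs, one_ne_zero, by ring⟩
    · unfold Squarefree at hs
      push Not at hs
      obtain ⟨q, ⟨P', hq⟩, hu⟩ := hs
      have hP' : P' ≠ 0 := by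
        rintro rfl
        exact hP (by rw [hq, mul_zero])
      have hq0 : q ≠ 0 := by
        rintro rfl
        exact hP (by rw [hq]; ring)
      have hqd : 0 < q.natDegree := by
        rw [Nat.pos_iff_ne_zero]
        intro h0
        apply hu
        rw [natDegree_eq_zero] at h0
        obtain ⟨c, rfl⟩ := h0
        rw [isUnit_C, isUnit_iff_ne_zero]
        rintro rfl
        exact hq0 C_0
      have hdeg : P.natDegree = q.natDegree + q.natDegree + P'.natDegree := by
        rw [hq, natDegree_mul (mul_ne_zero hq0 hq0) hP', natDegree_mul hq0 hq0]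
      obtain ⟨s, S, h1, h2, h3⟩ := ih P'.natDegree (by omega) P' hP' rfl
      refine ⟨s, q * S, h1, mul_ne_zero hq0 h2, ?_⟩
      rw [hq, h3]
      ring

theorem isSquare_of_mul_sq (A S : K[X]) (hS : S ≠ 0) (h : IsSquare (A * S ^ 2)) : IsSquare A := by
  obtain ⟨y, hy⟩ := h
  have h1 : S ^ 2 ∣ y ^ 2 := ⟨A, by rw [sq y, ← hy]; ring⟩
  have h2 : S ∣ y := (IsIntegrallyClosed.pow_dvd_pow_iff two_ne_zero).1 h1
  obtain ⟨z, rfl⟩ := h2
  refine ⟨z, ?_⟩
  have h3 : S ^ 2 ≠ 0 := pow_ne_zero 2 hS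
  apply mul_right_cancel₀ h3
  rw [hy]
  ring

private theorem sqf_step (A B : K[X]) (hA : Squarefree A) (h : IsSquare (A * B)) : A ∣ B := by
  obtain ⟨y, hy⟩ := h
  have hA0 : A ≠ 0 := hA.ne_zero
  have h1 : A ∣ y ^ 2 := ⟨B, by rw [sq y, ← hy]⟩
  have h2 : A ∣ y := (hA.dvd_pow_iff_dvd two_ne_zero).1 h1
  have h3 : A * A ∣ A * B := by
    rw [hy]
    exact mul_dvd_mul h2 h2
  exact (mul_dvd_mul_iff_left hA0).1 h3

theorem sqf_dvd (F s S D : K[X]) (hs : Squarefree s) (hS : S ≠ 0) (hco : IsCoprime s D)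
    (h : IsSquare (F * (s * S ^ 2) * D)) : s ∣ F := by
  have e : F * (s * S ^ 2) * D = (s * (F * D)) * S ^ 2 := by ring
  rw [e] at h
  have h1 := isSquare_of_mul_sq _ S hS h
  exact hco.dvd_of_dvd_mul_right (sqf_step s (F * D) hs h1)

theorem sqf_assoc (A B : K[X]) (hA : Squarefree A) (hB : Squarefree B) (h : IsSquare (A * B)) : Associated A B := by
  have h' : IsSquare (B * A) := by
    rw [mul_comm]
    exact h
  exact associated_of_dvd_dvd (sqf_step A B hA h) (sqf_step B A hB h')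

theorem assoc_form (D : K[X]) (hD : D ≠ 0) : ∃ s : K[X], Squarefree s ∧ s ∣ D ∧ ∀ F P : K[X], Squarefree F → Squarefree P →
    IsCoprime P D → IsSquare (F * P * D) → Associated F (P * s) := by
  obtain ⟨s, R, hs, hR, hDe⟩ := exists_sqf D hD
  have hsD : s ∣ D := ⟨R ^ 2, hDe⟩
  refine ⟨s, hs, hsD, fun F P hF hP hco h => ?_⟩
  have hPs : Squarefree (P * s) := by
    rw [squarefree_mul_iff]
    exact ⟨(hco.of_isCoprime_of_dvd_right hsD).isRelPrime, hP, hs⟩
  refine sqf_assoc F (P * s) hF hPs (isSquare_of_mul_sq _ R hR ?_)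
  have e : F * P * D = F * (P * s) * R ^ 2 := by
    rw [hDe]
    ring
  rwa [e] at h

end BSC
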