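import Pool.Agent.Lib_MP_49ddc8_v.VK0
import Pool.Agent.Lib_MP_49ddc8_v.VPb

/-!
# [G-K1], [G-K2] Square classes and differences

[G-K1] `TFam.sq`: `x - q(u) = F(u) m ^ 2`.  For almost all `t` the coefficients of `F` are integral and one is a unit, and `pr_iff` holds for `F`.  Let `x ≡ a / b` (`Rd`), `c = a - q b : ℤ[X]`.  If `ired c = 0` then `N - q D = 0` and the product is `0`, a square.  Else `c(u)`, `b(u)` are units of `W`
(`Tri.int_lt`, `int_mem`); `F(u) m ^ 2 b(u) ≡ c(u)`, so `F(u) b(u) c(u) (m / c(u)) ^ 2 ≡ 1`.  `Vert.sq` for the polynomial `F * b * c` (mapped to `k[X]`; its reduction is `pr F * ired b * ired c ≠ 0`, so it has a unit coefficient): `g`, `h : ℤ[X]` with `F b c h ^ 2 ≡ g ^ 2`,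
so `pr F * D * (N - q D) * h ^ 2 = g ^ 2` in `(ZMod p)[X]` (`pr_iff`, lift `pr F` to `ℤ[X]`); `isSquare_of_mul_sq`.

[G-K2] `TFam.sub_lt`: `x b ≡ a`, `a B ≡ A b` (`pr_iff` for `A`, `B`), `b(u)`, `B(u)` units (`pr B ≠ 0`): `x - A/B = (x b - a) / b + (a B - A b) / (b B)`.
-/

set_option autoImplicit false

open Polynomial

namespace BSC

variable {k Ω : Type} [Field k] [CharZero k] [Field Ω] [Algebra k Ω] [Algebra (RatFunc k) Ω] [IsScalarTower k (RatFunc k) Ω]
  {S : Sec (RatFunc k) Ω}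

private theorem k1_mul_lt {W : ValuationSubring Ω} {x y : Ω} (hx : W.valuation x ≤ 1) (hy : W.valuation y < 1) :
    W.valuation (x * y) < 1 := by
  rw [map_mul]
  exact (mul_le_of_le_one_left' hx).trans_lt hy

omit [CharZero k] [IsScalarTower k (RatFunc k) Ω] in
private theorem k1_int_map (q : ℤ[X]) : aeval (tt k Ω) (q.map (Int.castRingHom k)) = aeval (tt k Ω) q := by
  rw [← algebraMap_int_eq, aeval_map_algebraMap]

omit [CharZero k] [Algebra k Ω] [IsScalarTower k (RatFunc k) Ω] in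
private theorem k1_int_F (S : Sec (RatFunc k) Ω) (q : ℤ[X]) : aeval (tt k Ω) q ∈ S.F ∅ := by
  have h : aeval (tt k Ω) q = algebraMap (RatFunc k) Ω (aeval RatFunc.X q) := by
    unfold tt
    rw [aeval_def, aeval_def, hom_eval₂]
    congr 1
    exact RingHom.ext_int _ _
  rw [h]
  intro τ _
  have h2 := S.res τ (algebraMap (RatFunc k) (algebraicClosure (RatFunc k) Ω) (aeval RatFunc.X q))
  rw [AlgEquiv.commutes] at h2
  exact h2

private theorem k1_int_le (i : Tri S) (q : ℤ[X]) : i.W.valuation (aeval (tt k Ω) q) ≤ 1 :=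
  (i.W.valuation_le_one_iff _).2 (i.int_mem q)

private theorem k1_int_eq (i : Tri S) (q : ℤ[X]) (hq : ired i.p q ≠ 0) : i.W.valuation (aeval (tt k Ω) q) = 1 :=
  le_antisymm (k1_int_le i q) (not_lt.1 fun h => hq ((i.int_lt q).1 h))

private theorem k1_lift (p : ℕ) (f : (ZMod p)[X]) : ∃ q : ℤ[X], ired p q = f :=
  Polynomial.map_surjective _ (ZMod.ringHom_surjective (Int.castRingHom (ZMod p))) f

private theorem k1_ired_mul (p : ℕ) (f g : ℤ[X]) : ired p (f * g) = ired p f * ired p g := Polynomial.map_mul _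

private theorem k1_ired_sub (p : ℕ) (f g : ℤ[X]) : ired p (f - g) = ired p f - ired p g := Polynomial.map_sub _

private theorem k1_ired_pow (p : ℕ) (f : ℤ[X]) (n : ℕ) : ired p (f ^ n) = ired p f ^ n := Polynomial.map_pow _ _

private theorem k1_sq (i : Tri S) (x m : Ω) (q a b F' : ℤ[X]) (F : k[X]) (hm : m ∈ S.F ∅)
    (hx : x - aeval (tt k Ω) q = aeval (tt k Ω) F * m ^ 2)
    (hF' : ired i.p F' ≠ 0) (hF : i.W.valuation (aeval (tt k Ω) F - aeval (tt k Ω) F') < 1)
    (hb : ired i.p b ≠ 0) (hc : ired i.p (a - q * b) ≠ 0)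
    (hab : i.W.valuation (x * aeval (tt k Ω) b - aeval (tt k Ω) a) < 1) :
    ∃ g h : ℤ[X], ired i.p h ≠ 0 ∧ ired i.p (F' * b * (a - q * b)) * ired i.p h ^ 2 = ired i.p g ^ 2 := by
  set v := i.W.valuation with hv
  set u := tt k Ω with hu
  have hvb : v (aeval u b) = 1 := k1_int_eq i b hb
  have hvc : v (aeval u (a - q * b)) = 1 := k1_int_eq i _ hc
  have hvF' : v (aeval u F') = 1 := k1_int_eq i F' hF'
  have hc0 : aeval u (a - q * b) ≠ 0 := by
    intro h0
    rw [h0, map_zero] at hvc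
    exact zero_ne_one hvc
  have hvF : v (aeval u F) = 1 := by
    have h1 : v (aeval u F) = v (aeval u F') := by
      apply Valuation.map_eq_of_sub_lt
      rw [hvF']
      exact hF
    rw [h1, hvF']
  have hcE : aeval u (a - q * b) = aeval u a - aeval u q * aeval u b := by
    rw [map_sub, map_mul]
  -- `F m² b ≡ c`
  have hxq : x = aeval u q + aeval u F * m ^ 2 := by rw [← hx]; ring
  have h1 : v (aeval u F * m ^ 2 * aeval u b - aeval u (a - q * b)) < 1 := by
    have e1 : aeval u F * m ^ 2 * aeval u b - aeval u (a - q * b) = x * aeval u b - aeval u a := by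
      rw [hcE, hxq]; ring
    rw [e1]
    exact hab
  have h2 : v (aeval u F * m ^ 2 * aeval u b) = 1 := by
    have h3 : v (aeval u F * m ^ 2 * aeval u b) = v (aeval u (a - q * b)) := by
      apply Valuation.map_eq_of_sub_lt
      rw [hvc]
      exact h1
    rw [h3, hvc]
  have h4 : v (m ^ 2 * aeval u b) = 1 := by
    rw [mul_assoc, map_mul, hvF, one_mul] at h2
    exact h2
  have h5 : v (aeval u F' * m ^ 2 * aeval u b - aeval u (a - q * b)) < 1 := by
    have e2 : aeval u F' * m ^ 2 * aeval u b - aeval u (a - q * b)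
        = (aeval u F * m ^ 2 * aeval u b - aeval u (a - q * b)) - (m ^ 2 * aeval u b) * (aeval u F - aeval u F') := by ring
    rw [e2]
    exact Valuation.map_sub_lt _ h1 (k1_mul_lt h4.le hF)
  -- the polynomial
  let f : ℤ[X] := F' * b * (a - q * b)
  have hf : aeval u (f.map (Int.castRingHom k)) = aeval u F' * aeval u b * aeval u (a - q * b) := by
    rw [hu, k1_int_map, map_mul, map_mul]
  have hf0 : ired i.p f ≠ 0 := by
    rw [k1_ired_mul, k1_ired_mul]
    exact mul_ne_zero (mul_ne_zero hF' hb) hc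
  have hle : ∀ j, ‖i.σ ((f.map (Int.castRingHom k)).coeff j)‖ ≤ 1 := by
    intro j
    rw [coeff_map, eq_intCast, map_intCast]
    exact Padic.norm_int_le_one _
  have hone : ∃ j, ‖i.σ ((f.map (Int.castRingHom k)).coeff j)‖ = 1 := by
    by_contra hno
    push Not at hno
    have h6 : i.W.valuation (aeval (tt k Ω) (f.map (Int.castRingHom k))) < 1 :=
      (i.vert.poly_lt _).2 fun j => lt_of_le_of_ne (hle j) (hno j)
    rw [k1_int_map] at h6
    exact hf0 ((i.int_lt f).1 h6)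
  have hm' : m / aeval u (a - q * b) ∈ S.F ∅ := div_mem hm (k1_int_F S _)
  have h7 : i.W.valuation (aeval (tt k Ω) (f.map (Int.castRingHom k)) * (m / aeval u (a - q * b)) ^ 2 - 1) < 1 := by
    rw [hf]
    have e3 : aeval u F' * aeval u b * aeval u (a - q * b) * (m / aeval u (a - q * b)) ^ 2 - 1
        = (aeval u F' * m ^ 2 * aeval u b - aeval u (a - q * b)) / aeval u (a - q * b) := by
      field_simp
    rw [e3, map_div₀, ← hv, hvc, div_one]
    exact h5
  obtain ⟨g, h, _, hh, hgh⟩ := i.vert.sq _ hle hone _ hm' h7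
  refine ⟨g, h, hh, ?_⟩
  have e4 : aeval (tt k Ω) (f.map (Int.castRingHom k)) * aeval (tt k Ω) h ^ 2 - aeval (tt k Ω) g ^ 2
      = aeval (tt k Ω) (f * h ^ 2 - g ^ 2) := by
    rw [k1_int_map, map_sub, map_mul (aeval (tt k Ω)) f (h ^ 2), map_pow, map_pow]
  rw [e4] at hgh
  have h8 := (i.int_lt _).1 hgh
  rw [k1_ired_sub, k1_ired_mul, k1_ired_pow, k1_ired_pow, sub_eq_zero] at h8
  exact h8

private theorem k1_core (i : Tri S) (x : Ω) (q : ℤ[X]) (F : k[X]) (m : Ω) (hm : m ∈ S.F ∅)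
    (hx : x - aeval (tt k Ω) q = aeval (tt k Ω) F * m ^ 2) (P : (ZMod i.p)[X]) (hP : P ≠ 0)
    (hPF : ∀ q : ℤ[X], i.W.valuation (aeval (tt k Ω) F - aeval (tt k Ω) q) < 1 ↔ P = ired i.p q)
    (N D : (ZMod i.p)[X]) (hR : Rd i x N D) : IsSquare (P * (N - ired i.p q * D) * D) := by
  obtain ⟨a, b, ha, hb, hD, hab⟩ := hR
  obtain ⟨F', hF'⟩ := k1_lift i.p P
  have hFF : i.W.valuation (aeval (tt k Ω) F - aeval (tt k Ω) F') < 1 := (hPF F').2 hF'.symm
  have hc : ired i.p (a - q * b) = N - ired i.p q * D := by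
    rw [k1_ired_sub, k1_ired_mul, ha, hb]
  by_cases hc0 : ired i.p (a - q * b) = 0
  · rw [← hc, hc0, mul_zero, zero_mul]
    exact IsSquare.zero
  · obtain ⟨g, h, hh, hgh⟩ := k1_sq i x m q a b F' F hm hx (by rw [hF']; exact hP) hFF (by rw [hb]; exact hD) hc0 hab
    refine isSquare_of_mul_sq _ (ired i.p h) hh ⟨ired i.p g, ?_⟩
    rw [← pow_two, ← hgh, k1_ired_mul, k1_ired_mul, hF', hb, hc]
    ring

private theorem k1_sub (i : Tri S) (x : Ω) (A B : k[X]) (PA PB : (ZMod i.p)[X]) (hPB : PB ≠ 0)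
    (h1 : ∀ q : ℤ[X], i.W.valuation (aeval (tt k Ω) A - aeval (tt k Ω) q) < 1 ↔ PA = ired i.p q)
    (h2 : ∀ q : ℤ[X], i.W.valuation (aeval (tt k Ω) B - aeval (tt k Ω) q) < 1 ↔ PB = ired i.p q)
    (N D : (ZMod i.p)[X]) (hR : Rd i x N D) (hND : N * PB = PA * D) :
    i.W.valuation (x - aeval (tt k Ω) A / aeval (tt k Ω) B) < 1 := by
  obtain ⟨a, b, ha, hb, hD, hab⟩ := hR
  obtain ⟨A', hA'⟩ := k1_lift i.p PA
  obtain ⟨B', hB'⟩ := k1_lift i.p PB
  have hAA : i.W.valuation (aeval (tt k Ω) A - aeval (tt k Ω) A') < 1 := (h1 A').2 hA'.symm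
  have hBB : i.W.valuation (aeval (tt k Ω) B - aeval (tt k Ω) B') < 1 := (h2 B').2 hB'.symm
  have hvb : i.W.valuation (aeval (tt k Ω) b) = 1 := k1_int_eq _ b (by rw [hb]; exact hD)
  have hvB' : i.W.valuation (aeval (tt k Ω) B') = 1 := k1_int_eq _ B' (by rw [hB']; exact hPB)
  have hvB : i.W.valuation (aeval (tt k Ω) B) = 1 := by
    have h4 : i.W.valuation (aeval (tt k Ω) B) = i.W.valuation (aeval (tt k Ω) B') := by
      apply Valuation.map_eq_of_sub_lt
      rw [hvB']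
      exact hBB
    rw [h4, hvB']
  have h5 : i.W.valuation (aeval (tt k Ω) (a * B' - A' * b)) < 1 := by
    refine (i.int_lt _).2 ?_
    rw [k1_ired_sub, k1_ired_mul, k1_ired_mul, ha, hb, hA', hB']
    exact sub_eq_zero.2 hND
  have hb0 : aeval (tt k Ω) b ≠ 0 := by
    intro h0
    rw [h0, map_zero] at hvb
    exact zero_ne_one hvb
  have hB0 : aeval (tt k Ω) B ≠ 0 := by
    intro h0
    rw [h0, map_zero] at hvB
    exact zero_ne_one hvB
  have h6 : i.W.valuation (aeval (tt k Ω) a * aeval (tt k Ω) B - aeval (tt k Ω) A * aeval (tt k Ω) b) < 1 := by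
    have e1 : aeval (tt k Ω) a * aeval (tt k Ω) B - aeval (tt k Ω) A * aeval (tt k Ω) b
        = (aeval (tt k Ω) (a * B' - A' * b) + aeval (tt k Ω) a * (aeval (tt k Ω) B - aeval (tt k Ω) B'))
          - aeval (tt k Ω) b * (aeval (tt k Ω) A - aeval (tt k Ω) A') := by
      rw [map_sub, map_mul, map_mul]
      ring
    rw [e1]
    exact Valuation.map_sub_lt _ (Valuation.map_add_lt _ h5 (k1_mul_lt (k1_int_le _ a) hBB)) (k1_mul_lt (k1_int_le _ b) hAA)
  have e2 : x - aeval (tt k Ω) A / aeval (tt k Ω) B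
      = (x * aeval (tt k Ω) b - aeval (tt k Ω) a) / aeval (tt k Ω) b
        + (aeval (tt k Ω) a * aeval (tt k Ω) B - aeval (tt k Ω) A * aeval (tt k Ω) b) / (aeval (tt k Ω) b * aeval (tt k Ω) B) := by
    field_simp
    ring
  rw [e2]
  refine Valuation.map_add_lt _ ?_ ?_
  · rw [map_div₀, hvb, div_one]
    exact hab
  · rw [map_div₀, map_mul, hvb, hvB, one_mul, div_one]
    exact h6

theorem TFam.sq (Y : TFam S) (x : Ω) (q : ℤ[X]) (F : k[X]) (hF : F ≠ 0) (m : Ω) (hm : m ∈ S.F ∅)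
    (hx : x - aeval (tt k Ω) q = aeval (tt k Ω) F * m ^ 2) :
    ∀ᶠ t in (Y.U : Filter Y.T), ∀ N D : (ZMod (Y.fam.p t))[X], Rd (Y.tri t) x N D →
      IsSquare (Y.fam.pr t F * (N - ired (Y.fam.p t) q * D) * D) := by
  filter_upwards [Y.pr_iff F, Y.fam.pr_ne F hF] with t h1 h2
  intro N D hR
  exact k1_core (Y.tri t) x q F m hm hx (Y.fam.pr t F) h2 h1 N D hR

theorem TFam.sub_lt (Y : TFam S) (x : Ω) (A B : k[X]) (hB : B ≠ 0) :
    ∀ᶠ t in (Y.U : Filter Y.T), ∀ N D : (ZMod (Y.fam.p t))[X], Rd (Y.tri t) x N D →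
      N * Y.fam.pr t B = Y.fam.pr t A * D →
        (Y.tri t).W.valuation (x - aeval (tt k Ω) A / aeval (tt k Ω) B) < 1 := by
  filter_upwards [Y.pr_iff A, Y.pr_iff B, Y.fam.pr_ne B hB] with t h1 h2 h3
  intro N D hR hND
  exact k1_sub (Y.tri t) x A B (Y.fam.pr t A) (Y.fam.pr t B) h3 h1 h2 N D hR hND

end BSC
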