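import Pool.Agent.Lib_MP_49ddc8_v.VRe
import Pool.Agent.Lib_MP_49ddc8_v.VE1
import Pool.Agent.Lib_MP_49ddc8.Gs2

/-!
# [V-WU] The valuation ring `W` above the Gauss norm, stable under the section over `L`

`exists_W` (Lib_MP_49ddc8/Gs2.lean, helper62) for `O z = (nm z ≤ 1)`: for a finite set `A` of elements of the algebraic closure take `E` from `exists_stable` for `A ∪ {i}`, `i ^ 2 = -1`, `π` from `exists_ME`, `ord z` the exponent of `nm z = nm π ^ ord z`
(unique since `0 < nm π < 1`).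
-/

set_option autoImplicit false

open Polynomial

namespace BSC

variable {k Ω : Type} [Field k] [CharZero k] [Field Ω] [IsAlgClosed Ω] [Algebra k Ω] [Algebra (RatFunc k) Ω]
  [IsScalarTower k (RatFunc k) Ω] {p : ℕ} [Fact p.Prime] {σ : k →+* ℚ_[p]} {L : IntermediateField (RatFunc k) Ω} {nm : Ω → ℝ}

private theorem vwu_good (hp2 : p ≠ 2) (hG : GN p σ L nm) (S : Sec (RatFunc k) Ω) [CharZero (RatFunc k)]
    (A : Finset (algebraicClosure (RatFunc k) Ω)) :
    ∃ E : IntermediateField (RatFunc k) Ω, (∀ z ∈ A, (z : Ω) ∈ E) ∧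
      ∃ (ord : Ω → ℤ) (π : Ω), GoodE S L (fun z => nm z ≤ 1) E ord π := by
  classical
  obtain ⟨i, hi⟩ : ∃ i : Ω, i ^ 2 = -1 := by
    obtain ⟨i, hi⟩ := IsAlgClosed.exists_pow_nat_eq (-1 : Ω) (n := 2) (by norm_num)
    exact ⟨i, hi⟩
  have hia : IsAlgebraic (RatFunc k) i := by
    refine IsAlgebraic.of_pow (n := 2) (by norm_num) ?_
    rw [hi]
    exact isAlgebraic_one.neg
  obtain ⟨E, hLE, hAE, hEalg, hfin, hstab⟩ := exists_stable L hG.alg
    (insert i (A.image (fun z : algebraicClosure (RatFunc k) Ω => (z : Ω)))) (by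
      intro a ha
      rw [Finset.mem_insert, Finset.mem_image] at ha
      rcases ha with rfl | ⟨z, -, rfl⟩
      · exact hia
      · exact mem_algebraicClosure_iff.1 z.2)
  obtain ⟨π, M⟩ := exists_ME hp2 hG E hLE hEalg hfin
    ⟨i, hAE i (Finset.mem_insert_self _ _), hi⟩
  have hπ0 : 0 < nm π := M.pos π M.mem M.ne
  have hπ1 : nm π < 1 := M.lt
  let ord : Ω → ℤ := fun z => if h : z ∈ E ∧ z ≠ 0 then (M.disc z h.1 h.2).choose else 0
  have hord : ∀ z ∈ E, z ≠ 0 → nm z = nm π ^ ord z := by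
    intro z hz hz0
    have h : z ∈ E ∧ z ≠ 0 := ⟨hz, hz0⟩
    show nm z = nm π ^ (if h : z ∈ E ∧ z ≠ 0 then (M.disc z h.1 h.2).choose else 0)
    rw [dif_pos h]
    exact (M.disc z h.1 h.2).choose_spec
  have hinj : ∀ m n : ℤ, nm π ^ m = nm π ^ n → m = n := fun m n h =>
    zpow_right_injective₀ hπ0 hπ1.ne h
  have hle : ∀ z ∈ E, z ≠ 0 → (nm z ≤ 1 ↔ 0 ≤ ord z) := by
    intro z hz hz0
    rw [hord z hz hz0]
    have := zpow_le_zpow_iff_right_of_lt_one₀ (m := ord z) (n := 0) hπ0 hπ1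
    rwa [zpow_zero] at this
  have hlt : ∀ z ∈ E, z ≠ 0 → (nm z < 1 ↔ 0 < ord z) := by
    intro z hz hz0
    rw [hord z hz hz0]
    have := zpow_lt_zpow_iff_right_of_lt_one₀ (m := ord z) (n := 0) hπ0 hπ1
    rwa [zpow_zero] at this
  have heq : ∀ z ∈ E, z ≠ 0 → nm z = 1 → ord z = 0 := by
    intro z hz hz0 h
    rw [hord z hz hz0] at h
    exact hinj _ 0 (by rw [h, zpow_zero])
  have hact : ∀ τ : algebraicClosure (RatFunc k) Ω ≃ₐ[RatFunc k] algebraicClosure (RatFunc k) Ω,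
      (∀ x : algebraicClosure (RatFunc k) Ω, (x : Ω) ∈ L → τ x = x) → ∀ z ∈ E, S.s τ z ∈ E ∧ nm (S.s τ z) = nm z := by
    intro τ hτ z hz
    have hx : z ∈ algebraicClosure (RatFunc k) Ω := mem_algebraicClosure_iff.2 (hEalg z hz)
    have h1 : S.s τ z = ((τ ⟨z, hx⟩ : algebraicClosure (RatFunc k) Ω) : Ω) := S.res τ ⟨z, hx⟩
    rw [h1]
    exact ⟨hstab τ hτ ⟨z, hx⟩ hz, hG.inv τ hτ ⟨z, hx⟩⟩
  refine ⟨E, fun z hz => hAE z (Finset.mem_insert_of_mem (Finset.mem_image_of_mem _ hz)), ord, π,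
    { alg := hEalg
      le := hLE
      stab := fun τ hτ z hz => (hact τ hτ z hz).1
      mul := ?_
      unif := ⟨M.mem, M.ne, ?_⟩
      sq := ?_
      i := M.neg
      A1 := ?_
      A2 := ?_
      inv := ?_
      O_iff := ?_ }⟩
  · intro x hx y hy hx0 hy0
    apply hinj
    rw [← hord _ (mul_mem hx hy) (mul_ne_zero hx0 hy0), M.mul x hx y hy, hord x hx hx0, hord y hy hy0,
      zpow_add₀ hπ0.ne']
  · exact hinj _ 1 (by rw [← hord π M.mem M.ne, zpow_one])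
  · intro z hz hz0 h
    exact M.sq z hz ((hlt z hz hz0).2 h)
  · intro V h1 h2 z hz0 hz
    refine M.val1 V ?_ h2 z ((hle z z.2 (fun h => hz0 (Subtype.ext h))).2 hz)
    intro w hw
    by_cases hw0 : w = 0
    · rw [hw0]
      have : V.valuation (0 : E) = 0 := map_zero _
      exact this ▸ zero_lt_one
    · exact h1 w hw0 ((hlt w w.2 (fun h => hw0 (Subtype.ext h))).1 hw)
  · obtain ⟨a, ha, ha0, ha1, n1, n2, s1, s2, s3⟩ := M.wit
    exact ⟨a, ha, ha0, ha1, heq a ha ha0 n1, heq _ (add_mem (one_mem E) ha) ha1 n2, s1, s2, s3⟩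
  · intro τ hτ z hz hz0
    obtain ⟨h1, h2⟩ := hact τ hτ z hz
    have h3 : S.s τ z ≠ 0 := (map_ne_zero_iff _ (S.s τ).injective).2 hz0
    apply hinj
    rw [← hord _ h1 h3, h2, ← hord z hz hz0]
  · intro z hz hz0
    exact hle z (hLE hz) hz0

theorem exists_VW (hp2 : p ≠ 2) (hG : GN p σ L nm) (S : Sec (RatFunc k) Ω) : ∃ W : ValuationSubring Ω, VW S L nm W := by
  haveI : CharZero (RatFunc k) := charZero_of_injective_algebraMap (algebraMap k (RatFunc k)).injective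
  obtain ⟨W, h1, h2⟩ := exists_W S L (fun z => nm z ≤ 1) (vwu_good hp2 hG S)
  refine ⟨W, fun x hx => ?_, fun τ hτ z => h2 τ hτ z⟩
  by_cases hx0 : x = 0
  · rw [hx0, hG.zero]
    exact ⟨fun _ => zero_le_one, fun _ => W.zero_mem⟩
  · exact h1 x hx hx0

end BSC
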