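import Pool.Agent.Lib_MP_49ddc8_v.VGc
import Pool.Agent.Lib_MP_49ddc8_v.VWu
import Pool.Agent.Lib_MP_49ddc8_v.VFu

/-!
# [V-OU] Output of the local part

`exists_GN`, `exists_VW`, `res_full`, `hens_sq`.  `aeval (tt k Ω) f = algebraMap (RatFunc k) Ω (algebraMap k[X] (RatFunc k) f) ∈ L`.
`poly_mem`: `VW.mem`, `poly_le`.  `poly_lt`: `VW.mem_lt`; `poly_ge`; for the converse the maximum of the norms of the (finitely many) coefficients is `< 1`, use `poly_le`.
`res`: `S.F ∅ ≤ S.F L`.  `sq`: `nm (f(u)) = 1`; `hens_sq` with `a = f(u) m ^ 2 - 1`: `f(u) m ^ 2 = w ^ 2`, `w ∈ S.F L`, `m ≠ 0`, `l = w / m ∈ S.F L`, `l ^ 2 = f(u)`, so `l` is algebraic, `l ∈ L` (`mem_adjoin`), `nm l = 1`; `GN.res`: `nm (l - g(u) / h(u)) < 1`, `NZ p h`, then `NZ p g` (else `nm (g(u)/h(u)) < 1`, `nm l < 1`),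
`f(u) h ^ 2 - g ^ 2 = (l h - g) (l h + g)`.
-/

set_option autoImplicit false

open Polynomial

namespace BSC

section

variable {k Ω : Type} [Field k] [Field Ω] [Algebra k Ω] [Algebra (RatFunc k) Ω]

private theorem vou_aeval [IsScalarTower k (RatFunc k) Ω] (f : k[X]) :
    aeval (tt k Ω) f = algebraMap (RatFunc k) Ω (algebraMap k[X] (RatFunc k) f) := by
  have h1 : aeval (RatFunc.X : RatFunc k) f = algebraMap k[X] (RatFunc k) f := by
    rw [← RatFunc.algebraMap_X, aeval_algebraMap_apply, aeval_X_left_apply]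
  rw [← h1]
  exact aeval_algebraMap_apply Ω (RatFunc.X : RatFunc k) f

private theorem vou_int (b : ℤ[X]) : aeval (tt k Ω) (b.map (Int.castRingHom k)) = aeval (tt k Ω) b := by
  exact aeval_map_algebraMap k (tt k Ω) b

variable [IsScalarTower k (RatFunc k) Ω] {p : ℕ} [Fact p.Prime] {σ : k →+* ℚ_[p]} {L : IntermediateField (RatFunc k) Ω} {nm : Ω → ℝ}

private theorem vou_one (hG : GN p σ L nm) : nm 1 = 1 := by
  have h := hG.mul 1 1 isAlgebraic_one isAlgebraic_one
  rw [mul_one] at h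
  have h2 := hG.pos 1 isAlgebraic_one one_ne_zero
  exact (mul_left_cancel₀ h2.ne' (by rw [mul_one]; exact h)).symm

private theorem vou_neg (hG : GN p σ L nm) (x : Ω) (hx : IsAlgebraic (RatFunc k) x) : nm (-x) = nm x := by
  have h := hG.mul (-1) (-1) isAlgebraic_one.neg isAlgebraic_one.neg
  have h2 := hG.pos (-1) isAlgebraic_one.neg (neg_ne_zero.2 one_ne_zero)
  rw [neg_mul_neg, mul_one, vou_one hG] at h
  have h3 : nm (-1) = 1 := by nlinarith
  have h4 := hG.mul (-1) x isAlgebraic_one.neg hx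
  rw [neg_one_mul, h3, one_mul] at h4
  exact h4

private theorem vou_inv (hG : GN p σ L nm) (x : Ω) (hx : IsAlgebraic (RatFunc k) x) : nm x⁻¹ = (nm x)⁻¹ := by
  by_cases hx0 : x = 0
  · rw [hx0, inv_zero, hG.zero, inv_zero]
  have h := hG.mul x x⁻¹ hx hx.inv
  rw [mul_inv_cancel₀ hx0, vou_one hG] at h
  exact (eq_inv_of_mul_eq_one_right h.symm)

private theorem vou_mem (f : k[X]) : aeval (tt k Ω) f ∈ L := by
  rw [vou_aeval]
  exact L.algebraMap_mem _

private theorem vou_nn (hG : GN p σ L nm) (x : Ω) (hx : x ∈ L) : 0 ≤ nm x := by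
  by_cases h : x = 0
  · rw [h, hG.zero]
  · exact (hG.pos x (hG.alg x hx) h).le

/-- the maximum of the norms of the coefficients -/
private theorem vou_lt (hG : GN p σ L nm) (f : k[X]) : nm (aeval (tt k Ω) f) < 1 ↔ ∀ i, ‖σ (f.coeff i)‖ < 1 := by
  constructor
  · intro h i
    exact (hG.poly_ge f i).trans_lt h
  · intro h
    obtain ⟨c, hc0, hc1, hc⟩ : ∃ c : ℝ, 0 ≤ c ∧ c < 1 ∧ ∀ i, ‖σ (f.coeff i)‖ ≤ c := by
      refine ⟨((f.support.sup fun i => ‖σ (f.coeff i)‖₊ : NNReal) : ℝ), NNReal.coe_nonneg _, ?_, ?_⟩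
      · have : (f.support.sup fun i => ‖σ (f.coeff i)‖₊ : NNReal) < 1 := by
          rw [Finset.sup_lt_iff (by exact zero_lt_one)]
          intro i _
          exact_mod_cast h i
        exact_mod_cast this
      · intro i
        by_cases hi : i ∈ f.support
        · exact_mod_cast Finset.le_sup (f := fun i => ‖σ (f.coeff i)‖₊) hi
        · rw [notMem_support_iff.1 hi, map_zero, norm_zero]
          exact NNReal.coe_nonneg _
    exact (hG.poly_le f c hc0 hc).trans_lt hc1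

private theorem vou_coeff (σ : k →+* ℚ_[p]) (b : ℤ[X]) (i : ℕ) :
    σ ((b.map (Int.castRingHom k)).coeff i) = ((b.coeff i : ℤ) : ℚ_[p]) := by
  rw [coeff_map, eq_intCast, map_intCast]

private theorem vou_int_le (hG : GN p σ L nm) (b : ℤ[X]) : nm (aeval (tt k Ω) b) ≤ 1 := by
  rw [← vou_int b]
  refine hG.poly_le _ 1 zero_le_one fun i => ?_
  rw [vou_coeff]
  exact Padic.norm_int_le_one _

private theorem vou_nz (hG : GN p σ L nm) (b : ℤ[X]) : NZ p b ↔ nm (aeval (tt k Ω) b) = 1 := by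
  have h1 : nm (aeval (tt k Ω) b) < 1 ↔ ¬ NZ p b := by
    rw [← vou_int b, vou_lt hG, NZ, not_not, Polynomial.ext_iff]
    refine forall_congr' fun i => ?_
    rw [vou_coeff, Padic.norm_intCast_lt_one_iff, coeff_map, coeff_zero, eq_intCast, ZMod.intCast_zmod_eq_zero_iff_dvd]
  have h2 := vou_int_le hG b
  constructor
  · intro h
    exact le_antisymm h2 (not_lt.1 fun h3 => h1.1 h3 h)
  · intro h
    by_contra h3
    exact absurd (h1.2 h3) (by rw [h]; exact lt_irrefl _)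

end

theorem exists_vert {k Ω : Type} [Field k] [CharZero k] [Field Ω] [IsAlgClosed Ω] [Algebra k Ω] [Algebra (RatFunc k) Ω]
    [IsScalarTower k (RatFunc k) Ω] (S : Sec (RatFunc k) Ω) (p : ℕ) [Fact p.Prime] (hp2 : p ≠ 2) (σ : k →+* ℚ_[p]) :
    ∃ W : ValuationSubring Ω, Vert S p σ W := by
  obtain ⟨L, nm, hG⟩ := exists_GN (Ω := Ω) p σ
  obtain ⟨W, hW⟩ := exists_VW hp2 hG S
  have hmono : S.F ∅ ≤ S.F (L : Set Ω) := S.F_mono (Set.empty_subset _)
  refine ⟨W, ⟨?_, ?_, ?_, ?_⟩⟩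
  · intro f hf
    exact (hW.mem _ (vou_mem f)).2 (hG.poly_le f 1 zero_le_one hf)
  · intro f
    rw [VW.mem_lt hG hW _ (vou_mem f), vou_lt hG]
  · intro x hx hxW
    exact res_full hp2 hG S W hW x (hmono hx) hxW
  · intro f hf1 ⟨i, hi⟩ m hm hv
    have hfn : nm (aeval (tt k Ω) f) = 1 := by
      refine le_antisymm (hG.poly_le f 1 zero_le_one hf1) ?_
      rw [← hi]
      exact hG.poly_ge f i
    have hfL : aeval (tt k Ω) f ∈ L := vou_mem f
    have hfF : aeval (tt k Ω) f ∈ S.F (L : Set Ω) := by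
      rw [vou_aeval]
      exact algebraMap_mem_F S _ _
    have hmF : m ∈ S.F (L : Set Ω) := hmono hm
    have hf0 : aeval (tt k Ω) f ≠ 0 := by
      intro h
      rw [h, hG.zero] at hfn
      exact zero_ne_one hfn
    have hm0 : m ≠ 0 := by
      rintro rfl
      rw [show aeval (tt k Ω) f * (0 : Ω) ^ 2 - 1 = -1 by ring, Valuation.map_neg, map_one] at hv
      exact lt_irrefl _ hv
    obtain ⟨w, hwF, hw⟩ := hens_sq hp2 hG S W hW (aeval (tt k Ω) f * m ^ 2 - 1)
      (sub_mem (mul_mem hfF (pow_mem hmF 2)) (one_mem _)) hv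
    set l : Ω := w / m with hl
    have hlF : l ∈ S.F (L : Set Ω) := div_mem hwF hmF
    have hl2 : l ^ 2 = aeval (tt k Ω) f := by
      rw [hl, div_pow, ← hw, add_sub_cancel, mul_div_assoc, div_self (pow_ne_zero 2 hm0), mul_one]
    have hla : IsAlgebraic (RatFunc k) l := by
      refine IsAlgebraic.of_pow (n := 2) (by norm_num) ?_
      rw [hl2]
      exact hG.alg _ hfL
    have hlL : l ∈ L := by
      have := mem_adjoin S (L : Set Ω) hG.alg l hlF hla
      rwa [IntermediateField.adjoin_self] at this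
    have hl0 : l ≠ 0 := by
      intro h
      rw [h] at hl2
      exact hf0 (by rw [← hl2]; ring)
    have hlp : 0 < nm l := hG.pos l hla hl0
    have hln : nm l = 1 := by
      have h1 := hG.mul l l hla hla
      rw [← pow_two, hl2, hfn] at h1
      nlinarith
    obtain ⟨g, h, hh, hgh⟩ := hG.res l hlL hln.le
    have hhn : nm (aeval (tt k Ω) h) = 1 := (vou_nz hG h).1 hh
    have hgL : aeval (tt k Ω) g ∈ L := by
      rw [← vou_int g]
      exact vou_mem _
    have hhL : aeval (tt k Ω) h ∈ L := by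
      rw [← vou_int h]
      exact vou_mem _
    have hqL : aeval (tt k Ω) g / aeval (tt k Ω) h ∈ L := div_mem hgL hhL
    have hh0 : aeval (tt k Ω) h ≠ 0 := by
      intro h
      rw [h, hG.zero] at hhn
      exact zero_ne_one hhn
    have hqn : nm (aeval (tt k Ω) g / aeval (tt k Ω) h) = nm (aeval (tt k Ω) g) := by
      rw [div_eq_mul_inv, hG.mul _ _ (hG.alg _ hgL) (hG.alg _ hhL).inv, vou_inv hG _ (hG.alg _ hhL), hhn, inv_one, mul_one]
    have hq1 : nm (aeval (tt k Ω) g / aeval (tt k Ω) h) ≤ 1 := by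
      rw [hqn]
      exact vou_int_le hG g
    have hgn : nm (aeval (tt k Ω) g) = 1 := by
      refine le_antisymm (vou_int_le hG g) (not_lt.1 fun hlt => ?_)
      have h1 := hG.add (l - aeval (tt k Ω) g / aeval (tt k Ω) h) (aeval (tt k Ω) g / aeval (tt k Ω) h)
        (hG.alg _ (sub_mem hlL hqL)) (hG.alg _ hqL)
      rw [sub_add_cancel, hln] at h1
      have h2 := max_lt hgh (by rw [hqn]; exact hlt : nm (aeval (tt k Ω) g / aeval (tt k Ω) h) < 1)
      linarith
    refine ⟨g, h, (vou_nz hG g).2 hgn, hh, ?_⟩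
    have hmemL : aeval (tt k Ω) f * aeval (tt k Ω) h ^ 2 - aeval (tt k Ω) g ^ 2 ∈ L :=
      sub_mem (mul_mem hfL (pow_mem hhL 2)) (pow_mem hgL 2)
    rw [VW.mem_lt hG hW _ hmemL]
    have hfac : aeval (tt k Ω) f * aeval (tt k Ω) h ^ 2 - aeval (tt k Ω) g ^ 2 =
        (l - aeval (tt k Ω) g / aeval (tt k Ω) h) * ((l + aeval (tt k Ω) g / aeval (tt k Ω) h) *
          (aeval (tt k Ω) h * aeval (tt k Ω) h)) := by
      rw [← hl2]
      field_simp
      ring
    have h3 : nm (l + aeval (tt k Ω) g / aeval (tt k Ω) h) ≤ 1 :=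
      (hG.add _ _ hla (hG.alg _ hqL)).trans (max_le hln.le hq1)
    have h4 : 0 ≤ nm (l - aeval (tt k Ω) g / aeval (tt k Ω) h) := vou_nn hG _ (sub_mem hlL hqL)
    rw [hfac, hG.mul _ _ (hG.alg _ (sub_mem hlL hqL)) (hG.alg _ (mul_mem (add_mem hlL hqL) (mul_mem hhL hhL))),
      hG.mul _ _ (hG.alg _ (add_mem hlL hqL)) (hG.alg _ (mul_mem hhL hhL)), hG.mul _ _ (hG.alg _ hhL) (hG.alg _ hhL),
      hhn, mul_one, mul_one]
    exact (mul_le_of_le_one_right h4 h3).trans_lt hgh

end BSC
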