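import Pool.Agent.Lib_MP_49ddc8_v.VTri
import Pool.Agent.Lib_MP_49ddc8_v.VCa
import Pool.Agent.Lib_MP_49ddc8_v.VOu

/-!
# [G-TF] Existence of the family

`T = Finset k × ℕ`, `U` an ultrafilter finer than `Filter.atTop`; for `(B, N)` take `cassels` for `B.erase 0` and `max N 2`, then `exists_vert`.
-/

set_option autoImplicit false

open Polynomial

namespace BSC

theorem exists_tfam {k Ω : Type} [Field k] [CharZero k] [Field Ω] [IsAlgClosed Ω] [Algebra k Ω] [Algebra (RatFunc k) Ω]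
    [IsScalarTower k (RatFunc k) Ω] (hk : (⊤ : IntermediateField ℚ k).FG) (S : Sec (RatFunc k) Ω) : Nonempty (TFam S) := by
  classical
  have key : ∀ t : Finset k × ℕ, ∃ i : Tri S, t.2 < i.p ∧ ∀ b ∈ t.1.erase 0, ‖i.σ b‖ = 1 := by
    intro t
    obtain ⟨p, hp, hlt, σ, hσ⟩ := cassels k hk (t.1.erase 0) (Finset.notMem_erase _ _) (max t.2 2)
    have h2 : p ≠ 2 := by
      have := le_max_right t.2 2
      omega
    obtain ⟨W, hW⟩ := exists_vert S p h2 σ
    exact ⟨⟨p, hp, h2, σ, W, hW⟩, lt_of_le_of_lt (le_max_left _ _) hlt, hσ⟩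
  choose tri hbig hunit using key
  refine ⟨⟨Finset k × ℕ, Ultrafilter.of Filter.atTop, tri, fun N => ?_, fun b hb => ?_⟩⟩
  · have h1 : ∀ᶠ t in (Filter.atTop : Filter (Finset k × ℕ)), N < (tri t).p := by
      filter_upwards [Filter.eventually_ge_atTop ((∅, N) : Finset k × ℕ)] with t ht
      exact lt_of_le_of_lt ht.2 (hbig t)
    exact h1.filter_mono (Ultrafilter.of_le _)
  · have h1 : ∀ᶠ t in (Filter.atTop : Filter (Finset k × ℕ)), ‖(tri t).σ b‖ = 1 := by
      filter_upwards [Filter.eventually_ge_atTop (({b}, 0) : Finset k × ℕ)] with t ht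
      exact hunit t b (Finset.mem_erase.2 ⟨hb, ht.1 (Finset.mem_singleton_self b)⟩)
    exact h1.filter_mono (Ultrafilter.of_le _)

end BSC
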