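import Pool.Agent.Lib_MP_49ddc8_v.VGl
import Pool.Agent.Lib_MP_49ddc8_v.VTf
import Pool.Agent.Lib_MP_49ddc8_v.VCs

/-!
# [G-MA] The valuation ring `U` for every section

`Y` from `exists_tfam`.  Replace `x` by `x⁻¹` if `x ∉ W` for almost all `t` (ultrafilter).  `N t`, `D t` from `Tri.res` (for the other `t`: `N = 0`, `D = 1`).  If `N`, `D` are constant for almost all `t`: `case1` (`x ≡ N / D`, an integer `c` with `c D = N` mod `p`).
Otherwise they are not constant for almost all `t`; for `q : ℤ[X]` let `x - q(u) = G_q(u) m_q ^ 2` (`sqf_form`; `x - q(u) ≠ 0`), `TFam.sq`; `glue` for `Y.fam` gives `A`, `B`; `TFam.sub_lt`: `z = x - A(u) / B(u)` has `W.valuation z < 1` for almost all `t`, `z ∈ S.F ∅` is transcendental: `case1` with `c = 0`.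
-/

set_option autoImplicit false

open Polynomial

namespace BSC

section

variable {k Ω : Type} [Field k] [Field Ω] [Algebra k Ω] [Algebra (RatFunc k) Ω]

private theorem vma_aeval [IsScalarTower k (RatFunc k) Ω] (f : k[X]) :
    aeval (tt k Ω) f = algebraMap (RatFunc k) Ω (algebraMap k[X] (RatFunc k) f) := by
  have h1 : aeval (RatFunc.X : RatFunc k) f = algebraMap k[X] (RatFunc k) f := by
    rw [← RatFunc.algebraMap_X, aeval_algebraMap_apply, aeval_X_left_apply]
  rw [← h1]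
  exact aeval_algebraMap_apply Ω (RatFunc.X : RatFunc k) f

private theorem vma_int (b : ℤ[X]) : aeval (tt k Ω) (b.map (Int.castRingHom k)) = aeval (tt k Ω) b :=
  aeval_map_algebraMap k (tt k Ω) b

private theorem vma_tr {x : Ω} (htr : Transcendental (RatFunc k) x) (r : RatFunc k) :
    Transcendental (RatFunc k) (x - algebraMap (RatFunc k) Ω r) := by
  intro h
  apply htr
  have h1 := h.add (isAlgebraic_algebraMap (A := Ω) r)
  rwa [sub_add_cancel] at h1

end

section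

variable {k Ω : Type} [Field k] [CharZero k] [Field Ω] [Algebra k Ω] [Algebra (RatFunc k) Ω] [IsScalarTower k (RatFunc k) Ω]
  {S : Sec (RatFunc k) Ω}

/-- constant reductions -/
private theorem vma_const (i : Tri S) (x : Ω) (N D : (ZMod i.p)[X]) (h : Rd i x N D) (hN : N.natDegree = 0)
    (hD : D.natDegree = 0) : ∃ c : ℤ, i.W.valuation (x - (c : Ω)) < 1 := by
  obtain ⟨a, b, ha, hb, hD0, hv⟩ := h
  obtain ⟨n, rfl⟩ : ∃ n, N = C n := ⟨_, eq_C_of_natDegree_eq_zero hN⟩
  obtain ⟨d, rfl⟩ : ∃ d, D = C d := ⟨_, eq_C_of_natDegree_eq_zero hD⟩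
  have hd : d ≠ 0 := fun h0 => hD0 (by rw [h0, map_zero])
  obtain ⟨c, hc⟩ := ZMod.intCast_surjective (n / d)
  refine ⟨c, ?_⟩
  have h1 : i.W.valuation (aeval (tt k Ω) (a - C c * b)) < 1 := by
    rw [i.int_lt]
    have h2 : ired i.p (a - C c * b) = ired i.p a - C ((c : ℤ) : ZMod i.p) * ired i.p b := by
      unfold ired
      rw [Polynomial.map_sub, Polynomial.map_mul, Polynomial.map_C, eq_intCast]
    rw [h2, ha, hb, hc, ← C_mul, div_mul_cancel₀ _ hd, sub_self]
  have h3 : i.W.valuation (aeval (tt k Ω) b) = 1 := by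
    have h4 : ¬ i.W.valuation (aeval (tt k Ω) b) < 1 := by
      rw [i.int_lt, hb]
      exact hD0
    exact le_antisymm ((i.W.valuation_le_one_iff _).2 (i.int_mem b)) (not_lt.1 h4)
  have h5 : (x - (c : Ω)) * aeval (tt k Ω) b =
      (x * aeval (tt k Ω) b - aeval (tt k Ω) a) + aeval (tt k Ω) (a - C c * b) := by
    rw [map_sub, map_mul, aeval_C]
    simp only [algebraMap_int_eq, eq_intCast]
    ring
  have h6 : i.W.valuation ((x - (c : Ω)) * aeval (tt k Ω) b) < 1 := by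
    rw [h5]
    exact (Valuation.map_add _ _ _).trans_lt (max_lt hv h1)
  rwa [map_mul, h3, mul_one] at h6

end

private theorem vma_core {k Ω : Type} [Field k] [CharZero k] [Field Ω] [IsAlgClosed Ω] [Algebra k Ω] [Algebra (RatFunc k) Ω]
    [IsScalarTower k (RatFunc k) Ω] (hk : (⊤ : IntermediateField ℚ k).FG) (S : Sec (RatFunc k) Ω) (hdep : Dep (RatFunc k) Ω)
    (Y : TFam S) (x : Ω) (hx : x ∈ S.F ∅) (htr : Transcendental (RatFunc k) x)
    (hW : ∀ᶠ t in (Y.U : Filter Y.T), x ∈ (Y.tri t).W) :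
    ∃ U : ValuationSubring Ω, (∀ z : Ω, IsAlgebraic (RatFunc k) z → z ∈ U) ∧ (∃ ξ : Ω, ξ ≠ 0 ∧ U.valuation ξ < 1) ∧
      ∀ (τ : algebraicClosure (RatFunc k) Ω ≃ₐ[RatFunc k] algebraicClosure (RatFunc k) Ω) (z : Ω), S.s τ z ∈ U ↔ z ∈ U := by
  classical
  have key : ∀ t : Y.T, ∃ ND : (ZMod (Y.fam.p t))[X] × (ZMod (Y.fam.p t))[X], ND.2 ≠ 0 ∧ IsCoprime ND.1 ND.2 ∧
      (x ∈ (Y.tri t).W → Rd (Y.tri t) x ND.1 ND.2) := by
    intro t
    by_cases h : x ∈ (Y.tri t).W
    · obtain ⟨N, D, h1, h2, h3⟩ := (Y.tri t).res x hx h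
      exact ⟨(N, D), h1, h2, fun _ => h3⟩
    · exact ⟨(0, 1), one_ne_zero, isCoprime_zero_left.2 isUnit_one, fun h' => absurd h' h⟩
  choose ND hD hco hRd using key
  rcases Y.U.em (fun t => (ND t).1.natDegree = 0 ∧ (ND t).2.natDegree = 0) with hc | hnc
  · refine case1 hk S hdep Y x hx htr ?_
    filter_upwards [hW, hc] with t h1 h2
    exact vma_const (Y.tri t) x _ _ (hRd t h1) h2.1 h2.2
  · have hsq : ∀ q : ℤ[X], ∃ F : k[X], Squarefree F ∧ ∃ m ∈ S.F ∅, m ≠ 0 ∧ x - aeval (tt k Ω) q = aeval (tt k Ω) F * m ^ 2 := by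
      intro q
      have e : aeval (tt k Ω) q = algebraMap (RatFunc k) Ω (algebraMap k[X] (RatFunc k) (q.map (Int.castRingHom k))) := by
        rw [← vma_aeval, vma_int]
      refine sqf_form S _ ?_ ?_
      · rw [e]
        exact sub_mem hx (algebraMap_mem_F S _ _)
      · intro h0
        have h1 := vma_tr htr (algebraMap k[X] (RatFunc k) (q.map (Int.castRingHom k)))
        rw [← e, h0] at h1
        exact h1 isAlgebraic_zero
    choose G hG m hm hm0 hxG using hsq
    obtain ⟨A, B, hB, hAB⟩ := glue Y.fam (fun t => (ND t).1) (fun t => (ND t).2) hD hco hnc G hG (fun q => by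
      filter_upwards [Y.sq x q (G q) (hG q).ne_zero (m q) (hm q) (hxG q), hW] with t h1 h2
      exact h1 _ _ (hRd t h2))
    have e : aeval (tt k Ω) A / aeval (tt k Ω) B = algebraMap (RatFunc k) Ω
        (algebraMap k[X] (RatFunc k) A / algebraMap k[X] (RatFunc k) B) := by
      rw [map_div₀, ← vma_aeval, ← vma_aeval]
    refine case1 hk S hdep Y (x - aeval (tt k Ω) A / aeval (tt k Ω) B) ?_ ?_ ?_
    · rw [e]
      exact sub_mem hx (algebraMap_mem_F S _ _)
    · rw [e]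
      exact vma_tr htr _
    · filter_upwards [Y.sub_lt x A B hB, hAB, hW] with t h1 h2 h3
      refine ⟨0, ?_⟩
      rw [Int.cast_zero, sub_zero]
      exact h1 _ _ (hRd t h3) h2

theorem exists_U_all {k Ω : Type} [Field k] [CharZero k] [Field Ω] [IsAlgClosed Ω] [Algebra k Ω] [Algebra (RatFunc k) Ω]
    [IsScalarTower k (RatFunc k) Ω] (hk : (⊤ : IntermediateField ℚ k).FG) (S : Sec (RatFunc k) Ω) (hdep : Dep (RatFunc k) Ω)
    (x : Ω) (hx : x ∈ S.F ∅) (htr : Transcendental (RatFunc k) x) :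
    ∃ U : ValuationSubring Ω, (∀ z : Ω, IsAlgebraic (RatFunc k) z → z ∈ U) ∧ (∃ ξ : Ω, ξ ≠ 0 ∧ U.valuation ξ < 1) ∧
      ∀ (τ : algebraicClosure (RatFunc k) Ω ≃ₐ[RatFunc k] algebraicClosure (RatFunc k) Ω) (z : Ω), S.s τ z ∈ U ↔ z ∈ U := by
  obtain ⟨Y⟩ := exists_tfam hk S
  rcases Y.U.em (fun t => x ∈ (Y.tri t).W) with hW | hW
  · exact vma_core hk S hdep Y x hx htr hW
  · refine vma_core hk S hdep Y x⁻¹ (inv_mem hx) ?_ ?_
    · intro h
      apply htr
      have h1 := h.inv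
      rwa [inv_inv] at h1
    · filter_upwards [hW] with t ht
      exact ((Y.tri t).W.mem_or_inv_mem x).resolve_left ht

end BSC
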