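import Pool.Agent.Lib_MP_49ddc8_v.VDefs
import Pool.Agent.Lib_MP_49ddc8.Gal

/-!
# [V-N1] The roots of `X ^ p - X - 1`

[V-N1] `as_roots`: let `f = X ^ p - X - 1`, `θ` a root in `Ω`.  With `V` from `exists_V2` the ring `V ∩ L` has the residue field `𝔽_p`, over which `f` is irreducible (Artin-Schreier: a root `α` has the conjugates `α + i`, all different, Frobenius maps `α` to `α + 1`; so the minimal polynomial has degree `p`),
so `f` is irreducible over `L` (`Polynomial.Monic.irreducible_of_irreducible_map` and `Polynomial.Monic.irreducible_iff_irreducible_map_fraction_map` for the integrally closed domain `V ∩ L`): there are `τ j`, `j < p`, fixing `L`, such that `τ j θ` are the different roots: `∏ (T - τ j θ) = T ^ p - T - 1`.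
For `A ∈ L[X]`, `A ≠ 0`, `deg A < p`: `∏ j, V.valuation (A (τ j θ)) = V.valuation c ^ p` for some `c ∈ L`, `c ≠ 0` (the coefficient of `A` of largest valuation: `A / c` has coefficients in `V`, one is `1`, its reduction has degree `< p`, so does not vanish at the residue of `τ j θ`, of degree `p` over `𝔽_p`).
-/

set_option autoImplicit false

open Polynomial

namespace BSC

/-- Artin-Schreier: a root of `X ^ p - X - 1` has degree `p` over the prime field -/
private theorem as_indep_vn1 {R : Type*} [Field R] {p : ℕ} [Fact p.Prime] [CharP R p] (α : R) (hα : α ^ p = α + 1)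
    (r : ℕ → ℤ) (h : ∑ i ∈ Finset.range p, (r i : R) * α ^ i = 0) (i : ℕ) (hi : i < p) : (r i : R) = 0 := by
  haveI : ExpChar R p := expChar_prime R p
  set g : R[X] := ∑ i ∈ Finset.range p, C (r i : R) * X ^ i with hg
  have hev : ∀ x : R, g.eval x = ∑ i ∈ Finset.range p, (r i : R) * x ^ i := by
    intro x
    rw [hg, eval_finsetSum]
    refine Finset.sum_congr rfl fun i _ => ?_
    rw [eval_mul, eval_C, eval_pow, eval_X]
  have hfro : ∀ x : R, g.eval x = 0 → g.eval (x ^ p) = 0 := by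
    intro x hx
    have h1 : g.eval (x ^ p) = (g.eval x) ^ p := by
      rw [hev, hev]
      have h2 : (∑ i ∈ Finset.range p, (r i : R) * x ^ i) ^ p =
          frobenius R p (∑ i ∈ Finset.range p, (r i : R) * x ^ i) := rfl
      rw [h2, map_sum]
      refine Finset.sum_congr rfl fun i _ => ?_
      rw [map_mul, map_intCast, map_pow, frobenius_def]
    rw [h1, hx, zero_pow (Fact.out : p.Prime).ne_zero]
  have hroot : ∀ n : ℕ, g.eval (α + n) = 0 := by
    intro n
    induction n with
    | zero => rw [Nat.cast_zero, add_zero, hev, h]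
    | succ n ih =>
      have h1 := hfro _ ih
      have h2 : (α + (n : R)) ^ p = α + ((n + 1 : ℕ) : R) := by
        rw [add_pow_char, hα]
        have h3 : ((n : R)) ^ p = (n : R) := by
          have : frobenius R p (n : R) = (n : R) := map_natCast _ _
          rwa [frobenius_def] at this
        rw [h3]
        push_cast
        ring
      rwa [h2] at h1
  have hinj : Function.Injective (fun j : Fin p => α + ((j : ℕ) : R)) := by
    intro a b hab
    have h1 : ((a : ℕ) : R) = ((b : ℕ) : R) := add_left_cancel hab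
    have h2 := (CharP.natCast_eq_natCast R p).1 h1
    have h3 : (a : ℕ) % p = (b : ℕ) % p := h2
    rw [Nat.mod_eq_of_lt a.2, Nat.mod_eq_of_lt b.2] at h3
    exact Fin.ext h3
  have hdeg : g.natDegree < Fintype.card (Fin p) := by
    rw [Fintype.card_fin]
    have h1 : g.natDegree ≤ p - 1 := by
      rw [hg]
      refine natDegree_sum_le_of_forall_le _ _ fun i hi => ?_
      refine (natDegree_C_mul_X_pow_le _ _).trans ?_
      have := Finset.mem_range.1 hi
      omega
    have h2 := (Fact.out : p.Prime).pos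
    omega
  have hg0 : g = 0 := eq_zero_of_natDegree_lt_card_of_eval_eq_zero g hinj (fun j => hroot j) hdeg
  have hc : g.coeff i = (r i : R) := by
    rw [hg, finsetSum_coeff]
    simp only [coeff_C_mul, coeff_X_pow, mul_ite, mul_one, mul_zero]
    rw [Finset.sum_ite_eq, if_pos (Finset.mem_range.2 hi)]
  rw [← hc, hg0, coeff_zero]

private theorem mem_V_vn1 {Ω : Type*} [Field Ω] {p : ℕ} [Fact p.Prime] (V : ValuationSubring Ω) (θ : Ω)
    (hθ : θ ^ p = θ + 1) : θ ∈ V := by
  rw [← V.valuation_le_one_iff]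
  by_contra hcon
  push Not at hcon
  have h1 : V.valuation (θ + 1) ≤ V.valuation θ := by
    refine (V.valuation.map_add θ 1).trans ?_
    rw [map_one]
    exact max_le le_rfl hcon.le
  rw [← hθ, map_pow] at h1
  have h2 : V.valuation θ < V.valuation θ ^ p :=
    lt_self_pow₀ hcon (Fact.out : p.Prime).one_lt
  exact absurd h1 (not_le.2 h2)

private theorem unit_vn1 {Ω : Type*} [Field Ω] {p : ℕ} [Fact p.Prime] (V : ValuationSubring Ω)
    (hp : V.valuation (p : Ω) < 1) (θ : Ω) (hθ : θ ^ p = θ + 1) (b : ℕ → Ω) (hb : ∀ i, b i ∈ V) (r : ℕ → ℤ)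
    (hr : ∀ i < p, V.valuation (b i - (r i : Ω)) < 1) (i₀ : ℕ) (hi₀ : i₀ < p) (hb₀ : b i₀ = 1) :
    V.valuation (∑ i ∈ Finset.range p, b i * θ ^ i) = 1 := by
  have hθV : θ ∈ V := mem_V_vn1 V θ hθ
  set s : V := ∑ i ∈ Finset.range p, (⟨b i, hb i⟩ : V) * (⟨θ, hθV⟩ : V) ^ i with hs
  have hsc : (s : Ω) = ∑ i ∈ Finset.range p, b i * θ ^ i := by
    rw [hs]
    push_cast
    rfl
  rw [← hsc]
  by_contra hcon
  have hlt : V.valuation (s : Ω) < 1 := lt_of_le_of_ne ((V.valuation_le_one_iff _).2 s.2) hcon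
  have hs0 : IsLocalRing.residue V s = 0 := by
    rw [IsLocalRing.residue_eq_zero_iff, V.valuation_lt_one_iff]
    exact hlt
  have hp0 : ((p : ℕ) : IsLocalRing.ResidueField V) = 0 := by
    rw [← map_natCast (IsLocalRing.residue V), IsLocalRing.residue_eq_zero_iff, V.valuation_lt_one_iff]
    exact hp
  haveI : CharP (IsLocalRing.ResidueField V) p :=
    (CharP.charP_iff_prime_eq_zero (Fact.out : p.Prime)).2 hp0
  have hbr : ∀ i < p, IsLocalRing.residue V ⟨b i, hb i⟩ = ((r i : ℤ) : IsLocalRing.ResidueField V) := by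
    intro i hi
    rw [← sub_eq_zero, ← map_intCast (IsLocalRing.residue V), ← map_sub, IsLocalRing.residue_eq_zero_iff,
      V.valuation_lt_one_iff]
    exact hr i hi
  have hα : (IsLocalRing.residue V ⟨θ, hθV⟩) ^ p = IsLocalRing.residue V ⟨θ, hθV⟩ + 1 := by
    rw [← map_pow, ← map_one (IsLocalRing.residue V), ← map_add]
    congr 1
    exact Subtype.ext hθ
  have hsum : ∑ i ∈ Finset.range p, ((r i : ℤ) : IsLocalRing.ResidueField V) *
      (IsLocalRing.residue V ⟨θ, hθV⟩) ^ i = 0 := by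
    rw [← hs0, hs, map_sum]
    refine Finset.sum_congr rfl fun i hi => ?_
    rw [map_mul, map_pow, hbr i (Finset.mem_range.1 hi)]
  have h1 := as_indep_vn1 _ hα r hsum i₀ hi₀
  rw [← hbr i₀ hi₀] at h1
  have h2 : (⟨b i₀, hb i₀⟩ : V) = 1 := Subtype.ext hb₀
  rw [h2, map_one] at h1
  exact one_ne_zero h1

private theorem deg_vn1 (p : ℕ) (hp : p.Prime) (F : Type*) [Field F] :
    (X ^ p - X - 1 : F[X]).natDegree = p ∧ (X ^ p - X - 1 : F[X]).Monic := by
  have h1 : (X ^ p - X - 1 : F[X]) = X ^ p - (X + 1) := by ring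
  have h3 : (X + 1 : F[X]) = X + C 1 := by rw [C_1]
  have h2 : (X + 1 : F[X]).degree < p := by
    rw [h3, degree_X_add_C]
    exact_mod_cast hp.one_lt
  rw [h1]
  refine ⟨?_, monic_X_pow_sub h2⟩
  have h4 : (X + 1 : F[X]).natDegree < (X ^ p : F[X]).natDegree := by
    rw [h3, natDegree_X_add_C, natDegree_X_pow]
    exact hp.one_lt
  rw [natDegree_sub_eq_left_of_natDegree_lt h4, natDegree_X_pow]

private theorem gal_vn1 {K M : Type*} [Field K] [CharZero K] [Field M] [Algebra K M] [IsAlgClosed M] [Normal K M]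
    (E : IntermediateField K M) (p : ℕ) [Fact p.Prime]
    (hmin : ∀ A : E[X], A ≠ 0 → A.natDegree < p → ∀ θ : M, θ ^ p = θ + 1 → aeval θ A ≠ 0) :
    ∃ (θ : M) (τ : Fin p → (M ≃ₐ[K] M)), (∀ j, ∀ x ∈ E, τ j x = x) ∧ Function.Injective (fun j => τ j θ) ∧
      (∏ j, (X - C (τ j θ)) = X ^ p - X - 1) ∧ ∀ j, (τ j θ) ^ p = τ j θ + 1 := by
  have hpp : p.Prime := Fact.out
  obtain ⟨hdE, hmE⟩ := deg_vn1 p hpp E
  obtain ⟨hdM, hmM⟩ := deg_vn1 p hpp M
  have hev : ∀ t : M, aeval t (X ^ p - X - 1 : E[X]) = t ^ p - t - 1 := by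
    intro t
    simp
  have hevM : ∀ t : M, eval t (X ^ p - X - 1 : M[X]) = t ^ p - t - 1 := by
    intro t
    simp
  have hmp : ∀ t : M, t ^ p = t + 1 → IsIntegral E t ∧ minpoly E t = (X ^ p - X - 1 : E[X]) := by
    intro t ht
    have h0 : aeval t (X ^ p - X - 1 : E[X]) = 0 := by
      rw [hev, ht]
      ring
    have hint : IsIntegral E t := ⟨_, hmE, h0⟩
    refine ⟨hint, (eq_of_monic_of_dvd_of_natDegree_le (minpoly.monic hint) hmE
      (minpoly.dvd E t h0) ?_).symm⟩
    rw [hdE]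
    by_contra hcon
    push Not at hcon
    exact hmin _ (minpoly.ne_zero hint) hcon t ht (minpoly.aeval E t)
  obtain ⟨θ, hθ⟩ : ∃ θ : M, θ ^ p = θ + 1 := by
    obtain ⟨θ, hθ⟩ := IsAlgClosed.exists_root (X ^ p - X - 1 : M[X]) (by
      rw [degree_eq_natDegree hmM.ne_zero, hdM]
      exact_mod_cast hpp.ne_zero)
    refine ⟨θ, ?_⟩
    rw [IsRoot.def, hevM] at hθ
    linear_combination hθ
  have hsep : (X ^ p - X - 1 : E[X]).Separable := by
    rw [← (hmp θ hθ).2]
    exact (minpoly.irreducible (hmp θ hθ).1).separable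
  have hcard : Fintype.card ((X ^ p - X - 1 : E[X]).rootSet M) = p := by
    rw [card_rootSet_eq_natDegree hsep (IsAlgClosed.splits _), hdE]
  let e := (Fintype.equivFinOfCardEq hcard).symm
  have hρ : ∀ j, ((e j : M)) ^ p = (e j : M) + 1 := by
    intro j
    have h1 := (mem_rootSet.1 (e j).2).2
    rw [hev] at h1
    linear_combination h1
  haveI : Normal E M := Normal.tower_top_of_normal K E M
  have hσ : ∀ j, ∃ σ : M ≃ₐ[E] M, σ θ = (e j : M) := by
    intro j
    apply isConjRoot_iff_exists_algEquiv.1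
    change minpoly E (e j : M) = minpoly E θ
    rw [(hmp _ (hρ j)).2, (hmp θ hθ).2]
  choose σ hσ using hσ
  have hinj : Function.Injective (fun j => ((e j : M))) := fun a b h =>
    e.injective (Subtype.ext h)
  refine ⟨θ, fun j => (σ j).restrictScalars K, ?_, ?_, ?_, ?_⟩
  · intro j x hx
    change (σ j) x = x
    exact (σ j).commutes ⟨x, hx⟩
  · intro a b h
    apply hinj
    change (e a : M) = (e b : M)
    rw [← hσ a, ← hσ b]
    exact h
  · have h1 : ∏ j, (X - C (((σ j).restrictScalars K) θ)) = ∏ j, (X - C ((e j : M))) := by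
      refine Finset.prod_congr rfl fun j _ => ?_
      rw [← hσ j]
      rfl
    rw [h1]
    have h2 : (∏ j, (X - C ((e j : M)))).Monic := monic_prod_of_monic _ _ fun j _ => monic_X_sub_C _
    have h3 : (∏ j, (X - C ((e j : M)))).natDegree = p := by
      rw [natDegree_prod_of_monic _ _ fun j _ => monic_X_sub_C _]
      simp
    have h4 : (∏ j, (X - C ((e j : M)))).degree = (X ^ p - X - 1 : M[X]).degree := by
      rw [degree_eq_natDegree h2.ne_zero, degree_eq_natDegree hmM.ne_zero, h3, hdM]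
    refine eq_of_degree_sub_lt_of_eval_index_eq (s := Finset.univ) (v := fun j => (e j : M))
      (fun a _ b _ h => hinj h) ?_ ?_
    · refine (degree_sub_lt h4 h2.ne_zero ?_).trans_eq ?_
      · rw [h2.leadingCoeff, hmM.leadingCoeff]
      · rw [degree_eq_natDegree h2.ne_zero, h3, Finset.card_univ, Fintype.card_fin]
    · intro j _
      rw [hevM, hρ j, eval_prod, Finset.prod_eq_zero (Finset.mem_univ j)]
      · ring
      · simp
  · intro j
    change (σ j θ) ^ p = σ j θ + 1
    rw [hσ j]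
    exact hρ j

variable {k Ω : Type} [Field k] [CharZero k] [Field Ω] [IsAlgClosed Ω] [Algebra k Ω] [Algebra (RatFunc k) Ω]
  [IsScalarTower k (RatFunc k) Ω] {p : ℕ} [Fact p.Prime] {σ : k →+* ℚ_[p]} {L : IntermediateField (RatFunc k) Ω} {nm : Ω → ℝ}

/-- the coefficient of the largest valuation -/
private theorem coef_vn1 (V : ValuationSubring Ω) (hp : V.valuation (p : Ω) < 1)
    (hV2 : ∀ x ∈ L, x ∈ V → ∃ r : ℤ, V.valuation (x - (r : Ω)) < 1) (a : ℕ → Ω) (haL : ∀ i, a i ∈ L)
    (hne : ∃ i < p, a i ≠ 0) :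
    ∃ c ∈ L, c ≠ 0 ∧ ∀ θ : Ω, θ ^ p = θ + 1 → V.valuation (∑ i ∈ Finset.range p, a i * θ ^ i) = V.valuation c := by
  obtain ⟨i₁, hi₁, hai₁⟩ := hne
  obtain ⟨i₀, hi₀, hmax⟩ := Finset.exists_max_image (Finset.range p) (fun i => V.valuation (a i))
    ⟨i₁, Finset.mem_range.2 hi₁⟩
  have hc0 : a i₀ ≠ 0 := by
    intro h
    have h1 := hmax i₁ (Finset.mem_range.2 hi₁)
    simp only [h, map_zero] at h1
    exact hai₁ ((V.valuation.zero_iff).1 (le_zero_iff.1 h1))
  have hi₀p : i₀ < p := Finset.mem_range.1 hi₀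
  have hvc : V.valuation (a i₀) ≠ 0 := (V.valuation.ne_zero_iff).2 hc0
  let b : ℕ → Ω := fun i => if i < p then a i / a i₀ else 0
  have hbL : ∀ i, b i ∈ L := by
    intro i
    simp only [b]
    by_cases hi : i < p
    · rw [if_pos hi]; exact L.div_mem (haL i) (haL i₀)
    · rw [if_neg hi]; exact L.zero_mem
  have hmem : ∀ i, b i ∈ V := by
    intro i
    simp only [b]
    by_cases hi : i < p
    · rw [if_pos hi, ← V.valuation_le_one_iff, map_div₀]
      exact (div_le_one₀ (zero_lt_iff.2 hvc)).2 (hmax i (Finset.mem_range.2 hi))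
    · rw [if_neg hi]; exact V.zero_mem
  have hr : ∀ i, ∃ r : ℤ, V.valuation (b i - (r : Ω)) < 1 := fun i => hV2 _ (hbL i) (hmem i)
  choose r hr using hr
  refine ⟨a i₀, haL i₀, hc0, fun θ hθ => ?_⟩
  have h1 := unit_vn1 V hp θ hθ b hmem r (fun i _ => hr i) i₀ hi₀p (by
    simp only [b]
    rw [if_pos hi₀p, div_self hc0])
  have h2 : ∑ i ∈ Finset.range p, a i * θ ^ i = a i₀ * ∑ i ∈ Finset.range p, b i * θ ^ i := by
    rw [Finset.mul_sum]
    refine Finset.sum_congr rfl fun i hi => ?_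
    simp only [b]
    rw [if_pos (Finset.mem_range.1 hi), ← mul_assoc, mul_div_cancel₀ _ hc0]
  rw [h2, map_mul, h1, mul_one]

theorem as_roots (hG : GN p σ L nm) (V : ValuationSubring Ω) (hV1 : ∀ x ∈ L, nm x < 1 → V.valuation x < 1)
    (hV2 : ∀ x ∈ L, x ∈ V → ∃ r : ℤ, V.valuation (x - (r : Ω)) < 1) :
    ∃ (θ : algebraicClosure (RatFunc k) Ω) (τ : Fin p → (algebraicClosure (RatFunc k) Ω ≃ₐ[RatFunc k] algebraicClosure (RatFunc k) Ω)),
      (∀ j, Fix (L : Set Ω) (τ j)) ∧ Function.Injective (fun j => τ j θ) ∧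
      (∏ j, (X - C (τ j θ)) = X ^ p - X - 1) ∧
      (∀ l ∈ IntermediateField.adjoin (RatFunc k) ((L : Set Ω) ∪ {(θ : Ω)}), ∃ A : L[X], A.natDegree < p ∧ l = aeval (θ : Ω) A) ∧
      ∀ A : L[X], A ≠ 0 → A.natDegree < p → ∃ c ∈ L, c ≠ 0 ∧
        ∏ j, V.valuation (aeval ((τ j θ : algebraicClosure (RatFunc k) Ω) : Ω) A) = V.valuation c ^ p := by
  have hpp : p.Prime := Fact.out
  have hpV : V.valuation (p : Ω) < 1 := by
    refine hV1 _ (by exact_mod_cast natCast_mem L p) ?_
    rw [hG.nm_p]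
    exact inv_lt_one_of_one_lt₀ (by exact_mod_cast hpp.one_lt)
  haveI : IsGalois (RatFunc k) (algebraicClosure (RatFunc k) Ω) := ⟨⟩
  haveI : IsAlgClosed (algebraicClosure (RatFunc k) Ω) := IsAlgClosure.isAlgClosed (RatFunc k)
  obtain ⟨θ, τ, h1, h2, h3, h4⟩ := gal_vn1 (K := RatFunc k) (M := algebraicClosure (RatFunc k) Ω)
    (L.comap (algebraicClosure (RatFunc k) Ω).val) p (by
      intro A hA hd θ hθ h0
      obtain ⟨c, hcL, hc0, hc⟩ := coef_vn1 V hpV hV2
        (fun i => (((A.coeff i : _) : algebraicClosure (RatFunc k) Ω) : Ω)) (fun i => (A.coeff i).2)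
        ⟨A.natDegree, hd, fun h => hA (by
          have h5 : A.coeff A.natDegree = 0 := Subtype.ext (Subtype.ext h)
          exact leadingCoeff_eq_zero.1 h5)⟩
      have h5 := hc (θ : Ω) (by
        have := congrArg (fun x : algebraicClosure (RatFunc k) Ω => (x : Ω)) hθ
        simpa using this)
      have h6 : ((aeval θ A : algebraicClosure (RatFunc k) Ω) : Ω) =
          ∑ i ∈ Finset.range p, (((A.coeff i : _) : algebraicClosure (RatFunc k) Ω) : Ω) * (θ : Ω) ^ i := by
        rw [Polynomial.aeval_eq_sum_range' hd, AddSubmonoidClass.coe_finsetSum]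
        refine Finset.sum_congr rfl fun i _ => ?_
        rw [Algebra.smul_def]
        rfl
      rw [← h6, h0] at h5
      have h7 : V.valuation ((0 : algebraicClosure (RatFunc k) Ω) : Ω) = 0 := by simp
      rw [h7] at h5
      exact hc0 ((V.valuation.zero_iff).1 h5.symm))
  have hroot : ∀ j, ((τ j θ : algebraicClosure (RatFunc k) Ω) : Ω) ^ p =
      ((τ j θ : algebraicClosure (RatFunc k) Ω) : Ω) + 1 := by
    intro j
    have := congrArg (fun x : algebraicClosure (RatFunc k) Ω => (x : Ω)) (h4 j)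
    simpa using this
  have hθ : (θ : Ω) ^ p = (θ : Ω) + 1 := by
    have j : Fin p := ⟨0, hpp.pos⟩
    have h5 := h4 j
    rw [← map_pow, ← map_one (τ j), ← map_add] at h5
    have h6 := (τ j).injective h5
    have := congrArg (fun x : algebraicClosure (RatFunc k) Ω => (x : Ω)) h6
    simpa using this
  refine ⟨θ, τ, ?_, h2, h3, ?_, ?_⟩
  · intro j x hx
    exact h1 j x hx
  · intro l hl
    obtain ⟨hd, hm⟩ := deg_vn1 p hpp L
    have h0 : aeval (θ : Ω) (X ^ p - X - 1 : L[X]) = 0 := by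
      simp only [map_sub, map_pow, aeval_X, map_one]
      rw [hθ]
      ring
    have hint : IsIntegral L (θ : Ω) := ⟨_, hm, h0⟩
    rw [← IntermediateField.restrictScalars_adjoin] at hl
    have hl' : l ∈ (IntermediateField.adjoin L {(θ : Ω)}).toSubalgebra := hl
    rw [IntermediateField.adjoin_simple_toSubalgebra_of_isAlgebraic hint.isAlgebraic,
      Algebra.adjoin_singleton_eq_range_aeval] at hl'
    obtain ⟨A, hA⟩ := hl'
    refine ⟨A %ₘ (X ^ p - X - 1 : L[X]), ?_, ?_⟩
    · have h5 : (X ^ p - X - 1 : L[X]) ≠ 1 := by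
        intro h5
        rw [h5, natDegree_one] at hd
        exact hpp.ne_zero hd.symm
      exact (natDegree_modByMonic_lt A hm h5).trans_eq hd
    · rw [aeval_modByMonic_eq_self_of_root h0]
      exact hA.symm
  · intro A hA hd
    obtain ⟨c, hcL, hc0, hc⟩ := coef_vn1 V hpV hV2
      (fun i => ((A.coeff i : L) : Ω)) (fun i => (A.coeff i).2)
      ⟨A.natDegree, hd, fun h => hA (by
        have h5 : A.coeff A.natDegree = 0 := Subtype.ext h
        exact leadingCoeff_eq_zero.1 h5)⟩
    refine ⟨c, hcL, hc0, ?_⟩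
    have h5 : ∀ t : Ω, t ^ p = t + 1 → V.valuation (aeval t A) = V.valuation c := by
      intro t ht
      rw [← hc t ht, Polynomial.aeval_eq_sum_range' hd]
      congr 1
    rw [Finset.prod_congr rfl fun j _ => h5 _ (hroot j), Finset.prod_const, Finset.card_univ,
      Fintype.card_fin]

end BSC
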