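import Pool.Agent.Lib_MP_49ddc8_v.VPb

/-!
# [G-P3] The reduction is not a `p`-th power

Suppose `N' D = N D'`.  `D ∣ N D'`, coprime, so `D ∣ D'`, `D' = 0` (degrees), then `N' = 0`; so `N = N₂ ^ p`, `D = D₂ ^ p` (`Polynomial.expand` and Frobenius of `ZMod p`, see `Polynomial.map_expand_pow_char`, `ZMod.expand_card`).  `Q = N - X D = N₂ ^ p - X D₂ ^ p`, `Q' = - D₂ ^ p`, so `Q ≠ 0` and `Q` is coprime to `Q'`
(a common factor of `Q` and `D₂` divides `N₂ ^ p`), so `Q` is separable, squarefree, and coprime to `D`.  `sqf_dvd` (`S = 1`): `Q ∣ G`.  Degree of `Q`: the degrees `p deg N₂` and `p deg D₂ + 1` are different, so `deg Q ≥ p` since `N₂` or `D₂` is not constant.  So `deg G ≥ p`.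
-/

set_option autoImplicit false

open Polynomial

namespace BSC

private theorem natDegree_vp3 (p : ℕ) [Fact p.Prime] (N : (ZMod p)[X]) (h : derivative N = 0) :
    ∃ n : ℕ, N.natDegree = p * n := by
  have hp : p ≠ 0 := (Fact.out : p.Prime).ne_zero
  have h1 : expand (ZMod p) p (contract p N) = N := expand_contract p h hp
  refine ⟨(contract p N).natDegree, ?_⟩
  conv_lhs => rw [← h1]
  rw [natDegree_expand, mul_comm]

theorem not_pow (p : ℕ) [Fact p.Prime] (N D G : (ZMod p)[X]) (hco : IsCoprime N D) (hD : D ≠ 0)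
    (hnc : ¬ (N.natDegree = 0 ∧ D.natDegree = 0)) (hG : G ≠ 0) (hsq : IsSquare (G * (N - X * D) * D)) (hdeg : G.natDegree < p) :
    derivative N * D - N * derivative D ≠ 0 := by
  intro h0
  have hp2 : 2 ≤ p := (Fact.out : p.Prime).two_le
  have h1 : derivative N * D = N * derivative D := sub_eq_zero.1 h0
  have hdvd : D ∣ derivative D := by
    have h2 : D ∣ N * derivative D := ⟨derivative N, by rw [← h1, mul_comm]⟩
    exact hco.symm.dvd_of_dvd_mul_left h2
  have hD' : derivative D = 0 := by
    by_contra hne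
    have h3 : D.degree ≤ (derivative D).degree := degree_le_of_dvd hdvd hne
    have h4 : (derivative D).degree < D.degree := degree_derivative_lt hD
    exact absurd h4 (not_lt.2 h3)
  have hN' : derivative N = 0 := by
    rw [hD', mul_zero] at h1
    rcases mul_eq_zero.1 h1 with h | h
    · exact h
    · exact absurd h hD
  obtain ⟨a, ha⟩ := natDegree_vp3 p N hN'
  obtain ⟨b, hb⟩ := natDegree_vp3 p D hD'
  have hQ' : derivative (N - X * D) = -D := by
    rw [derivative_sub, derivative_mul, hN', hD', derivative_X, one_mul, mul_zero, add_zero, zero_sub]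
  have hcoQ : IsCoprime (N - X * D) D := by
    have h5 : IsCoprime (N + (-X) * D) D := hco.add_mul_right_left (-X)
    have h6 : N + (-X) * D = N - X * D := by ring
    rwa [h6] at h5
  have hsep : (N - X * D).Separable := by
    unfold Polynomial.Separable
    rw [hQ']
    exact hcoQ.neg_right
  have hdQ : N - X * D ∣ G := by
    refine sqf_dvd G (N - X * D) 1 D hsep.squarefree one_ne_zero hcoQ ?_
    rw [one_pow, mul_one]
    exact hsq
  have hle : (N - X * D).natDegree ≤ G.natDegree := natDegree_le_of_dvd hdQ hG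
  have hXD : (X * D).natDegree = D.natDegree + 1 := natDegree_X_mul hD
  rcases lt_trichotomy N.natDegree (X * D).natDegree with h | h | h
  · have h7 : (N - X * D).natDegree = (X * D).natDegree := natDegree_sub_eq_right_of_natDegree_lt h
    rw [h7, hXD] at hle
    rw [hXD] at h
    have hb0 : D.natDegree ≠ 0 := by
      intro hz
      exact hnc ⟨by omega, hz⟩
    have hb1 : b ≠ 0 := by
      rintro rfl
      exact hb0 (by rw [hb, mul_zero])
    have : p ≤ p * b := Nat.le_mul_of_pos_right p (Nat.pos_of_ne_zero hb1)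
    omega
  · rw [hXD, ha, hb] at h
    have h8 : p ∣ 1 := by
      rw [← Nat.dvd_add_right (⟨b, rfl⟩ : p ∣ p * b), ← h]
      exact ⟨a, rfl⟩
    have := Nat.le_of_dvd one_pos h8
    omega
  · have h7 : (N - X * D).natDegree = N.natDegree := natDegree_sub_eq_left_of_natDegree_lt h
    rw [h7] at hle
    rw [hXD] at h
    have ha1 : a ≠ 0 := by
      rintro rfl
      rw [mul_zero] at ha
      omega
    have : p ≤ p * a := Nat.le_mul_of_pos_right p (Nat.pos_of_ne_zero ha1)
    omega

end BSC
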