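import Pool.Agent.Lib_MP_49ddc8_v.VE4
import Pool.Agent.Lib_MP_49ddc8_v.VAr

/-!
# [V-R1] The residue field of a finite extension `E` of `L`

[V-R1] `arith_res`: `R = ResidueField O`.  `ℤ[X] → R`, `b ↦ b(u)` has kernel `{b : b ≡ 0 mod p}` (`nm (b(u)) < 1` iff `p` divides the coefficients: `poly_le`, `poly_ge`), so there is an injective ring homomorphism `(ZMod p)[X] → R`, it extends to `RatFunc (ZMod p) → R`
(`IsFractionRing.lift` or `RatFunc.liftRingHom`), and by `E_dep` any `n + 1` elements of `R` are linearly dependent over `RatFunc (ZMod p)`, so `R` is finite dimensional: `arith_cp`.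
-/

set_option autoImplicit false

open Polynomial

namespace BSC

variable {k Ω : Type} [Field k] [CharZero k] [Field Ω] [IsAlgClosed Ω] [Algebra k Ω] [Algebra (RatFunc k) Ω]
  [IsScalarTower k (RatFunc k) Ω] {p : ℕ} [Fact p.Prime] {σ : k →+* ℚ_[p]} {L : IntermediateField (RatFunc k) Ω} {nm : Ω → ℝ}

private theorem VR1_map (c : ℤ[X]) :
    aeval (tt k Ω) (c.map (algebraMap ℤ k)) = aeval (tt k Ω) c :=
  Polynomial.aeval_map_algebraMap k (tt k Ω) c

private theorem VR1_coeff (σ : k →+* ℚ_[p]) (c : ℤ[X]) (i : ℕ) :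
    σ ((c.map (algebraMap ℤ k)).coeff i) = ((c.coeff i : ℤ) : ℚ_[p]) := by
  rw [Polynomial.coeff_map, eq_intCast, map_intCast]

private theorem VR1_le (hG : GN p σ L nm) (c : ℤ[X]) : nm (aeval (tt k Ω) c) ≤ 1 := by
  rw [← VR1_map]
  refine hG.poly_le _ 1 zero_le_one (fun i => ?_)
  rw [VR1_coeff]
  exact Padic.norm_int_le_one _

/-- `nm (c (u)) < 1` iff `p` divides `c` -/
private theorem VR1_lt (hG : GN p σ L nm) (c : ℤ[X]) :
    nm (aeval (tt k Ω) c) < 1 ↔ c.map (Int.castRingHom (ZMod p)) = 0 := by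
  constructor
  · intro h
    ext i
    rw [Polynomial.coeff_map, Polynomial.coeff_zero, eq_intCast,
      ZMod.intCast_zmod_eq_zero_iff_dvd]
    have h1 := hG.poly_ge (c.map (algebraMap ℤ k)) i
    rw [VR1_coeff, VR1_map] at h1
    exact Padic.norm_intCast_lt_one_iff.1 (lt_of_le_of_lt h1 h)
  · intro h
    have hp : (p : ℝ)⁻¹ < 1 := inv_lt_one_of_one_lt₀ (by exact_mod_cast (Fact.out : p.Prime).one_lt)
    refine lt_of_le_of_lt ?_ hp
    rw [← VR1_map]
    refine hG.poly_le _ _ (by positivity) (fun i => ?_)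
    rw [VR1_coeff]
    have h2 : ((c.coeff i : ℤ) : ZMod p) = 0 := by
      have h3 := congrArg (fun f : (ZMod p)[X] => f.coeff i) h
      simpa [Polynomial.coeff_map] using h3
    rw [ZMod.intCast_zmod_eq_zero_iff_dvd] at h2
    have h4 := (Padic.norm_int_le_pow_iff_dvd (p := p) (c.coeff i) 1).2 (by simpa using h2)
    simpa using h4

private theorem VR1_max (hG : GN p σ L nm) (E : IntermediateField (RatFunc k) Ω)
    (hE : ∀ x ∈ E, IsAlgebraic (RatFunc k) x)
    (O : ValuationSubring E.toSubfield) (hO : ∀ x : E.toSubfield, x ∈ O ↔ nm (x : Ω) ≤ 1) (z : O) :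
    z ∈ IsLocalRing.maximalIdeal O ↔ nm (((z : E.toSubfield)) : Ω) < 1 := by
  have hn1 : nm 1 = 1 := by
    have h1 := hG.mul 1 1 isAlgebraic_one isAlgebraic_one
    have h2 := hG.pos 1 isAlgebraic_one one_ne_zero
    rw [mul_one] at h1
    nlinarith
  have halg : ∀ x : E.toSubfield, IsAlgebraic (RatFunc k) (x : Ω) := fun x => hE _ x.2
  have hprod : ∀ x y : E.toSubfield, x * y = 1 → nm (x : Ω) * nm (y : Ω) = 1 := by
    intro x y h
    rw [← hG.mul _ _ (halg x) (halg y), ← hn1]
    congr 1
    exact_mod_cast congrArg (fun t : E.toSubfield => (t : Ω)) h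
  rw [IsLocalRing.mem_maximalIdeal, mem_nonunits_iff]
  constructor
  · intro h
    by_contra hc
    push Not at hc
    apply h
    have hz : (z : E.toSubfield) ≠ 0 := by
      intro h0
      rw [h0] at hc
      have : nm (((0 : E.toSubfield)) : Ω) = 0 := by
        rw [ZeroMemClass.coe_zero, hG.zero]
      rw [this] at hc
      linarith
    have h1 := hprod (z : E.toSubfield) (z : E.toSubfield)⁻¹ (mul_inv_cancel₀ hz)
    have hinv : (z : E.toSubfield)⁻¹ ∈ O := by
      rw [hO]
      by_contra hcc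
      push Not at hcc
      nlinarith
    refine IsUnit.of_mul_eq_one ⟨(z : E.toSubfield)⁻¹, hinv⟩ ?_
    apply Subtype.ext
    exact mul_inv_cancel₀ hz
  · intro h hu
    obtain ⟨u, hu⟩ := hu
    have h1 : (z : E.toSubfield) * (((u⁻¹ : Oˣ) : O) : E.toSubfield) = 1 := by
      have h2 : z * ((u⁻¹ : Oˣ) : O) = 1 := by
        rw [← hu, Units.mul_inv]
      exact_mod_cast congrArg (fun t : O => (t : E.toSubfield)) h2
    have h3 := hprod _ _ h1
    have h4 := (hO _).1 (((u⁻¹ : Oˣ) : O)).2
    have h5 : 0 ≤ nm (((((u⁻¹ : Oˣ) : O) : E.toSubfield)) : Ω) := by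
      by_contra hc
      push Not at hc
      have h6 : (((((u⁻¹ : Oˣ) : O) : E.toSubfield)) : Ω) ≠ 0 := by
        intro h0
        rw [h0, hG.zero] at hc
        exact lt_irrefl _ hc
      exact absurd hc (not_lt.2 (hG.pos _ (halg _) h6).le)
    have h7 := mul_nonneg (sub_nonneg.2 h.le) h5
    have h8 : nm (((((u⁻¹ : Oˣ) : O) : E.toSubfield)) : Ω) = 1 := by
      refine le_antisymm h4 ?_
      rw [sub_mul, one_mul, h3] at h7
      linarith
    rw [h8, mul_one] at h3
    linarith

theorem arith_res (hp2 : p ≠ 2) (hG : GN p σ L nm) (E : IntermediateField (RatFunc k) Ω) (hLE : L ≤ E)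
    (hE : ∀ x ∈ E, IsAlgebraic (RatFunc k) x) (hfin : FiniteDimensional L (IntermediateField.extendScalars hLE))
    (O : ValuationSubring E.toSubfield) (hO : ∀ x : E.toSubfield, x ∈ O ↔ nm (x : Ω) ≤ 1) : Arith (IsLocalRing.ResidueField O) := by
  classical
  have hmax := VR1_max hG E hE O hO
  -- the variable
  have htE : tt k Ω ∈ E := E.algebraMap_mem _
  have htO : (⟨tt k Ω, htE⟩ : E.toSubfield) ∈ O := by
    rw [hO]
    have h1 := VR1_le (k := k) (Ω := Ω) hG (X : ℤ[X])
    rw [aeval_X] at h1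
    exact h1
  set t : O := ⟨⟨tt k Ω, htE⟩, htO⟩ with ht
  -- the inclusion of `O` in `Ω`
  let inc : O →+* Ω := E.toSubfield.subtype.comp O.subtype
  have hinc : ∀ c : ℤ[X], (((aeval t c : O) : E.toSubfield) : Ω) = aeval (tt k Ω) c := by
    intro c
    have h1 := Polynomial.aeval_algHom_apply inc.toIntAlgHom t c
    exact h1.symm
  let res : O →+* IsLocalRing.ResidueField O := IsLocalRing.residue O
  have hres : ∀ z : O, res z = 0 ↔ nm (((z : E.toSubfield)) : Ω) < 1 := by
    intro z
    rw [← hmax z]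
    exact IsLocalRing.residue_eq_zero_iff z
  have hrt : ∀ c : ℤ[X], aeval (res t) c = res (aeval t c) := by
    intro c
    exact Polynomial.aeval_algHom_apply res.toIntAlgHom t c
  have hker : ∀ c : ℤ[X], aeval (res t) c = 0 ↔ c.map (Int.castRingHom (ZMod p)) = 0 := by
    intro c
    rw [hrt, hres, hinc]
    exact VR1_lt hG c
  -- characteristic `p`
  haveI hchar : CharP (IsLocalRing.ResidueField O) p := by
    have hp0 : ((p : ℕ) : IsLocalRing.ResidueField O) = 0 := by
      have h1 := (hker (Polynomial.C (p : ℤ))).2 (by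
        rw [Polynomial.map_C]
        simp)
      rw [Polynomial.aeval_C] at h1
      simpa using h1
    exact (CharP.charP_iff_prime_eq_zero (Fact.out : p.Prime)).2 hp0
  let φ : (ZMod p)[X] →+* IsLocalRing.ResidueField O :=
    eval₂RingHom (ZMod.castHom (dvd_refl p) (IsLocalRing.ResidueField O)) (res t)
  have hφ : ∀ c : ℤ[X], φ (c.map (Int.castRingHom (ZMod p))) = aeval (res t) c := by
    intro c
    show eval₂ _ _ _ = _
    rw [eval₂_map, aeval_def]
    congr 1
    exact RingHom.ext_int _ _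
  have hφi : Function.Injective φ := by
    rw [injective_iff_map_eq_zero]
    intro f hf
    obtain ⟨c, rfl⟩ := Polynomial.map_surjective (Int.castRingHom (ZMod p))
      (ZMod.ringHom_surjective (Int.castRingHom (ZMod p))) f
    rw [hφ] at hf
    exact (hker c).1 hf
  let Φ : RatFunc (ZMod p) →+* IsLocalRing.ResidueField O := IsFractionRing.lift hφi
  have hΦ : ∀ f : (ZMod p)[X], Φ (algebraMap (ZMod p)[X] (RatFunc (ZMod p)) f) = φ f :=
    fun f => IsFractionRing.lift_algebraMap hφi f
  letI : Algebra (RatFunc (ZMod p)) (IsLocalRing.ResidueField O) := Φ.toAlgebra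
  haveI : FiniteDimensional (RatFunc (ZMod p)) (IsLocalRing.ResidueField O) := by
    obtain ⟨n, hn⟩ := E_dep hG E hLE hE hfin
    by_contra hcon
    have hrank : ((n + 1 : ℕ) : Cardinal) ≤
        Module.rank (RatFunc (ZMod p)) (IsLocalRing.ResidueField O) := by
      by_contra hlt
      rw [not_le] at hlt
      exact hcon (Module.rank_lt_aleph0_iff.1 (hlt.trans (Cardinal.natCast_lt_aleph0)))
    obtain ⟨v, hv⟩ := exists_linearIndependent_of_le_rank hrank
    have hlift : ∀ i, ∃ z : O, res z = v i := fun i => IsLocalRing.residue_surjective (v i)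
    choose z hz using hlift
    obtain ⟨c, ⟨i0, hi0⟩, hc⟩ := hn (fun i => (((z i : E.toSubfield)) : Ω))
      (fun i => ⟨(z i : E.toSubfield).2, (hO _).1 (z i).2⟩)
    have hsum : ∑ i, (algebraMap (ZMod p)[X] (RatFunc (ZMod p))
        ((c i).map (Int.castRingHom (ZMod p)))) • v i = 0 := by
      have h1 : ∀ i, (algebraMap (ZMod p)[X] (RatFunc (ZMod p))
          ((c i).map (Int.castRingHom (ZMod p)))) • v i = res (aeval t (c i) * z i) := by
        intro i
        rw [Algebra.smul_def]
        show Φ _ * v i = _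
        rw [hΦ, hφ, hrt, map_mul, hz]
      rw [Finset.sum_congr rfl (fun i _ => h1 i), ← map_sum, hres]
      have h2 : (((∑ i, aeval t (c i) * z i : O) : E.toSubfield) : Ω) =
          ∑ i, aeval (tt k Ω) (c i) * (((z i : E.toSubfield)) : Ω) := by
        show inc _ = _
        rw [map_sum]
        refine Finset.sum_congr rfl (fun i _ => ?_)
        rw [map_mul]
        show (((aeval t (c i) : O) : E.toSubfield) : Ω) * _ = _
        rw [hinc]
        rfl
      rw [h2]
      exact hc
    have h3 := (Fintype.linearIndependent_iff.1 hv) _ hsum i0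
    apply hi0
    exact (map_eq_zero_iff _ (RatFunc.algebraMap_injective (ZMod p))).1 h3
  exact arith_cp p hp2 (IsLocalRing.ResidueField O)

end BSC
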