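import Pool.Agent.Lib_MP_49ddc8_v.VDefs

/-!
# [V-R2] (A1), (A2) for `E` from the residue field

[V-R2] `me_of_arith`: `val1`: `V' = ` the image of `V` in `R` is a valuation ring (`V ∩ O` mod the maximal ideal of `O`; as `𝔪_O ⊆ 𝔪_V` we have `V ⊆ O`), `1 + 𝔪_{V'}` consists of squares, so `V' = ⊤`, so `V = O`.  `wit`: lift `a` from `R`; if `a = w²` in `E` then `nm w = 1`, so `abar` is a square in `R`; `abar, 1 + abar ≠ 0` as they are not squares.
-/

set_option autoImplicit false

open Polynomial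

namespace BSC

private theorem val_lt_one_vr2 {F : Type} [Field F] (A : ValuationSubring F) {x : F} (hx : x ≠ 0) :
    A.valuation x < 1 ↔ x⁻¹ ∉ A := by
  rw [← ValuationSubring.valuation_le_one_iff, not_le, map_inv₀]
  have h : A.valuation x ≠ 0 := (Valuation.ne_zero_iff _).2 hx
  rw [one_lt_inv₀ (zero_lt_iff.2 h)]

private theorem mem_of_sq_vr2 {F : Type} [Field F] (A : ValuationSubring F) {x w : F} (hx : x ∈ A) (h : x = w ^ 2) :
    w ∈ A := by
  rw [← ValuationSubring.valuation_le_one_iff] at hx ⊢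
  rw [h, map_pow] at hx
  by_contra hc
  rw [not_le] at hc
  exact absurd hx (not_le.2 (one_lt_pow₀ hc two_ne_zero))

/-- the image of `V` in the residue field of `O` -/
private def img_vr2 {F : Type} [Field F] (O V : ValuationSubring F)
    (hm : ∀ z : O, z ∈ IsLocalRing.maximalIdeal O → (z : F) ∈ V) : ValuationSubring (IsLocalRing.ResidueField O) where
  carrier := {x | ∃ z : O, (z : F) ∈ V ∧ IsLocalRing.residue O z = x}
  mul_mem' := by
    rintro _ _ ⟨z, hz, rfl⟩ ⟨z', hz', rfl⟩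
    exact ⟨z * z', mul_mem hz hz', map_mul _ _ _⟩
  one_mem' := ⟨1, one_mem _, map_one _⟩
  add_mem' := by
    rintro _ _ ⟨z, hz, rfl⟩ ⟨z', hz', rfl⟩
    exact ⟨z + z', add_mem hz hz', map_add _ _ _⟩
  zero_mem' := ⟨0, zero_mem _, map_zero _⟩
  neg_mem' := by
    rintro _ ⟨z, hz, rfl⟩
    exact ⟨-z, neg_mem hz, map_neg _ _⟩
  mem_or_inv_mem' := by
    intro x
    obtain ⟨z, rfl⟩ := IsLocalRing.residue_surjective x
    by_cases hz : (z : F) ∈ V
    · exact Or.inl ⟨z, hz, rfl⟩
    · right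
      have h1 : z ∉ IsLocalRing.maximalIdeal O := fun h => hz (hm z h)
      have h2 : IsUnit z := by
        by_contra h
        exact h1 ((IsLocalRing.mem_maximalIdeal z).2 h)
      obtain ⟨u, hu⟩ := h2
      have h3 : ((u⁻¹ : Oˣ) : O) * z = 1 := by
        rw [← hu, Units.inv_mul]
      have h4 : (((u⁻¹ : Oˣ) : O) : F) * (z : F) = 1 := by
        exact_mod_cast congrArg (fun t : O => (t : F)) h3
      have h5 : (((u⁻¹ : Oˣ) : O) : F) = (z : F)⁻¹ := eq_inv_of_mul_eq_one_left h4
      refine ⟨((u⁻¹ : Oˣ) : O), ?_, ?_⟩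
      · rw [h5]
        rcases V.mem_or_inv_mem (z : F) with h | h
        · exact absurd h hz
        · exact h
      · apply eq_inv_of_mul_eq_one_left
        rw [← map_mul, h3, map_one]

theorem me_of_arith {Ω : Type} [Field Ω] (E : Subfield Ω) (nm : Ω → ℝ) (hpos : ∀ x ∈ E, x ≠ 0 → 0 < nm x)
    (hmul : ∀ x ∈ E, ∀ y ∈ E, nm (x * y) = nm x * nm y) (h0 : nm 0 = 0)
    (O : ValuationSubring E) (hO : ∀ x : E, x ∈ O ↔ nm (x : Ω) ≤ 1) (hA : Arith (IsLocalRing.ResidueField O)) :
    (∀ V : ValuationSubring E, (∀ z : E, nm (z : Ω) < 1 → V.valuation z < 1) →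
      (∀ z : E, V.valuation z < 1 → ∃ w : E, 1 + z = w ^ 2) → ∀ z : E, nm (z : Ω) ≤ 1 → z ∈ V) ∧
    ∃ a ∈ E, a ≠ 0 ∧ 1 + a ≠ 0 ∧ nm a = 1 ∧ nm (1 + a) = 1 ∧ (¬ ∃ w ∈ E, a = w ^ 2) ∧ (¬ ∃ w ∈ E, 1 + a = w ^ 2) ∧
      ¬ ∃ w ∈ E, a * (1 + a) = w ^ 2 := by
  have hn1 : nm 1 = 1 := by
    have h1 := hmul 1 (one_mem E) 1 (one_mem E)
    have h2 := hpos 1 (one_mem E) one_ne_zero
    rw [mul_one] at h1
    have h3 : nm 1 * (nm 1 - 1) = 0 := by linear_combination -h1
    rcases mul_eq_zero.1 h3 with h | h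
    · exact absurd h h2.ne'
    · linarith
  have hinv : ∀ x : E, x ≠ 0 → nm (x : Ω) * nm ((x⁻¹ : E) : Ω) = 1 := by
    intro x hx
    rw [← hmul _ x.2 _ (x⁻¹).2, ← hn1]
    congr 1
    have h1 : x * x⁻¹ = 1 := mul_inv_cancel₀ hx
    exact_mod_cast congrArg (fun t : E => (t : Ω)) h1
  have hmax : ∀ z : O, z ∈ IsLocalRing.maximalIdeal O ↔ nm ((z : E) : Ω) < 1 := by
    intro z
    rw [ValuationSubring.valuation_lt_one_iff]
    by_cases hz : (z : E) = 0
    · rw [hz]
      constructor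
      · intro _
        show nm (((0 : E)) : Ω) < 1
        rw [ZeroMemClass.coe_zero, h0]
        exact one_pos
      · intro _
        rw [map_zero]
        exact zero_lt_one
    · rw [val_lt_one_vr2 O hz, hO, not_le]
      have h1 := hinv _ hz
      have h2 := hpos _ (z : E).2 (fun h => hz (Subtype.ext h))
      have h3 := hpos _ ((z : E)⁻¹).2 (fun h => (inv_ne_zero hz) (Subtype.ext h))
      constructor
      · intro h4
        by_contra h5
        rw [not_lt] at h5
        nlinarith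
      · intro h4
        by_contra h5
        rw [not_lt] at h5
        nlinarith
  have hun : ∀ z : O, IsLocalRing.residue O z ≠ 0 → nm ((z : E) : Ω) = 1 := by
    intro z hz
    have h1 : ¬ nm ((z : E) : Ω) < 1 := by
      rw [← hmax]
      intro h
      exact hz ((IsLocalRing.residue_eq_zero_iff z).2 h)
    exact le_antisymm ((hO _).1 z.2) (not_lt.1 h1)
  refine ⟨fun V hV hsq z hz => ?_, ?_⟩
  · have hm : ∀ z : O, z ∈ IsLocalRing.maximalIdeal O → (z : E) ∈ V := by
      intro z hz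
      rw [← ValuationSubring.valuation_le_one_iff]
      exact (hV _ ((hmax z).1 hz)).le
    have htop : img_vr2 O V hm = ⊤ := by
      refine hA.1 _ fun x hx => ?_
      by_cases hx0 : x = 0
      · exact ⟨1, by rw [hx0, add_zero, one_pow]⟩
      · obtain ⟨y, hy, hyx⟩ : x ∈ img_vr2 O V hm := by
          rw [← ValuationSubring.valuation_le_one_iff]
          exact hx.le
        have hy1 : nm ((y : E) : Ω) = 1 := hun y (by
          rw [hyx]
          exact hx0)
        have hy0 : (y : E) ≠ 0 := by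
          intro h
          rw [h, ZeroMemClass.coe_zero, h0] at hy1
          exact zero_ne_one hy1
        have h1 : V.valuation (y : E) < 1 := by
          rw [val_lt_one_vr2 V hy0]
          intro h2
          rw [val_lt_one_vr2 _ hx0] at hx
          apply hx
          have h3 : (y : E)⁻¹ ∈ O := by
            rw [hO]
            have h4 := hinv _ hy0
            rw [hy1, one_mul] at h4
            exact h4.le
          refine ⟨⟨(y : E)⁻¹, h3⟩, h2, ?_⟩
          apply eq_inv_of_mul_eq_one_left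
          rw [← hyx, ← map_mul]
          have h5 : (⟨(y : E)⁻¹, h3⟩ : O) * y = 1 := Subtype.ext (inv_mul_cancel₀ hy0)
          rw [h5, map_one]
        obtain ⟨w, hw⟩ := hsq _ h1
        have hwO : w ∈ O := mem_of_sq_vr2 O (add_mem (one_mem O) y.2) hw
        refine ⟨IsLocalRing.residue O ⟨w, hwO⟩, ?_⟩
        rw [← map_pow, ← hyx, ← map_one (IsLocalRing.residue O), ← map_add]
        congr 1
        exact Subtype.ext hw
    have hzO : z ∈ O := (hO z).2 hz
    obtain ⟨y, hy, hyz⟩ : IsLocalRing.residue O ⟨z, hzO⟩ ∈ img_vr2 O V hm := by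
      rw [htop]
      exact ValuationSubring.mem_top _
    have h1 : (⟨z, hzO⟩ - y : O) ∈ IsLocalRing.maximalIdeal O := by
      rw [← IsLocalRing.residue_eq_zero_iff, map_sub, hyz, sub_self]
    have h2 := hm _ h1
    have h3 : z = ((⟨z, hzO⟩ - y : O) : E) + (y : E) := by
      push_cast
      ring
    rw [h3]
    exact add_mem h2 hy
  · obtain ⟨x, hx1, hx2, hx3⟩ := hA.2
    obtain ⟨a, rfl⟩ := IsLocalRing.residue_surjective x
    have ha0 : IsLocalRing.residue O a ≠ 0 := fun h => hx1 ⟨0, by rw [h]; ring⟩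
    have ha1 : IsLocalRing.residue O (1 + a) ≠ 0 := fun h => hx2 ⟨0, by rw [← map_one (IsLocalRing.residue O), ← map_add, h]; ring⟩
    have hn : nm ((a : E) : Ω) = 1 := hun a ha0
    have hn' : nm (((1 + a : O) : E) : Ω) = 1 := hun _ ha1
    have hns : ∀ b : O, (¬ ∃ w : IsLocalRing.ResidueField O, IsLocalRing.residue O b = w ^ 2) →
        ¬ ∃ w ∈ E, ((b : E) : Ω) = w ^ 2 := by
      rintro b hb ⟨w, hw, hbw⟩
      have h1 : (b : E) = (⟨w, hw⟩ : E) ^ 2 := Subtype.ext hbw
      have h2 : (⟨w, hw⟩ : E) ∈ O := mem_of_sq_vr2 O b.2 h1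
      apply hb
      refine ⟨IsLocalRing.residue O ⟨⟨w, hw⟩, h2⟩, ?_⟩
      rw [← map_pow]
      congr 1
      exact Subtype.ext h1
    have h0' : ((a : E) : Ω) ≠ 0 := by
      intro h
      rw [h, h0] at hn
      exact zero_ne_one hn
    have e1 : (((1 + a : O) : E) : Ω) = 1 + ((a : E) : Ω) := rfl
    have e2 : (((a * (1 + a) : O) : E) : Ω) = ((a : E) : Ω) * (1 + ((a : E) : Ω)) := rfl
    refine ⟨((a : E) : Ω), (a : E).2, h0', ?_, hn, ?_, hns a hx1, ?_, ?_⟩
    · intro h
      rw [e1, h, h0] at hn'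
      exact zero_ne_one hn'
    · rw [← e1]
      exact hn'
    · rw [← e1]
      apply hns
      rw [map_add, map_one]
      exact hx2
    · rw [← e2]
      apply hns
      rw [map_mul, map_add, map_one]
      exact hx3

end BSC
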