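import Pool.Agent.Lib_MP_49ddc8_v.VR1
import Pool.Agent.Lib_MP_49ddc8_v.VR2
import Pool.Agent.Lib_MP_49ddc8_v.VE2
import Pool.Agent.Lib_MP_49ddc8_v.VE3

/-!
# The package `ME` for a finite extension `E` of `L`
-/

set_option autoImplicit false

open Polynomial

namespace BSC

variable {k Ω : Type} [Field k] [CharZero k] [Field Ω] [IsAlgClosed Ω] [Algebra k Ω] [Algebra (RatFunc k) Ω]
  [IsScalarTower k (RatFunc k) Ω] {p : ℕ} [Fact p.Prime] {σ : k →+* ℚ_[p]} {L : IntermediateField (RatFunc k) Ω} {nm : Ω → ℝ}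

/-- the package for `E` -/
theorem exists_ME (hp2 : p ≠ 2) (hG : GN p σ L nm) (E : IntermediateField (RatFunc k) Ω) (hLE : L ≤ E)
    (hE : ∀ x ∈ E, IsAlgebraic (RatFunc k) x) (hfin : FiniteDimensional L (IntermediateField.extendScalars hLE))
    (hi : ∃ i ∈ E, i ^ 2 = (-1 : Ω)) : ∃ π : Ω, ME E.toSubfield nm π := by
  have hmem : ∀ x : E.toSubfield, IsAlgebraic (RatFunc k) (x : Ω) := fun x => hE x x.2
  have hmul : ∀ x ∈ E.toSubfield, ∀ y ∈ E.toSubfield, nm (x * y) = nm x * nm y := fun x hx y hy => hG.mul x y (hE x hx) (hE y hy)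
  have h1 : nm 1 = 1 := by
    have h := hG.mul 1 1 isAlgebraic_one isAlgebraic_one
    rw [mul_one] at h
    have h2 := hG.pos 1 isAlgebraic_one one_ne_zero
    exact (mul_left_cancel₀ h2.ne' (by rw [mul_one]; exact h)).symm
  have hneg : ∀ x ∈ E.toSubfield, nm (-x) = nm x := by
    intro x hx
    have h := hG.mul (-1) (-1) isAlgebraic_one.neg isAlgebraic_one.neg
    have h2 := hG.pos (-1) isAlgebraic_one.neg (neg_ne_zero.2 one_ne_zero)
    rw [neg_mul_neg, mul_one, h1] at h
    have h3 : nm (-1) = 1 := by nlinarith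
    have h4 := hG.mul (-1) x isAlgebraic_one.neg (hE x hx)
    rw [neg_one_mul, h3, one_mul] at h4
    exact h4
  have hinv : ∀ x ∈ E.toSubfield, nm x⁻¹ = (nm x)⁻¹ := by
    intro x hx
    by_cases hx0 : x = 0
    · rw [hx0, inv_zero, hG.zero, inv_zero]
    have h := hmul x hx x⁻¹ (inv_mem hx)
    rw [mul_inv_cancel₀ hx0, h1] at h
    exact (eq_inv_of_mul_eq_one_right h.symm)
  let O : ValuationSubring E.toSubfield :=
    { carrier := {x | nm (x : Ω) ≤ 1}
      mul_mem' := by
        intro a b ha hb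
        have := hmul a a.2 b b.2
        show nm ((a * b : E.toSubfield) : Ω) ≤ 1
        rw [Subfield.coe_mul, this]
        by_cases h0 : (a : Ω) = 0
        · rw [h0, hG.zero, zero_mul]
          exact zero_le_one
        · exact mul_le_one₀ ha (by
            by_cases h0' : (b : Ω) = 0
            · rw [h0', hG.zero]
            · exact (hG.pos _ (hmem b) h0').le) hb
      one_mem' := by
        show nm (1 : Ω) ≤ 1
        rw [h1]
      add_mem' := by
        intro a b ha hb
        exact (hG.add a b (hmem a) (hmem b)).trans (max_le ha hb)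
      zero_mem' := by
        show nm (0 : Ω) ≤ 1
        rw [hG.zero]
        exact zero_le_one
      neg_mem' := by
        intro a ha
        show nm (-(a : Ω)) ≤ 1
        rw [hneg a a.2]
        exact ha
      mem_or_inv_mem' := by
        intro a
        by_cases h : nm (a : Ω) ≤ 1
        · exact Or.inl h
        · right
          show nm ((a : Ω)⁻¹) ≤ 1
          rw [hinv a a.2]
          exact inv_le_one_of_one_le₀ (not_le.1 h).le }
  have hO : ∀ x : E.toSubfield, x ∈ O ↔ nm (x : Ω) ≤ 1 := fun x => Iff.rfl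
  obtain ⟨hv, hw⟩ := me_of_arith E.toSubfield nm (fun x hx h0 => hG.pos x (hE x hx) h0) hmul hG.zero O hO
    (arith_res hp2 hG E hLE hE hfin O hO)
  obtain ⟨π, hπ, hπ0, hπ1, hπd⟩ := E_unif hG E hLE hE hfin
  exact ⟨π,
    { zero := hG.zero
      pos := fun x hx h0 => hG.pos x (hE x hx) h0
      mul := hmul
      add := fun x hx y hy => hG.add x y (hE x hx) (hE y hy)
      mem := hπ
      ne := hπ0
      lt := hπ1
      disc := hπd
      sq := fun z hz h => E_sq hp2 hG E hLE hE z hz h
      neg := hi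
      val1 := hv
      wit := hw }⟩

end BSC
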