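import Pool.Agent.Lib_MP_49ddc8_v.VDefs
import Pool.Agent.Lib_MP_49ddc8_v.VFam

/-!
# Families of vertical valuations

`Tri S`: an odd prime `p`, `σ : k → ℚ_p`, and `W` with `Vert S p σ W`.  `TFam S`: a family with an ultrafilter such that the primes are large and every element of `kˣ` is a unit for almost all members.  `TFam.fam`: the family of reductions `k → 𝔽_p`.
`Rd i x N D`: the residue class of `x` in the residue field of `W` is `N / D`, `N, D ∈ 𝔽_p[X]`.
-/

set_option autoImplicit false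

open Polynomial

namespace BSC

section

variable {k Ω : Type} [Field k] [Field Ω] [Algebra k Ω] [Algebra (RatFunc k) Ω]

structure Tri (S : Sec (RatFunc k) Ω) where
  p : ℕ
  hp : Fact p.Prime
  odd : p ≠ 2
  σ : k →+* ℚ_[p]
  W : ValuationSubring Ω
  vert : Vert S p σ W

instance (S : Sec (RatFunc k) Ω) (i : Tri S) : Fact i.p.Prime := i.hp

structure TFam (S : Sec (RatFunc k) Ω) where
  T : Type
  U : Ultrafilter T
  tri : T → Tri S
  big : ∀ N : ℕ, ∀ᶠ t in (U : Filter T), N < (tri t).p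
  unit : ∀ b : k, b ≠ 0 → ∀ᶠ t in (U : Filter T), ‖(tri t).σ b‖ = 1

/-- the residue class of `x` is `N / D` -/
def Rd {S : Sec (RatFunc k) Ω} (i : Tri S) (x : Ω) (N D : (ZMod i.p)[X]) : Prop :=
  ∃ a b : ℤ[X], ired i.p a = N ∧ ired i.p b = D ∧ D ≠ 0 ∧ i.W.valuation (x * aeval (tt k Ω) b - aeval (tt k Ω) a) < 1

end

/-- reduction of the elements of `k` -/
noncomputable def redp {k : Type} [Field k] {p : ℕ} [Fact p.Prime] (σ : k →+* ℚ_[p]) (a : k) : ZMod p := by
  classical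
  exact if h : ‖σ a‖ ≤ 1 then PadicInt.toZMod (⟨σ a, h⟩ : ℤ_[p]) else 0

section

variable {k : Type} [Field k] {p : ℕ} [Fact p.Prime] (σ : k →+* ℚ_[p])

theorem redp_of (a : k) (h : ‖σ a‖ ≤ 1) : redp σ a = PadicInt.toZMod (⟨σ a, h⟩ : ℤ_[p]) := by
  unfold redp
  rw [dif_pos h]

theorem redp_add (a b : k) (ha : ‖σ a‖ ≤ 1) (hb : ‖σ b‖ ≤ 1) : redp σ (a + b) = redp σ a + redp σ b := by
  have hab : ‖σ (a + b)‖ ≤ 1 := by
    rw [map_add]
    exact (Padic.nonarchimedean _ _).trans (max_le ha hb)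
  rw [redp_of σ _ ha, redp_of σ _ hb, redp_of σ _ hab, ← map_add]
  congr 1
  exact Subtype.ext (map_add σ a b)

theorem redp_mul (a b : k) (ha : ‖σ a‖ ≤ 1) (hb : ‖σ b‖ ≤ 1) : redp σ (a * b) = redp σ a * redp σ b := by
  have hab : ‖σ (a * b)‖ ≤ 1 := by
    rw [map_mul, norm_mul]
    exact mul_le_one₀ ha (norm_nonneg _) hb
  rw [redp_of σ _ ha, redp_of σ _ hb, redp_of σ _ hab, ← map_mul]
  congr 1
  exact Subtype.ext (map_mul σ a b)

theorem redp_int (n : ℤ) : redp σ (n : k) = (n : ZMod p) := by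
  have h : ‖σ (n : k)‖ ≤ 1 := by
    rw [map_intCast]
    exact Padic.norm_int_le_one n
  rw [redp_of σ _ h]
  have h1 : (⟨σ (n : k), h⟩ : ℤ_[p]) = (n : ℤ_[p]) := by
    apply Subtype.ext
    show σ (n : k) = ((n : ℤ_[p]) : ℚ_[p])
    rw [map_intCast, PadicInt.coe_intCast]
  rw [h1, map_intCast]

theorem redp_eq (a b : k) (ha : ‖σ a‖ ≤ 1) (hb : ‖σ b‖ ≤ 1) : redp σ a = redp σ b ↔ ‖σ (a - b)‖ < 1 := by
  let x : ℤ_[p] := ⟨σ a, ha⟩
  let y : ℤ_[p] := ⟨σ b, hb⟩
  have h1 : ‖x - y‖ = ‖σ (a - b)‖ := by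
    rw [map_sub]
    rfl
  rw [redp_of σ _ ha, redp_of σ _ hb, ← sub_eq_zero, ← map_sub, ← RingHom.mem_ker, PadicInt.ker_toZMod,
    IsLocalRing.mem_maximalIdeal, PadicInt.mem_nonunits, ← h1]

end

section

variable {k Ω : Type} [Field k] [Field Ω] [Algebra k Ω] [Algebra (RatFunc k) Ω] {S : Sec (RatFunc k) Ω}

theorem TFam.le_one (Y : TFam S) (a : k) : ∀ᶠ t in (Y.U : Filter Y.T), ‖(Y.tri t).σ a‖ ≤ 1 := by
  by_cases h : a = 0
  · exact Filter.Eventually.of_forall fun t => by rw [h, map_zero, norm_zero]; exact zero_le_one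
  · exact (Y.unit a h).mono fun t ht => ht.le

/-- the family of reductions -/
noncomputable def TFam.fam (Y : TFam S) : Fam k where
  T := Y.T
  U := Y.U
  p := fun t => (Y.tri t).p
  hp := fun t => (Y.tri t).hp
  red := fun t => redp (Y.tri t).σ
  zero := fun t => by
    have := redp_int (Y.tri t).σ 0
    simpa using this
  one := Filter.Eventually.of_forall fun t => by
    have := redp_int (Y.tri t).σ 1
    simpa using this
  add := fun a b => by
    filter_upwards [Y.le_one a, Y.le_one b] with t h1 h2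
    exact redp_add _ a b h1 h2
  mul := fun a b => by
    filter_upwards [Y.le_one a, Y.le_one b] with t h1 h2
    exact redp_mul _ a b h1 h2
  big := Y.big

end

end BSC
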